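import Pool.Agent.Lib.MP_7c08ba_nt.RZ.Basic3

set_option autoImplicit false

/-! (F) at `p = 3`: the sum over the classes is not zero. -/

namespace Pool.Agent.Lib.MP_7c08ba_nt.RZC3

open UpperHalfPlane ModularForm EisensteinSeries MatrixGroups NumberField RZC
open scoped Real Manifold ComplexConjugate nonZeroDivisors

noncomputable section

namespace Sum3Aux

/-! ### lattice invariance -/

theorem e4_congr (h8 : StLat) {w₁ w₂ v₁ v₂ : ℂ} (hw : Pos w₁ w₂) (hv : Pos v₁ v₂)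
    (h : lat w₁ w₂ = lat v₁ v₂) : e4 w₁ w₂ = e4 v₁ v₂ :=
  h8 4 E₄ w₁ w₂ v₁ v₂ hw hv h

theorem dl_congr (h8 : StLat) {w₁ w₂ v₁ v₂ : ℂ} (hw : Pos w₁ w₂) (hv : Pos v₁ v₂)
    (h : lat w₁ w₂ = lat v₁ v₂) : dl w₁ w₂ = dl v₁ v₂ :=
  h8 12 (CuspForm.toModularFormₗ CuspForm.discriminant) w₁ w₂ v₁ v₂ hw hv h

theorem jv_congr (h8 : StLat) {w₁ w₂ v₁ v₂ : ℂ} (hw : Pos w₁ w₂) (hv : Pos v₁ v₂)
    (h : lat w₁ w₂ = lat v₁ v₂) : jv w₁ w₂ = jv v₁ v₂ := by
  unfold jv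
  rw [e4_congr h8 hw hv h, dl_congr h8 hw hv h]

theorem jv_smul {c w₁ w₂ : ℂ} (hc : c ≠ 0) : jv (c * w₁) (c * w₂) = jv w₁ w₂ := by
  unfold jv
  have h3 : dl (c * w₁) (c * w₂) = (c ^ 12)⁻¹ * dl w₁ w₂ := LF_smul hc
  have h4 : e4 (c * w₁) (c * w₂) = (c ^ 4)⁻¹ * e4 w₁ w₂ := LF_smul hc
  rw [h3, h4]
  have h1 : (c ^ 12)⁻¹ ≠ 0 := inv_ne_zero (pow_ne_zero _ hc)
  have h2 : ((c ^ 4)⁻¹ * e4 w₁ w₂) ^ 3 = (c ^ 12)⁻¹ * e4 w₁ w₂ ^ 3 := by
    rw [mul_pow, inv_pow, ← pow_mul]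
  rw [h2, mul_div_mul_left _ _ h1]

/-! ### the standard elements -/

theorem eb_ratio {A : ValuationSubring ℂ} (k : ℕ) {a b a' b' : ℂ} (ha : a / a' - 1 ∈ A.nonunits)
    (hb : b / b' - 1 ∈ A.nonunits) : eb k a b / eb k a' b' - 1 ∈ A.nonunits := by
  unfold eb
  split_ifs with h
  · rw [← div_pow]
    exact nonunits_pow_sub_one ha _
  · rw [mul_div_mul_comm, ← div_pow]
    exact mul_sub_one (nonunits_pow_sub_one ha _) hb

theorem sum_nonunits {A : ValuationSubring ℂ} {ι : Type*} (s : Finset ι) (g : ι → ℂ)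
    (h : ∀ i ∈ s, g i ∈ A.nonunits) : ∑ i ∈ s, g i ∈ A.nonunits := by
  classical
  induction s using Finset.induction_on with
  | empty =>
    rw [Finset.sum_empty]
    exact zero_nonunits
  | insert a s ha ih =>
    rw [Finset.sum_insert ha]
    exact nonunits_add (h a (Finset.mem_insert_self _ _))
      (ih fun i hi => h i (Finset.mem_insert_of_mem hi))

/-- product of `1 + m`, `j + m` and `1 + m` -/
theorem triple {A : ValuationSubring ℂ} {x y z j : ℂ} (hx : x - 1 ∈ A.nonunits)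
    (hy : y - j ∈ A.nonunits) (hz : z - 1 ∈ A.nonunits) (hj : j ∈ A) :
    x * y * z - j ∈ A.nonunits := by
  have hyA : y ∈ A := by
    have := A.add_mem _ _ (nonunits_mem hy) hj
    rwa [sub_add_cancel] at this
  have h1 : (x * z - 1) * y ∈ A.nonunits := nonunits_mul_right (mul_sub_one hx hz) hyA
  have h2 := nonunits_add h1 hy
  have h3 : x * y * z - j = (x * z - 1) * y + (y - j) := by ring
  rw [h3]
  exact h2

/-! ### ideals -/

section ideals

variable {F : Type} [Field F] [NumberField F] {σ : F →+* ℂ}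

omit [NumberField F] in
theorem sigma_ne {x : 𝓞 F} (hx : x ≠ 0) : σ (x : F) ≠ 0 := by
  intro h
  exact hx (RingOfIntegers.coe_eq_zero_iff.mp ((map_eq_zero σ).mp h))

theorem IsB.lat_eq {a : Ideal (𝓞 F)} {w₁ w₂ v₁ v₂ : ℂ} (hw : IsB σ a w₁ w₂)
    (hv : IsB σ a v₁ v₂) : lat w₁ w₂ = lat v₁ v₂ := by
  ext z
  rw [hw.2, hv.2]

theorem IsB.smul {a : Ideal (𝓞 F)} {w₁ w₂ : ℂ} (hw : IsB σ a w₁ w₂) {x : 𝓞 F} (hx : x ≠ 0) :
    IsB σ (Ideal.span {x} * a) (σ (x : F) * w₁) (σ (x : F) * w₂) := by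
  have hs : σ (x : F) ≠ 0 := sigma_ne hx
  refine ⟨(pos_smul hs).mpr hw.1, ?_⟩
  intro z
  obtain ⟨y, rfl⟩ : ∃ y, z = σ (x : F) * y := ⟨z / σ (x : F), by field_simp⟩
  rw [mem_lat_smul hs, hw.2]
  constructor
  · rintro ⟨t, ht, rfl⟩
    refine ⟨x * t, Ideal.mem_span_singleton_mul.mpr ⟨t, ht, rfl⟩, ?_⟩
    rw [RingOfIntegers.coe_eq_algebraMap, map_mul (algebraMap (𝓞 F) F), map_mul σ]
  · rintro ⟨t, ht, h⟩
    obtain ⟨t', ht', rfl⟩ := Ideal.mem_span_singleton_mul.mp ht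
    refine ⟨t', ht', ?_⟩
    rw [RingOfIntegers.coe_eq_algebraMap, map_mul (algebraMap (𝓞 F) F), map_mul σ] at h
    exact mul_left_cancel₀ hs h

/-- two ideals in the same class -/
theorem class_eq {a b : (Ideal (𝓞 F))⁰} (hab : ClassGroup.mk0 a = ClassGroup.mk0 b)
    {w₁ w₂ v₁ v₂ : ℂ} (hw : IsB σ (a : Ideal (𝓞 F)) w₁ w₂)
    (hv : IsB σ (b : Ideal (𝓞 F)) v₁ v₂) :
    ∃ x y : 𝓞 F, x ≠ 0 ∧ y ≠ 0 ∧ Ideal.span {x} * (a : Ideal (𝓞 F)) = Ideal.span {y} * b ∧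
      lat (σ (x : F) * w₁) (σ (x : F) * w₂) = lat (σ (y : F) * v₁) (σ (y : F) * v₂) := by
  obtain ⟨x, y, hx, hy, h⟩ := ClassGroup.mk0_eq_mk0_iff.mp hab
  refine ⟨x, y, hx, hy, h, ?_⟩
  have h1 := IsB.smul hw hx
  rw [h] at h1
  exact IsB.lat_eq h1 (IsB.smul hv hy)

theorem jv_class (h8 : StLat) {a b : (Ideal (𝓞 F))⁰} (hab : ClassGroup.mk0 a = ClassGroup.mk0 b)
    {w₁ w₂ v₁ v₂ : ℂ} (hw : IsB σ (a : Ideal (𝓞 F)) w₁ w₂)
    (hv : IsB σ (b : Ideal (𝓞 F)) v₁ v₂) : jv w₁ w₂ = jv v₁ v₂ := by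
  obtain ⟨x, y, hx, hy, -, h⟩ := class_eq hab hw hv
  have hx' : σ (x : F) ≠ 0 := sigma_ne hx
  have hy' : σ (y : F) ≠ 0 := sigma_ne hy
  rw [← jv_smul hx', ← jv_smul (w₁ := v₁) (w₂ := v₂) hy']
  exact jv_congr h8 ((pos_smul hx').mpr hw.1) ((pos_smul hy').mpr hv.1) h

omit [NumberField F] in
theorem ne_bot_coe (a : (Ideal (𝓞 F))⁰) : (a : Ideal (𝓞 F)) ≠ ⊥ := nonZeroDivisors.coe_ne_zero a

theorem val_class {A : ValuationSubring ℂ} {k : ℕ} {ψ : Ideal (𝓞 F) → ℂ} (hψ : Char3 σ A k ψ)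
    {S : ℂ → ℂ → ℂ}
    (hS1 : ∀ w₁ w₂ v₁ v₂ : ℂ, Pos w₁ w₂ → Pos v₁ v₂ → lat w₁ w₂ = lat v₁ v₂ →
      S w₁ w₂ = S v₁ v₂)
    (hS2 : ∀ c w₁ w₂ : ℂ, c ≠ 0 → Pos w₁ w₂ → S (c * w₁) (c * w₂) = (c ^ k)⁻¹ * S w₁ w₂)
    {a b : (Ideal (𝓞 F))⁰} (hab : ClassGroup.mk0 a = ClassGroup.mk0 b)
    {w₁ w₂ v₁ v₂ : ℂ} (hw : IsB σ (a : Ideal (𝓞 F)) w₁ w₂)
    (hv : IsB σ (b : Ideal (𝓞 F)) v₁ v₂) :
    ψ (a : Ideal (𝓞 F)) * S w₁ w₂ = ψ (b : Ideal (𝓞 F)) * S v₁ v₂ := by
  have key : ∀ (a : (Ideal (𝓞 F))⁰) (w₁ w₂ : ℂ), Pos w₁ w₂ → ∀ x : 𝓞 F, x ≠ 0 →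
      ψ (Ideal.span {x} * (a : Ideal (𝓞 F))) * S (σ (x : F) * w₁) (σ (x : F) * w₂) =
        ψ (a : Ideal (𝓞 F)) * S w₁ w₂ := by
    intro a w₁ w₂ hw x hx
    have hx' : σ (x : F) ≠ 0 := sigma_ne hx
    rw [hψ.mul _ _ (by rwa [Ne, Ideal.span_singleton_eq_bot]) (ne_bot_coe a), hψ.princ x hx,
      hS2 _ _ _ hx' hw]
    field_simp
  obtain ⟨x, y, hx, hy, h1, h2⟩ := class_eq hab hw hv
  rw [← key a w₁ w₂ hw.1 x hx, ← key b v₁ v₂ hv.1 y hy, h1,
    hS1 _ _ _ _ ((pos_smul (sigma_ne hx)).mpr hw.1) ((pos_smul (sigma_ne hy)).mpr hv.1) h2]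

end ideals

/-- a sum over a finite commutative group as a sum over the cosets of a cyclic subgroup -/
theorem sum_cosets {G : Type*} [CommGroup G] [Fintype G] (p : G) (g : G → ℂ) :
    ∃ T : Finset G, T.card = (Subgroup.zpowers p).index ∧ ∑ c, g c =
      ∑ q ∈ T, ∑ i ∈ Finset.range (orderOf p), g (p ^ i * q) := by
  classical
  have hfin : Finite (G ⧸ Subgroup.zpowers p) := inferInstance
  let _ : Fintype (G ⧸ Subgroup.zpowers p) := Fintype.ofFinite _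
  set T := (Set.finite_range (Quotient.out : G ⧸ Subgroup.zpowers p → G)).toFinset with hT
  refine ⟨T, ?_, ?_⟩
  · rw [hT, ← Set.ncard_eq_toFinset_card, Subgroup.index, ← Set.image_univ,
      Set.ncard_image_of_injective _ Quotient.out_injective, Set.ncard_univ]
    rfl
  rw [← Finset.sum_product' T (Finset.range (orderOf p)) (fun q i => g (p ^ i * q))]
  symm
  refine Finset.sum_bij (fun x _ => p ^ x.2 * x.1) (fun _ _ => Finset.mem_univ _) ?_ ?_ ?_
  · rintro ⟨q, i⟩ h1 ⟨q', i'⟩ h2 h3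
    simp only [Finset.mem_product, hT, Set.Finite.mem_toFinset, Set.mem_range,
      Finset.mem_range] at h1 h2
    obtain ⟨⟨a, ha⟩, hi⟩ := h1
    obtain ⟨⟨a', ha'⟩, hi'⟩ := h2
    simp only at h3 ha ha' hi hi'
    have h4 : (a : G ⧸ Subgroup.zpowers p) = a' := by
      have e1 : (QuotientGroup.mk q : G ⧸ Subgroup.zpowers p) = a := by
        rw [← ha]; exact Quotient.out_eq a
      have e2 : (QuotientGroup.mk q' : G ⧸ Subgroup.zpowers p) = a' := by
        rw [← ha']; exact Quotient.out_eq a'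
      rw [← e1, ← e2, QuotientGroup.eq, Subgroup.mem_zpowers_iff]
      refine ⟨(i : ℤ) - i', ?_⟩
      rw [zpow_sub, zpow_natCast, zpow_natCast]
      have h5 : q = (p ^ i)⁻¹ * (p ^ i' * q') := by rw [← h3]; group
      rw [h5]
      simp only [mul_inv_rev, inv_inv]
      have : ∀ a b c : G, c⁻¹ * a⁻¹ * b * c = b * a⁻¹ := by
        intro a b c
        rw [mul_comm (c⁻¹ * a⁻¹ * b) c]
        rw [mul_assoc c⁻¹, mul_inv_cancel_left, mul_comm]
      exact (this _ _ _).symm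
    have h5 : q = q' := by rw [← ha, ← ha', h4]
    subst h5
    have h6 : p ^ i = p ^ i' := mul_right_cancel h3
    have h7 : i = i' := pow_injOn_Iio_orderOf hi hi' h6
    rw [h7]
  · intro b _
    have h1 : (QuotientGroup.mk b : G ⧸ Subgroup.zpowers p) =
        QuotientGroup.mk ((QuotientGroup.mk b : G ⧸ Subgroup.zpowers p).out) :=
      (Quotient.out_eq _).symm
    set q : G := (QuotientGroup.mk b : G ⧸ Subgroup.zpowers p).out with hq
    rw [QuotientGroup.eq, Subgroup.mem_zpowers_iff] at h1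
    obtain ⟨k, hk⟩ := h1
    have h2 : ∃ i : ℕ, i < orderOf p ∧ p ^ i = p ^ (-k) := by
      refine ⟨((-k) % (orderOf p : ℤ)).toNat, ?_, ?_⟩
      · have ho : (0 : ℤ) < orderOf p := by exact_mod_cast orderOf_pos p
        have := Int.emod_lt_of_pos (-k) ho
        have h3 := Int.emod_nonneg (-k) ho.ne'
        omega
      · have ho : (0 : ℤ) < orderOf p := by exact_mod_cast orderOf_pos p
        have h3 := Int.emod_nonneg (-k) ho.ne'
        rw [← zpow_natCast, Int.toNat_of_nonneg h3, zpow_mod_orderOf]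
    obtain ⟨i, hi, hi2⟩ := h2
    refine ⟨(q, i), ?_, ?_⟩
    · simp only [Finset.mem_product, hT, Set.Finite.mem_toFinset, Set.mem_range,
        Finset.mem_range]
      exact ⟨⟨_, rfl⟩, hi⟩
    · simp only
      rw [hi2, zpow_neg, hk, mul_inv_rev, inv_inv, mul_assoc, mul_comm b q, inv_mul_cancel_left]
  · intro x _
    rfl

end Sum3Aux

open Sum3Aux in
theorem stSum3 (h2 : StBasis3) (h3 : StUnit3) (h4 : StRep3) (h5 : StChain3)
    (h6 : StOrdC3) (h7 : StOdd3) (h8 : StLat) : StSum3 := by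
  intro D F _ _ s hF σ A hA k ψ hk4 hk hψ S hS1 hS2 hS3 rep w₁ w₂ hrep hw
  -- the prime above 3 and the chains
  obtain ⟨⟨P, hPz⟩, hP, hPn, hPu⟩ := h3 D F s hF σ A hA
  set m : ℕ := orderOf (ClassGroup.mk0 (⟨P, hPz⟩ : (Ideal (𝓞 F))⁰)) with hm
  have hm0 : 0 < m := orderOf_pos _
  obtain ⟨x, hx⟩ : ∃ x : 𝓞 F, P ^ m = Ideal.span {x} := by
    have h : ClassGroup.mk0 (⟨P ^ m, pow_mem hPz m⟩ : (Ideal (𝓞 F))⁰) = 1 := by
      have h' : (⟨P ^ m, pow_mem hPz m⟩ : (Ideal (𝓞 F))⁰) = ⟨P, hPz⟩ ^ m := rfl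
      rw [h', map_pow, hm]
      exact pow_orderOf_eq_one _
    obtain ⟨x, hx⟩ := (ClassGroup.mk0_eq_one_iff _).mp h
    exact ⟨x, hx⟩
  have hU : UnitC3 A m (σ (x : F)) := hPu x hx
  set N : ℕ := (Subgroup.zpowers (ClassGroup.mk0 (⟨P, hPz⟩ : (Ideal (𝓞 F))⁰))).index with hN
  have hN3 : ¬ 3 ∣ N := hF.cls ⟨P, hPz⟩ hPn
  -- the sum of the `j`-values on a chain is a unit
  set κ : ℂ := (((3 ^ m / σ (x : F))⁻¹) ^ 4 - 1) / 3 with hκ
  have hκu : κ ∉ A.nonunits := by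
    obtain ⟨h9, h10, h11, h12⟩ := hU
    intro hc
    apply h12
    set y : ℂ := 3 ^ m / σ (x : F) with hy
    have hy0 : y ≠ 0 := by
      intro h0
      rw [h0] at h12
      apply h12
      rw [h0] at h11
      have h13 := nonunits_mul_left (x := (-3 : ℂ) * ((0 ^ 4 - 1) / 3) *
        ((0 ^ 4 - 1) / 3)) (A := A) (y := 3) ?_ hA
      · exfalso
        apply one_not_nonunits (A := A)
        have h14 : (1 : ℂ) = (3 : ℂ) * (-((0 ^ 4 - 1) / 3)) := by norm_num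
        rw [h14]
        exact nonunits_mul_right hA (neg_mem h11)
      · exact A.mul_mem _ _ (A.mul_mem _ _ (by exact_mod_cast int_mem (A := A) (-3)) h11) h11
    have h13 : (y ^ 4 - 1) / 3 = -(y ^ 4 * κ) := by
      rw [hκ]
      field_simp
      ring
    rw [h13]
    exact nonunits_neg (nonunits_mul_left (pow_mem h9 4) hc)
  -- the values at an ideal
  have hval : ∀ a : Ideal (𝓞 F), a ≠ ⊥ → ∃ u v : ℕ → ℂ, Chain3 m (σ (x : F)) u v ∧
      ∀ i ≤ m, IsB σ (P ^ (m - i) * a) (u i) (v i) := h5 D F s hF σ P hP hPn m x hm0 hx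
  -- the lattice of the ring of integers
  obtain ⟨u0, v0, hc0, hb0⟩ := hval ⊤ (by simp)
  have hB0 : IsB σ ⊤ (u0 m) (v0 m) := by
    have := hb0 m le_rfl
    rwa [Nat.sub_self, pow_zero, one_mul] at this
  have hO0 : Ord A (u0 m) (v0 m) := ((h6 A hA m _ u0 v0 hm0 hc0 hU).1 m).1
  obtain ⟨he0, -⟩ := hS3 m _ u0 v0 hm0 hc0 hU m
  set E : ℂ := eb k (e4 (u0 m) (v0 m)) (e6 (u0 m) (v0 m)) with hE
  -- representatives of norm prime to 3 and their chains
  choose a ha hodd using h4 D F s hF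
  choose u v hc hb using fun c => hval (a c : Ideal (𝓞 F)) (ne_bot_coe (a c))
  have hBm : ∀ c, IsB σ (a c : Ideal (𝓞 F)) (u c m) (v c m) := by
    intro c
    have := hb c m le_rfl
    rwa [Nat.sub_self, pow_zero, one_mul] at this
  -- change of representatives
  have hsum : ∑ c, ψ (rep c : Ideal (𝓞 F)) * S (w₁ c) (w₂ c) =
      ∑ c, ψ (a c : Ideal (𝓞 F)) * S (u c m) (v c m) :=
    Finset.sum_congr rfl fun c _ =>
      val_class hψ hS1 hS2 ((hrep c).trans (ha c).symm) (hw c) (hBm c)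
  rw [hsum]
  -- one term
  have hterm : ∀ c, ψ (a c : Ideal (𝓞 F)) * S (u c m) (v c m) / E - jv (u c m) (v c m) ∈
      A.nonunits := by
    intro c
    obtain ⟨he, hSv⟩ := hS3 m _ (u c) (v c) hm0 (hc c) hU m
    have hO : Ord A (u c m) (v c m) := ((h6 A hA m _ (u c) (v c) hm0 (hc c) hU).1 m).1
    obtain ⟨hle, hidx⟩ := ((h2 D F s hF σ).choose_spec.2 (a c : Ideal (𝓞 F))
      (ne_bot_coe (a c))).2 _ _ (hBm c) |>.2 _ _ hB0
    obtain ⟨-, h64, h66⟩ := h7 A hA _ _ hO0 _ _ (hBm c).1 hle (by rw [hidx]; exact hodd c)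
    have hr := eb_ratio k h64 h66
    have := triple (hψ.triv _ (hodd c)) hSv hr hO.2.2
    have h9 : ψ (a c : Ideal (𝓞 F)) * S (u c m) (v c m) / E =
        ψ (a c : Ideal (𝓞 F)) * (S (u c m) (v c m) /
          eb k (e4 (u c m) (v c m)) (e6 (u c m) (v c m))) *
          (eb k (e4 (u c m) (v c m)) (e6 (u c m) (v c m)) /
            eb k (e4 (u0 m) (v0 m)) (e6 (u0 m) (v0 m))) := by
      rw [hE]
      field_simp
    rw [h9]
    exact this
  -- the sum of the `j`-values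
  have hJ : ∑ c, jv (u c m) (v c m) - (N : ℂ) * κ ∈ A.nonunits := by
    -- the values on the chains
    have hch : ∀ c, ∀ i < m, jv (u c i) (v c i) =
        jv (u (ClassGroup.mk0 ⟨P, hPz⟩ ^ (m - i) * c) m)
          (v (ClassGroup.mk0 ⟨P, hPz⟩ ^ (m - i) * c) m) := by
      intro c i hi
      have hB := hb c i hi.le
      have hcl : ClassGroup.mk0 ((⟨P, hPz⟩ : (Ideal (𝓞 F))⁰) ^ (m - i) * a c) =
          ClassGroup.mk0 (a (ClassGroup.mk0 ⟨P, hPz⟩ ^ (m - i) * c)) := by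
        rw [ha, map_mul, map_pow, ha]
      exact jv_class h8 hcl hB (hBm _)
    have hchain : ∀ c, (∑ i ∈ Finset.range m, jv (u c i) (v c i)) - κ ∈
        A.nonunits := fun c => (h6 A hA m _ (u c) (v c) hm0 (hc c) hU).2
    -- the same sum in terms of powers of the class of `P`
    have hcyc : ∀ c, (∑ i ∈ Finset.range m, jv (u (ClassGroup.mk0 ⟨P, hPz⟩ ^ i * c) m)
        (v (ClassGroup.mk0 ⟨P, hPz⟩ ^ i * c) m)) - κ ∈ A.nonunits := by
      intro c
      have h9 := hchain c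
      rw [Finset.sum_congr rfl fun i hi => hch c i (Finset.mem_range.mp hi)] at h9
      have h10 : ∑ i ∈ Finset.range m, jv (u (ClassGroup.mk0 ⟨P, hPz⟩ ^ i * c) m)
          (v (ClassGroup.mk0 ⟨P, hPz⟩ ^ i * c) m) =
          ∑ i ∈ Finset.range m, jv (u (ClassGroup.mk0 ⟨P, hPz⟩ ^ (m - i) * c) m)
          (v (ClassGroup.mk0 ⟨P, hPz⟩ ^ (m - i) * c) m) := by
        refine Finset.sum_nbij' (fun i => if i = 0 then 0 else m - i)
          (fun i => if i = 0 then 0 else m - i) ?_ ?_ ?_ ?_ ?_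
        · intro i hi
          rw [Finset.mem_range] at *
          split_ifs <;> omega
        · intro i hi
          rw [Finset.mem_range] at *
          split_ifs <;> omega
        · intro i hi
          rw [Finset.mem_range] at hi
          by_cases h : i = 0
          · simp [h]
          · have : m - i ≠ 0 := by omega
            simp only [h, this, if_false]
            omega
        · intro i hi
          rw [Finset.mem_range] at hi
          by_cases h : i = 0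
          · simp [h]
          · have : m - i ≠ 0 := by omega
            simp only [h, this, if_false]
            omega
        · intro i hi
          rw [Finset.mem_range] at hi
          by_cases h : i = 0
          · subst h
            simp only [if_true, Nat.sub_zero, pow_zero]
            have h11 : ClassGroup.mk0 (⟨P, hPz⟩ : (Ideal (𝓞 F))⁰) ^ m = 1 := by
              rw [hm]
              exact pow_orderOf_eq_one _
            rw [h11]
          · simp only [h, if_false]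
            have : m - (m - i) = i := by omega
            rw [this]
      rw [h10]
      exact h9
    obtain ⟨T, hTc, hT⟩ := sum_cosets (ClassGroup.mk0 (⟨P, hPz⟩ : (Ideal (𝓞 F))⁰))
      (fun c => jv (u c m) (v c m))
    rw [← hm] at hT
    have h12 : ∑ c, jv (u c m) (v c m) - (N : ℂ) * κ =
        ∑ q ∈ T, ((∑ i ∈ Finset.range m, jv (u (ClassGroup.mk0 ⟨P, hPz⟩ ^ i * q) m)
        (v (ClassGroup.mk0 ⟨P, hPz⟩ ^ i * q) m)) - κ) := by
      rw [Finset.sum_sub_distrib, Finset.sum_const, hTc, ← hN, nsmul_eq_mul, hT]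
    rw [h12]
    exact sum_nonunits T _ fun q _ => hcyc q
  -- κ and the index
  have hNκ : (N : ℂ) * κ ∉ A.nonunits := by
    obtain ⟨h13, h14⟩ := not_three_dvd_unit hA (n := (N : ℤ)) (by exact_mod_cast hN3)
    have h15 : ((N : ℤ) : ℂ) = (N : ℂ) := by push_cast; rfl
    rw [h15] at h14 h13
    intro hc
    apply hκu
    have hN0 : (N : ℂ) ≠ 0 := by
      intro h0
      rw [h0] at h13
      exact h13 zero_nonunits
    exact nonunits_of_mul_unit h14 hN0 hc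
  -- conclusion
  have htot : ∑ c, ψ (a c : Ideal (𝓞 F)) * S (u c m) (v c m) / E - (N : ℂ) * κ ∈ A.nonunits := by
    have h9 := sum_nonunits Finset.univ _ fun c (_ : c ∈ Finset.univ) => hterm c
    rw [Finset.sum_sub_distrib] at h9
    have := nonunits_add h9 hJ
    rwa [sub_add_sub_cancel] at this
  rw [← Finset.sum_div] at htot
  intro h0
  rw [h0, zero_div, zero_sub] at htot
  exact hNκ (by simpa using nonunits_neg htot)

end

end Pool.Agent.Lib.MP_7c08ba_nt.RZC3
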