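import Pool.Agent.Lib.MP_7c08ba_nt.RZ.Basic3

set_option autoImplicit false

/-! Project RZ3, part (C3), module N3': the prime above 3 attached to `A`. -/

namespace Pool.Agent.Lib.MP_7c08ba_nt.RZC3

open NumberField RZC

noncomputable section

namespace Unit3Aux

variable {F : Type} [Field F] [NumberField F]

section val

variable (σ : F →+* ℂ) {A : ValuationSubring ℂ}

/-- the embedding of the ring of integers -/
def tau : 𝓞 F →+* ℂ := σ.comp (algebraMap (𝓞 F) F)

omit [NumberField F] in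
theorem int_memA (x : 𝓞 F) : tau σ x ∈ A := by
  have hx : IsIntegral ℤ (x : F) := x.isIntegral_coe
  have h2 : IsIntegral ℤ (tau σ x) := hx.map σ.toIntAlgHom
  obtain ⟨p, hp, hp2⟩ := h2
  refine mem_of_root (n := p.natDegree) (c := fun i => ((p.coeff i : ℤ) : ℂ))
    (fun i _ => int_mem _) ?_
  rw [Polynomial.eval₂_eq_sum_range, Finset.sum_range_succ] at hp2
  rw [hp.coeff_natDegree] at hp2
  simp only [algebraMap_int_eq, eq_intCast, Int.cast_one, one_mul] at hp2
  rw [add_comm]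
  exact hp2

/-- the ideal attached to `A` -/
def pr (A : ValuationSubring ℂ) : Ideal (𝓞 F) where
  carrier := {x | tau σ x ∈ A.nonunits}
  add_mem' := by
    intro x y hx hy
    simp only [Set.mem_ofPred_eq, map_add] at *
    exact nonunits_add hx hy
  zero_mem' := by
    simp only [Set.mem_ofPred_eq, map_zero]
    exact zero_nonunits
  smul_mem' := by
    intro c x hx
    simp only [Set.mem_ofPred_eq, smul_eq_mul, map_mul] at *
    exact nonunits_mul_left (int_memA σ c) hx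

omit [NumberField F] in
theorem mem_pr {x : 𝓞 F} : x ∈ pr σ A ↔ tau σ x ∈ A.nonunits := Iff.rfl

omit [NumberField F] in
theorem pr_prime : (pr σ A).IsPrime := by
  rw [Ideal.isPrime_iff]
  refine ⟨?_, ?_⟩
  · rw [Ne, Ideal.eq_top_iff_one, mem_pr]
    simpa using one_not_nonunits
  · intro x y hxy
    by_contra hc
    rw [not_or] at hc
    rw [mem_pr] at hxy
    rw [map_mul] at hxy
    have h1 := inv_mem_of_not_nonunits (int_memA σ x) hc.1
    have h0 : tau σ x ≠ 0 := by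
      intro h0
      apply hc.1
      rw [mem_pr, h0]
      exact zero_nonunits
    exact hc.2 (nonunits_of_mul_unit h1 h0 hxy)

end val

section arith

theorem ne_bot {P : Ideal (𝓞 F)} (h : Ideal.absNorm P = 3) : P ≠ ⊥ := by
  rintro rfl
  rw [Ideal.absNorm_bot] at h
  exact absurd h (by norm_num)

theorem isMax {P : Ideal (𝓞 F)} (hP : P.IsPrime) (h : Ideal.absNorm P = 3) : P.IsMaximal :=
  hP.isMaximal (ne_bot h)

theorem three_mem {P : Ideal (𝓞 F)} (h : Ideal.absNorm P = 3) : (3 : 𝓞 F) ∈ P := by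
  have := Ideal.absNorm_mem P
  rw [h] at this
  exact_mod_cast this

theorem absNorm_three (hfin : Module.finrank ℚ F = 2) :
    Ideal.absNorm (Ideal.span {(3 : 𝓞 F)}) = 9 := by
  rw [Ideal.absNorm_span_singleton]
  have h1 : (3 : 𝓞 F) = algebraMap ℤ (𝓞 F) 3 := by simp
  rw [h1, Algebra.norm_algebraMap, RingOfIntegers.rank, hfin]
  norm_num

/-- the product of two different primes of norm 3 -/
theorem mul_eq_three (hfin : Module.finrank ℚ F = 2) {P P' : Ideal (𝓞 F)} (hP : P.IsPrime)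
    (hP' : P'.IsPrime) (hne : P ≠ P') (h : Ideal.absNorm P = 3) (h' : Ideal.absNorm P' = 3) :
    P * P' = Ideal.span {(3 : 𝓞 F)} := by
  have hco : IsCoprime P P' := by
    rw [Ideal.isCoprime_iff_sup_eq]
    exact (isMax hP h).coprime_of_ne (isMax hP' h') hne
  have hle : Ideal.span {(3 : 𝓞 F)} ≤ P * P' := by
    rw [Ideal.mul_eq_inf_of_isCoprime hco, Ideal.span_singleton_le_iff_mem]
    exact ⟨three_mem h, three_mem h'⟩
  obtain ⟨K, hK⟩ := Ideal.dvd_iff_le.2 hle
  have h1 := congrArg Ideal.absNorm hK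
  rw [map_mul, map_mul, h, h', absNorm_three hfin] at h1
  have h2 : Ideal.absNorm K = 1 := by omega
  rw [Ideal.absNorm_eq_one_iff] at h2
  rw [hK, h2, Ideal.mul_top]

/-- squares of elements outside of a prime of norm 3 -/
theorem sq_sub_one {P : Ideal (𝓞 F)} (hP : P.IsPrime) (h : Ideal.absNorm P = 3) {x : 𝓞 F}
    (hx : x ∉ P) : x ^ 2 - 1 ∈ P := by
  have : P.IsMaximal := isMax hP h
  let _ : Field (𝓞 F ⧸ P) := Ideal.Quotient.field P
  have hcard : Nat.card (𝓞 F ⧸ P) = 3 := by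
    rw [Ideal.absNorm_apply, Submodule.cardQuot_apply] at h
    exact h
  have hfin : Finite (𝓞 F ⧸ P) := Nat.finite_of_card_ne_zero (by rw [hcard]; norm_num)
  let _ : Fintype (𝓞 F ⧸ P) := Fintype.ofFinite _
  have h1 : (Ideal.Quotient.mk P x) ≠ 0 := by
    rw [Ne, Ideal.Quotient.eq_zero_iff_mem]
    exact hx
  have h2 := FiniteField.pow_card_sub_one_eq_one _ h1
  rw [← Nat.card_eq_fintype_card, hcard] at h2
  rw [← Ideal.Quotient.eq_zero_iff_mem, map_sub, map_pow, map_one, sub_eq_zero]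
  exact h2

end arith

section main

variable (σ : F →+* ℂ) {A : ValuationSubring ℂ}

theorem main (hfin : Module.finrank ℚ F = 2) {P' : Ideal (𝓞 F)} (hP' : P'.IsPrime)
    (hne : pr σ A ≠ P') (h : Ideal.absNorm (pr σ A) = 3) (h' : Ideal.absNorm P' = 3)
    (m : ℕ) (hrig : ∀ (x : 𝓞 F), P' ^ m = Ideal.span {x} →
      x ^ 4 - 1 ∉ (pr σ A) ^ 2)
    (x : 𝓞 F) (hx : (pr σ A) ^ m = Ideal.span {x}) :
    UnitC3 A m (tau σ x) := by
  have hP : (pr σ A).IsPrime := pr_prime σ
  have hmax := isMax hP h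
  have hmax' := isMax hP' h'
  have h3 : pr σ A * P' = Ideal.span {(3 : 𝓞 F)} := mul_eq_three hfin hP hP' hne h h'
  -- the conjugate generator
  have h3m : Ideal.span {x} * P' ^ m = Ideal.span {(3 : 𝓞 F) ^ m} := by
    rw [← hx, ← mul_pow, h3, Ideal.span_singleton_pow]
  have hmem : (3 : 𝓞 F) ^ m ∈ Ideal.span {x} := by
    have h1 : (3 : 𝓞 F) ^ m ∈ Ideal.span {x} * P' ^ m := by
      rw [h3m]; exact Ideal.mem_span_singleton_self _
    have h2 : Ideal.span {x} * P' ^ m ≤ Ideal.span {x} := Ideal.mul_le_left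
    exact h2 h1
  obtain ⟨x', hx'⟩ := Ideal.mem_span_singleton.1 hmem
  have h30 : (3 : 𝓞 F) ^ m ≠ 0 := pow_ne_zero m (by norm_num)
  have hx0 : x ≠ 0 := by
    rintro rfl
    rw [zero_mul] at hx'
    exact h30 hx'
  have hP'm : P' ^ m = Ideal.span {x'} := by
    have h1 : Ideal.span {x} * P' ^ m = Ideal.span {x} * Ideal.span {x'} := by
      rw [h3m, hx', Ideal.span_singleton_mul_span_singleton]
    have h2 : (Ideal.span {x} : Ideal (𝓞 F)) ≠ 0 := by
      rw [Ne, Ideal.zero_eq_bot, Ideal.span_singleton_eq_bot]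
      exact hx0
    exact mul_left_cancel₀ h2 h1
  have hx'P : x' ∉ pr σ A := by
    intro hc
    have h1 : P' ^ m ≤ pr σ A := by
      rw [hP'm, Ideal.span_singleton_le_iff_mem]
      exact hc
    have h2 : P' ≤ pr σ A := hP.le_of_pow_le h1
    exact hne (hmax'.eq_of_le hP.ne_top h2).symm
  have hτ : tau σ x * tau σ x' = 3 ^ m := by
    rw [← map_mul, ← hx', map_pow, map_ofNat]
  have hτx : tau σ x ≠ 0 := by
    intro h0
    rw [h0, zero_mul] at hτ
    exact pow_ne_zero m three_ne_zero hτ.symm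
  have hdiv : 3 ^ m / tau σ x = tau σ x' := by
    rw [← hτ]
    field_simp
  have hu : tau σ x' ∈ A := int_memA σ x'
  have hu1 : tau σ x' ∉ A.nonunits := hx'P
  -- the fourth power
  set y : 𝓞 F := x' ^ 4 - 1 with hy
  have hyP : y ∈ pr σ A := by
    have h1 := sq_sub_one hP h hx'P
    have h2 : y = (x' ^ 2 + 1) * (x' ^ 2 - 1) := by rw [hy]; ring
    rw [h2]
    exact Ideal.mul_mem_left _ _ h1
  have hyP2 : y ∉ (pr σ A) ^ 2 := hrig x' hP'm
  obtain ⟨t, ht', ht⟩ : ∃ t ∈ P', t ∉ pr σ A := by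
    by_contra hcon
    push Not at hcon
    exact hne (hmax'.eq_of_le hP.ne_top hcon).symm
  have hyt : y * t ∈ Ideal.span {(3 : 𝓞 F)} := by
    rw [← h3]
    exact Ideal.mul_mem_mul hyP ht'
  obtain ⟨s', hs'⟩ := Ideal.mem_span_singleton.1 hyt
  have hs'P : s' ∉ pr σ A := by
    intro hc
    have h1 : y * t ∈ (pr σ A) ^ 2 := by
      rw [hs', sq]
      exact Ideal.mul_mem_mul (three_mem h) hc
    have hco : IsCoprime ((pr σ A) ^ 2) (Ideal.span {t}) := by
      apply IsCoprime.pow_left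
      rw [Ideal.isCoprime_iff_sup_eq]
      apply hmax.out.2
      refine lt_of_le_of_ne le_sup_left ?_
      intro he
      apply ht
      rw [he]
      exact Ideal.mem_sup_right (Ideal.mem_span_singleton_self t)
    rw [Ideal.isCoprime_iff_exists] at hco
    obtain ⟨i, hi, j, hj, hij⟩ := hco
    obtain ⟨v, hv⟩ := Ideal.mem_span_singleton.1 hj
    apply hyP2
    have h2 : y = y * i + v * (y * t) := by
      have : y = y * (i + j) := by rw [hij, mul_one]
      rw [hv] at this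
      linear_combination this
    rw [h2]
    exact Ideal.add_mem _ (Ideal.mul_mem_left _ _ hi) (Ideal.mul_mem_left _ _ h1)
  have ht1 : tau σ t ∉ A.nonunits := ht
  have hti : (tau σ t)⁻¹ ∈ A := inv_mem_of_not_nonunits (int_memA σ t) ht1
  have ht0 : tau σ t ≠ 0 := by
    intro h0
    apply ht1
    rw [h0]
    exact zero_nonunits
  have hτy : tau σ x' ^ 4 - 1 = tau σ y := by
    rw [hy, map_sub, map_pow, map_one]
  have hτs : tau σ y * tau σ t = 3 * tau σ s' := by
    rw [← map_mul, hs', map_mul, map_ofNat]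
  have hfrac : tau σ y / 3 = tau σ s' * (tau σ t)⁻¹ := by
    field_simp
    linear_combination hτs
  unfold UnitC3
  rw [hdiv, hτy]
  refine ⟨hu, inv_mem_of_not_nonunits hu hu1, ?_, ?_⟩
  · rw [hfrac]
    exact A.mul_mem _ _ (int_memA σ s') hti
  · intro hc
    apply hs'P
    rw [mem_pr]
    have h1 := nonunits_mul_right hc (int_memA (A := A) σ t)
    have h2 : tau σ y / 3 * tau σ t = tau σ s' := by
      rw [hfrac]
      field_simp
    rwa [h2] at h1

end main

end Unit3Aux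

open Unit3Aux in
theorem stUnit3 : StUnit3 := by
  intro D F _ _ s h σ A hA
  have hP : (pr σ A).IsPrime := pr_prime σ
  have key : ∀ Q Q' : Ideal (𝓞 F), Q.IsPrime → Q'.IsPrime → Q ≠ Q' → Ideal.absNorm Q = 3 →
      Ideal.absNorm Q' = 3 → Q ≤ pr σ A → ∃ P : nonZeroDivisors (Ideal (𝓞 F)),
        (P : Ideal (𝓞 F)).IsPrime ∧ Ideal.absNorm (P : Ideal (𝓞 F)) = 3 ∧ ∀ x : 𝓞 F,
        (P : Ideal (𝓞 F)) ^ orderOf (ClassGroup.mk0 P) = Ideal.span {x} →
        UnitC3 A (orderOf (ClassGroup.mk0 P)) (σ (x : F)) := by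
    intro Q Q' hQ hQ' hne h3 h3' hle
    have he : Q = pr σ A := (isMax hQ h3).eq_of_le hP.ne_top hle
    subst he
    have hz : pr σ A ∈ nonZeroDivisors (Ideal (𝓞 F)) :=
      mem_nonZeroDivisors_of_ne_zero (ne_bot h3)
    have hz' : Q' ∈ nonZeroDivisors (Ideal (𝓞 F)) := mem_nonZeroDivisors_of_ne_zero (ne_bot h3')
    -- the classes are inverse to each other
    have hcl : ClassGroup.mk0 (⟨Q', hz'⟩ : nonZeroDivisors (Ideal (𝓞 F))) =
        (ClassGroup.mk0 (⟨pr σ A, hz⟩ : nonZeroDivisors (Ideal (𝓞 F))))⁻¹ := by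
      rw [eq_inv_iff_mul_eq_one, ← map_mul, ClassGroup.mk0_eq_one_iff]
      refine ⟨3, ?_⟩
      have h1 := mul_eq_three h.fin hQ' hQ hne.symm h3' h3
      exact h1
    have hord : orderOf (ClassGroup.mk0 (⟨Q', hz'⟩ : nonZeroDivisors (Ideal (𝓞 F)))) =
        orderOf (ClassGroup.mk0 (⟨pr σ A, hz⟩ : nonZeroDivisors (Ideal (𝓞 F)))) := by
      rw [hcl, orderOf_inv]
    refine ⟨⟨pr σ A, hz⟩, hP, h3, fun x hx => ?_⟩
    refine main σ h.fin hQ' hne h3 h3' _ (fun y hy => ?_) x hx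
    have h1 := h.rig ⟨Q', hz'⟩ ⟨pr σ A, hz⟩ hQ' hP (fun hc => hne (Subtype.ext_iff.1 hc).symm)
      h3' h3 y
    rw [hord] at h1
    exact h1 hy
  obtain ⟨Q, Q', hQ, hQ', hne, h3, h3'⟩ := h.split
  have h33 := mul_eq_three h.fin hQ hQ' hne h3 h3'
  have hle : Q * Q' ≤ pr σ A := by
    rw [h33, Ideal.span_singleton_le_iff_mem, mem_pr, map_ofNat]
    exact hA
  rcases hP.mul_le.1 hle with h1 | h1
  · exact key Q Q' hQ hQ' hne h3 h3' h1
  · exact key Q' Q hQ' hQ hne.symm h3' h3 h1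

end

end Pool.Agent.Lib.MP_7c08ba_nt.RZC3
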