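import Pool.Agent.Lib.MP_7c08ba_nt.DH.SU
import Pool.Agent.Lib.MP_7c08ba_nt.DH.Cub
import Pool.Agent.Lib.MP_7c08ba_nt.DH.Lam
import Pool.Agent.Lib.MP_7c08ba_nt.DH.QF
import Pool.Agent.Lib.MP_7c08ba_nt.Gen.RT.Loc
import Pool.Agent.Lib.MP_7c08ba_nt.RZ.StmtsC3

set_option autoImplicit false

/-!
The hypotheses on the field of part (C3) follow from rigidity.
-/

namespace Pool.Agent.Lib.MP_7c08ba_nt.RZC3

open NumberField UniqueFactorizationMonoid BKGen BKGen.RT BKDH BKDH.SUm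
open scoped nonZeroDivisors

noncomputable section

namespace RigOAux

/-! ### from `K` to `F` -/

section down

variable {F K : Type} [Field F] [Field K] [Algebra F K]

theorem powAway_up {a : F} (h : PowAway 3 a) : PowAway 3 (algebraMap F K a) := by
  intro l hl hlp j
  obtain ⟨b, hb⟩ := h l hlp (j.comp (algebraMap F K))
  exact ⟨algebraMap F K b, by simpa using hb⟩

theorem comp_up {ι : F →+* PadicAlgCl 3} {ιK : K →+* PadicAlgCl 3}
    (h : ιK.comp (algebraMap F K) = ι) : comp 3 ι ≤ comp 3 ιK := by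
  unfold comp
  apply IntermediateField.adjoin.mono
  rintro _ ⟨x, rfl⟩
  exact ⟨algebraMap F K x, by rw [← h]; rfl⟩

theorem rigid_down (hd : Module.finrank F K = 2) {ι : F →+* PadicAlgCl 3}
    {ιK : K →+* PadicAlgCl 3} (h : ιK.comp (algebraMap F K) = ι) (hR : Rigid 3 K ιK) :
    Rigid 3 F ι := by
  intro a ha hp hat
  obtain ⟨β, hβ, hβ3⟩ := hat
  obtain ⟨b, hb⟩ := hR (algebraMap F K a) (by simpa using ha) (powAway_up hp)
    ⟨β, comp_up h hβ, by rw [hβ3, ← h]; rfl⟩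
  have hfd : FiniteDimensional F K := FiniteDimensional.of_finrank_pos (by rw [hd]; norm_num)
  have h1 := congrArg (Algebra.norm F) hb
  rw [map_pow, Algebra.norm_algebraMap, hd] at h1
  have hN : Algebra.norm F b ≠ 0 := by
    intro h0
    rw [h0] at h1
    have : a ^ 2 = 0 := by rw [← h1]; ring
    exact ha (pow_eq_zero_iff two_ne_zero |>.1 this)
  refine ⟨a / Algebra.norm F b, ?_⟩
  rw [div_pow, h1]
  field_simp

end down

/-! ### the biquadratic field -/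

section biq

variable {F : Type} [Field F] [NumberField F]

theorem no_sqrt (j : F →+* ℚ_[3]) (x : F) : x ^ 2 ≠ -3 := by
  intro hx
  have h1 : (j x) ^ 2 = -3 := by rw [← map_pow, hx, map_neg, map_ofNat]
  have h2 : ‖j x‖ ^ 2 = 1 / 3 := by
    rw [← norm_pow, h1, norm_neg]
    have := Padic.norm_p (p := 3)
    simpa using this
  have h0 : j x ≠ 0 := by
    intro h0
    rw [h0, norm_zero] at h2
    norm_num at h2
  have h3 := Padic.norm_eq_zpow_neg_valuation h0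
  rw [h3, ← zpow_natCast, ← zpow_mul] at h2
  have h4 : ((3 : ℕ) : ℝ) ^ (-(j x).valuation * ((2 : ℕ) : ℤ)) = ((3 : ℕ) : ℝ) ^ (-1 : ℤ) := by
    rw [h2]
    norm_num
  have h5 := zpow_right_injective₀ (by norm_num : (0 : ℝ) < ((3 : ℕ) : ℝ)) (by norm_num) h4
  omega

theorem rigidF {D : ℕ} {s : F} (hR : RigidAll D) (hfin : Module.finrank ℚ F = 2)
    (hs : s ^ 2 = -(D : F)) (j : F →+* ℚ_[3]) (ι : F →+* PadicAlgCl 3) : Rigid 3 F ι := by
  classical
  -- the square root of `-3`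
  obtain ⟨t, ht⟩ : ∃ t : AlgebraicClosure F, t ^ 2 = -3 := IsAlgClosed.exists_pow_nat_eq _ two_pos
  have hint : IsIntegral F t := by
    refine ⟨Polynomial.X ^ 2 + Polynomial.C (3 : F),
      Polynomial.monic_X_pow_add_C _ two_ne_zero, ?_⟩
    rw [Polynomial.eval₂_add, Polynomial.eval₂_pow, Polynomial.eval₂_X,
      Polynomial.eval₂_C, ht, map_ofNat]
    ring
  have hirr : Irreducible (Polynomial.X ^ 2 + Polynomial.C (3 : F)) := by
    rw [Polynomial.irreducible_iff_roots_eq_zero_of_degree_le_three]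
    · rw [Multiset.eq_zero_iff_forall_notMem]
      intro x hx
      rw [Polynomial.mem_roots'] at hx
      have hx2 := hx.2
      simp only [Polynomial.IsRoot.def, Polynomial.eval_add, Polynomial.eval_pow,
        Polynomial.eval_X, Polynomial.eval_C] at hx2
      exact no_sqrt j x (by linear_combination hx2)
    · rw [Polynomial.natDegree_X_pow_add_C]
    · rw [Polynomial.natDegree_X_pow_add_C]
      norm_num
  have hmin : minpoly F t = Polynomial.X ^ 2 + Polynomial.C (3 : F) := by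
    symm
    refine minpoly.eq_of_irreducible_of_monic hirr ?_ (Polynomial.monic_X_pow_add_C _ two_ne_zero)
    rw [map_add, map_pow, Polynomial.aeval_X, Polynomial.aeval_C, ht, map_ofNat]
    ring
  let K := IntermediateField.adjoin F {t}
  have hKd : Module.finrank F K = 2 := by
    rw [IntermediateField.adjoin.finrank hint, hmin, Polynomial.natDegree_X_pow_add_C]
  have hfd : FiniteDimensional F K := IntermediateField.adjoin.finiteDimensional hint
  have hfdQ : FiniteDimensional ℚ K := FiniteDimensional.trans ℚ F K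
  have hNF : NumberField K := { to_charZero := inferInstance, to_finiteDimensional := hfdQ }
  have hdeg : Module.finrank ℚ K = 4 := by
    rw [← Module.finrank_mul_finrank ℚ F K, hfin, hKd]
  -- extension of `ι`
  obtain ⟨ιK, hιK⟩ : ∃ ιK : K →+* PadicAlgCl 3, ιK.comp (algebraMap F K) = ι := by
    let _ : Algebra F (PadicAlgCl 3) := ι.toAlgebra
    have halg : Algebra.IsAlgebraic F K := inferInstance
    let e : K →ₐ[F] PadicAlgCl 3 := IsAlgClosed.lift
    exact ⟨e.toRingHom, by ext x; exact e.commutes x⟩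
  refine rigid_down hKd hιK (hR K (algebraMap F K s) (IntermediateField.AdjoinSimple.gen F t)
    ?_ ?_ hdeg ιK)
  · rw [← map_pow, hs]
    simp
  · apply Subtype.ext
    exact ht

end biq

/-! ### ideals -/

section ideals

variable {F : Type} [Field F] [NumberField F]

/-- ideals with the same multiplicities are equal -/
theorem mult_ext {I J : Ideal (𝓞 F)} (hI : I ≠ ⊥) (hJ : J ≠ ⊥)
    (h : ∀ q : Ideal (𝓞 F), q.IsPrime → q ≠ ⊥ → multiplicity q I = multiplicity q J) : I = J := by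
  classical
  have h1 : normalizedFactors I = normalizedFactors J := by
    ext q
    by_cases hq : q ∈ normalizedFactors I ∨ q ∈ normalizedFactors J
    · have hqp : Prime q := by
        rcases hq with hq | hq
        · exact prime_of_normalized_factor q hq
        · exact prime_of_normalized_factor q hq
      have h2 := h q (Ideal.isPrime_of_prime hqp) hqp.ne_zero
      rw [multiplicity_eq_count_normalizedFactors hqp.irreducible hI,
        multiplicity_eq_count_normalizedFactors hqp.irreducible hJ, normalize_eq] at h2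
      exact h2
    · push Not at hq
      rw [Multiset.count_eq_zero_of_notMem hq.1, Multiset.count_eq_zero_of_notMem hq.2]
  have h2 := associated_iff_eq.1 (prod_normalizedFactors hI)
  have h3 := associated_iff_eq.1 (prod_normalizedFactors hJ)
  rw [← h2, ← h3, h1]

/-- an element of an ideal with the multiplicity of the ideal at one prime -/
theorem exists_elt {C q : Ideal (𝓞 F)} (hC : C ≠ ⊥) (hq : q.IsPrime) (h0 : q ≠ ⊥) :
    ∃ b : 𝓞 F, b ≠ 0 ∧ multiplicity q (Ideal.span {b}) = multiplicity q C := by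
  obtain ⟨b, hb, hbq⟩ : ∃ b ∈ C, b ∉ C * q := by
    by_contra hcon
    push Not at hcon
    have h1 : C ≤ C * q := hcon
    have h2 : C * q = C := le_antisymm Ideal.mul_le_left h1
    have h3 : q = ⊤ := by
      have h4 : C * q = C * ⊤ := by rw [h2, Ideal.mul_top]
      exact mul_left_cancel₀ hC h4
    exact hq.ne_top h3
  have hb0 : b ≠ 0 := by
    rintro rfl
    exact hbq (Ideal.zero_mem _)
  obtain ⟨E, hE⟩ := Ideal.dvd_iff_le.2 ((Ideal.span_singleton_le_iff_mem C).2 hb)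
  have hE0 : E ≠ ⊥ := by
    rintro rfl
    rw [Ideal.mul_bot, Ideal.span_singleton_eq_bot] at hE
    exact hb0 hE
  have hEq : ¬ E ≤ q := by
    intro hle
    apply hbq
    have h1 : Ideal.span {b} ≤ C * q := by
      rw [hE]
      exact Ideal.mul_mono_right hle
    exact (Ideal.span_singleton_le_iff_mem _).1 h1
  refine ⟨b, hb0, ?_⟩
  have := LamW.mult_mul (hq := hq) h0 hC hE0
  rw [hE, this, LamW.mult_zero hEq, add_zero]

theorem three_pr {l : ℕ} [Fact l.Prime] (hl : l ≠ 3) (j : F →+* PadicAlgCl l) :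
    (3 : 𝓞 F) ∉ pr j := by
  rw [mem_pr]
  have h1 : j ((3 : 𝓞 F) : F) = ((3 : ℕ) : PadicAlgCl l) := by
    rw [LamW.coe_three, map_ofNat]
    norm_num
  rw [h1, norm_nat_ne Nat.prime_three hl]
  exact lt_irrefl 1

theorem three_memI {P : Ideal (𝓞 F)} (h : Ideal.absNorm P = 3) : (3 : 𝓞 F) ∈ P := by
  have := Ideal.absNorm_mem P
  rw [h] at this
  exact_mod_cast this

/-- `C ^ 3 * P ^ k` principal: the generator is a cube up to units away from 3 -/
theorem powAway_of {C P : Ideal (𝓞 F)} (hC : C ≠ ⊥) (hP : P.IsPrime)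
    (h3 : Ideal.absNorm P = 3) {k : ℕ} {a : 𝓞 F} (ha : C ^ 3 * P ^ k = Ideal.span {a})
    (ha0 : a ≠ 0) : PowAway 3 (a : F) := by
  intro l hl hlp j
  have hq : (pr j).IsPrime := pr_prime j
  have h0 : pr j ≠ ⊥ := pr_ne_bot j
  have hP0 : P ≠ ⊥ := by
    rintro rfl
    rw [Ideal.absNorm_bot] at h3
    exact absurd h3 (by norm_num)
  have hPq : ¬ P ≤ pr j := fun hle => three_pr hlp j (hle (three_memI h3))
  obtain ⟨b, hb0, hb⟩ := exists_elt hC hq h0
  obtain ⟨r, hr0, hr1, hr⟩ := exists_unif (pr j) h0 j rfl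
  refine ⟨(b : F), ?_⟩
  have e1 : multiplicity (pr j) (Ideal.span {a}) = 3 * multiplicity (pr j) (Ideal.span {b}) := by
    rw [← ha, LamW.mult_mul h0 (pow_ne_zero 3 hC) (pow_ne_zero k hP0)]
    have hprime : Prime (pr j) := Ideal.prime_of_isPrime h0 hq
    rw [(FiniteMultiplicity.of_prime_left hprime hC).multiplicity_pow hprime,
      (FiniteMultiplicity.of_prime_left hprime hP0).multiplicity_pow hprime,
      LamW.mult_zero hPq, mul_zero, add_zero, hb]
  have e2 := hr a ha0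
  have e3 := hr b hb0
  rw [e1, mul_comm, pow_mul, ← e3, ← pow_mul, mul_comm, pow_mul] at e2
  have e4 := (pow_left_inj₀ (norm_nonneg _) (by positivity) (classNumber_ne_zero F)).1 e2
  exact e4

/-- elements which are units away from three have equal multiplicities -/
theorem mult_eq_of_su {μ ν : 𝓞 F} (hμ : μ ≠ 0) (hν : ν ≠ 0) (hu : SU3 ((μ : F) / (ν : F)))
    {q : Ideal (𝓞 F)} (hq : q.IsPrime) (h0 : q ≠ ⊥) (h3 : (3 : 𝓞 F) ∉ q) :
    multiplicity q (Ideal.span {μ}) = multiplicity q (Ideal.span {ν}) := by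
  obtain ⟨l, hl, hlq⟩ : ∃ l : ℕ, l.Prime ∧ (l : 𝓞 F) ∈ q := by
    have h1 : ((Ideal.absNorm q : ℕ) : 𝓞 F) ∈ q := Ideal.absNorm_mem q
    have h2 : Ideal.absNorm q ≠ 0 := by
      rw [Ne, Ideal.absNorm_eq_zero_iff]
      exact h0
    have h4 : Ideal.absNorm q ≠ 1 := by
      rw [Ne, Ideal.absNorm_eq_one_iff]
      exact hq.ne_top
    have h5 : ∀ n : ℕ, n ≠ 0 → n ≠ 1 → (n : 𝓞 F) ∈ q → ∃ l : ℕ, l.Prime ∧ (l : 𝓞 F) ∈ q := by
      intro n
      induction n using Nat.strong_induction_on with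
      | _ n ih =>
        intro hn0 hn1 hn
        obtain ⟨p, hp, m, rfl⟩ := Nat.exists_prime_and_dvd hn1
        rw [Nat.cast_mul] at hn
        rcases hq.mem_or_mem hn with h | h
        · exact ⟨p, hp, h⟩
        · have hm0 : m ≠ 0 := by
            rintro rfl
            exact hn0 rfl
          have hm1 : m ≠ 1 := by
            rintro rfl
            rw [Nat.cast_one] at h
            exact hq.ne_top ((Ideal.eq_top_iff_one q).2 h)
          exact ih m (by nlinarith [hp.two_le, Nat.pos_of_ne_zero hm0]) hm0 hm1 h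
    exact h5 _ h2 h4 h1
  have hl3 : l ≠ 3 := by
    rintro rfl
    exact h3 (by exact_mod_cast hlq)
  have : Fact l.Prime := ⟨hl⟩
  obtain ⟨i, hi⟩ := exists_emb q h0 hlq
  obtain ⟨r, hr0, hr1, hr⟩ := exists_unif q h0 i hi
  have e1 := hr μ hμ
  have e2 := hr ν hν
  have e3 : ‖i (μ : F)‖ = ‖i (ν : F)‖ := by
    have h5 := hu l hl3 i
    rw [map_div₀, norm_div] at h5
    have h6 : ‖i (ν : F)‖ ≠ 0 := by
      rw [norm_ne_zero_iff, Ne, map_eq_zero]
      exact_mod_cast hν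
    rwa [div_eq_one_iff_eq h6] at h5
  rw [e3, e2] at e1
  exact (pow_right_injective₀ hr0 hr1.ne e1).symm

/-- the two primes above three -/
structure Spl (P P' : Ideal (𝓞 F)) : Prop where
  pr : P.IsPrime
  pr' : P'.IsPrime
  ne : P ≠ P'
  nm : Ideal.absNorm P = 3
  nm' : Ideal.absNorm P' = 3
  mul : P * P' = Ideal.span {(3 : 𝓞 F)}

omit [NumberField F] in
theorem ne_bot_of {P : Ideal (𝓞 F)} [Nontrivial (𝓞 F)] (h : (3 : 𝓞 F) ∈ P) (h3 : (3 : 𝓞 F) ≠ 0) :
    P ≠ ⊥ := by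
  rintro rfl
  exact h3 (by simpa using h)

theorem le_eq {P Q : Ideal (𝓞 F)} (hP : P.IsPrime) (h0 : P ≠ ⊥) (hQ : Q.IsPrime) (h : P ≤ Q) :
    P = Q := (hP.isMaximal h0).eq_of_le hQ.ne_top h

variable {Δ : ℕ} {s : F} {σ : F →+* F} {j : F →+* ℚ_[3]}

theorem exists_spl (h : QF F Δ s σ j) : ∃ P P' : Ideal (𝓞 F), Spl P P' := by
  obtain ⟨n, hn, hn1, -⟩ := LamW.exists_n h
  have hmul := LamW.PP_mul h hn
  set P := LamW.PP h n with hP
  set P' := Ideal.map (LamW.cj σ) P with hP'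
  have hn' : ((n : 𝓞 F)) ^ 2 = 1 := by exact_mod_cast hn
  have h3P : (3 : 𝓞 F) ∈ P := Ideal.subset_span (by simp)
  have hsP : LamW.sI h - (n : 𝓞 F) ∈ P := Ideal.subset_span (by simp)
  have h3P' : (3 : 𝓞 F) ∈ P' := by
    have := Ideal.mem_map_of_mem (LamW.cj σ) h3P
    rwa [map_ofNat] at this
  have hsP' : -LamW.sI h - (n : 𝓞 F) ∈ P' := by
    have := Ideal.mem_map_of_mem (LamW.cj σ) hsP
    rwa [map_sub, LamW.cj_sI h, map_intCast] at this
  -- `P` is proper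
  have htop : P ≠ ⊤ := by
    intro htop
    have h1 : P ≤ pr (emb j) := by
      rw [hP, LamW.PP, Ideal.span_le]
      intro x hx
      simp only [Set.mem_insert_iff, Set.mem_singleton_iff] at hx
      rw [SetLike.mem_coe, mem_pr, norm_emb]
      rcases hx with rfl | rfl
      · rw [LamW.coe_three, map_ofNat, LamW.norm_three]
        norm_num
      · have e : ((LamW.sI h - (n : 𝓞 F) : 𝓞 F) : F) = s - n := by
          simp only [map_sub]
          rw [show algebraMap (𝓞 F) F (n : 𝓞 F) = n from map_intCast _ n]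
          rfl
        rw [e, map_sub, map_intCast]
        exact hn1
    rw [htop] at h1
    exact (pr_prime (emb j)).ne_top (top_le_iff.1 h1)
  have hcc : ∀ x : 𝓞 F, LamW.cj σ (LamW.cj σ x) = x := by
    intro x
    apply RingOfIntegers.ext
    change σ (σ (x : F)) = x
    have e : σ.comp σ = RingHom.id F := LamW.hom_ext h (by simp [h.conj])
    exact congrArg (fun f : F →+* F => f (x : F)) e
  have htop' : P' ≠ ⊤ := by
    intro htop'
    apply htop
    have h1 : Ideal.map (LamW.cj σ) P' = P := by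
      rw [hP', Ideal.map_map]
      have e : (LamW.cj σ).comp (LamW.cj σ) = RingHom.id (𝓞 F) := by
        ext x
        simp [hcc]
      rw [e, Ideal.map_id]
    rw [← h1, htop', Ideal.map_top]
  have h9 : Ideal.absNorm P * Ideal.absNorm P' = 9 := by
    rw [← map_mul, hmul, Ideal.absNorm_span_singleton]
    have h5 : (3 : 𝓞 F) = algebraMap ℤ (𝓞 F) (3 : ℤ) := by simp
    rw [h5, Algebra.norm_algebraMap, RingOfIntegers.rank, h.deg]
    norm_num
  have hn1 : Ideal.absNorm P ≠ 1 := by rwa [Ne, Ideal.absNorm_eq_one_iff]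
  have hn1' : Ideal.absNorm P' ≠ 1 := by rwa [Ne, Ideal.absNorm_eq_one_iff]
  have hnm : Ideal.absNorm P = 3 := by
    have h1 : Ideal.absNorm P ∣ 3 ^ 2 := ⟨_, h9.symm⟩
    rw [Nat.dvd_prime_pow Nat.prime_three] at h1
    obtain ⟨i, hi, hi'⟩ := h1
    interval_cases i
    · exact absurd hi' hn1
    · exact hi'
    · rw [hi'] at h9
      exact absurd (by omega : Ideal.absNorm P' = 1) hn1'
  have hnm' : Ideal.absNorm P' = 3 := by
    rw [hnm] at h9
    omega
  refine ⟨P, P', Ideal.isPrime_of_irreducible_absNorm ?_, Ideal.isPrime_of_irreducible_absNorm ?_,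
    ?_, hnm, hnm', hmul⟩
  · rw [hnm]
    exact Nat.prime_three
  · rw [hnm']
    exact Nat.prime_three
  · intro he
    apply htop
    rw [Ideal.eq_top_iff_one]
    rw [← he] at hsP'
    have h1 : (1 : 𝓞 F) = 3 * 1 + (n : 𝓞 F) * ((LamW.sI h - n) + (-LamW.sI h - n)) := by
      linear_combination (2 : 𝓞 F) * hn'
    rw [h1]
    exact Ideal.add_mem _ (Ideal.mul_mem_right _ _ h3P)
      (Ideal.mul_mem_left _ _ (Ideal.add_mem _ hsP hsP'))

theorem spl_other (h : QF F Δ s σ j) {P : Ideal (𝓞 F)} (hP : Ideal.absNorm P = 3) :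
    ∃ P' : Ideal (𝓞 F), Spl P P' := by
  obtain ⟨Q, Q', hQ⟩ := exists_spl h
  have hPp : P.IsPrime := Ideal.isPrime_of_irreducible_absNorm (by
    rw [hP]
    exact Nat.prime_three)
  have h1 : Q * Q' ≤ P := by
    rw [hQ.mul, Ideal.span_singleton_le_iff_mem]
    exact three_memI hP
  have h3 : (3 : 𝓞 F) ≠ 0 := LamW.three_ne
  rcases hPp.mul_le.1 h1 with h2 | h2
  · have := le_eq hQ.pr (ne_bot_of (three_memI hQ.nm) h3) hPp h2
    subst this
    exact ⟨Q', hQ⟩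
  · have := le_eq hQ.pr' (ne_bot_of (three_memI hQ.nm') h3) hPp h2
    subst this
    exact ⟨Q, hQ.pr', hQ.pr, hQ.ne.symm, hQ.nm', hQ.nm, by rw [mul_comm, hQ.mul]⟩

theorem spl_unique {P P' : Ideal (𝓞 F)} (hP : Spl P P')
    {q : Ideal (𝓞 F)} (hq : q.IsPrime) (h3 : (3 : 𝓞 F) ∈ q) : q = P ∨ q = P' := by
  have h30 : (3 : 𝓞 F) ≠ 0 := LamW.three_ne
  have h1 : P * P' ≤ q := by
    rw [hP.mul, Ideal.span_singleton_le_iff_mem]
    exact h3
  rcases hq.mul_le.1 h1 with h2 | h2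
  · exact Or.inl (le_eq hP.pr (ne_bot_of (three_memI hP.nm) h30) hq h2).symm
  · exact Or.inr (le_eq hP.pr' (ne_bot_of (three_memI hP.nm') h30) hq h2).symm

theorem mult_self {P : Ideal (𝓞 F)} : multiplicity P P = 1 := multiplicity_self

theorem mult_pow {q P : Ideal (𝓞 F)} (hq : q.IsPrime) (hq0 : q ≠ ⊥) (h0 : P ≠ ⊥) (n : ℕ) :
    multiplicity q (P ^ n) = n * multiplicity q P := by
  have hprime : Prime q := Ideal.prime_of_isPrime hq0 hq
  exact (FiniteMultiplicity.of_prime_left hprime h0).multiplicity_pow hprime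

theorem mult_ne {q P : Ideal (𝓞 F)} (hq : q.IsPrime) (hP : P.IsPrime) (h0 : P ≠ ⊥)
    (h : q ≠ P) : multiplicity q P = 0 :=
  LamW.mult_zero fun hle => h (le_eq hP h0 hq hle).symm

/-- the class of `C` is in the subgroup generated by the class of `P` -/
theorem cls_mem (h : QF F Δ s σ j) (hR : ∀ ι : F →+* PadicAlgCl 3, Rigid 3 F ι)
    {P P' : (Ideal (𝓞 F))⁰} (hP : Spl (P : Ideal (𝓞 F)) (P' : Ideal (𝓞 F)))
    (C : (Ideal (𝓞 F))⁰) {k : ℕ} {a : 𝓞 F}
    (ha : (C : Ideal (𝓞 F)) ^ 3 * (P : Ideal (𝓞 F)) ^ k = Ideal.span {a}) :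
    ClassGroup.mk0 C ∈ Subgroup.zpowers (ClassGroup.mk0 P) := by
  classical
  have hC0 : (C : Ideal (𝓞 F)) ≠ ⊥ := nonZeroDivisors.ne_zero C.2
  have hP0 : (P : Ideal (𝓞 F)) ≠ ⊥ := nonZeroDivisors.ne_zero P.2
  have hP0' : (P' : Ideal (𝓞 F)) ≠ ⊥ := nonZeroDivisors.ne_zero P'.2
  have ha0 : a ≠ 0 := by
    rintro rfl
    rw [Ideal.span_singleton_eq_bot.2 rfl] at ha
    exact mul_ne_zero (pow_ne_zero 3 hC0) (pow_ne_zero k hP0) ha
  have haF : (a : F) ≠ 0 := by exact_mod_cast ha0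
  have hpa := powAway_of hC0 hP.pr hP.nm ha ha0
  -- an `S`-unit
  obtain ⟨u, hu0, hu, κ, hκ, hκe⟩ := (stSU stCub F Δ s σ j h hR).1 j (j (a : F))
    (by rwa [Ne, map_eq_zero])
  have hju : j u ≠ 0 := by rwa [Ne, map_eq_zero]
  have hpau : PowAway 3 ((a : F) / u) := by
    intro l hl hl3 i
    obtain ⟨b, hb⟩ := hpa l hl3 i
    exact ⟨b, by rw [map_div₀, norm_div, hu l hl3 i, div_one, hb]⟩
  obtain ⟨b, hb⟩ := hR (emb j) ((a : F) / u) (div_ne_zero haF hu0) hpau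
    (powAt_of (κ := κ) (by rw [map_div₀, hκe]; field_simp))
  have hab : (a : F) = u * b ^ 3 := by
    rw [hb]
    field_simp
  obtain ⟨β, n, hn, hbn⟩ := IsFractionRing.div_surjective (A := 𝓞 F) b
  obtain ⟨μ, ν, hν, huν⟩ := IsFractionRing.div_surjective (A := 𝓞 F) u
  have hn0 : n ≠ 0 := nonZeroDivisors.ne_zero hn
  have hν0 : ν ≠ 0 := nonZeroDivisors.ne_zero hν
  have hnF : algebraMap (𝓞 F) F n ≠ 0 := by simpa using hn0
  have hνF : algebraMap (𝓞 F) F ν ≠ 0 := by simpa using hν0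
  have hμ0 : μ ≠ 0 := by
    rintro rfl
    rw [map_zero, zero_div] at huν
    exact hu0 huν.symm
  have hβ0 : β ≠ 0 := by
    rintro rfl
    rw [map_zero, zero_div] at hbn
    rw [← hbn] at hab
    exact haF (by rw [hab]; ring)
  have heq : a * ν * n ^ 3 = μ * β ^ 3 := by
    apply RingOfIntegers.ext
    have hab' : algebraMap (𝓞 F) F a = u * b ^ 3 := hab
    simp only [map_mul, map_pow]
    rw [hab', ← hbn, ← huν]
    field_simp
  have hspan : ∀ x : 𝓞 F, x ≠ 0 → Ideal.span {x} ≠ ⊥ := by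
    intro x hx
    rwa [Ne, Ideal.span_singleton_eq_bot]
  -- multiplicities away from three
  have hmul : ∀ q : Ideal (𝓞 F), q.IsPrime → q ≠ ⊥ → (3 : 𝓞 F) ∉ q →
      multiplicity q (Ideal.span {n} * (C : Ideal (𝓞 F))) = multiplicity q (Ideal.span {β}) := by
    intro q hq hq0 hq3
    have e1 : multiplicity q (Ideal.span {a}) = 3 * multiplicity q (C : Ideal (𝓞 F)) := by
      rw [← ha, LamW.mult_mul hq0 (pow_ne_zero 3 hC0) (pow_ne_zero k hP0), mult_pow hq hq0 hC0,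
        mult_pow hq hq0 hP0,
        mult_ne hq hP.pr hP0 (fun he => hq3 (by rw [he]; exact three_memI hP.nm)), mul_zero,
        add_zero]
    have e2 := mult_eq_of_su hμ0 hν0 (by rw [← huν] at hu; exact hu) hq hq0 hq3
    have e3 : Ideal.span {a} * Ideal.span {ν} * Ideal.span {n} ^ 3 =
        Ideal.span {μ} * Ideal.span {β} ^ 3 := by
      rw [Ideal.span_singleton_pow, Ideal.span_singleton_pow,
        Ideal.span_singleton_mul_span_singleton, Ideal.span_singleton_mul_span_singleton,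
        Ideal.span_singleton_mul_span_singleton, heq]
    have e4 := congrArg (multiplicity q) e3
    rw [LamW.mult_mul hq0 (mul_ne_zero (hspan a ha0) (hspan ν hν0)) (pow_ne_zero 3 (hspan n hn0)),
      LamW.mult_mul hq0 (hspan a ha0) (hspan ν hν0), mult_pow hq hq0 (hspan n hn0),
      LamW.mult_mul hq0 (hspan μ hμ0) (pow_ne_zero 3 (hspan β hβ0)),
      mult_pow hq hq0 (hspan β hβ0), e1, e2] at e4
    rw [LamW.mult_mul hq0 (hspan n hn0) hC0]
    omega
  set I : Ideal (𝓞 F) := Ideal.span {n} * (C : Ideal (𝓞 F)) with hI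
  set J : Ideal (𝓞 F) := Ideal.span {β} with hJ
  have hI0 : I ≠ ⊥ := mul_ne_zero (hspan n hn0) hC0
  have hJ0 : J ≠ ⊥ := hspan β hβ0
  have hIJ : I * (P : Ideal (𝓞 F)) ^ multiplicity (P : Ideal (𝓞 F)) J *
        (P' : Ideal (𝓞 F)) ^ multiplicity (P' : Ideal (𝓞 F)) J =
      J * (P : Ideal (𝓞 F)) ^ multiplicity (P : Ideal (𝓞 F)) I *
        (P' : Ideal (𝓞 F)) ^ multiplicity (P' : Ideal (𝓞 F)) I := by
    have key : ∀ (K : Ideal (𝓞 F)) (m m' : ℕ), K ≠ ⊥ → ∀ q : Ideal (𝓞 F), q.IsPrime → q ≠ ⊥ →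
        multiplicity q (K * (P : Ideal (𝓞 F)) ^ m * (P' : Ideal (𝓞 F)) ^ m') =
          multiplicity q K + m * multiplicity q (P : Ideal (𝓞 F)) +
            m' * multiplicity q (P' : Ideal (𝓞 F)) := by
      intro K m m' hK q hq hq0
      rw [LamW.mult_mul hq0 (mul_ne_zero hK (pow_ne_zero _ hP0)) (pow_ne_zero _ hP0'),
        LamW.mult_mul hq0 hK (pow_ne_zero _ hP0), mult_pow hq hq0 hP0, mult_pow hq hq0 hP0']
    refine mult_ext (mul_ne_zero (mul_ne_zero hI0 (pow_ne_zero _ hP0)) (pow_ne_zero _ hP0'))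
      (mul_ne_zero (mul_ne_zero hJ0 (pow_ne_zero _ hP0)) (pow_ne_zero _ hP0')) ?_
    intro q hq hq0
    rw [key I _ _ hI0 q hq hq0, key J _ _ hJ0 q hq hq0]
    by_cases hq3 : (3 : 𝓞 F) ∈ q
    · rcases spl_unique hP hq hq3 with rfl | rfl
      · rw [mult_self, mult_ne hP.pr hP.pr' hP0' hP.ne]
        ring
      · rw [mult_self, mult_ne hP.pr' hP.pr hP0 hP.ne.symm]
        ring
    · rw [hmul q hq hq0 hq3,
        mult_ne hq hP.pr hP0 (fun he => hq3 (by rw [he]; exact three_memI hP.nm)),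
        mult_ne hq hP.pr' hP0' (fun he => hq3 (by rw [he]; exact three_memI hP.nm'))]
      ring
  -- classes
  have hprin : ∀ x : 𝓞 F, ∀ hx : Ideal.span {x} ∈ (Ideal (𝓞 F))⁰,
      ClassGroup.mk0 ⟨Ideal.span {x}, hx⟩ = 1 := by
    intro x hx
    rw [ClassGroup.mk0_eq_one_iff]
    exact ⟨x, rfl⟩
  have hcPP : ClassGroup.mk0 P * ClassGroup.mk0 P' = 1 := by
    rw [← map_mul, ClassGroup.mk0_eq_one_iff]
    exact ⟨3, by rw [Submonoid.coe_mul, hP.mul]⟩
  have hmem : ∀ K : Ideal (𝓞 F), K ≠ ⊥ → K ∈ (Ideal (𝓞 F))⁰ := fun K hK =>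
    mem_nonZeroDivisors_of_ne_zero hK
  let n0 : (Ideal (𝓞 F))⁰ := ⟨Ideal.span {n}, hmem _ (hspan n hn0)⟩
  let β0 : (Ideal (𝓞 F))⁰ := ⟨Ideal.span {β}, hmem _ (hspan β hβ0)⟩
  have h1 : n0 * C * P ^ multiplicity (P : Ideal (𝓞 F)) J *
      P' ^ multiplicity (P' : Ideal (𝓞 F)) J =
      β0 * P ^ multiplicity (P : Ideal (𝓞 F)) I * P' ^ multiplicity (P' : Ideal (𝓞 F)) I := by
    apply Subtype.ext
    simpa [n0, β0] using hIJ
  have h2 := congrArg ClassGroup.mk0 h1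
  simp only [map_mul, map_pow] at h2
  rw [hprin n, hprin β, one_mul, one_mul] at h2
  have h3 : ClassGroup.mk0 P' = (ClassGroup.mk0 P)⁻¹ := eq_inv_of_mul_eq_one_right hcPP
  have hg : ClassGroup.mk0 P ∈ Subgroup.zpowers (ClassGroup.mk0 P) :=
    Subgroup.mem_zpowers _
  have h4 : ClassGroup.mk0 C = ClassGroup.mk0 P ^ multiplicity (P : Ideal (𝓞 F)) I *
      (ClassGroup.mk0 P)⁻¹ ^ multiplicity (P' : Ideal (𝓞 F)) I *
      ((ClassGroup.mk0 P ^ multiplicity (P : Ideal (𝓞 F)) J)⁻¹ *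
      ((ClassGroup.mk0 P)⁻¹ ^ multiplicity (P' : Ideal (𝓞 F)) J)⁻¹) := by
    rw [h3] at h2
    rw [← h2]
    group
  rw [h4]
  exact Subgroup.mul_mem _ (Subgroup.mul_mem _ (Subgroup.pow_mem _ hg _)
    (Subgroup.pow_mem _ (Subgroup.inv_mem _ hg) _))
    (Subgroup.mul_mem _ (Subgroup.inv_mem _ (Subgroup.pow_mem _ hg _))
      (Subgroup.inv_mem _ (Subgroup.pow_mem _ (Subgroup.inv_mem _ hg) _)))

theorem cls_of (h : QF F Δ s σ j) (hR : ∀ ι : F →+* PadicAlgCl 3, Rigid 3 F ι)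
    (P : (Ideal (𝓞 F))⁰) (hP : Ideal.absNorm (P : Ideal (𝓞 F)) = 3) :
    ¬ 3 ∣ (Subgroup.zpowers (ClassGroup.mk0 P)).index := by
  classical
  intro hdvd
  set H := Subgroup.zpowers (ClassGroup.mk0 P) with hH
  obtain ⟨P'', hP''⟩ := spl_other h hP
  have hP'0 : P'' ≠ ⊥ := ne_bot_of (three_memI hP''.nm') LamW.three_ne
  let P' : (Ideal (𝓞 F))⁰ := ⟨P'', mem_nonZeroDivisors_of_ne_zero hP'0⟩
  have : Fact (Nat.Prime 3) := ⟨Nat.prime_three⟩
  rw [Subgroup.index] at hdvd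
  obtain ⟨x, hx⟩ := exists_prime_orderOf_dvd_card' (G := ClassGroup (𝓞 F) ⧸ H) 3 hdvd
  obtain ⟨c, rfl⟩ := QuotientGroup.mk_surjective x
  obtain ⟨C, rfl⟩ := ClassGroup.mk0_surjective c
  have hc : ClassGroup.mk0 C ∉ H := by
    intro hc
    have h1 : ((ClassGroup.mk0 C : ClassGroup (𝓞 F)) : ClassGroup (𝓞 F) ⧸ H) = 1 :=
      (QuotientGroup.eq_one_iff _).2 hc
    rw [h1, orderOf_one] at hx
    exact absurd hx (by norm_num)
  have hc3 : (ClassGroup.mk0 C) ^ 3 ∈ H := by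
    rw [← QuotientGroup.eq_one_iff, QuotientGroup.mk_pow, ← hx]
    exact pow_orderOf_eq_one _
  apply hc
  have h1 : ((ClassGroup.mk0 C) ^ 3)⁻¹ ∈ Submonoid.powers (ClassGroup.mk0 P) := by
    rw [mem_powers_iff_mem_zpowers]
    exact H.inv_mem hc3
  obtain ⟨k, hk⟩ := h1
  have hk' : ClassGroup.mk0 P ^ k = ((ClassGroup.mk0 C) ^ 3)⁻¹ := hk
  have h2 : ClassGroup.mk0 (C ^ 3 * P ^ k) = 1 := by
    rw [map_mul, map_pow, map_pow, hk', mul_inv_cancel]
  rw [ClassGroup.mk0_eq_one_iff] at h2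
  obtain ⟨a, ha⟩ := h2
  exact cls_mem (P' := P') h hR hP'' C (k := k) (a := a) (by simpa using ha)

theorem three_adic {X : ℚ_[3]} (hX : ‖X‖ = 1) (h : ‖X ^ 4 - 1‖ ≤ 1 / 9) :
    ∃ κ : ℚ_[3], κ ^ 3 = X := by
  obtain ⟨Y, rfl⟩ : ∃ Y : ℤ_[3], (Y : ℚ_[3]) = X := ⟨⟨X, hX.le⟩, rfl⟩
  have hY : ¬ (3 : ℤ_[3]) ∣ Y := by
    rw [norm_dvd, hX]
    exact lt_irrefl 1
  have h1 := z3_dvd Y 1 hY
  rw [one_mul, norm_dvd] at h1
  have h2 : ‖(2 : ℚ_[3])‖ = 1 := LamW.norm_two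
  have hfac : ((Y : ℚ_[3])) ^ 4 - 1 = (Y - 1) * (Y + 1) * (Y ^ 2 + 1) := by ring
  have h3 : ‖(Y : ℚ_[3]) ^ 2 + 1‖ = 1 := by
    have e : (Y : ℚ_[3]) ^ 2 + 1 = ((Y ^ 2 - 1 ^ 2 : ℤ_[3]) : ℚ_[3]) + 2 := by
      push_cast
      ring
    rw [e, IsUltrametricDist.norm_add_eq_max_of_norm_ne_norm (by rw [h2]; exact h1.ne), h2]
    exact max_eq_right h1.le
  have h4 : ∀ W : ℤ_[3], ‖(W : ℚ_[3]) - 1‖ < 1 → ‖(W : ℚ_[3]) ^ 4 - 1‖ ≤ 1 / 9 →
      ‖(W : ℚ_[3]) ^ 2 + 1‖ = 1 → ∃ κ : ℚ_[3], κ ^ 3 = W := by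
    intro W hW1 hW4 hW2
    have h5 : ‖(W : ℚ_[3]) + 1‖ = 1 := by
      have e : (W : ℚ_[3]) + 1 = (W - 1) + 2 := by ring
      rw [e, IsUltrametricDist.norm_add_eq_max_of_norm_ne_norm (by rw [h2]; exact hW1.ne), h2]
      exact max_eq_right hW1.le
    have h6 : ‖(W : ℚ_[3]) - 1‖ ≤ 1 / 9 := by
      have e : (W : ℚ_[3]) ^ 4 - 1 = (W - 1) * (W + 1) * (W ^ 2 + 1) := by ring
      rwa [e, norm_mul, norm_mul, h5, hW2, mul_one, mul_one] at hW4
    have h9 : ‖(9 : ℚ_[3])‖ = 1 / 9 := by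
      have e : (9 : ℚ_[3]) = 3 * 3 := by norm_num
      rw [e, norm_mul, LamW.norm_three]
      norm_num
    have h7 : ‖((W : ℚ_[3]) - 1) / 9‖ ≤ 1 := by
      rw [norm_div, h9, div_le_one (by norm_num)]
      exact h6
    obtain ⟨w, hw⟩ : ∃ w : ℤ_[3], (w : ℚ_[3]) = ((W : ℚ_[3]) - 1) / 9 := ⟨⟨_, h7⟩, rfl⟩
    obtain ⟨z, hz⟩ := BKDH.Cub.one_add_nine w
    refine ⟨z, ?_⟩
    have e9 : ((9 : ℤ_[3]) : ℚ_[3]) = 9 := by norm_cast
    have h8 : (z : ℚ_[3]) ^ 3 = 1 + 9 * w := by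
      rw [← e9]
      exact_mod_cast congrArg (fun y : ℤ_[3] => (y : ℚ_[3])) hz
    rw [h8, hw]
    ring
  have h5 : ‖(Y : ℚ_[3]) - 1‖ < 1 ∨ ‖(Y : ℚ_[3]) + 1‖ < 1 := by
    by_contra hcon
    push Not at hcon
    have e : ((Y ^ 2 - 1 ^ 2 : ℤ_[3]) : ℚ_[3]) = (Y - 1) * (Y + 1) := by
      push_cast
      ring
    rw [e, norm_mul] at h1
    nlinarith [hcon.1, hcon.2]
  rcases h5 with h5 | h5
  · exact h4 Y h5 h h3
  · obtain ⟨κ, hκ⟩ := h4 (-Y) (by
      have e : ((-Y : ℤ_[3]) : ℚ_[3]) - 1 = -((Y : ℚ_[3]) + 1) := by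
        rw [PadicInt.coe_neg]
        ring
      rw [e, norm_neg]
      exact h5) (by
      have e : ((-Y : ℤ_[3]) : ℚ_[3]) ^ 4 - 1 = (Y : ℚ_[3]) ^ 4 - 1 := by
        rw [PadicInt.coe_neg]
        ring
      rw [e]
      exact h) (by
      have e : ((-Y : ℤ_[3]) : ℚ_[3]) ^ 2 + 1 = (Y : ℚ_[3]) ^ 2 + 1 := by
        rw [PadicInt.coe_neg]
        ring
      rw [e]
      exact h3)
    refine ⟨-κ, ?_⟩
    rw [PadicInt.coe_neg] at hκ
    linear_combination -hκ

theorem rig_of (h : QF F Δ s σ j) (hR : ∀ ι : F →+* PadicAlgCl 3, Rigid 3 F ι)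
    (P P' : (Ideal (𝓞 F))⁰) (hP : (P : Ideal (𝓞 F)).IsPrime) (hP' : (P' : Ideal (𝓞 F)).IsPrime)
    (hne : P ≠ P') (hn : Ideal.absNorm (P : Ideal (𝓞 F)) = 3)
    (hn' : Ideal.absNorm (P' : Ideal (𝓞 F)) = 3) (x : 𝓞 F)
    (hx : (P : Ideal (𝓞 F)) ^ orderOf (ClassGroup.mk0 P) = Ideal.span {x}) :
    x ^ 4 - 1 ∉ (P' : Ideal (𝓞 F)) ^ 2 := by
  classical
  intro hmem
  have hP0 : (P : Ideal (𝓞 F)) ≠ ⊥ := nonZeroDivisors.ne_zero P.2
  have hP0' : (P' : Ideal (𝓞 F)) ≠ ⊥ := nonZeroDivisors.ne_zero P'.2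
  set m := orderOf (ClassGroup.mk0 P) with hm
  have hm0 : 0 < m := orderOf_pos _
  have hx0 : x ≠ 0 := by
    rintro rfl
    rw [Ideal.span_singleton_eq_bot.2 rfl] at hx
    exact pow_ne_zero m hP0 hx
  have h3' : ((3 : ℕ) : 𝓞 F) ∈ (P' : Ideal (𝓞 F)) := by exact_mod_cast three_memI hn'
  obtain ⟨ι, hι⟩ := exists_emb (P' : Ideal (𝓞 F)) hP0' (l := 3) h3'
  obtain ⟨j', hj'⟩ : ∃ j' : F →+* ℚ_[3], ι = emb j' := by
    rcases LamW.emb_cases h ι with he | he
    · exact ⟨j, he⟩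
    · exact ⟨j.comp σ, by rw [he]; rfl⟩
  subst hj'
  have hlt : ∀ y ∈ (P' : Ideal (𝓞 F)), ‖j' (y : F)‖ ≤ 1 / 3 := by
    intro y hy
    rw [hι, mem_pr, norm_emb] at hy
    exact norm_lt_one3 hy
  have hlt2 : ‖j' ((x ^ 4 - 1 : 𝓞 F) : F)‖ ≤ 1 / 9 := by
    rw [pow_two] at hmem
    refine Submodule.mul_induction_on hmem ?_ ?_
    · intro a ha b hb
      simp only [map_mul, norm_mul]
      have h1 := hlt a ha
      have h2 := hlt b hb
      have h3 := norm_nonneg (j' (a : F))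
      have h4 := norm_nonneg (j' (b : F))
      nlinarith
    · intro a b ha hb
      simp only [map_add]
      exact (IsUltrametricDist.norm_add_le_max _ _).trans (max_le ha hb)
  have hx1 : ‖j' (x : F)‖ = 1 := by
    have h1 : x ∉ (P' : Ideal (𝓞 F)) := by
      intro hxP
      have h2 : (P : Ideal (𝓞 F)) ^ m ≤ P' := by
        rw [hx, Ideal.span_singleton_le_iff_mem]
        exact hxP
      have h3 := hP'.le_of_pow_le h2
      exact hne (Subtype.ext (le_eq hP hP0 hP' h3))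
    have h2 := norm_emb_le (emb j') x
    rw [hι, mem_pr, not_lt] at h1
    rw [norm_emb] at h1 h2
    exact le_antisymm h2 h1
  obtain ⟨κ, hκ⟩ := three_adic hx1 (by
    rw [← map_pow, ← map_one j', ← map_sub]
    have e : ((x ^ 4 - 1 : 𝓞 F) : F) = (x : F) ^ 4 - 1 := by simp
    rw [← e]
    exact hlt2)
  have hpa : PowAway 3 (x : F) := by
    intro l hl hl3 i
    refine ⟨1, ?_⟩
    have h1 : (3 : 𝓞 F) ^ m ∈ Ideal.span {x} := by
      rw [← hx]
      exact Ideal.pow_mem_pow (three_memI hn) m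
    obtain ⟨y, hy⟩ := Ideal.mem_span_singleton.1 h1
    have h2 : ‖i ((3 : 𝓞 F) : F)‖ = 1 := by
      have e : i ((3 : 𝓞 F) : F) = ((3 : ℕ) : PadicAlgCl l) := by
        rw [LamW.coe_three, map_ofNat]
        norm_num
      rw [e, norm_nat_ne Nat.prime_three hl3]
    have h3 := congrArg (fun z : 𝓞 F => ‖i (z : F)‖) hy
    simp only [map_pow, map_mul, norm_pow, norm_mul, h2, one_pow] at h3
    have h4 := norm_emb_le i x
    have h5 := norm_emb_le i y
    have h6 := norm_nonneg (i (x : F))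
    have h7 := norm_nonneg (i (y : F))
    rw [map_one, norm_one, one_pow]
    nlinarith
  obtain ⟨b, hb⟩ := hR (emb j') (x : F) (by exact_mod_cast hx0) hpa (powAt_of hκ)
  have hbi : IsIntegral ℤ b := by
    apply IsIntegral.of_pow (n := 3) (by norm_num)
    rw [hb]
    exact x.2
  obtain ⟨b', rfl⟩ : ∃ b' : 𝓞 F, (b' : F) = b := ⟨⟨b, hbi⟩, rfl⟩
  have hb3 : b' ^ 3 = x := by
    apply RingOfIntegers.ext
    simpa using hb
  have hprime : Prime (P : Ideal (𝓞 F)) := Ideal.prime_of_isPrime hP0 hP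
  have h1 : Ideal.span {b'} ^ 3 = (P : Ideal (𝓞 F)) ^ m := by
    rw [hx, Ideal.span_singleton_pow, hb3]
  have h2 : Ideal.span {b'} ∣ (P : Ideal (𝓞 F)) ^ m := by
    rw [← h1]
    exact dvd_pow_self _ (by norm_num)
  rw [dvd_prime_pow hprime] at h2
  obtain ⟨k, -, hk⟩ := h2
  have hk' : Ideal.span {b'} = (P : Ideal (𝓞 F)) ^ k := associated_iff_eq.1 hk
  rw [hk', ← pow_mul] at h1
  have h3 : k * 3 = m := by
    by_contra hcon
    have h5 := congrArg (multiplicity (P : Ideal (𝓞 F))) h1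
    rw [mult_pow hP hP0 hP0, mult_pow hP hP0 hP0, mult_self] at h5
    omega
  have h4 : (ClassGroup.mk0 P) ^ k = 1 := by
    rw [← map_pow, ClassGroup.mk0_eq_one_iff]
    exact ⟨b', by rw [SubmonoidClass.coe_pow, ← hk']⟩
  have h5 : m ∣ k := orderOf_dvd_of_pow_eq_one h4
  have hk0 : 0 < k := by omega
  have := Nat.le_of_dvd hk0 h5
  omega

end ideals

end RigOAux

open RigOAux in
/-- the hypotheses on the field of part (C3) from rigidity -/
theorem fieldC3_of_rigidAll {D : ℕ} {F : Type} [Field F] [NumberField F] {s : F}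
    (hD : IsFund D) (h3 : D % 3 = 2) (hR : RigidAll D) (hfin : Module.finrank ℚ F = 2)
    (hs : s ^ 2 = -(D : F)) : FieldC3 D F s := by
  obtain ⟨σ, j, h⟩ := stQF F D s hD h3 hs hfin
  have hRF : ∀ ι : F →+* PadicAlgCl 3, Rigid 3 F ι := fun ι => rigidF hR hfin hs j ι
  obtain ⟨P, P', hP⟩ := exists_spl h
  exact ⟨LamW.delta_pos h, hfin, hs, ⟨P, P', hP.pr, hP.pr', hP.ne, hP.nm, hP.nm'⟩,
    fun P hP => cls_of h hRF P hP, rig_of h hRF⟩

end

end Pool.Agent.Lib.MP_7c08ba_nt.RZC3
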