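import Pool.Agent.Lib.MP_7c08ba_nt.RZ.Basic3

set_option autoImplicit false

/-! (N3) adapted bases for a prime of norm 3. -/

namespace Pool.Agent.Lib.MP_7c08ba_nt.RZC3

open UpperHalfPlane ModularForm EisensteinSeries MatrixGroups NumberField RZC
open scoped Real Manifold ComplexConjugate

noncomputable section

namespace Adapt3Aux

/-! ### sublattices of index 3 -/

lemma lat_le {x y : ℂ} {N : Submodule ℤ ℂ} (hx : x ∈ N) (hy : y ∈ N) : lat x y ≤ N := by
  rw [lat, Submodule.span_le]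
  rintro z (rfl | rfl)
  · exact hx
  · exact hy

lemma left_mem (x y : ℂ) : x ∈ lat x y := mem_lat.2 ⟨1, 0, by simp⟩

lemma right_mem (x y : ℂ) : y ∈ lat x y := mem_lat.2 ⟨0, 1, by simp⟩

lemma int_mul_mem {N : Submodule ℤ ℂ} {x : ℂ} (hx : x ∈ N) (n : ℤ) : (n : ℂ) * x ∈ N := by
  have := N.smul_mem n hx
  rwa [zsmul_eq_mul] at this

/-- three times an element -/
lemma three_mem {N L : Submodule ℤ ℂ}
    (h : N.toAddSubgroup.relIndex L.toAddSubgroup = 3) {x : ℂ} (hx : x ∈ L) : 3 * x ∈ N := by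
  have h1 := AddSubgroup.nsmul_index_mem (N.toAddSubgroup.addSubgroupOf L.toAddSubgroup)
    (⟨x, hx⟩ : L.toAddSubgroup)
  have h2 : (N.toAddSubgroup.addSubgroupOf L.toAddSubgroup).index = 3 := h
  rw [h2, AddSubgroup.mem_addSubgroupOf] at h1
  simpa using h1

/-- an element outside of the sublattice generates the quotient -/
lemma gen {N L : Submodule ℤ ℂ}
    (h : N.toAddSubgroup.relIndex L.toAddSubgroup = 3) {x y : ℂ} (hx : x ∈ L) (hy : y ∈ L)
    (hxN : x ∉ N) : ∃ k : ℤ, y - k * x ∈ N := by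
  set H := N.toAddSubgroup.addSubgroupOf L.toAddSubgroup with hH
  have h2 : Nat.card (L.toAddSubgroup ⧸ H) = 3 := h
  have : Fact (Nat.Prime 3) := ⟨Nat.prime_three⟩
  have hne : (QuotientAddGroup.mk (⟨x, hx⟩ : L.toAddSubgroup) : L.toAddSubgroup ⧸ H) ≠ 0 := by
    intro h0
    rw [QuotientAddGroup.eq_zero_iff, hH, AddSubgroup.mem_addSubgroupOf] at h0
    exact hxN h0
  have h3 := zmultiples_eq_top_of_prime_card h2 hne
  have h4 : (QuotientAddGroup.mk (⟨y, hy⟩ : L.toAddSubgroup) : L.toAddSubgroup ⧸ H) ∈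
      AddSubgroup.zmultiples
        (QuotientAddGroup.mk (⟨x, hx⟩ : L.toAddSubgroup) : L.toAddSubgroup ⧸ H) := by
    rw [h3]
    exact AddSubgroup.mem_top _
  obtain ⟨k, hk⟩ := AddSubgroup.mem_zmultiples_iff.1 h4
  refine ⟨k, ?_⟩
  rw [← QuotientAddGroup.mk_zsmul, QuotientAddGroup.eq, hH, AddSubgroup.mem_addSubgroupOf] at hk
  have h5 : -(k • x) + y ∈ N := by simpa using hk
  rw [zsmul_eq_mul] at h5
  convert h5 using 1
  ring

lemma not_le_of_three {N L : Submodule ℤ ℂ}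
    (h : N.toAddSubgroup.relIndex L.toAddSubgroup = 3) : ¬ L ≤ N := by
  intro h1
  have h2 : N.toAddSubgroup.relIndex L.toAddSubgroup = 1 := AddSubgroup.relIndex_eq_one.2 h1
  rw [h] at h2
  exact absurd h2 (by norm_num)

lemma form {N : Submodule ℤ ℂ} {x y : ℂ} (hN : N ≤ lat x y)
    (h : N.toAddSubgroup.relIndex (lat x y).toAddSubgroup = 3) (hx : x ∈ N) :
    N = lat x (3 * y) := by
  have hy : y ∉ N := fun hy => not_le_of_three h (lat_le hx hy)
  have h2 : 3 * y ∈ N := three_mem h (right_mem x y)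
  refine le_antisymm (fun z hz => ?_) (lat_le hx h2)
  obtain ⟨m, n, rfl⟩ := mem_lat.1 (hN hz)
  have h3 : (n : ℂ) * y ∈ N := by
    have := N.sub_mem hz (int_mul_mem hx m)
    rwa [add_sub_cancel_left] at this
  by_cases hn : (3 : ℤ) ∣ n
  · obtain ⟨k, rfl⟩ := hn
    exact mem_lat.2 ⟨m, k, by push_cast; ring⟩
  · exfalso
    apply hy
    obtain ⟨a, b, hab⟩ := (Int.prime_three.coprime_iff_not_dvd).2 hn
    have h4 := N.add_mem (int_mul_mem h2 a) (int_mul_mem h3 b)
    have h5 : (a : ℂ) * 3 + b * n = 1 := by exact_mod_cast hab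
    have h6 : (a : ℂ) * (3 * y) + b * (n * y) = y := by
      linear_combination y * h5
    rwa [h6] at h4

lemma lat_swap (x y : ℂ) : lat x y = lat y x := by
  rw [lat, lat, Set.pair_comm]

lemma lat_sub (x y : ℂ) (k : ℤ) : lat (x - k * y) y = lat x y := by
  apply le_antisymm
  · exact lat_le (sub_mem (left_mem x y) (int_mul_mem (right_mem x y) k)) (right_mem x y)
  · refine lat_le ?_ (right_mem _ _)
    have := add_mem (left_mem (x - k * y) y) (int_mul_mem (right_mem (x - k * y) y) k)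
    rwa [sub_add_cancel] at this

lemma lat_neg (x y : ℂ) : lat (-x) y = lat x y := by
  apply le_antisymm
  · exact lat_le (neg_mem (left_mem x y)) (right_mem x y)
  · refine lat_le ?_ (right_mem _ _)
    have := neg_mem (left_mem (-x) y)
    rwa [neg_neg] at this

/-- a sublattice of index 3 -/
lemma three_step {N : Submodule ℤ ℂ} {x y : ℂ} (hN : N ≤ lat x y)
    (h : N.toAddSubgroup.relIndex (lat x y).toAddSubgroup = 3) :
    ∃ u v : ℂ, lat u v = lat x y ∧ N = lat u (3 * v) := by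
  by_cases hx : x ∈ N
  · exact ⟨x, y, rfl, form hN h hx⟩
  · obtain ⟨k, hk⟩ := gen h (left_mem x y) (right_mem x y) hx
    have e : lat (y - k * x) x = lat x y := by rw [lat_sub, lat_swap]
    refine ⟨y - k * x, x, e, ?_⟩
    rw [← e] at hN h
    exact form hN h hk

/-- two steps of index 3 with cyclic quotient -/
lemma nine_step {L₂ L₁ : Submodule ℤ ℂ} {x y : ℂ} (h1 : L₁ ≤ lat x y)
    (h2 : L₂ ≤ L₁) (i1 : L₁.toAddSubgroup.relIndex (lat x y).toAddSubgroup = 3)
    (i2 : L₂.toAddSubgroup.relIndex L₁.toAddSubgroup = 3)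
    (hc : ∃ z ∈ lat x y, 3 * z ∉ L₂) :
    ∃ u v : ℂ, lat u v = lat x y ∧ L₁ = lat u (3 * v) ∧ L₂ = lat u (9 * v) := by
  obtain ⟨u, v, e0, e1⟩ := three_step h1 i1
  subst e1
  have hv : 3 * v ∉ L₂ := by
    intro hv
    obtain ⟨z, hz, hz2⟩ := hc
    rw [← e0] at hz
    obtain ⟨m, n, rfl⟩ := mem_lat.1 hz
    apply hz2
    have h3 : 3 * u ∈ L₂ := three_mem i2 (left_mem _ _)
    have h4 := L₂.add_mem (int_mul_mem h3 m) (int_mul_mem hv n)
    convert h4 using 1
    ring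
  obtain ⟨k, hk⟩ := gen i2 (right_mem u (3 * v)) (left_mem u (3 * v)) hv
  refine ⟨u - k * (3 * v), v, ?_, (lat_sub _ _ _).symm, ?_⟩
  · rw [← e0]
    have := lat_sub u v (3 * k)
    rw [← this]
    congr 1
    push_cast
    ring
  · rw [← lat_sub u (3 * v) k] at h2 i2
    rw [form h2 i2 hk]
    congr 1
    ring

/-! ### orientation -/

lemma im_ne {x y u v : ℂ} (h : Pos x y) (e : lat u v = lat x y) : (u / v).im ≠ 0 := by
  intro h0
  have hx : x ∈ lat u v := by rw [e]; exact left_mem x y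
  have hy : y ∈ lat u v := by rw [e]; exact right_mem x y
  obtain ⟨m, n, hx⟩ := mem_lat.1 hx
  obtain ⟨m', n', hy⟩ := mem_lat.1 hy
  by_cases hv : v = 0
  · subst hv
    have h1 : x / y = ((m / m' : ℝ) : ℂ) := by
      have hu : u ≠ 0 := by
        rintro rfl
        exact h.ne (by rw [← hy]; simp)
      have hm' : (m' : ℂ) ≠ 0 := by
        intro h1
        exact h.ne (by rw [← hy, h1]; simp)
      rw [← hx, ← hy]
      push_cast
      field_simp
      ring
    unfold Pos at h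
    rw [h1, Complex.ofReal_im] at h
    exact lt_irrefl _ h
  · have hr : u = ((u / v).re : ℂ) * v := by
      have h1 : u / v = ((u / v).re : ℂ) := Complex.ext rfl (by simpa using h0)
      rw [← h1]
      field_simp
    set r := (u / v).re with hrd
    have hx' : x = ((m * r + n : ℝ) : ℂ) * v := by
      rw [← hx, hr]
      push_cast
      ring
    have hy' : y = ((m' * r + n' : ℝ) : ℂ) * v := by
      rw [← hy, hr]
      push_cast
      ring
    have h1 : x / y = (((m * r + n) / (m' * r + n') : ℝ) : ℂ) := by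
      rw [hx', hy', mul_div_mul_right _ _ hv]
      push_cast
      rfl
    unfold Pos at h
    rw [h1, Complex.ofReal_im] at h
    exact lt_irrefl _ h

/-! ### arithmetic -/

/-- `3` is not in the square of a prime of norm 3 -/
lemma three_not_mem {D : ℕ} {F : Type} [Field F] [NumberField F] {s : F}
    (h : FieldC3 D F s) {P : Ideal (𝓞 F)} (hP : P.IsPrime)
    (hN : Ideal.absNorm P = 3) : (3 : 𝓞 F) ∉ P ^ 2 := by
  intro h2
  have hP0 : P ≠ ⊥ := by
    rintro rfl
    rw [Ideal.absNorm_bot] at hN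
    exact absurd hN (by norm_num)
  have hn3 : Ideal.absNorm (Ideal.span {(3 : 𝓞 F)}) = 9 := by
    rw [Ideal.absNorm_span_singleton]
    have h3 : (3 : 𝓞 F) = algebraMap ℤ (𝓞 F) 3 := by simp
    rw [h3, Algebra.norm_algebraMap, RingOfIntegers.rank, h.fin]
    norm_num
  obtain ⟨J, hJ⟩ : P ^ 2 ∣ Ideal.span {(3 : 𝓞 F)} := by
    rw [Ideal.dvd_span_singleton]
    exact h2
  have hJ1 : Ideal.absNorm J = 1 := by
    have h4 := congrArg Ideal.absNorm hJ
    rw [hn3, map_mul, map_pow, hN] at h4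
    omega
  rw [Ideal.absNorm_eq_one_iff] at hJ1
  rw [hJ1, Ideal.mul_top] at hJ
  have key : ∀ Q : Ideal (𝓞 F), Q.IsPrime → Ideal.absNorm Q = 3 → P = Q := by
    intro Q hQ hQN
    have h5 : (3 : 𝓞 F) ∈ Q := by
      have := Ideal.absNorm_mem Q
      rw [hQN] at this
      exact_mod_cast this
    have h6 : P ^ 2 ≤ Q := by
      rw [← hJ, Ideal.span_singleton_le_iff_mem]
      exact h5
    have := hQ
    have h7 : P ≤ Q := Ideal.IsPrime.le_of_pow_le h6
    exact (hP.isMaximal hP0).eq_of_le hQ.ne_top h7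
  obtain ⟨Q, Q', hQ, hQ', hne, hQN, hQN'⟩ := h.split
  exact hne ((key Q hQ hQN).symm.trans (key Q' hQ' hQN'))

lemma IsB.congr {F : Type} [Field F] [NumberField F] {σ : F →+* ℂ} {a : Ideal (𝓞 F)}
    {x y u v : ℂ} (h : IsB σ a x y) (e : lat u v = lat x y) (hp : Pos u v) : IsB σ a u v :=
  ⟨hp, fun z => by rw [e]; exact h.2 z⟩

end Adapt3Aux

open Adapt3Aux in
/-- (N3) adapted bases for a prime of norm 3 -/
theorem stAdapt3 (h : StBasis3) : StAdapt3 := by
  intro D F _ _ s hF σ P hP hN b hb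
  have hP0 : P ≠ ⊥ := by
    rintro rfl
    rw [Ideal.absNorm_bot] at hN
    exact absurd hN (by norm_num)
  have hb1 : P * b ≠ ⊥ := mul_ne_zero hP0 hb
  have hb2 : P ^ 2 * b ≠ ⊥ := mul_ne_zero (pow_ne_zero 2 hP0) hb
  have htop : (⊤ : Ideal (𝓞 F)) ≠ ⊥ := top_ne_bot
  obtain ⟨κ, -, h⟩ := h D F s hF σ
  obtain ⟨⟨v₁, v₂, hv⟩, -⟩ := h ⊤ htop
  obtain ⟨⟨x, y, h0⟩, c0⟩ := h b hb
  obtain ⟨⟨x₁, y₁, h1⟩, c1⟩ := h (P * b) hb1
  obtain ⟨⟨x₂, y₂, h2⟩, c2⟩ := h (P ^ 2 * b) hb2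
  have j0 := ((c0 x y h0).2 v₁ v₂ hv)
  have j1 := ((c1 x₁ y₁ h1).2 v₁ v₂ hv)
  have j2 := ((c2 x₂ y₂ h2).2 v₁ v₂ hv)
  have l1 : lat x₁ y₁ ≤ lat x y := by
    intro z hz
    obtain ⟨t, ht, rfl⟩ := (h1.2 z).1 hz
    have ht' : t ∈ b := (Ideal.mul_le_right : P * b ≤ b) ht
    exact (h0.2 _).2 ⟨t, ht', rfl⟩
  have l2 : lat x₂ y₂ ≤ lat x₁ y₁ := by
    intro z hz
    obtain ⟨t, ht, rfl⟩ := (h2.2 z).1 hz
    rw [pow_two, mul_assoc] at ht
    have ht' : t ∈ P * b := (Ideal.mul_le_right : P * (P * b) ≤ P * b) ht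
    exact (h1.2 _).2 ⟨t, ht', rfl⟩
  have hbN : Ideal.absNorm b ≠ 0 := by
    rw [Ne, Ideal.absNorm_eq_zero_iff]
    exact hb
  have n1 : Ideal.absNorm (P * b) = 3 * Ideal.absNorm b := by rw [map_mul, hN]
  have n2 : Ideal.absNorm (P ^ 2 * b) = 3 * (3 * Ideal.absNorm b) := by
    rw [map_mul, map_pow, hN]
    ring
  have i1 : (lat x₁ y₁).toAddSubgroup.relIndex (lat x y).toAddSubgroup = 3 := by
    have := AddSubgroup.relIndex_mul_relIndex (lat x₁ y₁).toAddSubgroup (lat x y).toAddSubgroup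
      (lat v₁ v₂).toAddSubgroup l1 j0.1
    rw [j0.2, j1.2, n1] at this
    exact Nat.eq_of_mul_eq_mul_right (Nat.pos_of_ne_zero hbN) this
  have i2 : (lat x₂ y₂).toAddSubgroup.relIndex (lat x₁ y₁).toAddSubgroup = 3 := by
    have := AddSubgroup.relIndex_mul_relIndex (lat x₂ y₂).toAddSubgroup
      (lat x₁ y₁).toAddSubgroup (lat v₁ v₂).toAddSubgroup l2 j1.1
    rw [j1.2, j2.2, n1, n2] at this
    exact Nat.eq_of_mul_eq_mul_right (by have := Nat.pos_of_ne_zero hbN; positivity) this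
  have hc : ∃ z ∈ lat x y, 3 * z ∉ lat x₂ y₂ := by
    by_contra hcon
    push Not at hcon
    apply three_not_mem hF hP hN
    have hdvd : P ^ 2 * b ∣ Ideal.span {(3 : 𝓞 F)} * b := by
      rw [Ideal.dvd_iff_le, Ideal.span_singleton_mul_le_iff]
      intro z hz
      have h3 := hcon (σ (z : F)) ((h0.2 _).2 ⟨z, hz, rfl⟩)
      obtain ⟨t, ht, h4⟩ := (h2.2 _).1 h3
      have h5 : t = 3 * z := by
        apply RingOfIntegers.ext
        apply σ.injective
        rw [h4]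
        have e : ((3 * z : 𝓞 F) : F) = 3 * (z : F) := by
          change algebraMap (𝓞 F) F (3 * z) = _
          rw [map_mul, map_ofNat]
        rw [e, map_mul, map_ofNat]
      rw [← h5]
      exact ht
    rw [mul_dvd_mul_iff_right (show b ≠ 0 from hb), Ideal.dvd_span_singleton] at hdvd
    exact hdvd
  obtain ⟨u, v, e0, e1, e2⟩ := nine_step l1 l2 i1 i2 hc
  have hne := im_ne h0.1 e0
  have hsign : ∃ u' : ℂ, (∀ t : ℂ, lat u' t = lat u t) ∧ Pos u' v := by
    rcases lt_or_gt_of_ne hne with h3 | h3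
    · refine ⟨-u, fun t => lat_neg u t, ?_⟩
      unfold Pos
      rw [neg_div, Complex.neg_im]
      linarith
    · exact ⟨u, fun t => rfl, h3⟩
  obtain ⟨u', hu', hpos⟩ := hsign
  have p9 : Pos u' (9 * v) := by
    have := hpos.scale (r := 1 / 9) (by norm_num)
    convert this using 1
    push_cast
    ring
  refine ⟨u', 9 * v, IsB.congr h2 (by rw [hu', e2]) p9,
    IsB.congr h1 ?_ (pos_third p9), IsB.congr h0 ?_ (pos_ninth p9)⟩
  · rw [hu', e1]
    congr 1
    ring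
  · rw [hu', show 9 * v / 9 = v by ring, e0]

end

end Pool.Agent.Lib.MP_7c08ba_nt.RZC3
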