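import Pool.Agent.Lib.MP_7c08ba_nt.RZ.Basic3

set_option autoImplicit false

/-! Module R12 for `p = 3`: integrality and approximation of `E₂^* E₆ / E₄²` on the chain. -/

namespace Pool.Agent.Lib.MP_7c08ba_nt.RZC3

open UpperHalfPlane ModularForm EisensteinSeries MatrixGroups NumberField RZC
open scoped Real Manifold ComplexConjugate

noncomputable section

namespace App3Aux

/-! ### the operator `q ↦ q³` -/

theorem coeff_Vq (g : PowerSeries ℤ) (n : ℕ) :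
    (Vq3 g).coeff n = if 3 ∣ n then g.coeff (n / 3) else 0 := by
  simp [Vq3]

theorem Vq_one : Vq3 (1 : PowerSeries ℤ) = 1 := by
  ext n
  rw [coeff_Vq, PowerSeries.coeff_one, PowerSeries.coeff_one]
  by_cases h : 3 ∣ n
  · obtain ⟨m, rfl⟩ := h
    rw [if_pos (Dvd.intro m rfl)]
    by_cases hm : m = 0
    · simp [hm]
    · rw [if_neg (by omega), if_neg (by omega)]
  · rw [if_neg h, if_neg]
    rintro rfl
    exact h ⟨0, rfl⟩

theorem Vq_zero : Vq3 (0 : PowerSeries ℤ) = 0 := by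
  ext n
  rw [coeff_Vq]
  simp

theorem Vq_add (f g : PowerSeries ℤ) : Vq3 (f + g) = Vq3 f + Vq3 g := by
  ext n
  rw [map_add, coeff_Vq, coeff_Vq, coeff_Vq]
  split_ifs <;> simp

theorem Vq_mul (f g : PowerSeries ℤ) : Vq3 (f * g) = Vq3 f * Vq3 g := by
  ext n
  rw [coeff_Vq, PowerSeries.coeff_mul, PowerSeries.coeff_mul]
  by_cases h : 3 ∣ n
  · obtain ⟨m, rfl⟩ := h
    rw [if_pos (Dvd.intro m rfl), show 3 * m / 3 = m by omega]
    refine Finset.sum_of_injOn (fun p => (3 * p.1, 3 * p.2)) ?_ ?_ ?_ ?_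
    · rintro ⟨a, b⟩ _ ⟨c, d⟩ _ hh
      simp only [Prod.mk.injEq] at hh
      ext
      · show a = c
        omega
      · show b = d
        omega
    · rintro ⟨a, b⟩ hab
      rw [Finset.mem_coe, Finset.HasAntidiagonal.mem_antidiagonal] at hab ⊢
      simp only at hab ⊢
      omega
    · rintro ⟨a, b⟩ hab hn
      rw [Finset.HasAntidiagonal.mem_antidiagonal] at hab
      rw [coeff_Vq, coeff_Vq]
      by_cases ha : 3 ∣ a
      · by_cases hb : 3 ∣ b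
        · exfalso
          apply hn
          obtain ⟨c, rfl⟩ := ha
          obtain ⟨d, rfl⟩ := hb
          refine ⟨(c, d), ?_, rfl⟩
          rw [Finset.mem_coe, Finset.HasAntidiagonal.mem_antidiagonal]
          simp only at hab ⊢
          omega
        · simp [hb]
      · simp [ha]
    · rintro ⟨a, b⟩ _
      simp only
      rw [coeff_Vq, coeff_Vq, if_pos (Dvd.intro a rfl), if_pos (Dvd.intro b rfl),
        show 3 * a / 3 = a by omega, show 3 * b / 3 = b by omega]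
  · rw [if_neg h]
    symm
    apply Finset.sum_eq_zero
    rintro ⟨a, b⟩ hab
    rw [Finset.HasAntidiagonal.mem_antidiagonal] at hab
    rw [coeff_Vq, coeff_Vq]
    by_cases ha : 3 ∣ a
    · by_cases hb : 3 ∣ b
      · exact absurd (hab ▸ dvd_add ha hb) h
      · simp [hb]
    · simp [ha]

/-- `q ↦ q³` as a ring homomorphism -/
def vqHom : PowerSeries ℤ →+* PowerSeries ℤ where
  toFun := Vq3
  map_one' := Vq_one
  map_mul' := Vq_mul
  map_zero' := Vq_zero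
  map_add' := Vq_add

/-- the shift -/
def shHom (B : Type) [CommRing B] : (ℕ → B) →+* (ℕ → B) where
  toFun f := fun i => f (i + 1)
  map_one' := rfl
  map_mul' _ _ := rfl
  map_zero' := rfl
  map_add' _ _ := rfl

/-! ### the relation, in any commutative ring -/

theorem gen {S : Type*} [CommRing S] {Q R P Q' R' P' D x y a a' Qi : S} (hQi : Q * Qi = 1)
    (r4 : (1 + 243 * y) * Q' = (1 + 3 * y) * Q)
    (r5 : (1 - 486 * y - 19683 * y ^ 2) * R' = (1 + 18 * y - 27 * y ^ 2) * R)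
    (r6 : 2 * R * (1 + 27 * y) * (1 + 243 * y) =
      (3 * P' - P) * Q * (1 - 486 * y - 19683 * y ^ 2))
    (e : 1728 * D = Q ^ 3 - R ^ 2) (hx : x * Q ^ 3 = D) (ha : a * Q ^ 2 = P * R)
    (ha' : a' * Q' ^ 2 = P' * R') :
    a * (1 - 486 * y - 19683 * y ^ 2) * (1 + 18 * y - 27 * y ^ 2) * (1 + 243 * y) ^ 2 =
      3 * a' * (1 - 486 * y - 19683 * y ^ 2) ^ 2 * (1 + 3 * y) ^ 2 -
        2 * (1 - 1728 * x) * (1 + 27 * y) * (1 + 243 * y) ^ 3 *
          (1 + 18 * y - 27 * y ^ 2) := by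
  generalize 1 - 486 * y - 19683 * y ^ 2 = s at *
  generalize 1 + 18 * y - 27 * y ^ 2 = t at *
  generalize 1 + 27 * y = h at *
  generalize 1 + 243 * y = g at *
  generalize 1 + 3 * y = k at *
  have h1 : a' * (k ^ 2 * Q ^ 2) * s ^ 2 = P' * R * g ^ 2 * t * s := by
    rw [← mul_pow, ← r4]
    have : a' * (g * Q') ^ 2 * s ^ 2 = (a' * Q' ^ 2) * g ^ 2 * s ^ 2 := by ring
    rw [this, ha']
    have : P' * R' * g ^ 2 * s ^ 2 = P' * (s * R') * g ^ 2 * s := by ring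
    rw [this, r5]
    ring
  have key : (a * s * t * g ^ 2) * Q ^ 3 =
      (3 * a' * s ^ 2 * k ^ 2 - 2 * (1 - 1728 * x) * h * g ^ 3 * t) * Q ^ 3 := by
    linear_combination (Q * s * t * g ^ 2) * ha - (3 * Q) * h1 + (g ^ 2 * t * R) * r6 -
      (3456 * h * g ^ 3 * t) * hx - (2 * h * g ^ 3 * t) * e
  have h3 : Q ^ 3 * Qi ^ 3 = 1 := by rw [← mul_pow, hQi, one_pow]
  calc _ = (a * s * t * g ^ 2) * Q ^ 3 * Qi ^ 3 := by
        rw [mul_assoc _ (Q ^ 3), h3, mul_one]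
    _ = _ := by rw [key, mul_assoc _ (Q ^ 3), h3, mul_one]

theorem map_aeval_int {S T : Type*} [CommRing S] [CommRing T] (iS : Algebra ℤ S)
    (iT : Algebra ℤ T) (φ : S →+* T) (x : S) (F : Polynomial ℤ) : φ (Polynomial.aeval x F) = Polynomial.aeval (φ x) F := by
  rw [Polynomial.aeval_def, Polynomial.aeval_def, Polynomial.hom_eval₂]
  congr 1
  exact RingHom.ext_int _ _

/-! ### values -/

variable {w₁ w₂ v₁ v₂ : ℂ}

/-- `E₂^* E₆ / E₄²` -/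
def aV (w₁ w₂ : ℂ) : ℂ := E2s w₁ w₂ * e6 w₁ w₂ / e4 w₁ w₂ ^ 2

theorem E2s_smul {c : ℂ} (hc : c ≠ 0) : E2s (c * w₁) (c * w₂) = (c ^ 2)⁻¹ * E2s w₁ w₂ := by
  have hc' : conj c ≠ 0 := by simpa using hc
  have hv : vol (c * w₁) (c * w₂) (conj (c * w₁)) (conj (c * w₂)) =
      c * conj c * vol w₁ w₂ (conj w₁) (conj w₂) := by
    unfold vol
    rw [map_mul, map_mul]
    ring
  unfold E2s e2s
  rw [hv, LF_smul hc, map_mul, mul_sub]
  congr 1
  have h1 : (conj c) * (conj c)⁻¹ = 1 := mul_inv_cancel₀ hc'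
  calc 3 * (conj c * conj w₂) / (π * (c * w₂) * (c * conj c * vol w₁ w₂ (conj w₁) (conj w₂)))
      = ((conj c) * (conj c)⁻¹) * ((c ^ 2)⁻¹ * (3 * conj w₂ /
        (π * w₂ * vol w₁ w₂ (conj w₁) (conj w₂)))) := by ring
    _ = _ := by rw [h1, one_mul]

theorem E2s_third : E2s w₁ (w₂ / 3) = 3 * (E2s w₁ w₂ + ee3 w₁ w₂) := by
  have hv : vol w₁ (w₂ / 3) (conj w₁) (conj (w₂ / 3)) =
      vol w₁ w₂ (conj w₁) (conj w₂) / 3 := by
    unfold vol
    rw [map_div₀, map_ofNat]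
    ring
  unfold E2s e2s ee3
  rw [hv, map_div₀, map_ofNat]
  ring

theorem aV_smul {c : ℂ} (hc : c ≠ 0) : aV (c * w₁) (c * w₂) = aV w₁ w₂ := by
  unfold aV e6 e4
  rw [E2s_smul hc, LF_smul hc, LF_smul hc]
  have h1 : (c ^ 4)⁻¹ ^ 2 ≠ 0 := pow_ne_zero _ (inv_ne_zero (pow_ne_zero _ hc))
  have h2 : (c ^ 2)⁻¹ * E2s w₁ w₂ * ((c ^ 6)⁻¹ * LF 6 (⇑E₆) w₁ w₂) =
      (c ^ 4)⁻¹ ^ 2 * (E2s w₁ w₂ * LF 6 (⇑E₆) w₁ w₂) := by
    ring
  rw [h2, mul_pow, mul_div_mul_left _ _ h1]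

theorem e4_lat (h : StLat) (hw : Pos w₁ w₂) (hv : Pos v₁ v₂) (hl : lat w₁ w₂ = lat v₁ v₂) :
    e4 w₁ w₂ = e4 v₁ v₂ := h 4 E₄ _ _ _ _ hw hv hl

theorem e6_lat (h : StLat) (hw : Pos w₁ w₂) (hv : Pos v₁ v₂) (hl : lat w₁ w₂ = lat v₁ v₂) :
    e6 w₁ w₂ = e6 v₁ v₂ := h 6 E₆ _ _ _ _ hw hv hl

theorem dl_lat (h : StLat) (hL : StLevel3) (hw : Pos w₁ w₂) (hv : Pos v₁ v₂)
    (hl : lat w₁ w₂ = lat v₁ v₂) : dl w₁ w₂ = dl v₁ v₂ := by
  obtain ⟨-, -, -, h1, -⟩ := hL w₁ w₂ hw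
  obtain ⟨-, -, -, h2, -⟩ := hL v₁ v₂ hv
  rw [e4_lat h hw hv hl, e6_lat h hw hv hl, ← h2] at h1
  exact mul_left_cancel₀ (by norm_num) h1

theorem jv_lat (h : StLat) (hL : StLevel3) (hw : Pos w₁ w₂) (hv : Pos v₁ v₂)
    (hl : lat w₁ w₂ = lat v₁ v₂) : jv w₁ w₂ = jv v₁ v₂ := by
  unfold jv
  rw [dl_lat h hL hw hv hl, e4_lat h hw hv hl]

theorem aV_lat (h : StLat) (hE : StE2Lat) (hw : Pos w₁ w₂) (hv : Pos v₁ v₂)
    (hl : lat w₁ w₂ = lat v₁ v₂) : aV w₁ w₂ = aV v₁ v₂ := by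
  unfold aV
  rw [hE w₁ w₂ v₁ v₂ hw hv hl, e6_lat h hw hv hl, e4_lat h hw hv hl]

theorem rel1 (hL : StLevel3) (hw : Pos w₁ w₂) (h4 : e4 w₁ w₂ ≠ 0) :
    jv w₁ w₂ * (1 + 27 * (XX3 w₁ w₂)⁻¹) * (1 + 243 * (XX3 w₁ w₂)⁻¹) ^ 3 =
      (XX3 w₁ w₂)⁻¹ := by
  obtain ⟨-, -, hX, -, -, h1, -⟩ := hL w₁ w₂ hw
  unfold jv
  field_simp
  linear_combination -h1

theorem rel2 (hL : StLevel3) (hw : Pos w₁ w₂) (h4 : e4 w₁ (w₂ / 3) ≠ 0) :
    jv w₁ (w₂ / 3) * (1 + 27 * (XX3 w₁ w₂)⁻¹) * (1 + 3 * (XX3 w₁ w₂)⁻¹) ^ 3 =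
      (XX3 w₁ w₂)⁻¹ ^ 3 := by
  obtain ⟨-, -, hX, -, -, -, h1, -⟩ := hL w₁ w₂ hw
  unfold jv
  field_simp
  linear_combination -h1

theorem rel3 (hL : StLevel3) (hE : StE2rel3) (hw : Pos w₁ w₂) (h4 : e4 w₁ w₂ ≠ 0)
    (h4' : e4 w₁ (w₂ / 3) ≠ 0) :
    aV w₁ w₂ * (1 - 486 * (XX3 w₁ w₂)⁻¹ - 19683 * (XX3 w₁ w₂)⁻¹ ^ 2) *
        (1 + 18 * (XX3 w₁ w₂)⁻¹ - 27 * (XX3 w₁ w₂)⁻¹ ^ 2) *
        (1 + 243 * (XX3 w₁ w₂)⁻¹) ^ 2 =
      3 * aV w₁ (w₂ / 3) * (1 - 486 * (XX3 w₁ w₂)⁻¹ - 19683 * (XX3 w₁ w₂)⁻¹ ^ 2) ^ 2 *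
          (1 + 3 * (XX3 w₁ w₂)⁻¹) ^ 2 -
        2 * (1 - 1728 * jv w₁ w₂) * (1 + 27 * (XX3 w₁ w₂)⁻¹) *
          (1 + 243 * (XX3 w₁ w₂)⁻¹) ^ 3 *
          (1 + 18 * (XX3 w₁ w₂)⁻¹ - 27 * (XX3 w₁ w₂)⁻¹ ^ 2) := by
  obtain ⟨-, -, hX, he, -, -, -, h1, h2, -⟩ := hL w₁ w₂ hw
  have h3 := hE w₁ w₂ hw
  refine gen (Q := e4 w₁ w₂) (R := e6 w₁ w₂) (P := E2s w₁ w₂) (Q' := e4 w₁ (w₂ / 3) / 81)
    (R' := e6 w₁ (w₂ / 3) / 729) (P' := E2s w₁ (w₂ / 3) / 9) (D := dl w₁ w₂)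
    (Qi := (e4 w₁ w₂)⁻¹) (mul_inv_cancel₀ h4) ?_ ?_ ?_ he ?_ ?_ ?_
  · field_simp
    linear_combination h1
  · field_simp
    linear_combination h2
  · rw [E2s_third]
    field_simp
    linear_combination 9 * h3
  · unfold jv
    field_simp
  · unfold aV
    field_simp
  · unfold aV
    field_simp
    ring

/-- integrality from a cyclic system of relations -/
theorem cyc {A : ValuationSubring ℂ} (hA : Above3 A) {m : ℕ} (hm : 0 < m) {a x y : ℕ → ℂ}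
    (hx : ∀ i, x i ∈ A) (hy : ∀ i, y i ∈ A) (hper : ∀ i, a (i + m) = a i)
    (hr : ∀ i, a i * (1 - 486 * y i - 19683 * y i ^ 2) * (1 + 18 * y i - 27 * y i ^ 2) *
        (1 + 243 * y i) ^ 2 =
      3 * a (i + 1) * (1 - 486 * y i - 19683 * y i ^ 2) ^ 2 * (1 + 3 * y i) ^ 2 -
        2 * (1 - 1728 * x i) * (1 + 27 * y i) * (1 + 243 * y i) ^ 3 *
          (1 + 18 * y i - 27 * y i ^ 2)) (i : ℕ) : a i ∈ A := by
  have hu : ∀ (n : ℤ) (z : ℂ), (3 : ℤ) ∣ n → z ∈ A → (n : ℂ) * z ∈ A.nonunits := fun n z hn hz =>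
    nonunits_mul_right (three_dvd_nonunits hA hn) hz
  have step : ∀ i, ∃ c ∈ A, ∃ b ∈ A, a i = 3 * c * a (i + 1) + b := by
    intro i
    have hy2 : y i ^ 2 ∈ A := pow_mem (hy i) 2
    have e1 : (1 - 486 * y i - 19683 * y i ^ 2) - 1 ∈ A.nonunits := by
      have h1 := hu (-486) (y i) (by decide) (hy i)
      have h2 := hu (-19683) (y i ^ 2) (by decide) hy2
      have := nonunits_add h1 h2
      push_cast at this
      convert this using 1
      ring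
    have e2 : (1 + 18 * y i - 27 * y i ^ 2) - 1 ∈ A.nonunits := by
      have h1 := hu 18 (y i) (by decide) (hy i)
      have h2 := hu (-27) (y i ^ 2) (by decide) hy2
      have := nonunits_add h1 h2
      push_cast at this
      convert this using 1
      ring
    have e3 : (1 + 243 * y i) - 1 ∈ A.nonunits := by
      have := hu 243 (y i) (by decide) (hy i)
      push_cast at this
      convert this using 1
      ring
    have e4 : (1 + 27 * y i) - 1 ∈ A.nonunits := by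
      have := hu 27 (y i) (by decide) (hy i)
      push_cast at this
      convert this using 1
      ring
    have ew := mul_sub_one (mul_sub_one e1 e2) (nonunits_pow_sub_one e3 2)
    have h := hr i
    have m1 := (unit_of_sub_one e1).1
    have m2 := (unit_of_sub_one e2).1
    have m3 := (unit_of_sub_one e3).1
    have m4 := (unit_of_sub_one e4).1
    have n3 : (3 : ℂ) ∈ A := by exact_mod_cast nat_mem (A := A) 3
    have n2 : (2 : ℂ) ∈ A := by exact_mod_cast nat_mem (A := A) 2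
    have n1728 : (1728 : ℂ) ∈ A := by exact_mod_cast nat_mem (A := A) 1728
    have m5 : 1 + 3 * y i ∈ A := A.add_mem _ _ A.one_mem (A.mul_mem _ _ n3 (hy i))
    have m6 : 1 - 1728 * x i ∈ A := sub_mem A.one_mem (A.mul_mem _ _ n1728 (hx i))
    generalize 1 - 486 * y i - 19683 * y i ^ 2 = s at *
    generalize 1 + 18 * y i - 27 * y i ^ 2 = t at *
    generalize 1 + 243 * y i = g at *
    generalize 1 + 27 * y i = k at *
    generalize 1 + 3 * y i = l at *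
    generalize 1 - 1728 * x i = z at *
    obtain ⟨-, -, w0, wi⟩ := unit_of_sub_one ew
    refine ⟨(s * t * g ^ 2)⁻¹ * (s ^ 2 * l ^ 2), ?_,
      -((s * t * g ^ 2)⁻¹ * (2 * z * k * g ^ 3 * t)), ?_, ?_⟩
    · exact A.mul_mem _ _ wi (A.mul_mem _ _ (pow_mem m1 2) (pow_mem m5 2))
    · exact A.neg_mem _ (A.mul_mem _ _ wi (A.mul_mem _ _ (A.mul_mem _ _ (A.mul_mem _ _
        (A.mul_mem _ _ n2 m6) m4) (pow_mem m3 3)) m2))
    · have : a i = (s * t * g ^ 2)⁻¹ * (a i * s * t * g ^ 2) := by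
        rw [show a i * s * t * g ^ 2 = (s * t * g ^ 2) * a i by ring,
          inv_mul_cancel_left₀ w0]
      rw [this, h]
      ring
  have ind : ∀ k i, ∃ c ∈ A, ∃ b ∈ A, a i = 3 ^ k * c * a (i + k) + b := by
    intro k
    induction k with
    | zero => exact fun i => ⟨1, A.one_mem, 0, A.zero_mem, by simp⟩
    | succ k ih =>
      intro i
      obtain ⟨c, hc, b, hb, h1⟩ := ih i
      obtain ⟨c', hc', b', hb', h2⟩ := step (i + k)
      have h2A : (3 : ℂ) ^ k ∈ A := pow_mem (nonunits_mem hA) k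
      refine ⟨c * c', A.mul_mem _ _ hc hc', 3 ^ k * c * b' + b,
        A.add_mem _ _ (A.mul_mem _ _ (A.mul_mem _ _ h2A hc) hb') hb, ?_⟩
      rw [h1, h2, ← add_assoc i k 1]
      ring
  obtain ⟨c, hc, b, hb, h⟩ := ind m i
  rw [hper] at h
  have e : (1 - 3 ^ m * c) - 1 ∈ A.nonunits := by
    have h1 : (3 : ℂ) ^ m ∈ A.nonunits := by
      obtain ⟨n, rfl⟩ : ∃ n, m = n + 1 := ⟨m - 1, by omega⟩
      rw [pow_succ]
      exact nonunits_mul_left (pow_mem (nonunits_mem hA) n) hA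
    have := nonunits_neg (nonunits_mul_right h1 hc)
    convert this using 1
    ring
  obtain ⟨-, -, w0, wi⟩ := unit_of_sub_one e
  have : a i = (1 - 3 ^ m * c)⁻¹ * b := by
    rw [eq_inv_mul_iff_mul_eq₀ w0]
    linear_combination h
  rw [this]
  exact A.mul_mem _ _ wi hb

end App3Aux


open App3Aux

theorem stApp3 (h1 : StGood3) (h2 : StQrel3) (h3 : StE2rel3) (h4 : StE2Lat) (h5 : StOrdC3)
    (h6 : StLevel3) (h7 : StLat) (h8 : StEis) : StApp3 := by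
  intro A hA m c u v hm hc hU N
  obtain ⟨hO, -⟩ := h5 A hA m c u v hm hc hU
  have hP := hc.pos
  have hP2 : ∀ i, Pos (u i) (v i / 3) := fun i => pos_third (hP i)
  have e4n : ∀ i, e4 (u i) (v i) ≠ 0 := fun i => (hO i).1.2.1
  have e4n' : ∀ i, e4 (u i) (v i / 3) ≠ 0 := fun i => by
    rw [← e4_lat h7 (hP (i + 1)) (hP2 i) (hc.third i)]
    exact e4n (i + 1)
  have hjs : ∀ i, jv (u (i + 1)) (v (i + 1)) = jv (u i) (v i / 3) := fun i =>
    jv_lat h7 h6 (hP (i + 1)) (hP2 i) (hc.third i)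
  have has : ∀ i, aV (u (i + 1)) (v (i + 1)) = aV (u i) (v i / 3) := fun i =>
    aV_lat h7 h4 (hP (i + 1)) (hP2 i) (hc.third i)
  have hper : ∀ i, aV (u (i + m)) (v (i + m)) = aV (u i) (v i) := fun i => by
    rw [← aV_smul (w₁ := u (i + m)) (w₂ := v (i + m)) hc.c0]
    exact aV_lat h7 h4 ((pos_smul hc.c0).2 (hP (i + m))) (hP i) (hc.per i)
  have hr : ∀ i, aV (u i) (v i) *
        (1 - 486 * (XX3 (u i) (v i))⁻¹ - 19683 * (XX3 (u i) (v i))⁻¹ ^ 2) *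
        (1 + 18 * (XX3 (u i) (v i))⁻¹ - 27 * (XX3 (u i) (v i))⁻¹ ^ 2) *
        (1 + 243 * (XX3 (u i) (v i))⁻¹) ^ 2 =
      3 * aV (u (i + 1)) (v (i + 1)) *
          (1 - 486 * (XX3 (u i) (v i))⁻¹ - 19683 * (XX3 (u i) (v i))⁻¹ ^ 2) ^ 2 *
          (1 + 3 * (XX3 (u i) (v i))⁻¹) ^ 2 -
        2 * (1 - 1728 * jv (u i) (v i)) * (1 + 27 * (XX3 (u i) (v i))⁻¹) *
          (1 + 243 * (XX3 (u i) (v i))⁻¹) ^ 3 *
          (1 + 18 * (XX3 (u i) (v i))⁻¹ - 27 * (XX3 (u i) (v i))⁻¹ ^ 2) := fun i => by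
    rw [has i]
    exact rel3 h6 h3 (hP i) (e4n i) (e4n' i)
  have hjA : ∀ i, jv (u i) (v i) ∈ A := fun i => (hO i).1.2.2
  have hyA : ∀ i, (XX3 (u i) (v i))⁻¹ ∈ A := fun i => (hO i).2.2
  have haA : ∀ i, aV (u i) (v i) ∈ A := fun i =>
    cyc hA hm (a := fun i => aV (u i) (v i)) (x := fun i => jv (u i) (v i))
      (y := fun i => (XX3 (u i) (v i))⁻¹) hjA hyA hper hr i
  -- the power series side
  obtain ⟨y, q1, q2, q3, q4, q5, q6⟩ := h2
  obtain ⟨eD, -⟩ := h8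
  have hQ : IsUnit Q4 := by
    rw [PowerSeries.isUnit_iff_constantCoeff]
    have : PowerSeries.constantCoeff Q4 = 1 := by
      unfold Q4 sg
      rw [map_add, map_mul, map_one, PowerSeries.constantCoeff_mk]
      simp
    rw [this]
    exact isUnit_one
  obtain ⟨Qi, hQi⟩ := hQ.exists_right_inv
  have hVQi : Vq3 Q4 * Vq3 Qi = 1 := by rw [← Vq_mul, hQi, Vq_one]
  have hQi3 : Q4 ^ 3 * Qi ^ 3 = 1 := by rw [← mul_pow, hQi, one_pow]
  have hVQi3 : Vq3 Q4 ^ 3 * Vq3 Qi ^ 3 = 1 := by rw [← mul_pow, hVQi, one_pow]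
  have hQi2 : Q4 ^ 2 * Qi ^ 2 = 1 := by rw [← mul_pow, hQi, one_pow]
  have hVQi2 : Vq3 Q4 ^ 2 * Vq3 Qi ^ 2 = 1 := by rw [← mul_pow, hVQi, one_pow]
  have s1 : D12 * Qi ^ 3 * (1 + 27 * y) * (1 + 243 * y) ^ 3 = y := by
    linear_combination Qi ^ 3 * q2 + y * hQi3
  have s2 : vqHom (D12 * Qi ^ 3) * (1 + 27 * y) * (1 + 3 * y) ^ 3 = y ^ 3 := by
    rw [map_mul, map_pow]
    show Vq3 D12 * Vq3 Qi ^ 3 * (1 + 27 * y) * (1 + 3 * y) ^ 3 = y ^ 3
    linear_combination Vq3 Qi ^ 3 * q3 + y ^ 3 * hVQi3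
  have s3 : P2 * R6 * Qi ^ 2 * (1 - 486 * y - 19683 * y ^ 2) * (1 + 18 * y - 27 * y ^ 2) *
        (1 + 243 * y) ^ 2 =
      3 * vqHom (P2 * R6 * Qi ^ 2) * (1 - 486 * y - 19683 * y ^ 2) ^ 2 * (1 + 3 * y) ^ 2 -
        2 * (1 - 1728 * (D12 * Qi ^ 3)) * (1 + 27 * y) * (1 + 243 * y) ^ 3 *
          (1 + 18 * y - 27 * y ^ 2) := by
    rw [map_mul, map_mul, map_pow]
    show _ = 3 * (Vq3 P2 * Vq3 R6 * Vq3 Qi ^ 2) * (1 - 486 * y - 19683 * y ^ 2) ^ 2 *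
        (1 + 3 * y) ^ 2 - 2 * (1 - 1728 * (D12 * Qi ^ 3)) * (1 + 27 * y) *
          (1 + 243 * y) ^ 3 * (1 + 18 * y - 27 * y ^ 2)
    refine gen (Q := Q4) (R := R6) (P := P2) (Q' := Vq3 Q4) (R' := Vq3 R6) (P' := Vq3 P2)
      (D := D12) (Qi := Qi) hQi q4 q5 q6 eD ?_ ?_ ?_
    · linear_combination D12 * hQi3
    · linear_combination P2 * R6 * hQi2
    · linear_combination Vq3 P2 * Vq3 R6 * hVQi2
  -- the ring
  let φ : ℕ → (PowerSeries ℤ × (ℕ → A)) →+* ℂ := fun i =>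
    A.subtype.comp ((Pi.evalRingHom (fun _ : ℕ => (A : Type)) i).comp
      (RingHom.snd (PowerSeries ℤ) (ℕ → A)))
  let π₁ : (PowerSeries ℤ × (ℕ → A)) →+* PowerSeries ℤ := RingHom.fst _ _
  let V : (PowerSeries ℤ × (ℕ → A)) →+* (PowerSeries ℤ × (ℕ → A)) :=
    RingHom.prodMap vqHom (shHom A)
  have hext : ∀ s t : PowerSeries ℤ × (ℕ → A), π₁ s = π₁ t → (∀ i, φ i s = φ i t) → s = t := by
    intro s t hs ht
    refine Prod.ext hs (funext fun i => Subtype.ext (ht i))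
  let xS : PowerSeries ℤ × (ℕ → A) := (D12 * Qi ^ 3, fun i => ⟨jv (u i) (v i), hjA i⟩)
  let yS : PowerSeries ℤ × (ℕ → A) := (y, fun i => ⟨(XX3 (u i) (v i))⁻¹, hyA i⟩)
  let aS : PowerSeries ℤ × (ℕ → A) := (P2 * R6 * Qi ^ 2, fun i => ⟨aV (u i) (v i), haA i⟩)
  have px : π₁ xS = D12 * Qi ^ 3 := rfl
  have py : π₁ yS = y := rfl
  have pa : π₁ aS = P2 * R6 * Qi ^ 2 := rfl
  have pV : ∀ s, π₁ (V s) = vqHom (π₁ s) := fun _ => rfl
  have fx : ∀ i, φ i xS = jv (u i) (v i) := fun _ => rfl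
  have fy : ∀ i, φ i yS = (XX3 (u i) (v i))⁻¹ := fun _ => rfl
  have fa : ∀ i, φ i aS = aV (u i) (v i) := fun _ => rfl
  have fV : ∀ i s, φ i (V s) = φ (i + 1) s := fun _ _ => rfl
  obtain ⟨F, z, hz⟩ := h1 (PowerSeries ℤ × (ℕ → A)) V xS yS aS
    (by
      apply hext
      · simp only [map_mul, map_add, map_pow, map_one, map_ofNat, px, py]
        simpa only [map_mul, map_pow] using s1
      · intro i
        simp only [map_mul, map_add, map_pow, map_one, map_ofNat, fx, fy]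
        exact rel1 h6 (hP i) (e4n i))
    (by
      apply hext
      · simp only [map_mul, map_add, map_pow, map_one, map_ofNat, pV, px, py]
        simpa only [map_mul, map_pow] using s2
      · intro i
        simp only [map_mul, map_add, map_pow, map_one, map_ofNat, fV, fx, fy]
        rw [hjs i]
        exact rel2 h6 (hP i) (e4n' i))
    (by
      apply hext
      · simp only [map_mul, map_add, map_sub, map_pow, map_one, map_ofNat, pV, px, py, pa]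
        simpa only [map_mul, map_pow] using s3
      · intro i
        simp only [map_mul, map_add, map_sub, map_pow, map_one, map_ofNat, fV, fx, fy, fa]
        exact hr i)
    N
  refine ⟨F, fun i => ?_, D12 * Qi ^ 3, z.1, ?_, ?_⟩
  · have h := congrArg (φ i) hz
    rw [map_add, map_mul, map_pow, map_ofNat,
      map_aeval_int _ (inferInstance : Algebra ℤ ℂ), fx, fa] at h
    have h' : (E2s (u i) (v i) * e6 (u i) (v i) / e4 (u i) (v i) ^ 2 -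
        Polynomial.aeval (jv (u i) (v i)) F) / 3 ^ N = φ i z := by
      rw [div_eq_iff (pow_ne_zero _ (by norm_num))]
      unfold aV at h
      linear_combination h
    rw [h']
    exact (z.2 i).2
  · linear_combination D12 * hQi3
  · have h := congrArg π₁ hz
    rw [map_add, map_mul, map_pow, map_ofNat,
      map_aeval_int _ (inferInstance : Algebra ℤ (PowerSeries ℤ)), px, pa] at h
    have hz1 : π₁ z = z.1 := rfl
    rw [hz1] at h
    linear_combination Q4 ^ 2 * h - P2 * R6 * hQi2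

end

end Pool.Agent.Lib.MP_7c08ba_nt.RZC3
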