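import Pool.Agent.Lib.MP_7c08ba_nt.RZ.Basic3

set_option autoImplicit false
set_option linter.unusedSectionVars false

/-!
Part (C3), module N2: oriented bases of ideals of an imaginary quadratic field, covolume, index
(general discriminant).
-/

namespace Pool.Agent.Lib.MP_7c08ba_nt.RZC3

open NumberField Module RZC
open scoped Real ComplexConjugate

namespace Basis3Aux

/-- imaginary part of `x conj y` from that of `x / y` -/
lemma im_div_eq (w₁ w₂ : ℂ) : (w₁ / w₂).im = (w₁ * conj w₂).im / Complex.normSq w₂ := by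
  rw [Complex.div_im, Complex.mul_im, Complex.conj_re, Complex.conj_im]
  ring

lemma pos_iff {w₁ w₂ : ℂ} : Pos w₁ w₂ ↔ 0 < (w₁ * conj w₂).im := by
  unfold Pos
  rw [im_div_eq]
  constructor
  · intro h
    by_contra h1
    exact absurd h (not_lt.2 (div_nonpos_of_nonpos_of_nonneg (not_lt.1 h1)
      (Complex.normSq_nonneg w₂)))
  · intro h
    refine div_pos h ?_
    rw [Complex.normSq_pos]
    rintro rfl
    simp at h

lemma lat_neg (w₁ w₂ : ℂ) : lat (-w₁) w₂ = lat w₁ w₂ := by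
  ext z
  rw [mem_lat, mem_lat]
  constructor
  · rintro ⟨m, n, h⟩
    exact ⟨-m, n, by push_cast; linear_combination h⟩
  · rintro ⟨m, n, h⟩
    exact ⟨-m, n, by push_cast; linear_combination h⟩

section field

variable {D : ℕ} {F : Type} [Field F] [NumberField F] {s : F}

/-- the embedding of the ring of integers -/
noncomputable def emb (σ : F →+* ℂ) : 𝓞 F →+* ℂ := σ.comp (algebraMap (𝓞 F) F)

lemma emb_apply (σ : F →+* ℂ) (x : 𝓞 F) : emb σ x = σ (x : F) := rfl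

lemma emb_injective (σ : F →+* ℂ) : Function.Injective (emb σ) := by
  intro x y hxy
  apply RingOfIntegers.ext
  exact σ.injective hxy

/-- a basis of the ring of integers -/
lemma exists_intBasis (h : FieldC3 D F s) : Nonempty (Basis (Fin 2) ℤ (𝓞 F)) := by
  have h1 : Fintype.card (Free.ChooseBasisIndex ℤ (𝓞 F)) = 2 := by
    rw [← Module.finrank_eq_card_chooseBasisIndex, RingOfIntegers.rank, h.fin]
  exact ⟨(RingOfIntegers.basis F).reindex (Fintype.equivFinOfCardEq h1)⟩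

/-- imaginary part in terms of the determinant -/
lemma im_eq (σ : F →+* ℂ) (B : Basis (Fin 2) ℤ (𝓞 F)) (x : Fin 2 → 𝓞 F) :
    (emb σ (x 0) * conj (emb σ (x 1))).im =
      ((B.det x : ℤ) : ℝ) * (emb σ (B 0) * conj (emb σ (B 1))).im := by
  have hx : ∀ y : 𝓞 F, emb σ y =
      (B.repr y 0 : ℂ) * emb σ (B 0) + (B.repr y 1 : ℂ) * emb σ (B 1) := by
    intro y
    conv_lhs => rw [← B.sum_repr y]
    rw [Fin.sum_univ_two, map_add, zsmul_eq_mul, zsmul_eq_mul, map_mul, map_mul,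
      map_intCast, map_intCast]
  rw [Basis.det_apply, Matrix.det_fin_two, Basis.toMatrix_apply, Basis.toMatrix_apply,
    Basis.toMatrix_apply, Basis.toMatrix_apply, hx (x 0), hx (x 1)]
  simp only [Complex.mul_im, Complex.add_re, Complex.add_im, Complex.conj_re, Complex.conj_im,
    Complex.intCast_re, Complex.intCast_im, Complex.mul_re]
  push_cast
  ring

/-- the basis is not real -/
lemma im_ne_zero (h : FieldC3 D F s) (σ : F →+* ℂ) (B : Basis (Fin 2) ℤ (𝓞 F)) :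
    (emb σ (B 0) * conj (emb σ (B 1))).im ≠ 0 := by
  intro h0
  have hint : IsIntegral ℤ s := by
    refine ⟨Polynomial.X ^ 2 + Polynomial.C (D : ℤ), ?_, ?_⟩
    · monicity!
    · simp only [Polynomial.eval₂_add, Polynomial.eval₂_pow, Polynomial.eval₂_X,
        Polynomial.eval₂_C]
      rw [h.sq]
      simp
  have h1 := im_eq σ B ![(⟨s, hint⟩ : 𝓞 F), 1]
  rw [h0, mul_zero] at h1
  have h2 : (σ s).im = 0 := by
    have h3 : emb σ (⟨s, hint⟩ : 𝓞 F) = σ s := rfl
    simpa [h3] using h1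
  have h3 : σ s ^ 2 = -(D : ℂ) := by
    rw [← map_pow, h.sq, map_neg, map_natCast]
  have h4 := congrArg Complex.re h3
  rw [pow_two, Complex.mul_re, h2] at h4
  simp only [Complex.neg_re, Complex.natCast_re] at h4
  have h5 : (0 : ℝ) < D := by exact_mod_cast h.pos
  nlinarith [mul_self_nonneg (σ s).re]

/-- absolute value of the imaginary part for a basis of an ideal -/
lemma abs_im (σ : F →+* ℂ) (B : Basis (Fin 2) ℤ (𝓞 F)) (a : Ideal (𝓞 F))
    (bI : Basis (Fin 2) ℤ a) :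
    |(emb σ (bI 0 : 𝓞 F) * conj (emb σ (bI 1 : 𝓞 F))).im| =
      (Ideal.absNorm a : ℝ) * |(emb σ (B 0) * conj (emb σ (B 1))).im| := by
  have h2 := im_eq σ B (fun i => (bI i : 𝓞 F))
  rw [h2, abs_mul, ← Ideal.natAbs_det_basis_change B a bI, Nat.cast_natAbs, Int.cast_abs]
  rfl

/-- a basis of the ideal from an oriented basis -/
lemma exists_basis_of_isB {σ : F →+* ℂ} {a : Ideal (𝓞 F)} {w₁ w₂ : ℂ} (hw : IsB σ a w₁ w₂) :
    ∃ bI : Basis (Fin 2) ℤ a, emb σ (bI 0 : 𝓞 F) = w₁ ∧ emb σ (bI 1 : 𝓞 F) = w₂ := by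
  obtain ⟨hp, hz⟩ := hw
  obtain ⟨x₁, hx₁, e₁⟩ := (hz w₁).1 (mem_lat.2 ⟨1, 0, by simp⟩)
  obtain ⟨x₂, hx₂, e₂⟩ := (hz w₂).1 (mem_lat.2 ⟨0, 1, by simp⟩)
  have e₁' : emb σ x₁ = w₁ := e₁
  have e₂' : emb σ x₂ = w₂ := e₂
  have hli : LinearIndependent ℤ ![(⟨x₁, hx₁⟩ : a), ⟨x₂, hx₂⟩] := by
    rw [LinearIndependent.pair_iff]
    intro m n hmn
    have h1 : (m : ℂ) * w₁ + n * w₂ = 0 := by
      have h2 := congrArg (fun t : a => emb σ (t : 𝓞 F)) hmn
      simpa [zsmul_eq_mul, e₁', e₂'] using h2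
    have h2 : (m : ℂ) * (w₁ / w₂) + n = 0 := by
      have h3 := hp.ne
      field_simp
      linear_combination h1
    have h3 : (m : ℝ) * (w₁ / w₂).im = 0 := by
      have := congrArg Complex.im h2
      rw [Complex.add_im, Complex.mul_im] at this
      simpa using this
    have h4 : m = 0 := by
      rcases mul_eq_zero.1 h3 with h | h
      · exact_mod_cast h
      · exact absurd h (ne_of_gt hp)
    refine ⟨h4, ?_⟩
    rw [h4] at h2
    have : (n : ℂ) = 0 := by simpa using h2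
    exact_mod_cast this
  have hsp : ⊤ ≤ Submodule.span ℤ (Set.range ![(⟨x₁, hx₁⟩ : a), ⟨x₂, hx₂⟩]) := by
    rintro ⟨z, hza⟩ _
    rw [Matrix.range_cons_cons_empty, Submodule.mem_span_pair]
    obtain ⟨m, n, hmn⟩ := mem_lat.1 ((hz (emb σ z)).2 ⟨z, hza, rfl⟩)
    refine ⟨m, n, ?_⟩
    apply Subtype.ext
    apply emb_injective σ
    have : emb σ ((m • (⟨x₁, hx₁⟩ : a) + n • (⟨x₂, hx₂⟩ : a) : a) : 𝓞 F) =
        m * w₁ + n * w₂ := by
      simp [zsmul_eq_mul, e₁', e₂']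
    rw [this, hmn]
  refine ⟨Basis.mk hli hsp, ?_, ?_⟩
  · simp [e₁']
  · simp [e₂']

/-- the lattice as an image -/
lemma lat_eq_map {σ : F →+* ℂ} {a : Ideal (𝓞 F)} {w₁ w₂ : ℂ} (hw : IsB σ a w₁ w₂) :
    (lat w₁ w₂).toAddSubgroup =
      AddSubgroup.map (emb σ : 𝓞 F →+* ℂ).toAddMonoidHom (Submodule.toAddSubgroup a) := by
  ext z
  rw [AddSubgroup.mem_map]
  exact hw.2 z

end field

end Basis3Aux

open Basis3Aux in
theorem stBasis3 : StBasis3 := by
  intro D F _ _ s h σ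
  obtain ⟨B⟩ := exists_intBasis h
  refine ⟨|(emb σ (B 0) * conj (emb σ (B 1))).im|, abs_pos.2 (im_ne_zero h σ B), ?_⟩
  intro a ha
  have hκ : 0 < |(emb σ (B 0) * conj (emb σ (B 1))).im| := abs_pos.2 (im_ne_zero h σ B)
  have hN : (0 : ℝ) < Ideal.absNorm a := by
    have : Ideal.absNorm a ≠ 0 := fun h0 => ha (Ideal.absNorm_eq_zero_iff.1 h0)
    exact_mod_cast Nat.pos_of_ne_zero this
  refine ⟨?_, ?_⟩
  · set bI : Basis (Fin 2) ℤ a := a.selfBasis B ha with hbI
    have habs := abs_im σ B a bI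
    have hmem : ∀ z : ℂ, z ∈ lat (emb σ (bI 0 : 𝓞 F)) (emb σ (bI 1 : 𝓞 F)) ↔
        ∃ x ∈ a, σ (x : F) = z := by
      intro z
      rw [mem_lat]
      constructor
      · rintro ⟨m, n, rfl⟩
        refine ⟨((m • bI 0 + n • bI 1 : a) : 𝓞 F), (m • bI 0 + n • bI 1 : a).2, ?_⟩
        rw [← emb_apply]
        simp [zsmul_eq_mul]
      · rintro ⟨x, hx, rfl⟩
        refine ⟨bI.repr ⟨x, hx⟩ 0, bI.repr ⟨x, hx⟩ 1, ?_⟩
        have h2 := bI.sum_repr ⟨x, hx⟩
        rw [Fin.sum_univ_two] at h2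
        have h3 := congrArg (fun t : a => emb σ (t : 𝓞 F)) h2
        rw [← emb_apply]
        simpa [zsmul_eq_mul] using h3
    rcases lt_or_ge 0 (emb σ (bI 0 : 𝓞 F) * conj (emb σ (bI 1 : 𝓞 F))).im with hpos | hneg
    · exact ⟨_, _, pos_iff.2 hpos, hmem⟩
    · refine ⟨-emb σ (bI 0 : 𝓞 F), emb σ (bI 1 : 𝓞 F), ?_, ?_⟩
      · rw [pos_iff, neg_mul, Complex.neg_im]
        rw [abs_of_nonpos hneg] at habs
        rw [habs]
        exact mul_pos hN hκ
      · intro z
        rw [lat_neg]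
        exact hmem z
  · intro w₁ w₂ hw
    refine ⟨?_, ?_⟩
    · obtain ⟨bI, e₁, e₂⟩ := exists_basis_of_isB hw
      have habs := abs_im σ B a bI
      rw [e₁, e₂, abs_of_pos (pos_iff.1 hw.1)] at habs
      exact habs
    · intro v₁ v₂ hv
      refine ⟨?_, ?_⟩
      · intro z hz
        obtain ⟨x, _, hx⟩ := (hw.2 z).1 hz
        exact (hv.2 z).2 ⟨x, Submodule.mem_top, hx⟩
      · rw [lat_eq_map hw, lat_eq_map hv,
          AddSubgroup.relIndex_map_map_of_injective _ _ (emb_injective σ)]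
        have htop : Submodule.toAddSubgroup (⊤ : Ideal (𝓞 F)) = ⊤ := by
          ext x
          simp
        rw [htop, AddSubgroup.relIndex_top_right, Ideal.absNorm_apply, Submodule.cardQuot_apply]
        rfl

end Pool.Agent.Lib.MP_7c08ba_nt.RZC3
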