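import Pool.Agent.Lib.MP_7c08ba_nt.RZ.Basic3

set_option autoImplicit false

/-!
Project RZ3, part (C3), module N5: the chain of lattices attached to an ideal.
-/

namespace Pool.Agent.Lib.MP_7c08ba_nt.RZC3

open NumberField RZC

noncomputable section

namespace Chain3Aux

/-- `c ^ k * z` is in `σ (P ^ n * a)` -/
def ChS {F : Type} [Field F] [NumberField F] (σ : F →+* ℂ) (P a : Ideal (𝓞 F)) (c : ℂ)
    (k n : ℕ) (z : ℂ) : Prop := ∃ y ∈ P ^ n * a, σ ((y : 𝓞 F) : F) = c ^ k * z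

theorem chS_shift {F : Type} [Field F] [NumberField F] (σ : F →+* ℂ) (P a : Ideal (𝓞 F))
    (m : ℕ) (x : 𝓞 F) (hx : P ^ m = Ideal.span {x}) (hc : σ (x : F) ≠ 0) (k n j : ℕ) (z : ℂ) :
    ChS σ P a (σ (x : F)) (k + j) (n + m * j) z ↔ ChS σ P a (σ (x : F)) k n z := by
  have h1 : P ^ (n + m * j) * a = Ideal.span {x ^ j} * (P ^ n * a) := by
    rw [pow_add, pow_mul, hx, Ideal.span_singleton_pow]; ring
  have hj : (σ (x : F)) ^ j ≠ 0 := pow_ne_zero _ hc
  have h2 : ∀ y : 𝓞 F, σ ((x ^ j * y : 𝓞 F) : F) = σ (x : F) ^ j * σ (y : F) := by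
    intro y
    rw [← map_pow, ← map_mul]
    congr 1
  constructor
  · rintro ⟨y', hy', e⟩
    rw [h1, Ideal.mem_span_singleton_mul] at hy'
    obtain ⟨y, hy, rfl⟩ := hy'
    refine ⟨y, hy, ?_⟩
    rw [h2] at e
    have : σ (x : F) ^ j * σ (y : F) = σ (x : F) ^ j * (σ (x : F) ^ k * z) := by
      rw [e, pow_add]; ring
    exact mul_left_cancel₀ hj this
  · rintro ⟨y, hy, e⟩
    refine ⟨x ^ j * y, ?_, ?_⟩
    · rw [h1, Ideal.mem_span_singleton_mul]
      exact ⟨y, hy, rfl⟩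
    · rw [h2, e, pow_add]; ring

theorem mem_lat_div (c w₁ w₂ z : ℂ) (hc : c ≠ 0) :
    z ∈ lat (w₁ / c) (w₂ / c) ↔ c * z ∈ lat w₁ w₂ := by
  unfold lat
  rw [Submodule.mem_span_pair, Submodule.mem_span_pair]
  constructor
  · rintro ⟨r, s, e⟩
    refine ⟨r, s, ?_⟩
    rw [← e]
    simp only [zsmul_eq_mul]
    field_simp
  · rintro ⟨r, s, e⟩
    refine ⟨r, s, ?_⟩
    simp only [zsmul_eq_mul] at e ⊢
    have : z = (c * z) / c := by field_simp
    rw [this, ← e]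
    ring

theorem mem_lat_mul (c w₁ w₂ z : ℂ) (hc : c ≠ 0) :
    z ∈ lat (c * w₁) (c * w₂) ↔ z / c ∈ lat w₁ w₂ := by
  have := mem_lat_div (c⁻¹) w₁ w₂ z (inv_ne_zero hc)
  rw [div_inv_eq_mul, div_inv_eq_mul, mul_comm w₁, mul_comm w₂, inv_mul_eq_div] at this
  exact this

end Chain3Aux

open Chain3Aux in
/-- (N5) -/
theorem stChain3 (h : StAdapt3) : StChain3 := by
  intro D F _ _ s hF σ P hP hN m x hm hx a ha
  have hP0 : P ≠ ⊥ := by
    rintro rfl
    simp at hN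
  have hx0 : x ≠ 0 := by
    rintro rfl
    rw [Ideal.span_singleton_eq_bot.2 rfl] at hx
    exact pow_ne_zero m hP0 hx
  have hc : σ (x : F) ≠ 0 := by
    rw [Ne, map_eq_zero]
    simpa using hx0
  have hle : ∀ i : ℕ, i + 2 ≤ m * (i + 2) := fun i => Nat.le_mul_of_pos_left _ hm
  have hb : ∀ i : ℕ, P ^ (m * (i + 2) - (i + 2)) * a ≠ ⊥ := fun i =>
    mul_ne_zero (pow_ne_zero _ hP0) ha
  choose w₁ w₂ hA hB hC using fun i : ℕ => h D F s hF σ P hP hN _ (hb i)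
  set c := σ (x : F) with hcdef
  have hck : ∀ k : ℕ, c ^ k ≠ 0 := fun k => pow_ne_zero k hc
  -- the three lattices
  have eA : ∀ i z, z ∈ lat (w₁ i / c ^ (i + 1)) (w₂ i / c ^ (i + 1)) ↔
      ChS σ P a c (i + 1) (m * (i + 2) - (i + 2) + 2) z := by
    intro i z
    rw [mem_lat_div _ _ _ _ (hck _), (hA i).2, ← mul_assoc, ← pow_add, add_comm 2]
    rfl
  have eB : ∀ i z, z ∈ lat (w₁ i / c ^ (i + 1)) (w₂ i / c ^ (i + 1) / 3) ↔
      ChS σ P a c (i + 1) (m * (i + 2) - (i + 2) + 1) z := by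
    intro i z
    rw [div_right_comm, mem_lat_div _ _ _ _ (hck _), (hB i).2, ← mul_assoc, ← pow_succ']
    rfl
  have eC : ∀ i z, z ∈ lat (w₁ i / c ^ (i + 1)) (w₂ i / c ^ (i + 1) / 9) ↔
      ChS σ P a c (i + 1) (m * (i + 2) - (i + 2)) z := by
    intro i z
    rw [div_right_comm, mem_lat_div _ _ _ _ (hck _), (hC i).2]
    rfl
  have hpos : ∀ i, Pos (w₁ i / c ^ (i + 1)) (w₂ i / c ^ (i + 1)) := by
    intro i
    unfold Pos
    rw [div_div_div_cancel_right₀ (hck _)]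
    exact (hA i).1
  have hsh := fun k n j z => chS_shift σ P a m x hx hc k n j z
  refine ⟨fun i => w₁ i / c ^ (i + 1), fun i => w₂ i / c ^ (i + 1),
    ⟨hpos, ?_, ?_, ?_, hc⟩, ?_⟩
  · intro i
    ext z
    rw [eA, eB, ← hsh (i + 1) _ 1 z]
    have h1 := hle i
    have h2 := hle (i + 1)
    have h3 : m * (i + 1 + 2) = m * (i + 2) + m * 1 := by ring
    have : m * (i + 1 + 2) - (i + 1 + 2) + 2 = m * (i + 2) - (i + 2) + 1 + m * 1 := by omega
    rw [this]
  · intro i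
    ext z
    rw [eB, eC, ← hsh (i + 1) _ 1 z]
    have h1 := hle i
    have h2 := hle (i + 1)
    have h3 : m * (i + 1 + 2) = m * (i + 2) + m * 1 := by ring
    have : m * (i + 1 + 2) - (i + 1 + 2) + 1 = m * (i + 2) - (i + 2) + m * 1 := by omega
    rw [this]
  · intro i
    ext z
    rw [mem_lat_mul _ _ _ _ hc, eA, eA]
    obtain ⟨r, rfl⟩ : ∃ r, m = r + 1 := ⟨m - 1, by omega⟩
    rw [← hsh (i + 1) _ r z]
    have h1 := hle i
    have h2 := hle (i + (r + 1))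
    have h3 : (r + 1) * (i + (r + 1) + 2) = (r + 1) * (i + 2) + (r + 1) * r + (r + 1) := by ring
    have : (r + 1) * (i + (r + 1) + 2) - (i + (r + 1) + 2) + 2 =
        (r + 1) * (i + 2) - (i + 2) + 2 + (r + 1) * r := by omega
    rw [this]
    have e : c ^ (i + (r + 1) + 1) * (z / c) = c ^ (i + 1 + r) * z := by
      rw [show i + (r + 1) + 1 = (i + 1 + r) + 1 by ring, pow_succ]
      field_simp
    unfold ChS
    rw [e]
  · intro i hi
    refine ⟨hpos i, fun z => ?_⟩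
    rw [eA]
    have h1 := hle i
    have h3 : m * (i + 2) = m * (i + 1) + m := by ring
    have : m * (i + 2) - (i + 2) + 2 = m - i + m * (i + 1) := by omega
    have h4 : i + 1 = 0 + (i + 1) := by ring
    rw [this]
    have h5 := hsh 0 (m - i) (i + 1) z
    rw [zero_add] at h5
    rw [h5]
    unfold ChS
    simp

end

end Pool.Agent.Lib.MP_7c08ba_nt.RZC3
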