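import Pool.Agent.Lib.MP_7c08ba_nt.RZ.Basic3

set_option autoImplicit false

/-! (X) the cycle lemma, `p = 3`. -/

namespace Pool.Agent.Lib.MP_7c08ba_nt.RZC3

open RZC

namespace Cycle3Aux

open Finset

variable {A : ValuationSubring ℂ}

theorem sum_nonunits {ι : Type*} (s : Finset ι) (f : ι → ℂ) (h : ∀ i ∈ s, f i ∈ A.nonunits) :
    ∑ i ∈ s, f i ∈ A.nonunits :=
  Finset.sum_induction f (fun x => x ∈ A.nonunits) (fun _ _ => nonunits_add) zero_nonunits h

theorem prod_expand {ι : Type*} [DecidableEq ι] (s : Finset ι) (y : ι → ℂ) (c : ℂ) (hc : c ∈ A)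
    (h : ∀ i ∈ s, y i ∈ A) :
    ∃ z ∈ A, ∏ i ∈ s, (1 + c * y i) = 1 + c * ∑ i ∈ s, y i + c ^ 2 * z := by
  induction s using Finset.induction_on with
  | empty => exact ⟨0, A.zero_mem, by simp⟩
  | insert a s ha ih =>
    obtain ⟨z, hz, h1⟩ := ih fun i hi => h i (mem_insert_of_mem hi)
    have hya := h a (mem_insert_self a s)
    have hS : ∑ i ∈ s, y i ∈ A := A.toSubring.sum_mem fun i hi => h i (mem_insert_of_mem hi)
    refine ⟨z + y a * ∑ i ∈ s, y i + c * y a * z, ?_, ?_⟩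
    · exact A.add_mem _ _ (A.add_mem _ _ hz (A.mul_mem _ _ hya hS))
        (A.mul_mem _ _ (A.mul_mem _ _ hc hya) hz)
    · rw [prod_insert ha, sum_insert ha, h1]
      ring

theorem step_mem {x x' : ℂ}
    (h : ∃ v : ℂ, v ^ 3 = x * (v ^ 2 + 9 * v + 27) ∧ x' = v * (v ^ 2 + 9 * v + 27))
    (hx : x ∈ A) : x' ∈ A := by
  have h9 : (9 : ℂ) ∈ A := by exact_mod_cast nat_mem (A := A) 9
  have h27 : (27 : ℂ) ∈ A := by exact_mod_cast nat_mem (A := A) 27
  obtain ⟨v, hv, rfl⟩ := h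
  have hvA : v ∈ A := by
    by_contra h'
    have hi := nonunits_mem (not_mem_inv_nonunits h')
    have h0 : v ≠ 0 := by
      rintro rfl
      exact h' A.zero_mem
    have h1 : v = x * (1 + 9 * v⁻¹ + 27 * (v⁻¹ * v⁻¹)) := by
      field_simp
      linear_combination hv
    apply h'
    rw [h1]
    exact A.mul_mem _ _ hx (A.add_mem _ _ (A.add_mem _ _ A.one_mem (A.mul_mem _ _ h9 hi))
      (A.mul_mem _ _ h27 (A.mul_mem _ _ hi hi)))
  exact A.mul_mem _ _ hvA (A.add_mem _ _ (A.add_mem _ _ (A.toSubring.pow_mem hvA 2)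
    (A.mul_mem _ _ h9 hvA)) h27)

theorem all_mem {m : ℕ} (hm : 0 < m) {X : ℕ → ℂ} {u : ℂ} (hX0 : X m = X 0)
    (hrel : ∀ i < m, ∃ v : ℂ, v ^ 3 = X i * (v ^ 2 + 9 * v + 27) ∧
      X (i + 1) = v * (v ^ 2 + 9 * v + 27))
    (hprod : ∏ i ∈ range m, X i ^ 2 = u ^ 12) (hu0 : u ≠ 0) (hu : u ∈ A) :
    ∀ i ≤ m, X i ∈ A := by
  by_cases h : ∃ i < m, X i ∈ A
  · obtain ⟨i, him, hi⟩ := h
    have h1 : ∀ j, i ≤ j → j ≤ m → X j ∈ A := by
      intro j hij
      induction j, hij using Nat.le_induction with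
      | base => exact fun _ => hi
      | succ j _ ih => exact fun hj => step_mem (hrel j (by omega)) (ih (by omega))
    have h2 : X 0 ∈ A := hX0 ▸ h1 m him.le le_rfl
    intro j
    induction j with
    | zero => exact fun _ => h2
    | succ j ih => exact fun hj => step_mem (hrel j (by omega)) (ih (by omega))
  · push Not at h
    exfalso
    have h1 : ∏ i ∈ range m, (X i ^ 2)⁻¹ ∈ A.nonunits := by
      refine Finset.prod_induction_nonempty (fun i => (X i ^ 2)⁻¹) (fun x => x ∈ A.nonunits)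
        (fun a b ha hb => nonunits_mul_left (nonunits_mem ha) hb) ⟨0, mem_range.2 hm⟩ ?_
      intro i hi
      have h3 := not_mem_inv_nonunits (h i (mem_range.1 hi))
      have h4 := nonunits_mul_left (nonunits_mem h3) h3
      convert h4 using 1
      rw [sq, mul_inv]
    rw [prod_inv_distrib, hprod] at h1
    have h2 := nonunits_mul_left (A.toSubring.pow_mem hu 12) h1
    rw [mul_inv_cancel₀ (pow_ne_zero _ hu0)] at h2
    exact one_not_nonunits h2

theorem inv_mem {m : ℕ} {X : ℕ → ℂ} {u : ℂ} (hX : ∀ i, X i ≠ 0)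
    (hprod : ∏ i ∈ range m, X i ^ 2 = u ^ 12) (hui : u⁻¹ ∈ A)
    (h : ∀ i ≤ m, X i ∈ A) {i : ℕ} (hi : i < m) : (X i)⁻¹ ∈ A := by
  have h1 : (X i)⁻¹ = X i * (∏ j ∈ (range m).erase i, X j ^ 2) * u⁻¹ ^ 12 := by
    rw [inv_pow, ← hprod, ← mul_prod_erase (range m) (fun i => X i ^ 2) (mem_range.2 hi), mul_inv]
    have : ∏ j ∈ (range m).erase i, X j ^ 2 ≠ 0 :=
      prod_ne_zero_iff.2 fun j _ => pow_ne_zero 2 (hX j)
    have h2 := hX i
    field_simp
  rw [h1]
  refine A.mul_mem _ _ (A.mul_mem _ _ (h i hi.le)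
    (A.toSubring.prod_mem fun j hj => A.toSubring.pow_mem (h j ?_) 2))
    (A.toSubring.pow_mem hui 12)
  exact (mem_range.1 (mem_of_mem_erase hj)).le

/-- `1 + c y` for `c` in the maximal ideal -/
theorem one_add {c y : ℂ} (hc : c ∈ A.nonunits) (hy : y ∈ A) : 1 + c * y - 1 ∈ A.nonunits := by
  rw [add_sub_cancel_left]
  exact nonunits_mul_right hc hy

end Cycle3Aux

open Finset Cycle3Aux in
theorem stCycle3 : StCycle3 := by
  intro A hA m hm X u hX hX0 hrel hprod hu hui hu4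
  have hu0 : u ≠ 0 := by
    rintro rfl
    rw [zero_pow (by norm_num)] at hprod
    exact prod_ne_zero_iff.2 (fun i _ => pow_ne_zero 2 (hX i)) hprod
  have hmem := all_mem hm hX0 hrel hprod hu0 hu
  have hinv : ∀ i ≤ m, (X i)⁻¹ ∈ A := by
    intro i hi
    rcases hi.lt_or_eq with hi | rfl
    · exact inv_mem hX hprod hui hmem hi
    · rw [hX0]
      exact inv_mem hX hprod hui hmem hm
  refine ⟨fun i hi => ⟨hmem i hi, hinv i hi⟩, fun hrel2 => ?_⟩
  have h27 : (27 : ℂ) ∈ A.nonunits := by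
    have := three_dvd_nonunits hA (n := 27) (by decide)
    exact_mod_cast this
  have h243 : (243 : ℂ) ∈ A.nonunits := by
    have := three_dvd_nonunits hA (n := 243) (by decide)
    exact_mod_cast this
  -- the factors
  set y : ℕ → ℂ := fun i => (X i)⁻¹ with hy
  have hf : ∀ c : ℂ, ∀ i, X i + c = X i * (1 + c * y i) := by
    intro c i
    have := hX i
    rw [hy]
    field_simp
  have hu27 : ∀ i ≤ m, 1 + 27 * y i - 1 ∈ A.nonunits := fun i hi => one_add h27 (hinv i hi)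
  have hu243 : ∀ i ≤ m, 1 + 243 * y i - 1 ∈ A.nonunits := fun i hi => one_add h243 (hinv i hi)
  -- division by the product of the `X i`
  have hrel3 : ∏ i ∈ range m, (1 + 243 * y i) = u ^ 4 * ∏ i ∈ range m, (1 + 3 * y i) := by
    have h1 : ∏ i ∈ range m, (X i + 3) =
        (∏ i ∈ range m, X i) * ∏ i ∈ range m, (1 + 3 * y i) := by
      rw [← prod_mul_distrib]
      exact prod_congr rfl fun i _ => hf 3 i
    have h2 : ∏ i ∈ range m, (X i + 243) =
        (∏ i ∈ range m, X i) * ∏ i ∈ range m, (1 + 243 * y i) := by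
      rw [← prod_mul_distrib]
      exact prod_congr rfl fun i _ => hf 243 i
    have h3 : ∏ i ∈ range m, X i ≠ 0 := prod_ne_zero_iff.2 fun i _ => hX i
    rw [h1, h2] at hrel2
    apply mul_left_cancel₀ h3
    linear_combination hrel2
  have hyA : ∀ i ∈ range m, y i ∈ A := fun i hi => hinv i (mem_range.1 hi).le
  set S := ∑ i ∈ range m, y i with hS
  have hSA : S ∈ A := A.toSubring.sum_mem hyA
  obtain ⟨z, hz, h1⟩ := prod_expand (range m) y 3 (nonunits_mem hA) hyA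
  obtain ⟨z', hz', h2⟩ := prod_expand (range m) y 243 (nonunits_mem h243) hyA
  rw [h1, h2, ← hS] at hrel3
  have hu4A := A.toSubring.pow_mem hu 4
  have hui4A := A.toSubring.pow_mem hui 4
  have hSu : S - ((u⁻¹) ^ 4 - 1) / 3 ∈ A.nonunits := by
    have h3 : S - ((u⁻¹) ^ 4 - 1) / 3 =
        3 * ((u⁻¹) ^ 4 * (27 * S + 6561 * z' - u ^ 4 * z)) := by
      have h5 : u⁻¹ ^ 4 * u ^ 4 = 1 := by
        rw [← mul_pow, inv_mul_cancel₀ hu0, one_pow]
      linear_combination (-(1 / 3) * (u⁻¹ ^ 4)) * hrel3 - (S + 1 / 3) * h5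
    rw [h3]
    have h6561 : (6561 : ℂ) ∈ A := by exact_mod_cast nat_mem (A := A) 6561
    exact nonunits_mul_right hA (A.mul_mem _ _ hui4A (A.toSubring.sub_mem (A.add_mem _ _
      (A.mul_mem _ _ (nonunits_mem h27) hSA) (A.mul_mem _ _ h6561 hz'))
      (A.mul_mem _ _ hu4A hz)))
  -- the sum
  have hterm : ∀ i ∈ range m, X i ^ 3 / ((X i + 27) * (X i + 243) ^ 3) - y i ∈ A.nonunits := by
    intro i hi
    have hi' := (mem_range.1 hi).le
    have hu1 := unit_of_sub_one (hu27 i hi')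
    have hu2 := unit_of_sub_one (hu243 i hi')
    have h3 := inv_sub_one (mul_sub_one (hu27 i hi') (nonunits_pow_sub_one (hu243 i hi') 3))
    have h4 := nonunits_mul_left (hyA i hi) h3
    convert h4 using 1
    rw [hf 27, hf 243]
    have h5 : 1 + 27 * y i ≠ 0 := hu1.2.2.1
    have h6 : 1 + 243 * y i ≠ 0 := hu2.2.2.1
    have h7 : X i = (y i)⁻¹ := by rw [hy]; simp
    have h8 : y i ≠ 0 := inv_ne_zero (hX i)
    rw [h7]
    field_simp
    try ring
  have hsum : ∑ i ∈ range m, X i ^ 3 / ((X i + 27) * (X i + 243) ^ 3) - ((u⁻¹) ^ 4 - 1) / 3 =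
      ∑ i ∈ range m, (X i ^ 3 / ((X i + 27) * (X i + 243) ^ 3) - y i) +
      (S - ((u⁻¹) ^ 4 - 1) / 3) := by
    rw [sum_sub_distrib]
    ring
  rw [hsum]
  exact nonunits_add (sum_nonunits _ _ hterm) hSu

end Pool.Agent.Lib.MP_7c08ba_nt.RZC3
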