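import Pool.Agent.Lib.MP_7c08ba_nt.RZ.Basic3

set_option autoImplicit false

/-! (G5): `(n - 1) τ(n)` is divisible by 3, and every normalised eigenform of level one is
congruent to `Δ` modulo the maximal ideal of a valuation ring above 3. -/

namespace Pool.Agent.Lib.MP_7c08ba_nt.RZC3

open UpperHalfPlane ModularForm EisensteinSeries MatrixGroups NumberField RZC
open scoped Real Manifold ComplexConjugate

noncomputable section

namespace Delta3Aux

/-! ### `(n - 1) τ(n)` is divisible by 3 -/

theorem dvd_coeff (hR : StRamQ) (n : ℕ) : (3 : ℤ) ∣ ((n : ℤ) - 1) * D12.coeff n := by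
  obtain ⟨-, -, -, h⟩ := hR
  have h1 := congrArg (PowerSeries.coeff n) h
  have e : (24 : PowerSeries ℤ) = PowerSeries.C 24 := rfl
  rw [th, PowerSeries.coeff_mk, P2, sub_mul, one_mul, map_sub, mul_assoc, e,
    PowerSeries.coeff_C_mul] at h1
  exact ⟨-8 * (sg 1 * D12).coeff n, by linear_combination h1⟩

/-! ### modulo 3 -/

/-- reduction modulo 3 -/
abbrev r3 : PowerSeries ℤ →+* PowerSeries (ZMod 3) := PowerSeries.map (Int.castRingHom (ZMod 3))

theorem r3_Q4 : r3 Q4 = 1 := by
  have e : (240 : PowerSeries ℤ) = PowerSeries.C 240 := rfl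
  have e2 : ((Int.castRingHom (ZMod 3)) 240) = 0 := by decide
  rw [Q4, map_add, map_one, map_mul, e]
  show 1 + PowerSeries.map (Int.castRingHom (ZMod 3)) (PowerSeries.C 240) * _ = 1
  rw [PowerSeries.map_C, e2, map_zero, zero_mul, add_zero]

theorem r3_R6 : r3 R6 = 1 := by
  have e : (504 : PowerSeries ℤ) = PowerSeries.C 504 := rfl
  have e2 : ((Int.castRingHom (ZMod 3)) 504) = 0 := by decide
  rw [R6, map_sub, map_one, map_mul, e]
  show 1 - PowerSeries.map (Int.castRingHom (ZMod 3)) (PowerSeries.C 504) * _ = 1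
  rw [PowerSeries.map_C, e2, map_zero, zero_mul, sub_zero]

theorem r3_eb (k : ℕ) : r3 (eb k Q4 R6) = 1 := by
  unfold eb
  split_ifs <;> simp [r3_Q4, r3_R6]

theorem r3_coeff (g : PowerSeries ℤ) (n : ℕ) : (r3 g).coeff n = (g.coeff n : ZMod 3) := by
  simp

theorem three_dvd_iff (g : PowerSeries ℤ) (n : ℕ) :
    (3 : ℤ) ∣ g.coeff n ↔ (r3 g).coeff n = 0 := by
  rw [r3_coeff]
  exact (ZMod.intCast_zmod_eq_zero_iff_dvd (g.coeff n) 3).symm

/-- a series supported on exponents congruent to 1: the `j`-th power is supported on exponents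
congruent to `j` modulo 3 -/
theorem supp {g : PowerSeries (ZMod 3)} (hg : ∀ n, n % 3 ≠ 1 → g.coeff n = 0) (j : ℕ) :
    ∀ n, n % 3 ≠ j % 3 → (g ^ j).coeff n = 0 := by
  induction j with
  | zero =>
    intro n hn
    have : n ≠ 0 := by rintro rfl; simp at hn
    simp [PowerSeries.coeff_one, this]
  | succ j ih =>
    intro n hn
    rw [pow_succ, PowerSeries.coeff_mul]
    refine Finset.sum_eq_zero fun x hx => ?_
    rw [Finset.HasAntidiagonal.mem_antidiagonal] at hx
    by_cases h : x.2 % 3 = 1
    · rw [ih _ (by omega), zero_mul]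
    · rw [hg _ h, mul_zero]

/-- Frobenius -/
theorem coeff_cube (g : PowerSeries (ZMod 3)) (n : ℕ) : (g ^ 3).coeff (3 * n) = g.coeff n := by
  haveI : Fact (Nat.Prime 3) := ⟨Nat.prime_three⟩
  have h : (MvPowerSeries.map (frobenius (ZMod 3) 3)
      (MvPowerSeries.expand 3 (by norm_num) g) : MvPowerSeries Unit (ZMod 3)) = g ^ 3 :=
    MvPowerSeries.map_frobenius_expand 3 (by norm_num)
  have h2 : PowerSeries.map (frobenius (ZMod 3) 3) (PowerSeries.expand 3 (by norm_num) g) =
    g ^ 3 := h
  rw [← h2, PowerSeries.coeff_map, PowerSeries.coeff_expand_mul, frobenius_def]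
  exact ZMod.pow_card _

/-! ### `Δ` -/

theorem cf_disc (h4 : StEis) (n : ℕ) : cf ModularForm.discriminant n = (D12.coeff n : ℂ) := by
  obtain ⟨-, -, -, -, -, h⟩ := h4
  show (qExpansion 1 ModularForm.discriminant).coeff n = _
  rw [h]
  simp

/-- `Δ` as a cusp form -/
theorem disc_cusp : ∃ f : CuspForm 𝒮ℒ ((12 : ℕ) : ℤ),
    (f : ℍ → ℂ) = ModularForm.discriminant :=
  ⟨(CuspForm.discriminant : CuspForm 𝒮ℒ 12), rfl⟩

/-! ### combinatorics in the valuation ring -/

section comb
variable {A : ValuationSubring ℂ}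

theorem nonunits_sum {ι : Type*} (s : Finset ι) (x : ι → ℂ) (h : ∀ i ∈ s, x i ∈ A.nonunits) :
    ∑ i ∈ s, x i ∈ A.nonunits := by
  classical
  induction s using Finset.induction_on with
  | empty => simp [zero_nonunits]
  | insert a s ha ih =>
    rw [Finset.sum_insert ha]
    exact nonunits_add (h a (Finset.mem_insert_self a s))
      (ih fun i hi => h i (Finset.mem_insert_of_mem hi))

/-- triangular systems -/
theorem triang (m : ℕ) (b : ℕ → ℂ) (d : ℕ → ℕ → ℂ) (hd : ∀ i n, d i n ∈ A)
    (hlt : ∀ i n, n < i → d i n = 0) (hdiag : ∀ i, d i i = 1)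
    (h : ∀ n, ∑ i ∈ Finset.range (m + 1), b i * d i n ∈ A.nonunits) :
    ∀ n ≤ m, b n ∈ A.nonunits := by
  intro n
  induction n using Nat.strong_induction_on with
  | _ n ih =>
    intro hn
    have hs := h n
    have e : ∑ i ∈ Finset.range (m + 1), b i * d i n =
        ∑ i ∈ Finset.range (n + 1), b i * d i n := by
      symm
      refine Finset.sum_subset (by
        intro i hi
        rw [Finset.mem_range] at hi ⊢
        omega) ?_
      intro i _ hi
      rw [Finset.mem_range, not_lt] at hi
      rw [hlt i n (by omega), mul_zero]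
    rw [e, Finset.sum_range_succ, hdiag, mul_one] at hs
    have h1 : ∑ i ∈ Finset.range n, b i * d i n ∈ A.nonunits :=
      nonunits_sum _ _ fun i hi => by
        rw [Finset.mem_range] at hi
        exact nonunits_mul_right (ih i hi (by omega)) (hd i n)
    have := nonunits_sub hs h1
    simpa using this

/-- the eigenvalue at 3 is in the maximal ideal: abstract form -/
theorem lam (m : ℕ) (c : ℕ → ℂ) (hc : ∀ i, c i ∈ A) (hcm : ∀ i, m < i → c i = 0)
    (d : ℕ → ℕ → ℂ) (hd : ∀ i n, d i n ∈ A)
    (hlt : ∀ i n, n < i → d i n = 0) (hdiag : ∀ i, d i i = 1)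
    (hev : ∀ i n, d (3 * i) (3 * n) - d i n ∈ A.nonunits)
    (hodd : ∀ i n, i % 3 ≠ 0 → d i (3 * n) ∈ A.nonunits)
    (a : ℕ → ℂ) (ha : ∀ n, a n - ∑ i ∈ Finset.range (m + 1), c i * d i n ∈ A.nonunits)
    (ha0 : a 0 = 0) (ha1 : a 1 = 1) (l : ℂ) (hl : l ∈ A)
    (hecke : ∀ n, l * a n - a (3 * n) ∈ A.nonunits) : l ∈ A.nonunits := by
  by_contra hl0
  -- the sum over the multiples of 3
  have hA : ∀ n, ∑ i ∈ Finset.range (m + 1), c i * d i (3 * n) -
      ∑ i ∈ Finset.range (m + 1), c (3 * i) * d i n ∈ A.nonunits := by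
    intro n
    have e1 : ∑ i ∈ Finset.range (m + 1), c i * d i (3 * n) =
        ∑ i ∈ Finset.range (3 * (m + 1)), c i * d i (3 * n) := by
      refine Finset.sum_subset (by
        intro i hi
        rw [Finset.mem_range] at hi ⊢
        omega) ?_
      intro i _ hi
      rw [Finset.mem_range, not_lt] at hi
      rw [hcm i (by omega), zero_mul]
    have e2 : ∀ M : ℕ, ∑ i ∈ Finset.range (3 * M), c i * d i (3 * n) =
        ∑ i ∈ Finset.range M, (c (3 * i) * d (3 * i) (3 * n) +
          c (3 * i + 1) * d (3 * i + 1) (3 * n) +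
          c (3 * i + 2) * d (3 * i + 2) (3 * n)) := by
      intro M
      induction M with
      | zero => simp
      | succ M ih =>
        rw [Finset.sum_range_succ, ← ih, mul_add, mul_one, Finset.sum_range_succ,
          Finset.sum_range_succ, Finset.sum_range_succ]
        ring
    rw [e1, e2, ← Finset.sum_sub_distrib]
    refine nonunits_sum _ _ fun i _ => ?_
    have h1 := nonunits_mul_left (hc (3 * i)) (hev i n)
    have h2 := nonunits_mul_left (hc (3 * i + 1)) (hodd (3 * i + 1) n (by omega))
    have h3 := nonunits_mul_left (hc (3 * i + 2)) (hodd (3 * i + 2) n (by omega))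
    have := nonunits_add (nonunits_add h1 h2) h3
    convert this using 1
    ring
  have hB : ∀ i ≤ m, c (3 * i) - l * c i ∈ A.nonunits := by
    refine triang m (fun i => c (3 * i) - l * c i) d hd hlt hdiag ?_
    intro n
    have h1 := hA n
    have h2 := ha (3 * n)
    have h3 := hecke n
    have h4 := nonunits_mul_left hl (ha n)
    have := nonunits_sub (nonunits_sub (nonunits_sub h4 h3) h2) h1
    convert this using 1
    rw [Finset.sum_congr rfl (g := fun i => c (3 * i) * d i n - l * (c i * d i n))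
      (fun i _ => by ring), Finset.sum_sub_distrib, ← Finset.mul_sum]
    ring
  have hC : ∀ k, ∀ i, 1 ≤ i → m < i + k → c i ∈ A.nonunits := by
    intro k
    induction k with
    | zero =>
      intro i _ hi
      rw [hcm i (by omega)]
      exact zero_nonunits
    | succ k ih =>
      intro i h1 hi
      rcases lt_or_ge m i with h2 | h2
      · rw [hcm i h2]
        exact zero_nonunits
      have h3 := ih (3 * i) (by omega) (by omega)
      have h4 := nonunits_sub h3 (hB i h2)
      rw [sub_sub_cancel] at h4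
      have hl1 : l ≠ 0 := by
        rintro rfl
        exact hl0 zero_nonunits
      exact nonunits_of_mul_unit (inv_mem_of_not_nonunits hl hl0) hl1 h4
  have hD : c 0 ∈ A.nonunits := by
    have h1 := ha 0
    rw [ha0, zero_sub] at h1
    have h2 := nonunits_neg h1
    rw [neg_neg] at h2
    have e : ∑ i ∈ Finset.range (m + 1), c i * d i 0 = c 0 := by
      rw [Finset.sum_eq_single 0]
      · rw [hdiag, mul_one]
      · intro i _ hi
        rw [hlt i 0 (by omega), mul_zero]
      · intro h
        exact absurd (Finset.mem_range.2 (by omega)) h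
    rwa [e] at h2
  have hE : ∀ i, c i ∈ A.nonunits := by
    intro i
    rcases Nat.eq_zero_or_pos i with rfl | hi
    · exact hD
    · exact hC (m + 1) i hi (by omega)
  have h1 := ha 1
  rw [ha1] at h1
  have h2 : ∑ i ∈ Finset.range (m + 1), c i * d i 1 ∈ A.nonunits :=
    nonunits_sum _ _ fun i _ => nonunits_mul_right (hE i) (hd i 1)
  have := nonunits_add h1 h2
  rw [sub_add_cancel] at this
  exact one_not_nonunits this

end comb

/-! ### eigenforms -/

theorem toC_eb (k : ℕ) : eb k (toC Q4) (toC R6) = toC (eb k Q4 R6) := by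
  unfold eb
  split_ifs
  · exact (map_pow (PowerSeries.map _) _ _).symm
  · show _ = PowerSeries.map (Int.castRingHom ℂ) (Q4 ^ ((k - 6) / 4) * R6)
    rw [map_mul (PowerSeries.map _), map_pow (PowerSeries.map _)]

/-- congruence modulo 3 for the coefficients -/
theorem congr_three {g h : PowerSeries ℤ} {n m : ℕ} (e : (r3 g).coeff n = (r3 h).coeff m)
    {A : ValuationSubring ℂ} (hA : Above3 A) :
    (g.coeff n : ℂ) - (h.coeff m : ℂ) ∈ A.nonunits := by
  refine int_modEq_nonunits hA ?_
  rw [r3_coeff, r3_coeff] at e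
  have := (ZMod.intCast_zmod_eq_zero_iff_dvd (g.coeff n - h.coeff m) 3).1 (by
    rw [Int.cast_sub, e, sub_self])
  exact_mod_cast this

theorem even_weight {w : ℕ} (f : CuspForm 𝒮ℒ (w : ℤ)) (he : IsEig w (cf f)) : Even w := by
  by_contra hw
  rw [Nat.not_even_iff_odd] at hw
  have h0 : (f : ModularForm 𝒮ℒ (w : ℤ)) = 0 :=
    ModularForm.levelOne_odd_weight_eq_zero (by exact_mod_cast hw) _
  have h1 : (f : ℍ → ℂ) = 0 := by
    have : ((f : ModularForm 𝒮ℒ (w : ℤ)) : ℍ → ℂ) = 0 := by rw [h0]; rfl
    exact this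
  have h2 := he.1
  rw [h1] at h2
  have h3 : cf (0 : ℍ → ℂ) 1 = 0 := by
    show (qExpansion 1 (0 : ℍ → ℂ)).coeff 1 = 0
    rw [qExpansion_zero]; simp
  rw [h3] at h2
  exact zero_ne_one h2

theorem cf_zero {w : ℕ} (f : CuspForm 𝒮ℒ (w : ℤ)) : cf f 0 = 0 :=
  CuspFormClass.qExpansion_coeff_zero f one_pos one_mem_strictPeriods_SL

theorem three_pow_nonunits {A : ValuationSubring ℂ} (hA : Above3 A) {w : ℕ} (hw : 1 < w) :
    (3 : ℂ) ^ (w - 1) ∈ A.nonunits := by
  obtain ⟨v, hv⟩ : ∃ v, w - 1 = v + 1 := ⟨w - 2, by omega⟩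
  rw [hv, pow_succ]
  refine nonunits_mul_left (A.pow_mem ?_ v) hA
  exact nonunits_mem hA

theorem at_three (h2 : StInt) (h3 : StStruct) (h4 : StEis)
    (hdv : ∀ n : ℕ, (3 : ℤ) ∣ ((n : ℤ) - 1) * D12.coeff n)
    {A : ValuationSubring ℂ} (hA : Above3 A)
    {w : ℕ} (f : CuspForm 𝒮ℒ (w : ℤ)) (he : IsEig w (cf f)) :
    1 < w ∧ cf f 3 ∈ A.nonunits := by
  have hev := even_weight f he
  have hint := h2 A w f he
  obtain ⟨c, hc, -, -, hq⟩ := h3 A.toSubring.toAddSubgroup w hev
    (f : ModularForm 𝒮ℒ (w : ℤ)) (fun n => hint n)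
  have hcA : ∀ j, c j ∈ A := hc
  have hcoef : ∀ n, cf f n = ∑ j ∈ Finset.range (w / 12 + 1),
      c j * ((D12 ^ j * eb (w - 12 * j) Q4 R6).coeff n : ℂ) := by
    intro n
    show (qExpansion 1 ((f : ModularForm 𝒮ℒ (w : ℤ)) : ℍ → ℂ)).coeff n = _
    rw [hq, map_sum]
    refine Finset.sum_congr rfl fun j _ => ?_
    have e : toC D12 ^ j = toC (D12 ^ j) := (map_pow (PowerSeries.map _) _ _).symm
    rw [toC_eb, e, mul_assoc, PowerSeries.coeff_C_mul, ← map_mul, PowerSeries.coeff_map]
    simp
  have hw : 1 < w := by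
    by_contra hw
    have hw0 : w = 0 := by
      rcases hev with ⟨v, hv⟩
      omega
    have h1 := hcoef 1
    rw [he.1, hw0] at h1
    simp [eb, PowerSeries.coeff_one] at h1
  refine ⟨hw, ?_⟩
  have hsupp : ∀ n, n % 3 ≠ 1 → (r3 D12).coeff n = 0 := fun n hn => by
    refine (three_dvd_iff D12 n).1 ?_
    rcases Int.prime_three.dvd_or_dvd (hdv n) with h | h
    · exfalso
      omega
    · exact h
  set m := w / 12 with hm
  refine lam (A := A) m (fun i => if i ≤ m then c i else 0) ?_ ?_
    (fun i n => ((D12 ^ i).coeff n : ℂ)) ?_ ?_ ?_ ?_ ?_ (cf f) ?_ (cf_zero f) he.1 (cf f 3)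
    (hint 3) ?_
  · intro i
    split_ifs
    · exact hcA i
    · exact A.zero_mem
  · intro i hi
    rw [if_neg (by omega)]
  · intro i n
    exact int_mem _
  · intro i n hn
    have : (D12 ^ i).coeff n = 0 := by
      have h0 : PowerSeries.X ∣ D12 := by
        rw [PowerSeries.X_dvd_iff, ← PowerSeries.coeff_zero_eq_constantCoeff_apply]
        exact h4.2.1
      exact PowerSeries.X_pow_dvd_iff.1 (pow_dvd_pow_of_dvd h0 i) n hn
    rw [this]; simp
  · intro i
    have : (D12 ^ i).coeff i = 1 := by
      obtain ⟨u, hu⟩ : PowerSeries.X ∣ D12 := by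
        rw [PowerSeries.X_dvd_iff, ← PowerSeries.coeff_zero_eq_constantCoeff_apply]
        exact h4.2.1
      have hu0 : PowerSeries.coeff 0 u = 1 := by
        have h1 := h4.2.2.1
        rw [hu, mul_comm, PowerSeries.coeff_succ_mul_X] at h1
        exact h1
      have e : (D12 ^ i).coeff i = (u ^ i).coeff 0 := by
        rw [hu, mul_pow, mul_comm]
        have := PowerSeries.coeff_mul_X_pow (u ^ i) i 0
        rwa [zero_add] at this
      rw [e, PowerSeries.coeff_zero_eq_constantCoeff_apply, map_pow,
        ← PowerSeries.coeff_zero_eq_constantCoeff_apply, hu0, one_pow]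
    rw [this]; simp
  · intro i n
    refine congr_three ?_ hA
    rw [map_pow r3, map_pow r3, mul_comm 3 i, pow_mul, coeff_cube]
  · intro i n hi
    have h1 : (3 : ℤ) ∣ (D12 ^ i).coeff (3 * n) := by
      rw [three_dvd_iff, map_pow]
      exact supp hsupp _ _ (by omega)
    exact three_dvd_nonunits hA h1
  · intro n
    rw [hcoef n, ← Finset.sum_sub_distrib]
    refine nonunits_sum _ _ fun i hi => ?_
    rw [Finset.mem_range] at hi
    rw [if_pos (by omega), ← mul_sub]
    refine nonunits_mul_left (hcA i) (congr_three ?_ hA)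
    rw [map_mul, r3_eb, mul_one]
  · intro n
    rcases Nat.eq_zero_or_pos n with rfl | hn
    · rw [mul_zero, cf_zero f, mul_zero, sub_zero]
      exact zero_nonunits
    · rw [he.2 3 n Nat.prime_three hn, add_sub_cancel_left]
      split_ifs
      · exact nonunits_mul_right (by exact_mod_cast three_pow_nonunits hA hw) (hint _)
      · exact zero_nonunits

end Delta3Aux

open Delta3Aux in
/-- (G5) -/
theorem stDelta3 (h1 : StTr3) (h2 : StInt) (h3 : StDelta) (h4 : StRamQ) (h5 : StStruct)
    (h6 : StEis) : StDelta3 := by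
  have hE := h3.2.1
  have hdv := dvd_coeff h4
  refine ⟨hdv, ?_⟩
  intro A hA w f he
  obtain ⟨hw, hf3⟩ := at_three h2 h5 h6 hdv hA f he
  have hwe := even_weight f he
  refine ⟨hf3, ?_⟩
  have hint := h2 A w f he
  intro n
  induction n using Nat.strong_induction_on with
  | _ n ih =>
    rcases Nat.eq_zero_or_pos n with rfl | hn
    · rw [cf_zero f, h6.2.1]
      simp [zero_nonunits]
    rcases Nat.eq_or_lt_of_le (Nat.succ_le_of_lt hn) with h | hn1
    · have : n = 1 := h.symm
      rw [this, he.1, h6.2.2.1]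
      simp [zero_nonunits]
    have hp : (Nat.minFac n).Prime := Nat.minFac_prime (by omega)
    set p := Nat.minFac n with hpdef
    obtain ⟨m, hm⟩ : p ∣ n := Nat.minFac_dvd n
    have hm0 : 0 < m := by
      rcases Nat.eq_zero_or_pos m with rfl | h
      · rw [mul_zero] at hm; omega
      · exact h
    have hf := he.2 p m hp hm0
    rw [← hm] at hf
    by_cases hp3 : p = 3
    · rw [hp3] at hf hm
      have a1 : cf f n ∈ A.nonunits := by
        have e : cf f n = cf f 3 * cf f m -
            (if 3 ∣ m then ((3 : ℕ) : ℂ) ^ (w - 1) * cf f (m / 3) else 0) := by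
          rw [hf]; ring
        rw [e]
        refine nonunits_sub (nonunits_mul_right hf3 (hint m)) ?_
        split_ifs
        · exact nonunits_mul_right (by exact_mod_cast three_pow_nonunits hA hw) (hint _)
        · exact zero_nonunits
      refine nonunits_sub a1 (three_dvd_nonunits hA ?_)
      rcases Int.prime_three.dvd_or_dvd (hdv n) with h | h
      · exfalso
        omega
      · exact h
    · obtain ⟨D, hD⟩ := disc_cusp
      have hED : IsEig 12 (cf D) := by rw [hD]; exact hE
      have hd := hE.2 p m hp hm0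
      rw [← hm] at hd
      have z1 := h1 A hA w f he p hp hp3
      have z2 := h1 A hA 12 D hED p hp hp3
      rw [hD] at z2
      have z3 : cf f p - cf ModularForm.discriminant p ∈ A.nonunits := by
        have := nonunits_sub z1 z2
        rwa [sub_sub_sub_cancel_right] at this
      have dm : ∀ k, cf ModularForm.discriminant k ∈ A := fun k => by
        rw [cf_disc h6]; exact int_mem _
      have hmn : m < n := by
        rw [hm]
        have := hp.two_le
        nlinarith
      have im := ih m hmn
      rw [← cf_disc h6] at im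
      have pw : ((p : ℕ) : ℂ) ^ (w - 1) - ((p : ℕ) : ℂ) ^ (12 - 1) ∈ A.nonunits := by
        have o1 : Odd (w - 1) := by
          rcases hwe with ⟨v, hv⟩
          exact ⟨v - 1, by omega⟩
        have q1 := pow_odd_sub hA (n := (p : ℤ)) o1
        have q2 := pow_odd_sub hA (n := (p : ℤ)) (k := 12 - 1) (by decide)
        have := nonunits_sub q1 q2
        rw [sub_sub_sub_cancel_right] at this
        exact_mod_cast this
      rw [← cf_disc h6 n]
      have e : cf f n - cf ModularForm.discriminant n =
          (cf f p - cf ModularForm.discriminant p) * cf f m +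
          cf ModularForm.discriminant p * (cf f m - cf ModularForm.discriminant m) -
          ((if p ∣ m then (p : ℂ) ^ (w - 1) * cf f (m / p) else 0) -
           (if p ∣ m then (p : ℂ) ^ (12 - 1) * cf ModularForm.discriminant (m / p) else 0)) := by
        linear_combination hd - hf
      rw [e]
      refine nonunits_sub (nonunits_add (nonunits_mul_right z3 (hint m))
        (nonunits_mul_left (dm p) im)) ?_
      split_ifs with hdiv
      · have hlt : m / p < n := lt_of_le_of_lt (Nat.div_le_self m p) hmn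
        have i1 := ih (m / p) hlt
        rw [← cf_disc h6] at i1
        have i2 := nonunits_mul_right pw (hint (m / p))
        have pA : (p : ℂ) ^ (12 - 1) ∈ A := A.pow_mem (nat_mem p) _
        have i3 := nonunits_mul_left pA i1
        have := nonunits_add i2 i3
        convert this using 1
        ring
      · rw [sub_zero]
        exact zero_nonunits

end

end Pool.Agent.Lib.MP_7c08ba_nt.RZC3
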