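import Pool.Agent.Lib.MP_7c08ba_nt.RZ.Basic3

set_option autoImplicit false

/-! (R3) the level 3 relation for `E₂`. -/

namespace Pool.Agent.Lib.MP_7c08ba_nt.RZC3

open UpperHalfPlane ModularForm EisensteinSeries MatrixGroups NumberField RZC
open scoped Real Manifold ComplexConjugate

noncomputable section

namespace E2rel3Aux

/-- the derivative of `F ∘ ofComplex` -/
theorem hasDeriv {F : ℍ → ℂ} (hF : MDiff F) (τ : ℍ) :
    HasDerivAt (F ∘ ofComplex) (2 * π * Complex.I * Derivative.normalizedDerivOfComplex F τ)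
      (τ : ℂ) := by
  have h1 := (UpperHalfPlane.mdifferentiableAt_iff.mp (hF τ)).hasDerivAt
  have h2 : deriv (F ∘ ofComplex) (τ : ℂ) =
      2 * π * Complex.I * Derivative.normalizedDerivOfComplex F τ := by
    unfold Derivative.normalizedDerivOfComplex
    rw [← mul_assoc, mul_inv_cancel₀ Complex.two_pi_I_ne_zero, one_mul]
  rwa [h2] at h1

/-- the algebraic identity -/
theorem alg {a b c p p' r X x : ℂ} (ha : a ≠ 0) (hX : X ≠ 0) (hc : c ≠ 0)
    (hb : X ^ 2 * c = b) (h1 : 2 * X * x * c + X ^ 2 * (3 * p' * c) = p * b)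
    (h2 : a ^ 3 * X ^ 3 = b * (X + 27) * (X + 243) ^ 3)
    (h3 : a ^ 2 * (p * a - r) * X ^ 3 + 3 * a ^ 3 * X ^ 2 * x =
      p * b * (X + 27) * (X + 243) ^ 3 + b * x * (X + 243) ^ 3 +
        3 * b * (X + 27) * (X + 243) ^ 2 * x) :
    2 * r * (X + 27) * (X + 243) = (3 * p' - p) * a * (X ^ 2 - 486 * X - 19683) := by
  have h4 : 2 * x = (p - 3 * p') * X := by
    have : X * c * (2 * x) = X * c * ((p - 3 * p') * X) := by
      rw [← hb] at h1
      linear_combination h1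
    exact mul_left_cancel₀ (mul_ne_zero hX hc) this
  have h5 : a ^ 2 * X ^ 3 * (2 * r * (X + 27) * (X + 243)) =
      a ^ 2 * X ^ 3 * ((3 * p' - p) * a * (X ^ 2 - 486 * X - 19683)) := by
    have h6 : (a ^ 2 * (p * a - r) * X ^ 3 + 3 * a ^ 3 * X ^ 2 * x) * ((X + 27) * (X + 243)) =
        p * (a ^ 3 * X ^ 3) * ((X + 27) * (X + 243)) + x * (a ^ 3 * X ^ 3) * (X + 243) +
          3 * x * (a ^ 3 * X ^ 3) * (X + 27) := by
      rw [h2]
      linear_combination ((X + 27) * (X + 243)) * h3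
    linear_combination (-2 : ℂ) * h6 + (3 * a ^ 3 * X ^ 2 * ((X + 27) * (X + 243)) -
      a ^ 3 * X ^ 3 * (X + 243) - 3 * a ^ 3 * X ^ 3 * (X + 27)) * h4
  exact mul_left_cancel₀ (mul_ne_zero (pow_ne_zero 2 ha) (pow_ne_zero 3 hX)) h5

end E2rel3Aux

open E2rel3Aux in
/-- (R3) the level 3 relation for `E₂` -/
theorem stE2rel3 (h1 : StRam) (h2 : StLevel3) : StE2rel3 := by
  intro w₁ w₂ hw
  by_cases he0 : e4 w₁ w₂ = 0
  · obtain ⟨k1, _, _, _, _, k6, _⟩ := h2 w₁ w₂ hw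
    rw [he0] at k6
    have h3 : (XX3 w₁ w₂ + 27) * (XX3 w₁ w₂ + 243) = 0 := by
      have h4 : dl w₁ w₂ * ((XX3 w₁ w₂ + 27) * (XX3 w₁ w₂ + 243) ^ 3) = 0 := by
        linear_combination -k6
      have h5 := (mul_eq_zero.1 h4).resolve_left k1
      rcases mul_eq_zero.1 h5 with h6 | h6
      · rw [h6, zero_mul]
      · rw [pow_eq_zero_iff (by norm_num) |>.1 h6, mul_zero]
    rw [he0, mul_zero, zero_mul, mul_assoc, h3, mul_zero]
  obtain ⟨_, hE4, _, hΔ⟩ := h1
  -- functions on the upper half plane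
  let a : ℂ → ℂ := (E₄ : ℍ → ℂ) ∘ ofComplex
  let b : ℂ → ℂ := discriminant ∘ ofComplex
  let a3 : ℂ → ℂ := fun z => a (3 * z)
  let c : ℂ → ℂ := fun z => b (3 * z)
  let X : ℂ → ℂ := fun z => 3 * (81 * a3 z - a z) / (a z - a3 z)
  have hrel : ∀ z : ℂ, 0 < z.im → a z ≠ a3 z → X z ^ 2 * c z = b z ∧
      a z ^ 3 * X z ^ 3 = b z * (X z + 27) * (X z + 243) ^ 3 ∧ X z ≠ 0 ∧ c z ≠ 0 := by
    intro z hz hne
    have hp : Pos z 1 := by
      unfold Pos
      rwa [div_one]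
    obtain ⟨_, k2, k3, _, k5, k6, _⟩ := h2 z 1 hp
    have ea : e4 z 1 = a z := by
      change (1 ^ 4)⁻¹ * (E₄ : ℍ → ℂ) (ofComplex (z / 1)) = (E₄ : ℍ → ℂ) (ofComplex z)
      rw [div_one, one_pow, inv_one, one_mul]
    have eb' : dl z 1 = b z := by
      change (1 ^ 12)⁻¹ * discriminant (ofComplex (z / 1)) = discriminant (ofComplex z)
      rw [div_one, one_pow, inv_one, one_mul]
    have e1 : z / (1 / 3) = 3 * z := by ring
    have ea3 : e4 z (1 / 3) = 81 * a3 z := by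
      change ((1 / 3) ^ 4)⁻¹ * (E₄ : ℍ → ℂ) (ofComplex (z / (1 / 3))) =
        81 * (E₄ : ℍ → ℂ) (ofComplex (3 * z))
      rw [e1]
      norm_num
    have ec : dl z (1 / 3) = 3 ^ 12 * c z := by
      change ((1 / 3) ^ 12)⁻¹ * discriminant (ofComplex (z / (1 / 3))) =
        3 ^ 12 * discriminant (ofComplex (3 * z))
      rw [e1]
      norm_num
    have hX : XX3 z 1 = X z := by
      have hs : a z - a3 z ≠ 0 := sub_ne_zero.2 hne
      have hs' : 81 * a z - 81 * a3 z ≠ 0 := by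
        rw [← mul_sub]
        exact mul_ne_zero (by norm_num) hs
      unfold XX3
      rw [ea, ea3, if_neg (fun h => hne (mul_left_cancel₀ (by norm_num) h))]
      change _ = 3 * (81 * a3 z - a z) / (a z - a3 z)
      rw [div_eq_div_iff hs' hs]
      ring
    rw [hX] at k3 k5 k6
    rw [ec, eb'] at k5
    rw [ea, eb'] at k6
    refine ⟨?_, k6, k3, ?_⟩
    · have h3 : (3 : ℂ) ^ 12 ≠ 0 := by norm_num
      apply mul_left_cancel₀ h3
      linear_combination k5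
    · intro h
      rw [ec, h, mul_zero] at k2
      exact k2 rfl
  -- the point
  set z₀ : ℂ := w₁ / w₂ with hz₀
  have him : 0 < z₀.im := hw
  have him3 : 0 < (3 * z₀).im := by
    have : (3 * z₀).im = 3 * z₀.im := by
      rw [Complex.mul_im]
      norm_num
    rw [this]
    linarith
  let τ : ℍ := ⟨z₀, him⟩
  let τ₃ : ℍ := ⟨3 * z₀, him3⟩
  have hw2 : w₂ ≠ 0 := hw.ne
  have va : a z₀ = E₄ τ := by
    change (E₄ : ℍ → ℂ) (ofComplex z₀) = _
    rw [ofComplex_apply_of_im_pos him]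
  have va3 : a3 z₀ = E₄ τ₃ := by
    change (E₄ : ℍ → ℂ) (ofComplex (3 * z₀)) = _
    rw [ofComplex_apply_of_im_pos him3]
  have vb : b z₀ = discriminant τ := by
    change discriminant (ofComplex z₀) = _
    rw [ofComplex_apply_of_im_pos him]
  have vc : c z₀ = discriminant τ₃ := by
    change discriminant (ofComplex (3 * z₀)) = _
    rw [ofComplex_apply_of_im_pos him3]
  have le6 : e6 w₁ w₂ = (w₂ ^ 6)⁻¹ * E₆ τ := LF_eq hw
  have le4 : e4 w₁ w₂ = (w₂ ^ 4)⁻¹ * E₄ τ := LF_eq hw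
  have hq : w₁ / (w₂ / 3) = 3 * z₀ := by
    rw [hz₀]
    field_simp
  have le43 : e4 w₁ (w₂ / 3) = ((w₂ / 3) ^ 4)⁻¹ * E₄ τ₃ := by
    change ((w₂ / 3) ^ 4)⁻¹ * (E₄ : ℍ → ℂ) (ofComplex (w₁ / (w₂ / 3))) = _
    rw [hq, ofComplex_apply_of_im_pos him3]
  have le2 : LF 2 E2 w₁ w₂ = (w₂ ^ 2)⁻¹ * E2 τ := LF_eq hw
  have le23 : LF 2 E2 w₁ (w₂ / 3) = ((w₂ / 3) ^ 2)⁻¹ * E2 τ₃ := by
    change ((w₂ / 3) ^ 2)⁻¹ * E2 (ofComplex (w₁ / (w₂ / 3))) = _
    rw [hq, ofComplex_apply_of_im_pos him3]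
  have lee : ee3 w₁ w₂ = (w₂ ^ 2)⁻¹ * (3 * E2 τ₃ - E2 τ) := by
    unfold ee3
    rw [le2, le23]
    field_simp
  have ha0 : E₄ τ ≠ 0 := by
    intro h
    rw [le4, h, mul_zero] at he0
    exact he0 rfl
  -- the values of `E₄` are different
  have hne81 : 81 * e4 w₁ w₂ ≠ e4 w₁ (w₂ / 3) := by
    intro h
    obtain ⟨k1, _, k3, _, _, k6, _⟩ := h2 w₁ w₂ hw
    have h3 : XX3 w₁ w₂ = -27 := by
      unfold XX3
      rw [if_pos h]
    rw [h3] at k6
    have h4 : e4 w₁ w₂ ^ 3 = 0 := by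
      have : e4 w₁ w₂ ^ 3 * (-27) ^ 3 = 0 := by
        rw [k6]
        ring
      exact (mul_eq_zero.1 this).resolve_right (by norm_num)
    exact he0 (pow_eq_zero_iff (by norm_num) |>.1 h4)
  have hne : a z₀ ≠ a3 z₀ := by
    intro h
    apply hne81
    rw [va, va3] at h
    rw [le4, le43, h]
    field_simp
    ring
  have lX : XX3 w₁ w₂ = X z₀ := by
    have hs : a z₀ - a3 z₀ ≠ 0 := sub_ne_zero.2 hne
    have hs' : 81 * e4 w₁ w₂ - e4 w₁ (w₂ / 3) ≠ 0 := sub_ne_zero.2 hne81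
    unfold XX3
    rw [if_neg hne81]
    change _ = 3 * (81 * a3 z₀ - a z₀) / (a z₀ - a3 z₀)
    rw [div_eq_div_iff hs' hs, va, va3, le4, le43]
    field_simp
    ring
  -- derivatives
  have hMa : MDiff (E₄ : ℍ → ℂ) := E₄.holo'
  have hMb : MDiff discriminant := CuspForm.discriminant.holo'
  have da : HasDerivAt a (2 * π * Complex.I * ((E2 τ * E₄ τ - E₆ τ) / 3)) z₀ := by
    have := hasDeriv hMa τ
    rwa [hE4 τ] at this
  have db : HasDerivAt b (2 * π * Complex.I * (E2 τ * discriminant τ)) z₀ := by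
    have := hasDeriv hMb τ
    rwa [hΔ τ] at this
  have hmul : HasDerivAt (fun z : ℂ => 3 * z) 3 z₀ := by
    simpa using (hasDerivAt_id z₀).const_mul (3 : ℂ)
  have dc : HasDerivAt c (2 * π * Complex.I * (E2 τ₃ * discriminant τ₃) * 3) z₀ := by
    have h3 := hasDeriv hMb τ₃
    rw [hΔ τ₃] at h3
    exact HasDerivAt.comp z₀ (h₂ := b) h3 hmul
  have da3 : DifferentiableAt ℂ a3 z₀ := by
    have h3 := hasDeriv hMa τ₃
    exact (HasDerivAt.comp z₀ (h₂ := a) h3 hmul).differentiableAt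
  have dX : DifferentiableAt ℂ X z₀ := by
    refine DifferentiableAt.div ?_ (da.differentiableAt.sub da3) (sub_ne_zero.2 hne)
    exact ((da3.const_mul 81).sub da.differentiableAt).const_mul 3
  obtain ⟨X', hX'⟩ : ∃ x, HasDerivAt X (2 * π * Complex.I * x) z₀ := by
    refine ⟨(2 * π * Complex.I)⁻¹ * deriv X z₀, ?_⟩
    rw [← mul_assoc, mul_inv_cancel₀ Complex.two_pi_I_ne_zero, one_mul]
    exact dX.hasDerivAt
  have hopen : IsOpen {z : ℂ | 0 < z.im} := isOpen_lt continuous_const Complex.continuous_im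
  have hnear : ∀ᶠ z in nhds z₀, 0 < z.im ∧ a z ≠ a3 z := by
    have hcont : ContinuousAt (fun z => a z - a3 z) z₀ :=
      (da.differentiableAt.sub da3).continuousAt
    filter_upwards [hopen.mem_nhds him, hcont.eventually_ne (sub_ne_zero.2 hne)] with z hz hz'
    exact ⟨hz, sub_ne_zero.1 hz'⟩
  -- the derivatives of the relations
  have e1 : 2 * X z₀ * X' * discriminant τ₃ + X z₀ ^ 2 * (3 * E2 τ₃ * discriminant τ₃) =
      E2 τ * discriminant τ := by
    have dR := ((hX'.pow 2).mul dc).sub db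
    have hev : (fun z => (X ^ 2 * c) z - b z) =ᶠ[nhds z₀] fun _ => 0 := by
      filter_upwards [hnear] with z hz
      have := (hrel z hz.1 hz.2).1
      change X z ^ 2 * c z - b z = 0
      rw [this, sub_self]
    have h0 := (dR.congr_of_eventuallyEq hev.symm).unique (hasDerivAt_const z₀ (0 : ℂ))
    simp only [Pi.pow_apply, vc] at h0
    have hpi : (2 * π * Complex.I : ℂ) ≠ 0 := Complex.two_pi_I_ne_zero
    apply mul_left_cancel₀ hpi
    linear_combination h0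
  have e2 : E₄ τ ^ 2 * (E2 τ * E₄ τ - E₆ τ) * X z₀ ^ 3 + 3 * E₄ τ ^ 3 * X z₀ ^ 2 * X' =
      E2 τ * discriminant τ * (X z₀ + 27) * (X z₀ + 243) ^ 3 +
        discriminant τ * X' * (X z₀ + 243) ^ 3 +
        3 * discriminant τ * (X z₀ + 27) * (X z₀ + 243) ^ 2 * X' := by
    have dR := ((da.pow 3).mul (hX'.pow 3)).sub
      ((db.mul (hX'.add_const 27)).mul ((hX'.add_const 243).pow 3))
    have hev : (fun z => (a ^ 3 * X ^ 3) z -
        ((b * fun z => X z + 27) * (fun z => X z + 243) ^ 3) z) =ᶠ[nhds z₀] fun _ => 0 := by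
      filter_upwards [hnear] with z hz
      have := (hrel z hz.1 hz.2).2.1
      change a z ^ 3 * X z ^ 3 - b z * (X z + 27) * (X z + 243) ^ 3 = 0
      rw [this, sub_self]
    have h0 := (dR.congr_of_eventuallyEq hev.symm).unique (hasDerivAt_const z₀ (0 : ℂ))
    simp only [Pi.pow_apply, Pi.mul_apply, va, vb] at h0
    have hpi : (2 * π * Complex.I : ℂ) ≠ 0 := Complex.two_pi_I_ne_zero
    apply mul_left_cancel₀ hpi
    linear_combination h0
  obtain ⟨r1, r2, r3, r4⟩ := hrel z₀ him hne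
  rw [vb, vc] at r1
  rw [va, vb] at r2
  rw [vc] at r4
  have key := alg ha0 r3 r4 r1 e1 r2 e2
  -- back to the lattice
  rw [le6, le4, lee, lX]
  field_simp
  linear_combination key

end

end Pool.Agent.Lib.MP_7c08ba_nt.RZC3
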