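import Pool.Agent.Lib.MP_7c08ba_nt.RZ.StmtsC3

set_option autoImplicit false

/-! (R5) good elements. -/

namespace Pool.Agent.Lib.MP_7c08ba_nt.RZC3

open RZC

namespace Good3Aux

variable {S : Type} [CommRing S]

/-- elements of the form `F(x) + 3 ^ N z` -/
def goodRing (x : S) (N : ℕ) : Subring S where
  carrier := {s | ∃ (F : Polynomial ℤ) (z : S), s = Polynomial.aeval x F + 3 ^ N * z}
  mul_mem' := by
    rintro s t ⟨F, z, rfl⟩ ⟨G, w, rfl⟩
    refine ⟨F * G, Polynomial.aeval x F * w + z * Polynomial.aeval x G + 3 ^ N * z * w, ?_⟩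
    rw [map_mul]
    ring
  one_mem' := ⟨1, 0, by simp⟩
  add_mem' := by
    rintro s t ⟨F, z, rfl⟩ ⟨G, w, rfl⟩
    refine ⟨F + G, z + w, ?_⟩
    rw [map_add]
    ring
  zero_mem' := ⟨0, 0, by simp⟩
  neg_mem' := by
    rintro s ⟨F, z, rfl⟩
    refine ⟨-F, -z, ?_⟩
    rw [map_neg]
    ring

lemma good_iff {x : S} {N : ℕ} {s : S} : s ∈ goodRing x N ↔
    ∃ (F : Polynomial ℤ) (z : S), s = Polynomial.aeval x F + 3 ^ N * z := Iff.rfl

lemma good_x (x : S) (N : ℕ) : x ∈ goodRing x N := ⟨Polynomial.X, 0, by simp⟩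

lemma good_zero (x s : S) : s ∈ goodRing x 0 := ⟨0, s, by simp⟩

lemma good_three {x s : S} {N : ℕ} (h : s ∈ goodRing x N) : 3 * s ∈ goodRing x (N + 1) := by
  obtain ⟨F, z, rfl⟩ := good_iff.1 h
  refine good_iff.2 ⟨3 * F, z, ?_⟩
  rw [map_mul, map_ofNat, pow_succ]
  ring

lemma good_num (x : S) (N : ℕ) (n : ℤ) : (n : S) ∈ goodRing x N := intCast_mem _ n

/-- polynomials in a good element -/
lemma good_poly {x y : S} {N : ℕ} (hy : y ∈ goodRing x N) (P : Polynomial ℤ) :
    Polynomial.aeval y P ∈ goodRing x N := by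
  induction P using Polynomial.induction_on' with
  | add p q hp hq =>
    rw [map_add]
    exact add_mem hp hq
  | monomial n a =>
    rw [Polynomial.aeval_monomial]
    refine mul_mem ?_ (pow_mem hy n)
    rw [algebraMap_int_eq, eq_intCast]
    exact intCast_mem _ a

lemma good_y {x y : S} (h1 : x * (1 + 27 * y) * (1 + 243 * y) ^ 3 = y) (N : ℕ) :
    y ∈ goodRing x N := by
  induction N with
  | zero => exact good_zero x y
  | succ N ih =>
    have e : y = x + 3 * (x * (((252 : ℤ) : S) * y + ((65610 : ℤ) : S) * y ^ 2 + ((6377292 : ℤ) : S) * y ^ 3 + ((129140163 : ℤ) : S) * y ^ 4)) := by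
      nth_rewrite 1 [← h1]
      push_cast
      ring
    rw [e]
    refine add_mem (good_x x _) (good_three ?_)
    refine mul_mem (good_x x N) ?_
    exact add_mem (add_mem (add_mem (mul_mem (good_num x N _) ih) (mul_mem (good_num x N _) (pow_mem ih 2))) (mul_mem (good_num x N _) (pow_mem ih 3))) (mul_mem (good_num x N _) (pow_mem ih 4))

lemma good_Vx {x y v : S} (h1 : x * (1 + 27 * y) * (1 + 243 * y) ^ 3 = y)
    (h2 : v * (1 + 27 * y) * (1 + 3 * y) ^ 3 = y ^ 3) (N : ℕ) : v ∈ goodRing x N := by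
  induction N with
  | zero => exact good_zero x v
  | succ N ih =>
    have hy := good_y h1 N
    have e : v = y ^ 3 - 3 * (v * (((12 : ℤ) : S) * y + ((90 : ℤ) : S) * y ^ 2 + ((252 : ℤ) : S) * y ^ 3 + ((243 : ℤ) : S) * y ^ 4)) := by
      push_cast
      linear_combination h2
    rw [e]
    refine sub_mem (pow_mem (good_y h1 _) 3) (good_three ?_)
    refine mul_mem ih ?_
    exact add_mem (add_mem (add_mem (mul_mem (good_num x N _) hy) (mul_mem (good_num x N _) (pow_mem hy 2))) (mul_mem (good_num x N _) (pow_mem hy 3))) (mul_mem (good_num x N _) (pow_mem hy 4))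

lemma good_map {x y : S} (V : S →+* S) (h1 : x * (1 + 27 * y) * (1 + 243 * y) ^ 3 = y)
    (h2 : V x * (1 + 27 * y) * (1 + 3 * y) ^ 3 = y ^ 3) {N : ℕ} {s : S} (h : s ∈ goodRing x N) :
    V s ∈ goodRing x N := by
  obtain ⟨F, z, rfl⟩ := good_iff.1 h
  have hv := good_Vx h1 h2 N
  have hF : V (Polynomial.aeval x F) = Polynomial.aeval (V x) F := by
    rw [Polynomial.aeval_def, Polynomial.aeval_def, Polynomial.hom_eval₂]
    congr 1
    exact RingHom.ext_int _ _
  rw [map_add, map_mul, map_pow, map_ofNat, hF]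
  refine add_mem (good_poly hv F) (good_iff.2 ⟨0, V z, ?_⟩)
  rw [map_zero, zero_add]

end Good3Aux

open Good3Aux in
/-- (R5) good elements -/
theorem stGood3 : StGood3 := by
  intro S _ V x y a h1 h2 h3 N
  rw [← good_iff]
  induction N with
  | zero => exact good_zero x a
  | succ N ih =>
    have hy := good_y h1 N
    have hy' := good_y h1 (N + 1)
    have hV := good_map V h1 h2 ih
    have e : a = 3 * (V a * ((1 - ((486 : ℤ) : S) * y - ((19683 : ℤ) : S) * y ^ 2) ^ 2 *
        (1 + ((3 : ℤ) : S) * y) ^ 2) - a * (((6 : ℤ) : S) * y + ((-65619 : ℤ) : S) * y ^ 2 + ((-13935564 : ℤ) : S) * y ^ 3 + ((-615231531 : ℤ) : S) * y ^ 4 + ((-6629195034 : ℤ) : S) * y ^ 5 + ((10460353203 : ℤ) : S) * y ^ 6)) -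
        ((2 : ℤ) : S) * (1 - ((1728 : ℤ) : S) * x) * ((1 + ((27 : ℤ) : S) * y) *
          (1 + ((243 : ℤ) : S) * y) ^ 3 * (1 + ((18 : ℤ) : S) * y - ((27 : ℤ) : S) * y ^ 2)) := by
      push_cast
      linear_combination h3
    rw [e]
    refine sub_mem (good_three (sub_mem (mul_mem hV (mul_mem (pow_mem (sub_mem (sub_mem
      (one_mem _) (mul_mem (good_num x N _) hy)) (mul_mem (good_num x N _) (pow_mem hy 2))) 2)
      (pow_mem (add_mem (one_mem _) (mul_mem (good_num x N _) hy)) 2))) (mul_mem ih ?_)))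
      (mul_mem (mul_mem (good_num x _ _) (sub_mem (one_mem _) (mul_mem (good_num x _ _)
      (good_x x _)))) (mul_mem (mul_mem (add_mem (one_mem _) (mul_mem (good_num x _ _) hy'))
      (pow_mem (add_mem (one_mem _) (mul_mem (good_num x _ _) hy')) 3)) (sub_mem (add_mem
      (one_mem _) (mul_mem (good_num x _ _) hy')) (mul_mem (good_num x _ _) (pow_mem hy' 2)))))
    exact add_mem (add_mem (add_mem (add_mem (add_mem (mul_mem (good_num x N _) hy) (mul_mem (good_num x N _) (pow_mem hy 2))) (mul_mem (good_num x N _) (pow_mem hy 3))) (mul_mem (good_num x N _) (pow_mem hy 4))) (mul_mem (good_num x N _) (pow_mem hy 5))) (mul_mem (good_num x N _) (pow_mem hy 6))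

end Pool.Agent.Lib.MP_7c08ba_nt.RZC3
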