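import Pool.Agent.Lib.MP_7c08ba_nt.RZ.Basic3

set_option autoImplicit false

/-! Module W5: the level 3 relations. -/

namespace Pool.Agent.Lib.MP_7c08ba_nt.RZC3

open UpperHalfPlane ModularForm EisensteinSeries MatrixGroups NumberField RZC
open scoped Real Manifold ComplexConjugate

noncomputable section

namespace Level3Aux

/-- the period pair of an oriented pair -/
def pp (w₁ w₂ : ℂ) (h : Pos w₁ w₂) : PeriodPair where
  ω₁ := w₁
  ω₂ := w₂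
  indep := by
    rw [LinearIndependent.pair_iff]
    intro s t hst
    have hw := h.ne
    have h1 : (s : ℂ) * (w₁ / w₂) + t = 0 := by
      have h2 : (s : ℂ) * w₁ + t * w₂ = 0 := by simpa using hst
      field_simp
      linear_combination h2
    have h3 := congrArg Complex.im h1
    simp only [Complex.add_im, Complex.im_ofReal_mul, Complex.ofReal_im, add_zero,
      Complex.zero_im] at h3
    have hs : s = 0 := by
      rcases mul_eq_zero.mp h3 with h4 | h4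
      · exact h4
      · exact absurd h4 (ne_of_gt h)
    rw [hs] at h1
    refine ⟨hs, ?_⟩
    have h5 : (t : ℂ) = 0 := by simpa using h1
    exact_mod_cast h5

variable {w₁ w₂ : ℂ}

/-! ### points of order 3 -/

lemma notMem_aux (h : Pos w₁ w₂) (α β : ℚ) (hd : ¬ (α.den = 1 ∧ β.den = 1)) :
    (α : ℂ) * w₁ + (β : ℂ) * w₂ ∉ (pp w₁ w₂ h).lattice :=
  fun hm => hd ((pp w₁ w₂ h).mul_ω₁_add_mul_ω₂_mem_lattice.1 hm)

lemma n2 (h : Pos w₁ w₂) : w₂ / 3 ∉ (pp w₁ w₂ h).lattice := by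
  have h1 : w₂ / 3 = ((0 : ℚ) : ℂ) * w₁ + ((1 / 3 : ℚ) : ℂ) * w₂ := by
    push_cast
    ring
  rw [h1]
  exact notMem_aux h 0 (1 / 3) (by norm_num)

lemma n1 (h : Pos w₁ w₂) : w₁ / 3 ∉ (pp w₁ w₂ h).lattice := by
  have h1 : w₁ / 3 = ((1 / 3 : ℚ) : ℂ) * w₁ + ((0 : ℚ) : ℂ) * w₂ := by
    push_cast
    ring
  rw [h1]
  exact notMem_aux h (1 / 3) 0 (by norm_num)

lemma n12 (h : Pos w₁ w₂) : w₁ / 3 + w₂ / 3 ∉ (pp w₁ w₂ h).lattice := by
  have h1 : w₁ / 3 + w₂ / 3 = ((1 / 3 : ℚ) : ℂ) * w₁ + ((1 / 3 : ℚ) : ℂ) * w₂ := by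
    push_cast
    ring
  rw [h1]
  exact notMem_aux h (1 / 3) (1 / 3) (by norm_num)

lemma n12' (h : Pos w₁ w₂) : w₁ / 3 - w₂ / 3 ∉ (pp w₁ w₂ h).lattice := by
  have h1 : w₁ / 3 - w₂ / 3 = ((1 / 3 : ℚ) : ℂ) * w₁ + ((-(1 / 3) : ℚ) : ℂ) * w₂ := by
    push_cast
    ring
  rw [h1]
  exact notMem_aux h (1 / 3) (-(1 / 3)) (by norm_num)

lemma n21 (h : Pos w₁ w₂) : w₂ / 3 + w₁ / 3 ∉ (pp w₁ w₂ h).lattice := by
  rw [add_comm]
  exact n12 h

lemma n21' (h : Pos w₁ w₂) : w₂ / 3 - w₁ / 3 ∉ (pp w₁ w₂ h).lattice := by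
  have h1 : w₂ / 3 - w₁ / 3 = ((-(1 / 3) : ℚ) : ℂ) * w₁ + ((1 / 3 : ℚ) : ℂ) * w₂ := by
    push_cast
    ring
  rw [h1]
  exact notMem_aux h (-(1 / 3)) (1 / 3) (by norm_num)

lemma t2 (h : Pos w₁ w₂) : 3 * (w₂ / 3) ∈ (pp w₁ w₂ h).lattice := by
  have h1 : 3 * (w₂ / 3) = (pp w₁ w₂ h).ω₂ := by
    change 3 * (w₂ / 3) = w₂
    ring
  rw [h1]
  exact (pp w₁ w₂ h).ω₂_mem_lattice

lemma t1 (h : Pos w₁ w₂) : 3 * (w₁ / 3) ∈ (pp w₁ w₂ h).lattice := by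
  have h1 : 3 * (w₁ / 3) = (pp w₁ w₂ h).ω₁ := by
    change 3 * (w₁ / 3) = w₁
    ring
  rw [h1]
  exact (pp w₁ w₂ h).ω₁_mem_lattice

lemma lat2 (h : Pos w₁ w₂) : (pp w₁ (w₂ / 3) (pos_third h)).lattice =
    (pp w₁ w₂ h).lattice ⊔ Submodule.span ℤ {w₂ / 3} := by
  apply le_antisymm
  · change Submodule.span ℤ {w₁, w₂ / 3} ≤ _
    rw [Submodule.span_le]
    rintro z (rfl | rfl)
    · exact Submodule.mem_sup_left ((pp z w₂ h).ω₁_mem_lattice)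
    · exact Submodule.mem_sup_right (Submodule.mem_span_singleton_self _)
  · refine sup_le ?_ ?_
    · change Submodule.span ℤ {w₁, w₂} ≤ _
      rw [Submodule.span_le]
      rintro z (rfl | rfl)
      · exact (pp z (w₂ / 3) (pos_third h)).ω₁_mem_lattice
      · have h2 := Submodule.smul_mem (pp w₁ (z / 3) (pos_third h)).lattice (3 : ℤ)
          (pp w₁ (z / 3) (pos_third h)).ω₂_mem_lattice
        change (3 : ℤ) • (z / 3) ∈ _ at h2
        have h1 : (3 : ℤ) • (z / 3) = z := by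
          rw [zsmul_eq_mul]; push_cast; ring
        rwa [h1] at h2
    · rw [Submodule.span_le, Set.singleton_subset_iff]
      exact (pp w₁ (w₂ / 3) (pos_third h)).ω₂_mem_lattice

lemma lat1 (h : Pos w₁ w₂) : (pp (w₁ / 3) w₂ (pos_third_left h)).lattice =
    (pp w₁ w₂ h).lattice ⊔ Submodule.span ℤ {w₁ / 3} := by
  apply le_antisymm
  · change Submodule.span ℤ {w₁ / 3, w₂} ≤ _
    rw [Submodule.span_le]
    rintro z (rfl | rfl)
    · exact Submodule.mem_sup_right (Submodule.mem_span_singleton_self _)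
    · exact Submodule.mem_sup_left ((pp w₁ z h).ω₂_mem_lattice)
  · refine sup_le ?_ ?_
    · change Submodule.span ℤ {w₁, w₂} ≤ _
      rw [Submodule.span_le]
      rintro z (rfl | rfl)
      · have h2 := Submodule.smul_mem (pp (z / 3) w₂ (pos_third_left h)).lattice (3 : ℤ)
          (pp (z / 3) w₂ (pos_third_left h)).ω₁_mem_lattice
        change (3 : ℤ) • (z / 3) ∈ _ at h2
        have h1 : (3 : ℤ) • (z / 3) = z := by
          rw [zsmul_eq_mul]; push_cast; ring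
        rwa [h1] at h2
      · exact (pp (w₁ / 3) z (pos_third_left h)).ω₂_mem_lattice
    · rw [Submodule.span_le, Set.singleton_subset_iff]
      exact (pp (w₁ / 3) w₂ (pos_third_left h)).ω₁_mem_lattice

/-! ### invariants -/

lemma dl_ne (h : Pos w₁ w₂) : dl w₁ w₂ ≠ 0 := by
  rw [dl, LF_eq h]
  exact mul_ne_zero (inv_ne_zero (pow_ne_zero _ h.ne)) (discriminant_ne_zero _)

lemma dl_eq (h : Pos w₁ w₂) : 1728 * dl w₁ w₂ = e4 w₁ w₂ ^ 3 - e6 w₁ w₂ ^ 2 := by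
  rw [dl, e4, e6, LF_eq h, LF_eq h, LF_eq h, discriminant_eq_E₄_cube_sub_E₆_sq]
  have := h.ne
  field_simp

lemma pi_ne : (π : ℂ) ≠ 0 := by exact_mod_cast Real.pi_ne_zero

lemma e4_eq (h4 : StLink) (h : Pos w₁ w₂) :
    e4 w₁ w₂ = 3 * (pp w₁ w₂ h).g₂ / (4 * (π : ℂ) ^ 4) := by
  have := (h4 (pp w₁ w₂ h) h).1
  change (pp w₁ w₂ h).g₂ = 4 * (π : ℂ) ^ 4 / 3 * e4 w₁ w₂ at this
  rw [this]
  have := pi_ne
  field_simp

lemma e6_eq (h4 : StLink) (h : Pos w₁ w₂) :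
    e6 w₁ w₂ = 27 * (pp w₁ w₂ h).g₃ / (8 * (π : ℂ) ^ 6) := by
  have := (h4 (pp w₁ w₂ h) h).2
  change (pp w₁ w₂ h).g₃ = 8 * (π : ℂ) ^ 6 / 27 * e6 w₁ w₂ at this
  rw [this]
  have := pi_ne
  field_simp

lemma dl_disc (h4 : StLink) (h : Pos w₁ w₂) : dl w₁ w₂ =
    ((pp w₁ w₂ h).g₂ ^ 3 - 27 * (pp w₁ w₂ h).g₃ ^ 2) / (4096 * (π : ℂ) ^ 12) := by
  have e := dl_eq h
  rw [e4_eq h4 h, e6_eq h4 h] at e
  have hp := pi_ne
  have e' : dl w₁ w₂ = ((3 * (pp w₁ w₂ h).g₂ / (4 * (π : ℂ) ^ 4)) ^ 3 -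
    (27 * (pp w₁ w₂ h).g₃ / (8 * (π : ℂ) ^ 6)) ^ 2) / 1728 := by
    rw [← e]; ring
  rw [e']
  field_simp
  ring

lemma disc_ne (h4 : StLink) (h : Pos w₁ w₂) :
    (pp w₁ w₂ h).g₂ ^ 3 - 27 * (pp w₁ w₂ h).g₃ ^ 2 ≠ 0 := by
  intro h0
  have := dl_ne h
  rw [dl_disc h4 h, h0, zero_div] at this
  exact this rfl

/-! ### the data at a point of order 3 -/

section

variable {L : PeriodPair} {t t' : ℂ}

lemma g2_eq (L : PeriodPair) (t : ℂ) : L.g₂ = 12 * L.weierstrassP t ^ 2 - 2 * pa L t := by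
  unfold pa
  ring

lemma g3_eq (ht : t ∉ L.lattice) : L.g₃ = -8 * L.weierstrassP t ^ 3 +
    2 * pa L t * L.weierstrassP t - L.derivWeierstrassP t ^ 2 := by
  have := L.derivWeierstrassP_sq t ht
  unfold pa
  linear_combination this

lemma disc_eq (ht : t ∉ L.lattice)
    (h3 : pa L t ^ 2 = 12 * L.weierstrassP t * L.derivWeierstrassP t ^ 2) :
    L.g₂ ^ 3 - 27 * L.g₃ ^ 2 = pa L t ^ 3 - 27 * (L.derivWeierstrassP t ^ 2) ^ 2 := by
  rw [g3_eq ht, g2_eq L t]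
  linear_combination (36 * L.weierstrassP t ^ 2 - 9 * pa L t) * h3

/-- the cubic equation for the difference of the values at two points of order 3 -/
lemma cubic (ht : t ∉ L.lattice) (ht' : t' ∉ L.lattice)
    (h3 : pa L t ^ 2 = 12 * L.weierstrassP t * L.derivWeierstrassP t ^ 2)
    (h3' : pa L t' ^ 2 = 12 * L.weierstrassP t' * L.derivWeierstrassP t' ^ 2)
    (hD : L.weierstrassP t' - L.weierstrassP t ≠ 0) :
    (L.weierstrassP t' - L.weierstrassP t) ^ 3 +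
      4 * L.weierstrassP t * (L.weierstrassP t' - L.weierstrassP t) ^ 2 +
      pa L t * (L.weierstrassP t' - L.weierstrassP t) + L.derivWeierstrassP t ^ 2 = 0 := by
  rw [L.derivWeierstrassP_sq t ht] at h3 ⊢
  rw [L.derivWeierstrassP_sq t' ht'] at h3'
  obtain ⟨D, hDD⟩ : ∃ D, D = L.weierstrassP t' - L.weierstrassP t := ⟨_, rfl⟩
  have he : L.weierstrassP t' = L.weierstrassP t + D := by rw [hDD]; ring
  unfold pa at h3 h3' ⊢
  rw [← hDD] at hD ⊢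
  rw [he] at h3'
  apply mul_left_cancel₀ hD
  linear_combination (-1 / 12) * h3' + (1 / 12) * h3

end

/-- the three facts about a point of order 3 -/
structure Good (L : PeriodPair) (t : ℂ) : Prop where
  nm : t ∉ L.lattice
  tor : pa L t ^ 2 = 12 * L.weierstrassP t * L.derivWeierstrassP t ^ 2
  ne : L.derivWeierstrassP t ^ 2 ≠ 0

lemma good2 (h3 : StTor3) (h4 : StLink) (h : Pos w₁ w₂) : Good (pp w₁ w₂ h) (w₂ / 3) := by
  have hn := n2 h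
  have ht := h3 (pp w₁ w₂ h) (pp w₁ (w₂ / 3) (pos_third h)) (w₂ / 3) hn (t2 h) (lat2 h)
  refine ⟨hn, ht, fun h0 => ?_⟩
  have hd := disc_ne h4 h
  rw [disc_eq hn ht, h0] at hd
  rw [h0, mul_zero] at ht
  rw [pow_eq_zero_iff (by norm_num : (2 : ℕ) ≠ 0)] at ht
  rw [ht] at hd
  simp at hd

lemma good1 (h3 : StTor3) (h4 : StLink) (h : Pos w₁ w₂) : Good (pp w₁ w₂ h) (w₁ / 3) := by
  have hn := n1 h
  have ht := h3 (pp w₁ w₂ h) (pp (w₁ / 3) w₂ (pos_third_left h)) (w₁ / 3) hn (t1 h) (lat1 h)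
  refine ⟨hn, ht, fun h0 => ?_⟩
  have hd := disc_ne h4 h
  rw [disc_eq hn ht, h0] at hd
  rw [h0, mul_zero] at ht
  rw [pow_eq_zero_iff (by norm_num : (2 : ℕ) ≠ 0)] at ht
  rw [ht] at hd
  simp at hd

/-- the value on the lattice `M` of the other point of order 3 -/
lemma dual_value (h1 : StProd3) (h2 : StSuper3) (h3 : StTor3) (h4 : StLink) (h : Pos w₁ w₂) :
    (pp w₁ (w₂ / 3) (pos_third h)).weierstrassP (w₁ / 3) =
      -3 * (pp w₁ w₂ h).weierstrassP (w₂ / 3) := by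
  obtain ⟨p1, p2⟩ := h1 (pp w₁ w₂ h) (w₂ / 3) (n2 h) (t2 h) (w₁ / 3) (n1 h) (n12 h) (n12' h)
  have g2 := good2 h3 h4 h
  have g1 := good1 h3 h4 h
  have hs := (h2 (pp w₁ w₂ h) (pp w₁ (w₂ / 3) (pos_third h)) (w₂ / 3) (n2 h) (t2 h)
    (lat2 h)).2.2 (w₁ / 3) (n1 (pos_third h))
  have hD : (pp w₁ w₂ h).weierstrassP (w₁ / 3) - (pp w₁ w₂ h).weierstrassP (w₂ / 3) ≠ 0 := by
    intro h0
    rw [h0, zero_mul, zero_mul] at p2
    exact g2.ne (by linear_combination p2)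
  have hc := cubic g2.nm g1.nm g2.tor g1.tor hD
  rw [hs]
  have hm : ((pp w₁ w₂ h).weierstrassP (w₁ / 3) - (pp w₁ w₂ h).weierstrassP (w₂ / 3)) ^ 2 *
      ((pp w₁ w₂ h).weierstrassP (w₁ / 3) + (pp w₁ w₂ h).weierstrassP (w₁ / 3 + w₂ / 3) +
        (pp w₁ w₂ h).weierstrassP (w₁ / 3 - w₂ / 3) +
        (pp w₁ w₂ h).weierstrassP (w₂ / 3)) = 0 := by
    linear_combination hc + ((pp w₁ w₂ h).weierstrassP (w₁ / 3) -
      (pp w₁ w₂ h).weierstrassP (w₂ / 3)) * p1 - p2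
  have := (mul_eq_zero.1 hm).resolve_left (pow_ne_zero 2 hD)
  linear_combination this

/-- the Hauptmodul -/
lemma XX3_eq (h2 : StSuper3) (h3 : StTor3) (h4 : StLink) (h : Pos w₁ w₂) :
    XX3 w₁ w₂ * (pa (pp w₁ w₂ h) (w₂ / 3) ^ 3 -
      27 * ((pp w₁ w₂ h).derivWeierstrassP (w₂ / 3) ^ 2) ^ 2) =
      729 * ((pp w₁ w₂ h).derivWeierstrassP (w₂ / 3) ^ 2) ^ 2 := by
  obtain ⟨hn, ht, hb⟩ := good2 h3 h4 h
  have hM := (h2 (pp w₁ w₂ h) (pp w₁ (w₂ / 3) (pos_third h)) (w₂ / 3) (n2 h) (t2 h)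
    (lat2 h)).1
  have hd := disc_ne h4 h
  rw [disc_eq hn ht] at hd
  have e4L := e4_eq h4 h
  have e4M := e4_eq h4 (pos_third h)
  rw [hM] at e4M
  rw [g2_eq (pp w₁ w₂ h) (w₂ / 3)] at e4L e4M
  generalize (pp w₁ w₂ h).derivWeierstrassP (w₂ / 3) ^ 2 = b at *
  generalize (pp w₁ w₂ h).weierstrassP (w₂ / 3) = e at *
  generalize pa (pp w₁ w₂ h) (w₂ / 3) = a at *
  have hp := pi_ne
  have he : e = a ^ 2 / (12 * b) := by
    field_simp
    linear_combination -ht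
  subst he
  unfold XX3
  have key : 81 * e4 w₁ w₂ - e4 w₁ (w₂ / 3) =
      5 * a * (a ^ 3 - 27 * b ^ 2) / (b ^ 2 * (π : ℂ) ^ 4) := by
    rw [e4L, e4M]
    field_simp
    ring
  have key2 : e4 w₁ (w₂ / 3) - e4 w₁ w₂ = 15 * a / (π : ℂ) ^ 4 := by
    rw [e4L, e4M]
    field_simp
    ring
  split_ifs with hif
  · rw [sub_eq_zero.2 hif] at key
    have h5 : a = 0 := by
      have h6 : 5 * a * (a ^ 3 - 27 * b ^ 2) / (b ^ 2 * (π : ℂ) ^ 4) = 0 := key.symm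
      rw [div_eq_zero_iff] at h6
      rcases h6 with h6 | h6
      · rcases mul_eq_zero.1 h6 with h7 | h7
        · rcases mul_eq_zero.1 h7 with h8 | h8
          · norm_num at h8
          · exact h8
        · exact absurd h7 hd
      · exact absurd h6 (mul_ne_zero (pow_ne_zero 2 hb) (pow_ne_zero 4 hp))
    rw [h5]
    ring
  · have ha : a ≠ 0 := by
      rintro rfl
      apply hif
      rw [← sub_eq_zero, key]
      simp
    rw [key, key2]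
    field_simp
    ring

end Level3Aux

open Level3Aux

theorem stLevel3 (h1 : StProd3) (h2 : StSuper3) (h3 : StTor3) (h4 : StLink) : StLevel3 := by
  intro w₁ w₂ h
  have hX0 := XX3_eq h2 h3 h4 h
  have hX0' := XX3_eq h2 h3 h4 (pos_third h)
  have gM := good2 h3 h4 (pos_third h)
  have gM1 := good1 h3 h4 (pos_third h)
  have hdual := dual_value h1 h2 h3 h4 h
  obtain ⟨p1, p2⟩ := h1 (pp w₁ (w₂ / 3) (pos_third h)) (w₁ / 3) (n1 (pos_third h))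
    (t1 (pos_third h)) (w₂ / 3 / 3) (n2 (pos_third h)) (n21 (pos_third h)) (n21' (pos_third h))
  have hDD : (pp w₁ (w₂ / 3) (pos_third h)).weierstrassP (w₂ / 3 / 3) -
      (pp w₁ (w₂ / 3) (pos_third h)).weierstrassP (w₁ / 3) ≠ 0 := by
    intro h0
    rw [h0, zero_mul, zero_mul] at p2
    exact gM1.ne (by linear_combination p2)
  have hcub := cubic gM1.nm gM.nm gM1.tor gM.tor hDD
  obtain ⟨hn, ht, hb⟩ := good2 h3 h4 h
  have hM := h2 (pp w₁ w₂ h) (pp w₁ (w₂ / 3) (pos_third h)) (w₂ / 3) (n2 h) (t2 h) (lat2 h)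
  have hM2 := hM.1
  have hM3 := hM.2.1
  clear hM
  have hd := disc_ne h4 h
  have hdM := disc_ne h4 (pos_third h)
  have e4L := e4_eq h4 h
  have e4M := e4_eq h4 (pos_third h)
  have e6L := e6_eq h4 h
  have e6M := e6_eq h4 (pos_third h)
  have dL := dl_disc h4 h
  have dM := dl_disc h4 (pos_third h)
  have hdMb := disc_eq gM.nm gM.tor
  have hdM1 := disc_eq gM1.nm gM1.tor
  have q2 := (pp w₁ (w₂ / 3) (pos_third h)).derivWeierstrassP_sq (w₂ / 3 / 3) gM.nm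
  have q1 := (pp w₁ (w₂ / 3) (pos_third h)).derivWeierstrassP_sq (w₁ / 3) gM1.nm
  have htor1 := gM1.tor
  have hb1 := gM1.ne
  rw [← hdMb] at hX0'
  have hG2 := g2_eq (pp w₁ w₂ h) (w₂ / 3)
  have hG3 := g3_eq hn
  have hD := disc_eq hn ht
  have ha1 : pa (pp w₁ (w₂ / 3) (pos_third h)) (w₁ / 3) =
    6 * (pp w₁ (w₂ / 3) (pos_third h)).weierstrassP (w₁ / 3) ^ 2 -
      (pp w₁ (w₂ / 3) (pos_third h)).g₂ / 2 := rfl
  rw [hdual] at *
  generalize (pp w₁ (w₂ / 3) (pos_third h)).g₂ = G2M at *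
  generalize (pp w₁ (w₂ / 3) (pos_third h)).g₃ = G3M at *
  generalize (pp w₁ w₂ h).g₂ = G2 at *
  generalize (pp w₁ w₂ h).g₃ = G3 at *
  generalize (pp w₁ w₂ h).derivWeierstrassP (w₂ / 3) ^ 2 = b at *
  generalize (pp w₁ w₂ h).weierstrassP (w₂ / 3) = e at *
  generalize pa (pp w₁ w₂ h) (w₂ / 3) = a at *
  generalize (pp w₁ (w₂ / 3) (pos_third h)).derivWeierstrassP (w₂ / 3 / 3) ^ 2 = b2 at *
  generalize (pp w₁ (w₂ / 3) (pos_third h)).weierstrassP (w₂ / 3 / 3) = e2 at *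
  generalize (pp w₁ (w₂ / 3) (pos_third h)).derivWeierstrassP (w₁ / 3) ^ 2 = b1 at *
  generalize pa (pp w₁ (w₂ / 3) (pos_third h)) (w₁ / 3) = a1 at *
  generalize pa (pp w₁ (w₂ / 3) (pos_third h)) (w₂ / 3 / 3) = a2 at *
  have hp := pi_ne
  obtain ⟨D, hDef⟩ : ∃ D, D = a ^ 3 - 27 * b ^ 2 := ⟨_, rfl⟩
  rw [← hDef] at hD hX0
  have ha3 : a ^ 3 = D + 27 * b ^ 2 := by rw [hDef]; ring
  have hD0 : D ≠ 0 := by rwa [← hD]
  have he : e = a ^ 2 / (12 * b) := by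
    field_simp
    linear_combination -ht
  have hX : XX3 w₁ w₂ = 729 * b ^ 2 / D := by
    rw [eq_div_iff hD0]
    exact hX0
  have v2 : G2 = a * (D + 3 * b ^ 2) / (12 * b ^ 2) := by
    rw [hG2, he, hDef]
    field_simp
    ring
  have v3 : G3 = -(D ^ 2 + 18 * b ^ 2 * D - 27 * b ^ 4) / (216 * b ^ 3) := by
    rw [hG3, he, hDef]
    field_simp
    ring
  have v2M : G2M = a * (D + 243 * b ^ 2) / (12 * b ^ 2) := by
    rw [hM2, v2]
    field_simp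
    ring
  have v3M : G3M = -(D ^ 2 - 486 * b ^ 2 * D - 19683 * b ^ 4) / (216 * b ^ 3) := by
    rw [hM3, v3, he, hDef]
    field_simp
    ring
  have hDM : G2M ^ 3 - 27 * G3M ^ 2 = D ^ 3 / b ^ 4 := by
    rw [v2M, v3M, hDef]
    field_simp
    ring
  have hb1v : b1 = -D ^ 2 / (27 * b ^ 3) := by
    rw [q1, v2M, v3M, he, hDef]
    field_simp
    ring
  have hE : e4 w₁ w₂ ^ 3 = (D + 27 * b ^ 2) * (D + 3 * b ^ 2) ^ 3 /
      (4096 * (π : ℂ) ^ 12 * b ^ 6) := by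
    rw [e4L, v2, ← ha3]
    field_simp
    ring
  have hEM : e4 w₁ (w₂ / 3) ^ 3 = (D + 27 * b ^ 2) * (D + 243 * b ^ 2) ^ 3 /
      (4096 * (π : ℂ) ^ 12 * b ^ 6) := by
    rw [e4M, v2M, ← ha3]
    field_simp
    ring
  refine ⟨dl_ne h, dl_ne (pos_third h), ?_, dl_eq h, ?_, ?_, ?_, ?_, ?_, ?_⟩
  · rw [hX]
    exact div_ne_zero (mul_ne_zero (by norm_num) (pow_ne_zero 2 hb)) hD0
  · rw [hX, dL, dM, hDM, hD]
    field_simp
    ring
  · rw [hX, dL, hD, hE]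
    field_simp
    ring
  · rw [hX, dM, hDM, hEM]
    field_simp
    ring
  · rw [hX, e4M, v2M, e4L, v2]
    field_simp
    ring
  · rw [hX, e6M, v3M, e6L, v3]
    field_simp
    ring
  · have hXb : XX3 w₁ w₂ * b1 ^ 2 = a1 ^ 3 - 27 * b1 ^ 2 := by
      rw [← hdM1, hDM, hb1v, hX]
      field_simp
      ring
    have hMn : a1 ^ 3 - 27 * b1 ^ 2 ≠ 0 := by rwa [← hdM1]
    obtain ⟨D2, hD2⟩ : ∃ D2, D2 = e2 - -3 * e := ⟨_, rfl⟩
    have he2 : e2 = D2 + -3 * e := by rw [hD2]; ring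
    rw [← hD2] at hcub
    have hc3 : 3 * b1 * D2 ^ 3 + a1 ^ 2 * D2 ^ 2 + 3 * a1 * b1 * D2 + 3 * b1 ^ 2 = 0 := by
      linear_combination 3 * b1 * hcub + D2 ^ 2 * htor1
    have hb2' : b2 = b1 + 2 * a1 * D2 + 12 * (-3 * e) * D2 ^ 2 + 4 * D2 ^ 3 := by
      rw [q2, he2, q1, ha1]
      ring
    have hb2 : 3 * b1 * b2 = -(a1 * D2 + 3 * b1) ^ 2 := by
      rw [hb2']
      linear_combination 4 * hc3 - 3 * D2 ^ 2 * htor1
    obtain ⟨v, hv⟩ : ∃ v, v = -3 * (a1 * D2 + 3 * b1) / b1 := ⟨_, rfl⟩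
    have hvb : v * b1 = -3 * (a1 * D2 + 3 * b1) := by
      rw [hv]
      field_simp
    have hv1 : v ^ 3 = XX3 w₁ w₂ * (v ^ 2 + 9 * v + 27) := by
      have hXc : XX3 w₁ w₂ = (a1 ^ 3 - 27 * b1 ^ 2) / b1 ^ 2 := by
        rw [eq_div_iff (pow_ne_zero 2 hb1)]
        exact hXb
      rw [hXc, hv]
      field_simp
      linear_combination (-9 * a1 ^ 3) * hc3
    refine ⟨v, hv1, ?_⟩
    apply mul_right_cancel₀ hMn
    have e1 : XX3 w₁ (w₂ / 3) * (a1 ^ 3 - 27 * b1 ^ 2) = 729 * b2 ^ 2 := by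
      rw [← hdM1]
      exact hX0'
    have e3 : v * (v ^ 2 + 9 * v + 27) * (a1 ^ 3 - 27 * b1 ^ 2) = v ^ 4 * b1 ^ 2 := by
      rw [← hXb]
      linear_combination (-v * b1 ^ 2) * hv1
    rw [e1, e3]
    apply mul_right_cancel₀ (pow_ne_zero 2 hb1)
    have e4 : (3 * b1 * b2) ^ 2 = (a1 * D2 + 3 * b1) ^ 4 := by
      rw [hb2]
      ring
    have e5 : (v * b1) ^ 4 = 81 * (a1 * D2 + 3 * b1) ^ 4 := by
      rw [hvb]
      ring
    linear_combination 81 * e4 - e5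

end

end Pool.Agent.Lib.MP_7c08ba_nt.RZC3
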