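import Pool.Agent.Lib.MP_7c08ba_nt.RZ.Basic3

set_option autoImplicit false

/-! (E2) sublattices of index prime to 3 of an ordinary lattice. -/

namespace Pool.Agent.Lib.MP_7c08ba_nt.RZC3

open UpperHalfPlane ModularForm EisensteinSeries MatrixGroups NumberField RZC
open scoped Real Manifold ComplexConjugate

noncomputable section

namespace Odd3Aux

theorem dl_eq {w₁ w₂ : ℂ} (h : Pos w₁ w₂) :
    1728 * dl w₁ w₂ = e4 w₁ w₂ ^ 3 - e6 w₁ w₂ ^ 2 := by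
  have h0 := h.ne
  unfold dl e4 e6
  rw [LF_eq h, LF_eq h, LF_eq h, ModularForm.discriminant_eq_E₄_cube_sub_E₆_sq]
  field_simp

theorem e6_ne {A : ValuationSubring ℂ} (hA : Above3 A) {w₁ w₂ : ℂ} (h : Ord A w₁ w₂) :
    e6 w₁ w₂ ≠ 0 := by
  intro h0
  obtain ⟨hp, h4, hj⟩ := h
  have h1 := dl_eq hp
  rw [h0] at h1
  have h2 : (1728 : ℂ) * jv w₁ w₂ = 1 := by
    unfold jv
    rw [← mul_div_assoc, h1]
    field_simp
    ring
  have h3 : ((1728 : ℤ) : ℂ) ∈ A.nonunits := three_dvd_nonunits hA (by decide)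
  have h5 := nonunits_mul_right h3 hj
  push_cast at h5
  rw [h2] at h5
  exact one_not_nonunits h5

theorem base (h1 : StLat) {A : ValuationSubring ℂ} (hA : Above3 A) {w₁ w₂ v₁ v₂ : ℂ}
    (hw : Ord A w₁ w₂) (hv : Pos v₁ v₂) (h : lat v₁ v₂ = lat w₁ w₂) :
    Ord A v₁ v₂ ∧ e4 v₁ v₂ / e4 w₁ w₂ - 1 ∈ A.nonunits ∧
      e6 v₁ v₂ / e6 w₁ w₂ - 1 ∈ A.nonunits := by
  have e4' : e4 v₁ v₂ = e4 w₁ w₂ := h1 4 E₄ v₁ v₂ w₁ w₂ hv hw.1 h
  have e6' : e6 v₁ v₂ = e6 w₁ w₂ := h1 6 E₆ v₁ v₂ w₁ w₂ hv hw.1 h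
  have dl' : dl v₁ v₂ = dl w₁ w₂ := by
    have a := dl_eq hv
    have b := dl_eq hw.1
    rw [e4', e6', ← b] at a
    exact mul_left_cancel₀ (by norm_num) a
  have h60 := e6_ne hA hw
  refine ⟨⟨hv, ?_, ?_⟩, ?_, ?_⟩
  · rw [e4']; exact hw.2.1
  · unfold jv
    rw [dl', e4']
    exact hw.2.2
  · rw [e4', div_self hw.2.1, sub_self]
    exact zero_nonunits
  · rw [e6', div_self h60, sub_self]
    exact zero_nonunits

end Odd3Aux

theorem stOdd3 (h1 : StLat) (h2 : StStep) (h3 : StOddP3) : StOdd3 := by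
  intro A hA w₁ w₂ hw v₁ v₂ hv hle hodd
  obtain ⟨n, hn⟩ : ∃ n, (lat v₁ v₂).toAddSubgroup.relIndex (lat w₁ w₂).toAddSubgroup = n :=
    ⟨_, rfl⟩
  induction n using Nat.strong_induction_on generalizing w₁ w₂ with
  | _ n ih =>
    rw [hn] at hodd
    rcases Nat.lt_or_ge 1 n with h | h
    · obtain ⟨p, hp, hpn, i, hle', hidx⟩ := h2 w₁ w₂ v₁ v₂ hw.1 hv hle n h hn
      have hp3 : p ≠ 3 := by
        rintro rfl
        exact hodd hpn
      obtain ⟨s₁, s₂, hs⟩ : ∃ s₁ s₂, sub p w₁ w₂ i = (s₁, s₂) := ⟨_, _, rfl⟩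
      rw [hs] at hle' hidx
      obtain ⟨ho, h41, h61⟩ := h3 A hA w₁ w₂ hw p hp hp3 i s₁ s₂ hs
      have hodd' : ¬ 3 ∣ n / p := by
        obtain ⟨m, rfl⟩ := hpn
        rw [Nat.mul_div_cancel_left _ hp.pos]
        exact fun h' => hodd (h'.mul_left p)
      obtain ⟨ho', h42, h62⟩ := ih (n / p) (Nat.div_lt_self (by omega) hp.one_lt) _ _ ho hle'
        (by rw [hidx]; exact hodd') hidx
      refine ⟨ho', ?_, ?_⟩
      · have := mul_sub_one h42 h41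
        rwa [div_mul_div_cancel₀ ho.2.1] at this
      · have := mul_sub_one h62 h61
        rwa [div_mul_div_cancel₀ (Odd3Aux.e6_ne hA ho)] at this
    · have hn1 : n = 1 := by
        rcases Nat.eq_zero_or_pos n with h0 | h0
        · exact absurd (by rw [h0]; exact dvd_zero 3) hodd
        · omega
      refine Odd3Aux.base h1 hA hw hv (le_antisymm hle ?_)
      rw [hn1, AddSubgroup.relIndex_eq_one] at hn
      exact fun z hz => hn hz

end

end Pool.Agent.Lib.MP_7c08ba_nt.RZC3
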