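import Pool.Agent.Lib.MP_7c08ba_nt.RZ.Basic3

set_option autoImplicit false

/-! (X2) ordinarity of the lattices of a chain and the sum of `1/j`, `p = 3` (helper65). -/

namespace Pool.Agent.Lib.MP_7c08ba_nt.RZC3

open UpperHalfPlane ModularForm EisensteinSeries MatrixGroups NumberField RZC
open scoped Real Manifold ComplexConjugate

noncomputable section

namespace OrdC3Aux

variable {w₁ w₂ v₁ v₂ : ℂ}

theorem e4_lat (h : StLat) (hw : Pos w₁ w₂) (hv : Pos v₁ v₂) (hl : lat w₁ w₂ = lat v₁ v₂) :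
    e4 w₁ w₂ = e4 v₁ v₂ := h 4 E₄ _ _ _ _ hw hv hl

theorem e6_lat (h : StLat) (hw : Pos w₁ w₂) (hv : Pos v₁ v₂) (hl : lat w₁ w₂ = lat v₁ v₂) :
    e6 w₁ w₂ = e6 v₁ v₂ := h 6 E₆ _ _ _ _ hw hv hl

theorem dl_lat (h : StLat) (hL : StLevel3) (hw : Pos w₁ w₂) (hv : Pos v₁ v₂)
    (hl : lat w₁ w₂ = lat v₁ v₂) : dl w₁ w₂ = dl v₁ v₂ := by
  obtain ⟨-, -, -, h1, -⟩ := hL w₁ w₂ hw
  obtain ⟨-, -, -, h2, -⟩ := hL v₁ v₂ hv
  rw [e4_lat h hw hv hl, e6_lat h hw hv hl, ← h2] at h1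
  exact mul_left_cancel₀ (by norm_num) h1

open Classical in
/-- `XX3` as a function of the values of `E₄` -/
def X2 (a b : ℂ) : ℂ := if 81 * a = b then -27 else 243 * (b - a) / (81 * a - b)

theorem XX3_eq (w₁ w₂ : ℂ) : XX3 w₁ w₂ = X2 (e4 w₁ w₂) (e4 w₁ (w₂ / 3)) := rfl

theorem X2_smul {k : ℂ} (hk : k ≠ 0) (a b : ℂ) : X2 (k * a) (k * b) = X2 a b := by
  unfold X2
  have h1 : 81 * (k * a) = k * b ↔ 81 * a = b := by
    constructor
    · intro h
      exact mul_left_cancel₀ hk (by linear_combination h)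
    · intro h
      rw [← h]; ring
  by_cases h : 81 * a = b
  · rw [if_pos (h1.2 h), if_pos h]
  · rw [if_neg (fun h' => h (h1.1 h')), if_neg h]
    have h2 : 81 * a - b ≠ 0 := sub_ne_zero.2 h
    have h3 : 81 * (k * a) - k * b ≠ 0 := by
      have : 81 * (k * a) - k * b = k * (81 * a - b) := by ring
      rw [this]; exact mul_ne_zero hk h2
    rw [div_eq_div_iff h3 h2]
    ring

section
variable {m : ℕ} {c : ℂ} {u v : ℕ → ℂ}

theorem dl_third (h : StLat) (hL : StLevel3) (hc : Chain3 m c u v) (i : ℕ) :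
    dl (u i) (v i / 3) = dl (u (i + 1)) (v (i + 1)) :=
  dl_lat h hL (pos_third (hc.pos i)) (hc.pos (i + 1)) (hc.third i).symm

theorem e4_third (h : StLat) (hc : Chain3 m c u v) (i : ℕ) :
    e4 (u i) (v i / 3) = e4 (u (i + 1)) (v (i + 1)) :=
  e4_lat h (pos_third (hc.pos i)) (hc.pos (i + 1)) (hc.third i).symm

theorem e4_ninth (h : StLat) (hc : Chain3 m c u v) (i : ℕ) :
    e4 (u i) (v i / 9) = e4 (u (i + 1)) (v (i + 1) / 3) :=
  e4_lat h (pos_ninth (hc.pos i)) (pos_third (hc.pos (i + 1))) (hc.ninth i).symm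

theorem dl_per (h : StLat) (hL : StLevel3) (hc : Chain3 m c u v) (i : ℕ) :
    dl (u i) (v i) = (c ^ 12)⁻¹ * dl (u (i + m)) (v (i + m)) := by
  rw [← LF_smul hc.c0]
  exact dl_lat h hL (hc.pos i) ((pos_smul hc.c0).2 (hc.pos (i + m))) (hc.per i).symm

theorem e4_per (h : StLat) (hc : Chain3 m c u v) (i : ℕ) :
    e4 (u i) (v i) = (c ^ 4)⁻¹ * e4 (u (i + m)) (v (i + m)) := by
  rw [← LF_smul hc.c0]
  exact e4_lat h (hc.pos i) ((pos_smul hc.c0).2 (hc.pos (i + m))) (hc.per i).symm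

theorem XX_eq (h : StLat) (hc : Chain3 m c u v) (i : ℕ) :
    XX3 (u i) (v i) = X2 (e4 (u i) (v i)) (e4 (u (i + 1)) (v (i + 1))) := by
  rw [XX3_eq, e4_third h hc]

theorem XX_third (h : StLat) (hc : Chain3 m c u v) (i : ℕ) :
    XX3 (u i) (v i / 3) = XX3 (u (i + 1)) (v (i + 1)) := by
  rw [XX3_eq, XX3_eq, e4_third h hc, div_div]
  norm_num
  rw [e4_ninth h hc]

theorem XX_per (h : StLat) (hc : Chain3 m c u v) (i : ℕ) :
    XX3 (u (i + m)) (v (i + m)) = XX3 (u i) (v i) := by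
  rw [XX_eq h hc, XX_eq h hc, e4_per h hc i, e4_per h hc (i + 1)]
  have e : i + 1 + m = i + m + 1 := by ring
  rw [e, X2_smul (inv_ne_zero (pow_ne_zero _ hc.c0))]

theorem XX_mod (h : StLat) (hc : Chain3 m c u v) (k i : ℕ) :
    XX3 (u (i + m * k)) (v (i + m * k)) = XX3 (u i) (v i) := by
  induction k with
  | zero => rw [mul_zero, add_zero]
  | succ k ih =>
    rw [mul_add, mul_one, ← add_assoc, XX_per h hc, ih]

theorem prod_XX (h : StLat) (hL : StLevel3) (hc : Chain3 m c u v) (n : ℕ) :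
    (∏ i ∈ Finset.range n, XX3 (u i) (v i) ^ 2) * dl (u n) (v n) =
      (3 ^ n) ^ 12 * dl (u 0) (v 0) := by
  induction n with
  | zero =>
    rw [Finset.prod_range_zero, pow_zero, one_pow]
  | succ n ih =>
    obtain ⟨-, -, -, -, h5, -⟩ := hL _ _ (hc.pos n)
    rw [dl_third h hL hc] at h5
    rw [Finset.prod_range_succ, mul_assoc, h5]
    have e : (∏ i ∈ Finset.range n, XX3 (u i) (v i) ^ 2) * (3 ^ 12 * dl (u n) (v n)) =
        3 ^ 12 * ((∏ i ∈ Finset.range n, XX3 (u i) (v i) ^ 2) * dl (u n) (v n)) := by ring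
    rw [e, ih]
    ring

theorem prod_e4 (h : StLat) (hL : StLevel3) (hc : Chain3 m c u v) (n : ℕ) :
    e4 (u n) (v n) * ∏ i ∈ Finset.range n, (XX3 (u i) (v i) + 243) =
      (3 ^ n) ^ 4 * e4 (u 0) (v 0) * ∏ i ∈ Finset.range n, (XX3 (u i) (v i) + 3) := by
  induction n with
  | zero =>
    rw [Finset.prod_range_zero, Finset.prod_range_zero, pow_zero, one_pow, one_mul]
  | succ n ih =>
    obtain ⟨-, -, -, -, -, -, -, h8, -⟩ := hL _ _ (hc.pos n)
    rw [e4_third h hc] at h8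
    rw [Finset.prod_range_succ, Finset.prod_range_succ]
    linear_combination (∏ i ∈ Finset.range n, (XX3 (u i) (v i) + 243)) * h8 +
      81 * (XX3 (u n) (v n) + 3) * ih

end

end OrdC3Aux

open OrdC3Aux

theorem stOrdC3 (h1 : StLevel3) (h2 : StCycle3) (h3 : StLat) : StOrdC3 := by
  intro A hA m c u v hm hc hU
  have h0 : ∀ i, dl (u i) (v i) ≠ 0 := fun i => (h1 _ _ (hc.pos i)).1
  have hc0 := hc.c0
  obtain ⟨hX, hS⟩ := h2 A hA m hm (fun i => XX3 (u i) (v i)) (3 ^ m / c)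
    (fun i => (h1 _ _ (hc.pos i)).2.2.1)
    (by
      have := XX_per h3 hc 0
      rwa [zero_add] at this)
    (fun i _ => by
      obtain ⟨-, -, -, -, -, -, -, -, -, h⟩ := h1 _ _ (hc.pos i)
      rwa [XX_third h3 hc] at h)
    (by
      have hp := dl_per h3 h1 hc 0
      rw [zero_add] at hp
      have hq := prod_XX h3 h1 hc m
      rw [hp] at hq
      apply mul_right_cancel₀ (h0 m)
      rw [hq, div_pow]
      field_simp)
    hU.1 hU.2.1 hU.2.2.1
  have hXA : ∀ i, XX3 (u i) (v i) ∈ A ∧ (XX3 (u i) (v i))⁻¹ ∈ A := by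
    intro i
    have e : XX3 (u i) (v i) = XX3 (u (i % m)) (v (i % m)) := by
      have := XX_mod h3 hc (i / m) (i % m)
      rwa [Nat.mod_add_div] at this
    rw [e]
    exact hX (i % m) (Nat.mod_lt _ hm).le
  have add_unit : ∀ i, ∀ n : ℤ, (3 : ℤ) ∣ n → XX3 (u i) (v i) + n ≠ 0 ∧
      (XX3 (u i) (v i) + n)⁻¹ ∈ A := by
    intro i n hn
    have hx0 := (h1 _ _ (hc.pos i)).2.2.1
    have hnot := not_nonunits_of_inv_mem hx0 (hXA i).2
    have hnn := three_dvd_nonunits hA hn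
    have hmem : XX3 (u i) (v i) + n ∈ A := A.add_mem _ _ (hXA i).1 (nonunits_mem hnn)
    have hno : XX3 (u i) (v i) + n ∉ A.nonunits := fun hcon => by
      have := nonunits_sub hcon hnn
      rw [add_sub_cancel_right] at this
      exact hnot this
    refine ⟨fun hz => hno ?_, inv_mem_of_not_nonunits hmem hno⟩
    rw [hz]
    exact zero_nonunits
  have hOrd : ∀ i, e4 (u i) (v i) ≠ 0 ∧ jv (u i) (v i) = XX3 (u i) (v i) ^ 3 /
      ((XX3 (u i) (v i) + 27) * (XX3 (u i) (v i) + 243) ^ 3) ∧ jv (u i) (v i) ∈ A := by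
    intro i
    obtain ⟨hd, -, hx0, -, -, hr, -⟩ := h1 _ _ (hc.pos i)
    obtain ⟨hu0, hui⟩ := add_unit i 27 (by decide)
    obtain ⟨hu0', hui'⟩ := add_unit i 243 (by decide)
    push_cast at hu0 hui hu0' hui'
    have he : e4 (u i) (v i) ≠ 0 := by
      intro hz
      rw [hz] at hr
      have : dl (u i) (v i) * (XX3 (u i) (v i) + 27) * (XX3 (u i) (v i) + 243) ^ 3 ≠ 0 :=
        mul_ne_zero (mul_ne_zero hd hu0) (pow_ne_zero _ hu0')
      apply this
      rw [← hr]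
      ring
    have hj : jv (u i) (v i) = XX3 (u i) (v i) ^ 3 /
        ((XX3 (u i) (v i) + 27) * (XX3 (u i) (v i) + 243) ^ 3) := by
      unfold jv
      rw [div_eq_div_iff (pow_ne_zero _ he) (mul_ne_zero hu0 (pow_ne_zero _ hu0'))]
      linear_combination -hr
    refine ⟨he, hj, ?_⟩
    rw [hj, div_eq_mul_inv, mul_inv, ← inv_pow]
    exact A.mul_mem _ _ (pow_mem (hXA i).1 3) (A.mul_mem _ _ hui (pow_mem hui' 3))
  refine ⟨fun i => ⟨⟨hc.pos i, (hOrd i).1, (hOrd i).2.2⟩, hXA i⟩, ?_⟩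
  have hprod : ∏ i ∈ Finset.range m, (XX3 (u i) (v i) + 243) =
      (3 ^ m / c) ^ 4 * ∏ i ∈ Finset.range m, (XX3 (u i) (v i) + 3) := by
    have hq := prod_e4 h3 h1 hc m
    have hp := e4_per h3 hc 0
    rw [zero_add] at hp
    have he := (hOrd m).1
    rw [hp] at hq
    apply mul_left_cancel₀ he
    rw [hq, div_pow]
    field_simp
  have hS' := hS hprod
  rw [Finset.sum_congr rfl fun i _ => (hOrd i).2.1]
  exact hS'

end

end Pool.Agent.Lib.MP_7c08ba_nt.RZC3
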