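import Pool.Agent.Lib.MP_7c08ba_nt.RZ.StmtsC3

set_option autoImplicit false

/-! (W2) the symmetric functions of the translates of the Weierstrass function by a point of
order 3. -/

namespace Pool.Agent.Lib.MP_7c08ba_nt.RZC3

namespace Prod3Aux

open Filter Topology Function

theorem preconn (L : PeriodPair) : IsPreconnected ((L.lattice : Set ℂ)ᶜ) := by
  have hc : (L.lattice : Set ℂ).Countable := by
    have h1 : Countable L.lattice := L.latticeEquivProd.toEquiv.countable_iff.2 inferInstance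
    exact Set.countable_coe_iff.1 h1
  exact (hc.isConnected_compl_of_one_lt_rank
    (by rw [Complex.rank_real_complex]; norm_num)).isPreconnected

/-- the second order differential equation -/
theorem second (L : PeriodPair) {z : ℂ} (hz : z ∉ L.lattice) :
    deriv L.derivWeierstrassP z = 6 * L.weierstrassP z ^ 2 - L.g₂ / 2 := by
  have hU : IsOpen ((L.lattice : Set ℂ)ᶜ) := L.isClosed_lattice.isOpen_compl
  have hf := L.analyticOnNhd_derivWeierstrassP
  have hp := L.analyticOnNhd_weierstrassP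
  have hg : AnalyticOnNhd ℂ (fun z => deriv L.derivWeierstrassP z - 6 * L.weierstrassP z ^ 2 +
      L.g₂ / 2) (L.lattice : Set ℂ)ᶜ := by
    intro x hx
    have h1 := (hf x hx).deriv
    have h2 := hp x hx
    fun_prop
  have hmul : ∀ x ∈ (L.lattice : Set ℂ)ᶜ, L.derivWeierstrassP x *
      (deriv L.derivWeierstrassP x - 6 * L.weierstrassP x ^ 2 + L.g₂ / 2) = 0 := by
    intro x hx
    have h1 : HasDerivAt L.derivWeierstrassP (deriv L.derivWeierstrassP x) x :=
      (hf x hx).differentiableAt.hasDerivAt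
    have h2 : HasDerivAt L.weierstrassP (L.derivWeierstrassP x) x := by
      have := (hp x hx).differentiableAt.hasDerivAt
      rwa [L.deriv_weierstrassP] at this
    have h3 : (fun y => L.derivWeierstrassP y ^ 2) =ᶠ[𝓝 x]
        fun y => 4 * L.weierstrassP y ^ 3 - L.g₂ * L.weierstrassP y - L.g₃ := by
      filter_upwards [hU.mem_nhds hx] with y hy
      exact L.derivWeierstrassP_sq y hy
    have h4 : HasDerivAt (fun y => L.derivWeierstrassP y ^ 2)
        (((2 : ℕ) : ℂ) * L.derivWeierstrassP x ^ (2 - 1) * deriv L.derivWeierstrassP x) x :=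
      h1.pow 2
    have h5 : HasDerivAt (fun y => 4 * L.weierstrassP y ^ 3 - L.g₂ * L.weierstrassP y - L.g₃)
        (4 * (((3 : ℕ) : ℂ) * L.weierstrassP x ^ (3 - 1) * L.derivWeierstrassP x) -
          L.g₂ * L.derivWeierstrassP x) x :=
      (((h2.pow 3).const_mul 4).sub (h2.const_mul L.g₂)).sub_const _
    have h6 := h4.unique (h5.congr_of_eventuallyEq h3)
    norm_num at h6
    linear_combination h6 / 2
  rcases hf.eq_zero_or_eq_zero_of_mul_eq_zero hg hmul (preconn L) with h | h
  · exfalso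
    have hconst : ∀ y ∈ (L.lattice : Set ℂ)ᶜ, L.weierstrassP y = L.weierstrassP z := by
      intro y hy
      refine hU.is_const_of_deriv_eq_zero (preconn L) L.differentiableOn_weierstrassP ?_ hy hz
      intro x hx
      rw [L.deriv_weierstrassP]
      exact h x hx
    have h0 : L.weierstrassP =ᶠ[𝓝[≠] 0] fun _ => L.weierstrassP z := by
      filter_upwards [self_mem_nhdsWithin, mem_nhdsWithin_of_mem_nhds
        (L.compl_lattice_sdiff_singleton_mem_nhds 0)] with w hw hw'
      exact hconst w (by simp_all)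
    have h1 := meromorphicOrderAt_congr h0
    rw [L.order_weierstrassP 0 L.lattice.zero_mem] at h1
    have h2 : 0 ≤ meromorphicOrderAt (fun _ : ℂ => L.weierstrassP z) 0 :=
      analyticAt_const.meromorphicOrderAt_nonneg
    rw [← h1] at h2
    exact absurd h2 (by decide)
  · have := h z hz
    linear_combination this

/-- the quotient of the second order -/
theorem taylor2 {f : ℂ → ℂ} {x : ℂ} (hf : AnalyticAt ℂ f x) :
    Tendsto (fun z => (f (z + x) - f x - deriv f x * z) / z ^ 2) (𝓝[≠] 0)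
      (𝓝 (deriv (deriv f) x / 2)) := by
  set w : ℂ → ℂ := fun z => f (z + x) - f x - deriv f x * z with hw
  have hfa : AnalyticAt ℂ (fun z : ℂ => f (z + x)) 0 := by
    have h4 : AnalyticAt ℂ (fun z : ℂ => z + x) 0 := by fun_prop
    exact hf.comp_of_eq h4 (zero_add x)
  have hwa : AnalyticAt ℂ w 0 := by
    have h5 : AnalyticAt ℂ (fun z : ℂ => deriv f x * z) 0 := by fun_prop
    exact (hfa.sub analyticAt_const).sub h5
  have hw0 : w 0 = 0 := by simp [hw]
  have hd : deriv w =ᶠ[𝓝 0] fun z => deriv f (z + x) - deriv f x := by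
    have h1 : ∀ᶠ z in 𝓝 (0 : ℂ), AnalyticAt ℂ (fun z : ℂ => f (z + x)) z :=
      hfa.eventually_analyticAt
    filter_upwards [h1] with z hz
    have h2 : HasDerivAt (fun z : ℂ => f (z + x)) (deriv f (z + x)) z := by
      have h3 := hz.differentiableAt.hasDerivAt
      rwa [deriv_comp_add_const] at h3
    have h4 : HasDerivAt (fun z : ℂ => deriv f x * z) (deriv f x) z := by
      have := (hasDerivAt_id z).const_mul (deriv f x)
      simpa using this
    exact ((h2.sub_const (f x)).sub h4).deriv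
  have hw1 : deriv w 0 = 0 := by
    rw [hd.eq_of_nhds]
    simp
  have hw2 : iteratedDeriv 2 w 0 = deriv (deriv f) x := by
    rw [iteratedDeriv_succ, iteratedDeriv_one, hd.deriv_eq, deriv_sub_const, deriv_comp_add_const,
      zero_add]
  have hs := HasFPowerSeriesAt.has_fpower_series_iterate_dslope_fslope 2
    hwa.hasFPowerSeriesAt
  have hc := hs.continuousAt.tendsto
  have hv := hs.coeff_zero 1
  rw [← FormalMultilinearSeries.coeff, FormalMultilinearSeries.coeff_iterate_fslope] at hv
  rw [← hv] at hc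
  have hcoef : (FormalMultilinearSeries.ofScalars ℂ
      (fun n => iteratedDeriv n w 0 / (n.factorial : ℂ))).coeff (0 + 2) =
      deriv (deriv f) x / 2 := by
    rw [FormalMultilinearSeries.coeff_ofScalars]
    rw [zero_add, hw2]
    norm_num
  rw [hcoef] at hc
  refine (hc.mono_left nhdsWithin_le_nhds).congr' ?_
  filter_upwards [self_mem_nhdsWithin] with z hz
  have hz' : z ≠ 0 := hz
  simp only [iterate_succ, iterate_zero, comp_apply, id_eq, swap]
  rw [dslope_of_ne _ hz', slope_def_field, dslope_of_ne _ hz', slope_def_field, dslope_same,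
    hw1, hw0]
  simp only [sub_zero]
  field_simp
  simp only [hw]
  ring

theorem tendsto_one (L : PeriodPair) (e : ℂ) :
    Tendsto (fun z => z ^ 2 * (L.weierstrassP z - e)) (𝓝[≠] 0) (𝓝 1) := by
  have h1 : AnalyticAt ℂ (L.weierstrassPExcept 0) 0 := L.analyticAt_weierstrassPExcept 0
  have h2 : Tendsto (fun z => z ^ 2 * L.weierstrassPExcept 0 z + 1 -
      z ^ 2 * e) (𝓝 0) (𝓝 1) := by
    have h3 : ContinuousAt (fun z => z ^ 2 * L.weierstrassPExcept 0 z + 1 -
      z ^ 2 * e) 0 := by
      have := h1.continuousAt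
      fun_prop
    have h4 := h3.tendsto
    simpa using h4
  refine (h2.mono_left nhdsWithin_le_nhds).congr' ?_
  filter_upwards [self_mem_nhdsWithin] with z hz
  have h5 := L.ite_eq_one_sub_sq_mul_weierstrassP 0 L.lattice.zero_mem z
  have hz' : z ≠ 0 := hz
  rw [if_neg hz'] at h5
  simp only [sub_zero, ne_eq, OfNat.ofNat_ne_zero, not_false_eq_true, zero_pow, div_zero] at h5
  linear_combination -h5

/-- the first order quotient -/
theorem taylor1 {f : ℂ → ℂ} {x : ℂ} (hf : AnalyticAt ℂ f x) :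
    Tendsto (fun z => (f (z + x) - f x) / z) (𝓝[≠] 0) (𝓝 (deriv f x)) := by
  have h1 := (taylor2 hf)
  have h2 : Tendsto (fun z : ℂ => z) (𝓝[≠] 0) (𝓝 0) :=
    tendsto_id.mono_left nhdsWithin_le_nhds
  have h3 := (h2.mul h1).add_const (deriv f x)
  rw [zero_mul, zero_add] at h3
  refine h3.congr' ?_
  filter_upwards [self_mem_nhdsWithin] with z hz
  have hz' : z ≠ 0 := hz
  field_simp
  ring

variable (L : PeriodPair) (h : ℂ)

theorem neg_off (hh : h ∉ L.lattice) : -h ∉ L.lattice := by
  rwa [neg_mem_iff]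

theorem lim_plus (hh : h ∉ L.lattice) :
    Tendsto (fun z => (L.weierstrassP (z + h) - L.weierstrassP h) / z) (𝓝[≠] 0)
      (𝓝 (L.derivWeierstrassP h)) := by
  have := taylor1 (L.analyticOnNhd_weierstrassP h hh)
  rwa [L.deriv_weierstrassP] at this

theorem lim_minus (hh : h ∉ L.lattice) :
    Tendsto (fun z => (L.weierstrassP (z - h) - L.weierstrassP h) / z) (𝓝[≠] 0)
      (𝓝 (-L.derivWeierstrassP h)) := by
  have := taylor1 (L.analyticOnNhd_weierstrassP (-h) (neg_off L h hh))
  rw [L.deriv_weierstrassP, L.derivWeierstrassP_neg, L.weierstrassP_neg] at this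
  exact this

theorem lim_two (hh : h ∉ L.lattice) :
    Tendsto (fun z => ((L.weierstrassP (z + h) - L.weierstrassP h) +
      (L.weierstrassP (z - h) - L.weierstrassP h)) / z ^ 2) (𝓝[≠] 0) (𝓝 (pa L h)) := by
  have h1 := taylor2 (L.analyticOnNhd_weierstrassP h hh)
  have h2 := taylor2 (L.analyticOnNhd_weierstrassP (-h) (neg_off L h hh))
  rw [L.deriv_weierstrassP, second L hh] at h1
  rw [L.deriv_weierstrassP, second L (neg_off L h hh), L.derivWeierstrassP_neg,
    L.weierstrassP_neg] at h2
  have h3 := h1.add h2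
  have h4 : (6 * L.weierstrassP h ^ 2 - L.g₂ / 2) / 2 + (6 * L.weierstrassP h ^ 2 - L.g₂ / 2) / 2 =
      pa L h := by
    rw [pa]
    ring
  rw [h4] at h3
  refine h3.congr' ?_
  filter_upwards [self_mem_nhdsWithin] with z hz
  have hz' : z ≠ 0 := hz
  rw [sub_eq_add_neg z h]
  field_simp
  ring

theorem lim_F3 (hh : h ∉ L.lattice) :
    Tendsto (fun z => (L.weierstrassP z - L.weierstrassP h) *
      (L.weierstrassP (z + h) - L.weierstrassP h) * (L.weierstrassP (z - h) - L.weierstrassP h))
      (𝓝[≠] 0) (𝓝 (-L.derivWeierstrassP h ^ 2)) := by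
  have h1 := ((tendsto_one L (L.weierstrassP h)).mul (lim_plus L h hh)).mul (lim_minus L h hh)
  have h2 : 1 * L.derivWeierstrassP h * -L.derivWeierstrassP h = -L.derivWeierstrassP h ^ 2 := by
    ring
  rw [h2] at h1
  refine h1.congr' ?_
  filter_upwards [self_mem_nhdsWithin] with z hz
  have hz' : z ≠ 0 := hz
  field_simp

theorem lim_F2 (hh : h ∉ L.lattice) :
    Tendsto (fun z => (L.weierstrassP z - L.weierstrassP h) *
        (L.weierstrassP (z + h) - L.weierstrassP h) +
      (L.weierstrassP (z + h) - L.weierstrassP h) * (L.weierstrassP (z - h) - L.weierstrassP h) +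
      (L.weierstrassP (z - h) - L.weierstrassP h) * (L.weierstrassP z - L.weierstrassP h))
      (𝓝[≠] 0) (𝓝 (pa L h)) := by
  have h0 : Tendsto (fun z : ℂ => z ^ 2) (𝓝[≠] 0) (𝓝 0) := by
    have h2 : Tendsto (fun z : ℂ => z) (𝓝[≠] 0) (𝓝 0) :=
      tendsto_id.mono_left nhdsWithin_le_nhds
    have h3 := h2.pow 2
    simpa using h3
  have h1 := ((tendsto_one L (L.weierstrassP h)).mul (lim_two L h hh)).add
    ((h0.mul (lim_plus L h hh)).mul (lim_minus L h hh))
  rw [one_mul, zero_mul, zero_mul, add_zero] at h1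
  refine h1.congr' ?_
  filter_upwards [self_mem_nhdsWithin] with z hz
  have hz' : z ≠ 0 := hz
  field_simp
  ring

theorem add_mem_iff {z l : ℂ} (hl : l ∈ L.lattice) : z + l ∈ L.lattice ↔ z ∈ L.lattice := by
  constructor
  · intro hz
    have := L.lattice.sub_mem hz hl
    rwa [add_sub_cancel_right] at this
  · intro hz
    exact L.lattice.add_mem hz hl

theorem wp_add {l : ℂ} (hl : l ∈ L.lattice) (z : ℂ) :
    L.weierstrassP (z + l) = L.weierstrassP z := L.weierstrassP_add_coe z ⟨l, hl⟩

section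

variable (Φ : ℂ → ℂ → ℂ → ℂ) (v : ℂ)

open Classical in
/-- a cyclic function of the translates, extended to the lattice -/
noncomputable def FF (z : ℂ) : ℂ :=
  if z ∈ L.lattice ∨ z + h ∈ L.lattice ∨ z - h ∈ L.lattice then v
  else Φ (L.weierstrassP z - L.weierstrassP h) (L.weierstrassP (z + h) - L.weierstrassP h)
    (L.weierstrassP (z - h) - L.weierstrassP h)

theorem FF_add {l : ℂ} (hl : l ∈ L.lattice) (z : ℂ) : FF L h Φ v (z + l) = FF L h Φ v z := by
  have h1 : z + l ∈ L.lattice ↔ z ∈ L.lattice := add_mem_iff L hl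
  have h2 : z + l + h ∈ L.lattice ↔ z + h ∈ L.lattice := by
    rw [add_right_comm]
    exact add_mem_iff L hl
  have h3 : z + l - h ∈ L.lattice ↔ z - h ∈ L.lattice := by
    rw [add_sub_right_comm]
    exact add_mem_iff L hl
  have h4 : L.weierstrassP (z + l) = L.weierstrassP z := wp_add L hl z
  have h5 : L.weierstrassP (z + l + h) = L.weierstrassP (z + h) := by
    rw [add_right_comm]
    exact wp_add L hl (z + h)
  have h6 : L.weierstrassP (z + l - h) = L.weierstrassP (z - h) := by
    rw [add_sub_right_comm]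
    exact wp_add L hl (z - h)
  unfold FF
  rw [h4, h5, h6]
  by_cases hc : z ∈ L.lattice ∨ z + h ∈ L.lattice ∨ z - h ∈ L.lattice
  · rw [if_pos hc, if_pos (by rw [h1, h2, h3]; exact hc)]
  · rw [if_neg hc, if_neg (by rw [h1, h2, h3]; exact hc)]

theorem FF_third (hΦ : ∀ a b c, Φ b c a = Φ a b c) (h2 : 3 * h ∈ L.lattice) (z : ℂ) :
    FF L h Φ v (z + h) = FF L h Φ v z := by
  have e1 : z + h + h = z - h + 3 * h := by ring
  have h1 : z + h + h ∈ L.lattice ↔ z - h ∈ L.lattice := by
    rw [e1]
    exact add_mem_iff L h2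
  have h3 : L.weierstrassP (z + h + h) = L.weierstrassP (z - h) := by
    rw [e1]
    exact wp_add L h2 (z - h)
  unfold FF
  rw [h3, add_sub_cancel_right]
  by_cases hc : z ∈ L.lattice ∨ z + h ∈ L.lattice ∨ z - h ∈ L.lattice
  · rw [if_pos hc, if_pos (by rw [h1]; tauto)]
  · rw [if_neg hc, if_neg (by rw [h1]; tauto), hΦ]

theorem eventually_off (hh : h ∉ L.lattice) :
    ∀ᶠ z in 𝓝[≠] (0 : ℂ), ¬ (z ∈ L.lattice ∨ z + h ∈ L.lattice ∨ z - h ∈ L.lattice) := by
  have h1 : ∀ᶠ z in 𝓝 (0 : ℂ), z + h ∉ L.lattice := by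
    have h3 : ContinuousAt (fun z : ℂ => z + h) 0 := by fun_prop
    have h4 : ((L.lattice : Set ℂ)ᶜ) ∈ 𝓝 ((fun z : ℂ => z + h) 0) := by
      refine L.isClosed_lattice.isOpen_compl.mem_nhds ?_
      simpa using hh
    exact h3 h4
  have h2 : ∀ᶠ z in 𝓝 (0 : ℂ), z - h ∉ L.lattice := by
    have h3 : ContinuousAt (fun z : ℂ => z - h) 0 := by fun_prop
    have h4 : ((L.lattice : Set ℂ)ᶜ) ∈ 𝓝 ((fun z : ℂ => z - h) 0) := by
      refine L.isClosed_lattice.isOpen_compl.mem_nhds ?_
      simpa using neg_off L h hh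
    exact h3 h4
  filter_upwards [self_mem_nhdsWithin, mem_nhdsWithin_of_mem_nhds
    (L.compl_lattice_sdiff_singleton_mem_nhds 0), mem_nhdsWithin_of_mem_nhds h1,
    mem_nhdsWithin_of_mem_nhds h2] with w hw hw' hw1 hw2
  have h5 : w ∉ L.lattice := by simp_all
  tauto

theorem diff_off (hD : ∀ (f g k : ℂ → ℂ) (z : ℂ), DifferentiableAt ℂ f z →
      DifferentiableAt ℂ g z → DifferentiableAt ℂ k z →
      DifferentiableAt ℂ (fun w => Φ (f w) (g w) (k w)) z) {z : ℂ}
    (hz : ¬ (z ∈ L.lattice ∨ z + h ∈ L.lattice ∨ z - h ∈ L.lattice)) :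
    DifferentiableAt ℂ (FF L h Φ v) z := by
  rw [not_or, not_or] at hz
  obtain ⟨hz, hzh, hzh'⟩ := hz
  have h1 : ∀ᶠ w in 𝓝 z, w ∉ L.lattice := L.isClosed_lattice.isOpen_compl.mem_nhds hz
  have h2 : ∀ᶠ w in 𝓝 z, w + h ∉ L.lattice := by
    have h3 : ContinuousAt (fun z : ℂ => z + h) z := by fun_prop
    exact h3 (L.isClosed_lattice.isOpen_compl.mem_nhds hzh)
  have h2' : ∀ᶠ w in 𝓝 z, w - h ∉ L.lattice := by
    have h3 : ContinuousAt (fun z : ℂ => z - h) z := by fun_prop
    exact h3 (L.isClosed_lattice.isOpen_compl.mem_nhds hzh')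
  have h3 : FF L h Φ v =ᶠ[𝓝 z] fun w => Φ (L.weierstrassP w - L.weierstrassP h)
      (L.weierstrassP (w + h) - L.weierstrassP h) (L.weierstrassP (w - h) - L.weierstrassP h) := by
    filter_upwards [h1, h2, h2'] with w hw1 hw2 hw3
    unfold FF
    rw [if_neg (by tauto)]
  refine DifferentiableAt.congr_of_eventuallyEq ?_ h3
  have h4 : DifferentiableAt ℂ L.weierstrassP z :=
    (L.analyticOnNhd_weierstrassP z hz).differentiableAt
  have h5 : DifferentiableAt ℂ (fun w => L.weierstrassP (w + h)) z := by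
    have h6 : DifferentiableAt ℂ L.weierstrassP (z + h) :=
      (L.analyticOnNhd_weierstrassP _ hzh).differentiableAt
    exact differentiableAt_comp_add_const.2 h6
  have h7 : DifferentiableAt ℂ (fun w => L.weierstrassP (w - h)) z := by
    have h6 : DifferentiableAt ℂ L.weierstrassP (z + -h) := by
      rw [← sub_eq_add_neg]
      exact (L.analyticOnNhd_weierstrassP _ hzh').differentiableAt
    have h8 := differentiableAt_comp_add_const.2 h6
    exact h8
  exact hD _ _ _ z (h4.sub_const _) (h5.sub_const _) (h7.sub_const _)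

theorem diff_zero (hD : ∀ (f g k : ℂ → ℂ) (z : ℂ), DifferentiableAt ℂ f z →
      DifferentiableAt ℂ g z → DifferentiableAt ℂ k z →
      DifferentiableAt ℂ (fun w => Φ (f w) (g w) (k w)) z)
    (hlim : Tendsto (fun z => Φ (L.weierstrassP z - L.weierstrassP h)
      (L.weierstrassP (z + h) - L.weierstrassP h) (L.weierstrassP (z - h) - L.weierstrassP h))
      (𝓝[≠] 0) (𝓝 v)) (hh : h ∉ L.lattice) :
    DifferentiableAt ℂ (FF L h Φ v) 0 := by
  refine (Complex.analyticAt_of_differentiable_on_punctured_nhds_of_continuousAt ?_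
    ?_).differentiableAt
  · filter_upwards [eventually_off L h hh] with z hz
    exact diff_off L h Φ v hD hz
  · rw [continuousAt_iff_punctured_nhds]
    have h3 : FF L h Φ v 0 = v := by
      unfold FF
      rw [if_pos (Or.inl L.lattice.zero_mem)]
    rw [h3]
    refine hlim.congr' ?_
    filter_upwards [eventually_off L h hh] with z hz
    unfold FF
    rw [if_neg hz]

theorem differentiable (hΦ : ∀ a b c, Φ b c a = Φ a b c)
    (hD : ∀ (f g k : ℂ → ℂ) (z : ℂ), DifferentiableAt ℂ f z →
      DifferentiableAt ℂ g z → DifferentiableAt ℂ k z →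
      DifferentiableAt ℂ (fun w => Φ (f w) (g w) (k w)) z)
    (hlim : Tendsto (fun z => Φ (L.weierstrassP z - L.weierstrassP h)
      (L.weierstrassP (z + h) - L.weierstrassP h) (L.weierstrassP (z - h) - L.weierstrassP h))
      (𝓝[≠] 0) (𝓝 v)) (hh : h ∉ L.lattice) (h2 : 3 * h ∈ L.lattice) :
    Differentiable ℂ (FF L h Φ v) := by
  have hlat : ∀ z ∈ L.lattice, DifferentiableAt ℂ (FF L h Φ v) z := by
    intro z hz
    have h3 : FF L h Φ v = fun w => FF L h Φ v (w + (-z)) := by
      ext w
      exact (FF_add L h Φ v (L.lattice.neg_mem hz) w).symm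
    rw [h3]
    have h4 : DifferentiableAt ℂ (FF L h Φ v) (z + (-z)) := by
      rw [add_neg_cancel]
      exact diff_zero L h Φ v hD hlim hh
    exact differentiableAt_comp_add_const.2 h4
  intro z
  by_cases hz : z ∈ L.lattice
  · exact hlat z hz
  by_cases hzh : z + h ∈ L.lattice
  · have h3 : FF L h Φ v = fun w => FF L h Φ v (w + h) := by
      ext w
      exact (FF_third L h Φ v hΦ h2 w).symm
    rw [h3]
    exact differentiableAt_comp_add_const.2 (hlat _ hzh)
  by_cases hzh' : z - h ∈ L.lattice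
  · have h3 : FF L h Φ v = fun w => FF L h Φ v (w + (-h)) := by
      ext w
      have := FF_third L h Φ v hΦ h2 (w + (-h))
      rwa [neg_add_cancel_right] at this
    rw [h3]
    refine differentiableAt_comp_add_const.2 (hlat _ ?_)
    rwa [← sub_eq_add_neg]
  · exact diff_off L h Φ v hD (by tauto)

theorem main (hΦ : ∀ a b c, Φ b c a = Φ a b c)
    (hD : ∀ (f g k : ℂ → ℂ) (z : ℂ), DifferentiableAt ℂ f z →
      DifferentiableAt ℂ g z → DifferentiableAt ℂ k z →
      DifferentiableAt ℂ (fun w => Φ (f w) (g w) (k w)) z)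
    (hlim : Tendsto (fun z => Φ (L.weierstrassP z - L.weierstrassP h)
      (L.weierstrassP (z + h) - L.weierstrassP h) (L.weierstrassP (z - h) - L.weierstrassP h))
      (𝓝[≠] 0) (𝓝 v)) (hh : h ∉ L.lattice) (h2 : 3 * h ∈ L.lattice) {z : ℂ}
    (hz : z ∉ L.lattice) (hzh : z + h ∉ L.lattice) (hzh' : z - h ∉ L.lattice) :
    Φ (L.weierstrassP z - L.weierstrassP h) (L.weierstrassP (z + h) - L.weierstrassP h)
      (L.weierstrassP (z - h) - L.weierstrassP h) = v := by
  have hd := differentiable L h Φ v hΦ hD hlim hh h2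
  have h3 := hd.apply_eq_apply_of_bounded (IsZLattice.isCompact_range_of_periodic L.lattice _
    hd.continuous fun z w hw => FF_add L h Φ v hw z).isBounded z 0
  unfold FF at h3
  rwa [if_neg (by tauto), if_pos (Or.inl L.lattice.zero_mem)] at h3

end

end Prod3Aux

open Prod3Aux in
/-- (W2) the symmetric functions of the translates by a point of order 3 -/
theorem stProd3 : StProd3 := by
  intro L h hh h2 z hz hzh hzh'
  constructor
  · refine Prod3Aux.main L h (fun a b c => a * b + b * c + c * a) (pa L h) ?_ ?_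
      (lim_F2 L h hh) hh h2 hz hzh hzh'
    · intro a b c
      ring
    · intro f g k z hf hg hk
      exact ((hf.mul hg).add (hg.mul hk)).add (hk.mul hf)
  · refine Prod3Aux.main L h (fun a b c => a * b * c) (-L.derivWeierstrassP h ^ 2) ?_ ?_
      (lim_F3 L h hh) hh h2 hz hzh hzh'
    · intro a b c
      ring
    · intro f g k z hf hg hk
      exact (hf.mul hg).mul hk

end Pool.Agent.Lib.MP_7c08ba_nt.RZC3
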