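import Pool.Agent.Lib.MP_7c08ba_nt.RZ.Basic3

set_option autoImplicit false

/-!
Module `Qrel3` of project RZ3, part (C3): (R4) the level 3 relations for power series.
-/

namespace Pool.Agent.Lib.MP_7c08ba_nt.RZC3

open UpperHalfPlane ModularForm EisensteinSeries MatrixGroups NumberField RZC
open scoped Real Manifold ComplexConjugate

noncomputable section

namespace Qrel3Aux

/-- `q = exp (2 π i τ)` -/
abbrev qp (τ : ℂ) : ℂ := Function.Periodic.qParam (1 : ℝ) τ

/-- `F` is the sum of the `q`-series `g` -/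
def Rep (F : ℍ → ℂ) (g : PowerSeries ℂ) : Prop :=
  ∀ τ : ℍ, HasSum (fun m : ℕ => g.coeff m * qp τ ^ m) (F τ)

theorem hs_congr {a b : ℕ → ℂ} {s : ℂ} (h : HasSum b s) (hab : ∀ m, a m = b m) :
    HasSum a s := by
  rwa [show a = b from funext hab]

theorem Rep.add {F G : ℍ → ℂ} {f g : PowerSeries ℂ} (hF : Rep F f) (hG : Rep G g) :
    Rep (fun τ => F τ + G τ) (f + g) := fun τ => by
  simpa [add_mul] using (hF τ).add (hG τ)

theorem Rep.const (c : ℂ) : Rep (fun _ => c) (PowerSeries.C c) := fun τ => by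
  have h := hasSum_single (f := fun m : ℕ => (PowerSeries.C c : PowerSeries ℂ).coeff m * qp τ ^ m)
    0 (fun m hm => by
      show (PowerSeries.C c : PowerSeries ℂ).coeff m * qp τ ^ m = 0
      rw [PowerSeries.coeff_C, if_neg hm, zero_mul])
  have h1 : (PowerSeries.C c : PowerSeries ℂ).coeff 0 * qp τ ^ 0 = c := by
    rw [PowerSeries.coeff_C, if_pos rfl, pow_zero, mul_one]
  rwa [h1] at h

theorem Rep.mul {F G : ℍ → ℂ} {f g : PowerSeries ℂ} (hF : Rep F f) (hG : Rep G g) :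
    Rep (fun τ => F τ * G τ) (f * g) := fun τ => by
  have h1 := (hF τ).summable.norm
  have h2 := (hG τ).summable.norm
  have h3 := tsum_mul_tsum_eq_tsum_sum_antidiagonal_of_summable_norm h1 h2
  have h4 := (summable_norm_sum_mul_antidiagonal_of_summable_norm h1 h2).of_norm
  rw [(hF τ).tsum_eq, (hG τ).tsum_eq] at h3
  have h5 := h4.hasSum
  rw [← h3] at h5
  refine hs_congr h5 fun m => ?_
  rw [PowerSeries.coeff_mul, Finset.sum_mul]
  refine Finset.sum_congr rfl fun x hx => ?_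
  rw [← Finset.HasAntidiagonal.mem_antidiagonal.1 hx, pow_add]
  ring

theorem Rep.unique {F : ℍ → ℂ} {f g : PowerSeries ℂ} (hf : Rep F f) (hg : Rep F g) : f = g := by
  ext m
  have h1 := ModularFormClass.qExpansion_coeff_unique (h := (1 : ℝ))
    (f := (0 : ModularForm 𝒮ℒ (0 : ℤ))) (c := fun m => f.coeff m - g.coeff m) one_pos
    one_mem_strictPeriods_SL (fun τ => by
      have := (hf τ).sub (hg τ)
      simpa [sub_mul] using this) m
  have h2 : qExpansion (1 : ℝ) ((0 : ModularForm 𝒮ℒ (0 : ℤ)) : ℍ → ℂ) = 0 := by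
    rw [FunLike.coe_zero]
    exact qExpansion_zero 1
  rw [h2] at h1
  simpa [sub_eq_zero] using h1

theorem rep_E2 : Rep E2 (toC P2) := fun τ => by
  have h := hasSum_qExpansion_E2 (z := τ)
  convert h using 2 with m
  have h1 : (toC P2).coeff m = if m = 0 then 1 else -24 * (ArithmeticFunction.sigma 1 m : ℂ) := by
    unfold toC P2 sg
    rw [PowerSeries.coeff_map, map_sub]
    have h24 : (24 : PowerSeries ℤ) = PowerSeries.C 24 := rfl
    rw [h24, PowerSeries.coeff_C_mul, PowerSeries.coeff_mk, PowerSeries.coeff_one]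
    split_ifs with h0
    · simp
    · simp
  rw [h1, smul_eq_mul]
  simp [qp, Function.Periodic.qParam]

theorem rep_E4 (h : StEis) : Rep (E₄ : ℍ → ℂ) (toC Q4) := fun τ => by
  have h1 := ModularForm.hasSum_qExpansion (h := 1) (f := E₄) one_pos one_mem_strictPeriods_SL τ
  rw [h.2.2.2.1] at h1
  exact h1

theorem rep_E6 (h : StEis) : Rep (E₆ : ℍ → ℂ) (toC R6) := fun τ => by
  have h1 := ModularForm.hasSum_qExpansion (h := 1) (f := E₆) one_pos one_mem_strictPeriods_SL τ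
  rw [h.2.2.2.2.1] at h1
  exact h1

theorem rep_D (h : StEis) : Rep discriminant (toC D12) := fun τ => by
  have h1 := ModularForm.hasSum_qExpansion (h := 1) (f := CuspForm.discriminant) one_pos
    one_mem_strictPeriods_SL τ
  have h2 : qExpansion 1 (CuspForm.discriminant : ℍ → ℂ) = toC D12 := h.2.2.2.2.2
  rw [h2] at h1
  exact h1

theorem toC_inj : Function.Injective toC :=
  PowerSeries.map_injective _ (RingHom.injective_int (Int.castRingHom ℂ))

/-- `τ ↦ 3 τ` -/
def thr (τ : ℍ) : ℍ := ⟨3 * (τ : ℂ), by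
  have : (3 * (τ : ℂ)).im = 3 * τ.im := by
    rw [Complex.mul_im]
    norm_num
  rw [this]
  exact mul_pos three_pos τ.im_pos⟩

theorem coe_thr (τ : ℍ) : ((thr τ : ℍ) : ℂ) = 3 * (τ : ℂ) := rfl

theorem qp_thr (τ : ℍ) : qp (thr τ) = qp τ ^ 3 := by
  rw [coe_thr]
  unfold qp Function.Periodic.qParam
  rw [← Complex.exp_nat_mul]
  congr 1
  push_cast
  ring

theorem coeff_Vq3 {R : Type*} [Semiring R] (g : PowerSeries R) (n : ℕ) :
    (Vq3 g).coeff n = if 3 ∣ n then g.coeff (n / 3) else 0 := PowerSeries.coeff_mk _ _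

theorem coeff_Vq3_three {R : Type*} [Semiring R] (g : PowerSeries R) (m : ℕ) :
    (Vq3 g).coeff (3 * m) = g.coeff m := by
  rw [coeff_Vq3, if_pos (dvd_mul_right 3 m), Nat.mul_div_cancel_left _ three_pos]

theorem Rep.V {F : ℍ → ℂ} {g : PowerSeries ℂ} (h : Rep F g) :
    Rep (fun τ => F (thr τ)) (Vq3 g) := fun τ => by
  have h1 := h (thr τ)
  have hinj : Function.Injective (fun n : ℕ => 3 * n) := fun a b hab => by
    have : 3 * a = 3 * b := hab
    omega
  rw [← hinj.hasSum_iff]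
  · refine hs_congr h1 fun m => ?_
    rw [qp_thr, ← pow_mul]
    show (Vq3 g).coeff (3 * m) * qp τ ^ (3 * m) = _
    rw [coeff_Vq3_three]
  · intro x hx
    have h3 : ¬ 3 ∣ x := fun he => by
      obtain ⟨r, hr⟩ := he
      exact hx ⟨r, hr.symm⟩
    have h2 : (Vq3 g).coeff x = 0 := by
      unfold Vq3
      rw [PowerSeries.coeff_mk, if_neg h3]
    rw [h2, zero_mul]

theorem toC_Vq3 (g : PowerSeries ℤ) : toC (Vq3 g) = Vq3 (toC g) := by
  ext n
  unfold toC Vq3
  rw [PowerSeries.coeff_map, PowerSeries.coeff_mk, PowerSeries.coeff_mk]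
  split_ifs
  · rw [PowerSeries.coeff_map]
  · rw [map_zero]

/-- the functions -/
def vals (τ : ℍ) : Fin 8 → ℂ :=
  ![discriminant τ, discriminant (thr τ), E₄ τ, E₄ (thr τ), E₆ τ, E₆ (thr τ), E2 τ, E2 (thr τ)]

/-- the power series -/
def sers : Fin 8 → PowerSeries ℤ :=
  ![D12, Vq3 D12, Q4, Vq3 Q4, R6, Vq3 R6, P2, Vq3 P2]

theorem rep_gen (h : StEis) (i : Fin 8) : Rep (fun τ => vals τ i) (toC (sers i)) := by
  have rD := rep_D h
  have r4 := rep_E4 h
  have r6 := rep_E6 h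
  have r2 := rep_E2
  have vD := rD.V
  have v4 := r4.V
  have v6 := r6.V
  have v2 := r2.V
  rw [← toC_Vq3] at vD v4 v6 v2
  fin_cases i
  · exact rD
  · exact vD
  · exact r4
  · exact v4
  · exact r6
  · exact v6
  · exact r2
  · exact v2

theorem rep_aeval (h : StEis) (F : MvPolynomial (Fin 8) ℤ) :
    Rep (fun τ => MvPolynomial.aeval (vals τ) F) (toC (MvPolynomial.aeval sers F)) := by
  induction F using MvPolynomial.induction_on with
  | C a =>
    have h1 : toC (MvPolynomial.aeval sers (MvPolynomial.C a)) = PowerSeries.C (a : ℂ) := by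
      rw [MvPolynomial.aeval_C]
      have h2 : algebraMap ℤ (PowerSeries ℤ) a = PowerSeries.C a := rfl
      rw [h2, toC, PowerSeries.map_C]
      rfl
    have h3 : (fun τ : ℍ => MvPolynomial.aeval (vals τ) (MvPolynomial.C a)) =
        fun _ => (a : ℂ) := by
      funext τ
      rw [MvPolynomial.aeval_C]
      rfl
    rw [h1, h3]
    exact Rep.const _
  | add p q hp hq =>
    have h1 := hp.add hq
    rw [← map_add, ← map_add] at h1
    have h3 : (fun τ : ℍ => MvPolynomial.aeval (vals τ) (p + q)) =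
        fun τ => MvPolynomial.aeval (vals τ) p + MvPolynomial.aeval (vals τ) q := by
      funext τ
      rw [map_add]
    rw [h3]
    exact h1
  | mul_X p i hp =>
    have h1 := hp.mul (rep_gen h i)
    have h2 : toC (MvPolynomial.aeval sers (p * MvPolynomial.X i)) =
        toC (MvPolynomial.aeval sers p) * toC (sers i) := by
      rw [map_mul, MvPolynomial.aeval_X, toC, map_mul]
    have h3 : (fun τ : ℍ => MvPolynomial.aeval (vals τ) (p * MvPolynomial.X i)) =
        fun τ => MvPolynomial.aeval (vals τ) p * vals τ i := by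
      funext τ
      rw [map_mul, MvPolynomial.aeval_X]
    rw [h2, h3]
    exact h1

/-- a relation between the functions is a relation between the power series -/
theorem rel_of (h : StEis) (F : MvPolynomial (Fin 8) ℤ)
    (hF : ∀ τ, MvPolynomial.aeval (vals τ) F = 0) : MvPolynomial.aeval sers F = 0 := by
  apply toC_inj
  have h1 := rep_aeval h F
  have h3 : (fun τ : ℍ => MvPolynomial.aeval (vals τ) F) = fun _ => 0 := funext hF
  rw [h3] at h1
  have h2 := h1.unique (Rep.const 0)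
  rw [h2, map_zero, toC, map_zero]

/-- the relations between the functions -/
theorem rels (h1 : StLevel3) (h2 : StE2rel3) (D D' A B A' B' P P' : ℂ) (τ : ℍ)
    (hD : discriminant τ = D) (hD' : discriminant (thr τ) = D') (hA : E₄ τ = A)
    (hB : E₄ (thr τ) = B) (hA' : E₆ τ = A') (hB' : E₆ (thr τ) = B') (hP : E2 τ = P)
    (hP' : E2 (thr τ) = P') :
    9 * (81 * B - A) ^ 2 * D' - (A - B) ^ 2 * D = 0 ∧
    A ^ 3 * (81 * B - A) ^ 3 * (A - B) -
      3 * D * ((81 * B - A) + 9 * (A - B)) * ((81 * B - A) + 81 * (A - B)) ^ 3 = 0 ∧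
    B ^ 3 * (81 * B - A) * (A - B) ^ 3 -
      27 * D' * ((81 * B - A) + 9 * (A - B)) * ((81 * B - A) + (A - B)) ^ 3 = 0 ∧
    B' * ((81 * B - A) ^ 2 - 162 * (81 * B - A) * (A - B) - 2187 * (A - B) ^ 2) -
      A' * ((81 * B - A) ^ 2 + 6 * (81 * B - A) * (A - B) - 3 * (A - B) ^ 2) = 0 ∧
    2 * A' * ((81 * B - A) + 9 * (A - B)) * ((81 * B - A) + 81 * (A - B)) -
      (3 * P' - P) * A *
        ((81 * B - A) ^ 2 - 162 * (81 * B - A) * (A - B) - 2187 * (A - B) ^ 2) = 0 := by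
  obtain ⟨_, _, _, _, k1, k3, k4, k5, k6, _⟩ := h1 τ 1 (pos_tau τ)
  have k7 := h2 τ 1 (pos_tau τ)
  have e1 : (τ : ℂ) / (1 / 3) = thr τ := by
    rw [coe_thr]
    ring
  have a4 : e4 τ 1 = A := (LF_tau τ).trans hA
  have a6 : e6 τ 1 = A' := (LF_tau τ).trans hA'
  have aD : dl τ 1 = D := (LF_tau τ).trans hD
  have a2 : LF 2 E2 τ 1 = P := (LF_tau τ).trans hP
  have b4 : e4 τ (1 / 3) = 81 * B := by
    show ((1 / 3) ^ 4)⁻¹ * (E₄ : ℍ → ℂ) (ofComplex (τ / (1 / 3))) = _
    rw [e1, ofComplex_apply, hB]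
    norm_num
  have b6 : e6 τ (1 / 3) = 729 * B' := by
    show ((1 / 3) ^ 6)⁻¹ * (E₆ : ℍ → ℂ) (ofComplex (τ / (1 / 3))) = _
    rw [e1, ofComplex_apply, hB']
    norm_num
  have bD : dl τ (1 / 3) = 3 ^ 12 * D' := by
    show ((1 / 3) ^ 12)⁻¹ * discriminant (ofComplex (τ / (1 / 3))) = _
    rw [e1, ofComplex_apply, hD']
    norm_num
  have b2 : LF 2 E2 τ (1 / 3) = 9 * P' := by
    show ((1 / 3) ^ 2)⁻¹ * E2 (ofComplex (τ / (1 / 3))) = _
    rw [e1, ofComplex_apply, hP']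
    norm_num
  have he : ee3 τ 1 = 3 * P' - P := by
    unfold ee3
    rw [a2, b2]
    ring
  rw [aD, bD] at k1
  rw [a4, aD] at k3
  rw [b4, bD] at k4
  rw [b4, a4] at k5
  rw [b6, a6] at k6
  rw [a6, a4, he] at k7
  clear hD hD' hA hB hA' hB' hP hP' a4 a6 aD a2 b4 b6 bD b2 he
  generalize XX3 τ 1 = x at *
  obtain ⟨v, hv⟩ : ∃ v, v = A - B := ⟨_, rfl⟩
  have f1 : A = v * (x + 243) / 240 := by
    rw [hv]
    linear_combination (1 / 19440 : ℂ) * k5
  have f2 : B = v * (x + 3) / 240 := by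
    rw [hv]
    linear_combination (1 / 19440 : ℂ) * k5
  clear hv k5
  subst f1 f2
  refine ⟨?_, ?_, ?_, ?_, ?_⟩
  · linear_combination (v ^ 2 / 531441 : ℂ) * k1
  · linear_combination (v ^ 4 / 27 : ℂ) * k3
  · linear_combination (v ^ 4 / 1594323 : ℂ) * k4
  · linear_combination (v ^ 2 / 6561 : ℂ) * k6
  · linear_combination (v ^ 2 / 9 : ℂ) * k7

end Qrel3Aux

open Qrel3Aux in
/-- (R4) the level 3 relations for power series -/
theorem stQrel3 (h1 : StEis) (h2 : StLevel3) (h3 : StE2rel3) : StQrel3 := by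
  have hval : ∀ τ : ℍ, vals τ 0 = discriminant τ ∧ vals τ 1 = discriminant (thr τ) ∧
      vals τ 2 = E₄ τ ∧ vals τ 3 = E₄ (thr τ) ∧ vals τ 4 = E₆ τ ∧ vals τ 5 = E₆ (thr τ) ∧
      vals τ 6 = E2 τ ∧ vals τ 7 = E2 (thr τ) := fun τ =>
    ⟨rfl, rfl, rfl, rfl, rfl, rfl, rfl, rfl⟩
  have hR := fun τ : ℍ => rels h2 h3 (vals τ 0) (vals τ 1) (vals τ 2) (vals τ 3) (vals τ 4)
    (vals τ 5) (vals τ 6) (vals τ 7) τ (hval τ).1.symm (hval τ).2.1.symm (hval τ).2.2.1.symm
    (hval τ).2.2.2.1.symm (hval τ).2.2.2.2.1.symm (hval τ).2.2.2.2.2.1.symm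
    (hval τ).2.2.2.2.2.2.1.symm (hval τ).2.2.2.2.2.2.2.symm
  have s1 := rel_of h1 (9 * (81 * MvPolynomial.X 3 - MvPolynomial.X 2) ^ 2 * MvPolynomial.X 1 -
    (MvPolynomial.X 2 - MvPolynomial.X 3) ^ 2 * MvPolynomial.X 0) fun τ => by
      simpa using (hR τ).1
  have s2 := rel_of h1 (MvPolynomial.X 2 ^ 3 * (81 * MvPolynomial.X 3 - MvPolynomial.X 2) ^ 3 *
    (MvPolynomial.X 2 - MvPolynomial.X 3) - 3 * MvPolynomial.X 0 *
      ((81 * MvPolynomial.X 3 - MvPolynomial.X 2) +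
        9 * (MvPolynomial.X 2 - MvPolynomial.X 3)) *
      ((81 * MvPolynomial.X 3 - MvPolynomial.X 2) +
        81 * (MvPolynomial.X 2 - MvPolynomial.X 3)) ^ 3) fun τ => by
      simpa using (hR τ).2.1
  have s3 := rel_of h1 (MvPolynomial.X 3 ^ 3 * (81 * MvPolynomial.X 3 - MvPolynomial.X 2) *
    (MvPolynomial.X 2 - MvPolynomial.X 3) ^ 3 - 27 * MvPolynomial.X 1 *
      ((81 * MvPolynomial.X 3 - MvPolynomial.X 2) +
        9 * (MvPolynomial.X 2 - MvPolynomial.X 3)) *
      ((81 * MvPolynomial.X 3 - MvPolynomial.X 2) +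
        (MvPolynomial.X 2 - MvPolynomial.X 3)) ^ 3) fun τ => by
      simpa using (hR τ).2.2.1
  have s4 := rel_of h1 (MvPolynomial.X 5 * ((81 * MvPolynomial.X 3 - MvPolynomial.X 2) ^ 2 -
      162 * (81 * MvPolynomial.X 3 - MvPolynomial.X 2) *
        (MvPolynomial.X 2 - MvPolynomial.X 3) -
      2187 * (MvPolynomial.X 2 - MvPolynomial.X 3) ^ 2) -
    MvPolynomial.X 4 * ((81 * MvPolynomial.X 3 - MvPolynomial.X 2) ^ 2 +
      6 * (81 * MvPolynomial.X 3 - MvPolynomial.X 2) *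
        (MvPolynomial.X 2 - MvPolynomial.X 3) -
      3 * (MvPolynomial.X 2 - MvPolynomial.X 3) ^ 2)) fun τ => by
      simpa using (hR τ).2.2.2.1
  have s5 := rel_of h1 (2 * MvPolynomial.X 4 *
      ((81 * MvPolynomial.X 3 - MvPolynomial.X 2) +
        9 * (MvPolynomial.X 2 - MvPolynomial.X 3)) *
      ((81 * MvPolynomial.X 3 - MvPolynomial.X 2) +
        81 * (MvPolynomial.X 2 - MvPolynomial.X 3)) -
    (3 * MvPolynomial.X 7 - MvPolynomial.X 6) * MvPolynomial.X 2 *
      ((81 * MvPolynomial.X 3 - MvPolynomial.X 2) ^ 2 -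
      162 * (81 * MvPolynomial.X 3 - MvPolynomial.X 2) *
        (MvPolynomial.X 2 - MvPolynomial.X 3) -
      2187 * (MvPolynomial.X 2 - MvPolynomial.X 3) ^ 2)) fun τ => by
      simpa using (hR τ).2.2.2.2
  have c0 : sers 0 = D12 := rfl
  have c1 : sers 1 = Vq3 D12 := rfl
  have c2 : sers 2 = Q4 := rfl
  have c3 : sers 3 = Vq3 Q4 := rfl
  have c4 : sers 4 = R6 := rfl
  have c5 : sers 5 = Vq3 R6 := rfl
  have c6 : sers 6 = P2 := rfl
  have c7 : sers 7 = Vq3 P2 := rfl
  simp only [map_sub, map_mul, map_add, map_pow, map_ofNat, MvPolynomial.aeval_X, c0, c1, c2, c3,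
    c4, c5, c6, c7] at s1 s2 s3 s4 s5
  have hVQ : Vq3 Q4 = 1 + 240 * Vq3 (sg 3) := by
    have h240 : (240 : PowerSeries ℤ) = PowerSeries.C 240 := rfl
    ext n
    rw [Q4, h240, coeff_Vq3, map_add, map_add, PowerSeries.coeff_C_mul, PowerSeries.coeff_C_mul,
      PowerSeries.coeff_one, PowerSeries.coeff_one, coeff_Vq3]
    by_cases h : 3 ∣ n
    · have h4 : n / 3 = 0 ↔ n = 0 := by omega
      rw [if_pos h, if_pos h]
      by_cases h5 : n = 0
      · rw [if_pos (h4.2 h5), if_pos h5]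
      · rw [if_neg (fun h6 => h5 (h4.1 h6)), if_neg h5]
    · have h4 : n ≠ 0 := by
        rintro rfl
        exact h (dvd_zero 3)
      rw [if_neg h, if_neg h, if_neg h4]
      simp
  have hQ : Q4 = 1 + 240 * sg 3 := rfl
  have hS0 : PowerSeries.constantCoeff (sg 3) = 0 := by
    rw [← PowerSeries.coeff_zero_eq_constantCoeff_apply, sg, PowerSeries.coeff_mk, if_pos rfl]
  have hS1 : PowerSeries.constantCoeff (Vq3 (sg 3)) = 0 := by
    have h4 := coeff_Vq3_three (sg 3) 0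
    rw [mul_zero, PowerSeries.coeff_zero_eq_constantCoeff_apply,
      PowerSeries.coeff_zero_eq_constantCoeff_apply, hS0] at h4
    exact h4
  unfold StQrel3
  generalize Vq3 (sg 3) = S' at *
  generalize sg 3 = S at *
  generalize Vq3 D12 = D' at *
  generalize Vq3 R6 = R' at *
  generalize Vq3 P2 = P' at *
  generalize Vq3 Q4 = B at *
  generalize Q4 = A at *
  obtain ⟨U, hU⟩ : ∃ U : PowerSeries ℤ, U = 1 - 3 * S + 243 * S' := ⟨_, rfl⟩
  obtain ⟨V, hV⟩ : ∃ V : PowerSeries ℤ, V = S - S' := ⟨_, rfl⟩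
  have hunit : IsUnit U := by
    rw [PowerSeries.isUnit_iff_constantCoeff, hU]
    have h4 : PowerSeries.constantCoeff (1 - 3 * S + 243 * S' : PowerSeries ℤ) = 1 := by
      rw [map_add, map_sub, map_mul, map_mul, hS0, hS1]
      simp
    rw [h4]
    exact isUnit_one
  obtain ⟨w, hw⟩ := hunit.exists_right_inv
  have hU0 : U ≠ 0 := hunit.ne_zero
  have hA : A = U + 243 * V := by
    rw [hU, hV, hQ]
    ring
  have hB : B = U + 3 * V := by
    rw [hU, hV, hVQ]
    ring
  clear hU hV hQ hVQ hS0 hS1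
  subst hA hB
  obtain ⟨y, hy⟩ : ∃ y, V = y * U := ⟨V * w, by linear_combination (-V) * hw⟩
  subst hy
  have hne : ∀ (c : ℕ) (n : ℕ), c ≠ 0 → (c : PowerSeries ℤ) * U ^ n ≠ 0 := by
    intro c n hc
    refine mul_ne_zero (fun h4 => ?_) (pow_ne_zero n hU0)
    have h5 := congrArg PowerSeries.constantCoeff h4
    rw [map_natCast, map_zero] at h5
    exact hc (by exact_mod_cast h5)
  refine ⟨y, ?_, ?_, ?_, ?_, ?_, ?_⟩
  · apply mul_left_cancel₀ (hne 57600 2 (by norm_num))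
    push_cast
    linear_combination (-1 : PowerSeries ℤ) * s1
  · apply mul_left_cancel₀ (hne (80 ^ 4 * 3) 4 (by norm_num))
    push_cast
    linear_combination (-1 : PowerSeries ℤ) * s2
  · apply mul_left_cancel₀ (hne (80 ^ 4 * 27) 4 (by norm_num))
    push_cast
    linear_combination (-1 : PowerSeries ℤ) * s3
  · ring
  · apply mul_left_cancel₀ (hne 6400 2 (by norm_num))
    push_cast
    linear_combination s4
  · apply mul_left_cancel₀ (hne 6400 2 (by norm_num))
    push_cast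
    linear_combination s5

end

end Pool.Agent.Lib.MP_7c08ba_nt.RZC3
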