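import Pool.Agent.Lib.MP_7c08ba_nt.RZ.Basic3

set_option autoImplicit false

/-! (G3) the sum over the sublattices of prime index of the hexagonal lattice. -/

namespace Pool.Agent.Lib.MP_7c08ba_nt.RZC3

open UpperHalfPlane ModularForm EisensteinSeries MatrixGroups NumberField RZC
open scoped Real Manifold ComplexConjugate

noncomputable section

namespace RhoPAux

variable {A : ValuationSubring ℂ}

theorem rho_cast (h2 : StRho) (A : ValuationSubring ℂ) (m K : ℕ) (hm : m = 12 * K)
    (g : ModularForm 𝒮ℒ (m : ℤ)) (hg : ∀ n, cf g n ∈ A) :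
    LF m g rho 1 / dl rho 1 ^ K ∈ A := by
  subst hm
  exact h2.2.2.2 A A.toSubring.toAddSubgroup (fun a ha z hz => A.mul_mem a z ha hz) K g hg

theorem sqrt3 : √3 * √3 = (3 : ℝ) := Real.mul_self_sqrt (by norm_num)

theorem sqrt3_pos : 0 < √(3 : ℝ) := Real.sqrt_pos.mpr (by norm_num)

theorem rho_sq : rho * rho = -1 - rho := by
  have h := sqrt3
  apply Complex.ext
  · simp only [rho, Complex.mul_re, Complex.sub_re, Complex.neg_re, Complex.one_re]
    linarith
  · simp only [rho, Complex.mul_im, Complex.sub_im, Complex.neg_im, Complex.one_im]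
    ring

theorem rho_cube : rho * (rho * rho) = 1 := by
  rw [rho_sq]
  linear_combination -rho_sq

theorem rho_ne : rho ≠ 0 := by
  intro h
  have h1 := congrArg Complex.re h
  simp only [rho, Complex.zero_re] at h1
  norm_num at h1

theorem pos_rho : Pos rho 1 := by
  unfold Pos
  rw [div_one]
  have h := sqrt3_pos
  simp only [rho]
  positivity

theorem indep (a b : ℤ) (h : (a : ℂ) * rho + b = 0) : a = 0 ∧ b = 0 := by
  have h1 := congrArg Complex.im h
  have h2 := congrArg Complex.re h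
  simp only [rho, Complex.add_im, Complex.mul_im, Complex.intCast_re, Complex.intCast_im,
    Complex.zero_im, zero_mul, add_zero] at h1
  have h3 := sqrt3_pos
  have ha : (a : ℝ) = 0 := by
    rcases mul_eq_zero.mp h1 with h4 | h4
    · exact h4
    · linarith
  have ha' : a = 0 := by exact_mod_cast ha
  subst ha'
  refine ⟨rfl, ?_⟩
  simp only [Int.cast_zero, zero_mul, zero_add] at h
  exact_mod_cast h

/-- the values are integral -/
theorem mem_A (h1 : StSymm3) (h2 : StRho) (hA : Above3 A) {p : ℕ} (hp : p.Prime) (hp2 : p ≠ 3)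
    (k : ℕ) (g : ModularForm 𝒮ℒ ((12 * k : ℕ) : ℤ)) (hg : ∀ n, cf g n ∈ A)
    (j : Option (Fin p)) :
    LFs (12 * k) g p rho 1 j / dl rho 1 ^ k ∈ A := by
  obtain ⟨e, he, _, hprod⟩ := h1 A hA p hp hp2 (12 * k) ⟨6 * k, by ring⟩ g hg
  obtain ⟨D, hD⟩ : ∃ D, D = dl rho 1 ^ k := ⟨_, rfl⟩
  have hD0 : D ≠ 0 := by rw [hD]; exact pow_ne_zero _ h2.2.1
  obtain ⟨a, ha⟩ : ∃ a : ℕ → ℂ, a = fun i => (-1) ^ i * LF (i * (12 * k)) (e i) rho 1 :=
    ⟨_, rfl⟩
  have hprod' : ∀ T : ℂ, ∏ i, (T - LFs (12 * k) g p rho 1 i) =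
      ∑ i ∈ Finset.range (p + 2), a i * T ^ (p + 1 - i) := by
    intro T
    rw [ha]
    exact hprod _ _ pos_rho T
  have hpoly : (∏ i, (Polynomial.X - Polynomial.C (LFs (12 * k) g p rho 1 i))) =
      ∑ i ∈ Finset.range (p + 2), Polynomial.C (a i) * Polynomial.X ^ (p + 1 - i) := by
    apply Polynomial.funext
    intro T
    rw [Polynomial.eval_prod, Polynomial.eval_finsetSum]
    simp only [Polynomial.eval_sub, Polynomial.eval_X, Polynomial.eval_C, Polynomial.eval_mul,
      Polynomial.eval_pow]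
    exact hprod' T
  have ha0 : a 0 = 1 := by
    have hcard : (Finset.univ : Finset (Option (Fin p))).card = p + 1 := by
      rw [Finset.card_univ, Fintype.card_option, Fintype.card_fin]
    have h3 := congrArg (fun P : Polynomial ℂ => P.coeff (p + 1)) hpoly
    simp only [Polynomial.finsetSum_coeff, Polynomial.coeff_C_mul_X_pow] at h3
    have h4 : (∏ i, (Polynomial.X - Polynomial.C (LFs (12 * k) g p rho 1 i))).coeff
        (p + 1) = 1 := by
      have h5 := Polynomial.monic_prod_of_monic (Finset.univ : Finset (Option (Fin p)))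
        (fun i => Polynomial.X - Polynomial.C (LFs (12 * k) g p rho 1 i))
        (fun i _ => Polynomial.monic_X_sub_C _)
      have h6 := Polynomial.natDegree_finsetProd_X_sub_C_eq_card
        (Finset.univ : Finset (Option (Fin p))) (fun i => LFs (12 * k) g p rho 1 i)
      rw [hcard] at h6
      rw [← h6]
      exact h5
    rw [h4, Finset.sum_eq_single 0] at h3
    · simpa using h3.symm
    · intro i hi hi0
      have := Finset.mem_range.mp hi
      rw [if_neg (by omega)]
    · intro h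
      exact absurd (Finset.mem_range.mpr (by omega)) h
  obtain ⟨T, hT⟩ : ∃ T, T = LFs (12 * k) g p rho 1 j := ⟨_, rfl⟩
  have hroot : ∑ i ∈ Finset.range (p + 2), a i * T ^ (p + 1 - i) = 0 := by
    rw [← hprod' T]
    exact Finset.prod_eq_zero (Finset.mem_univ j) (by rw [hT, sub_self])
  have hroot2 : T ^ (p + 1) + ∑ i ∈ Finset.range (p + 1), a (p + 1 - i) * T ^ i = 0 := by
    have h3 := Finset.sum_range_reflect (fun i => a (p + 1 - i) * T ^ i) (p + 2)
    have h4 : ∑ j ∈ Finset.range (p + 2), a (p + 1 - (p + 2 - 1 - j)) * T ^ (p + 2 - 1 - j) =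
        ∑ i ∈ Finset.range (p + 2), a i * T ^ (p + 1 - i) := by
      refine Finset.sum_congr rfl fun i hi => ?_
      have := Finset.mem_range.mp hi
      have h5 : p + 1 - (p + 2 - 1 - i) = i := by omega
      have h6 : p + 2 - 1 - i = p + 1 - i := by omega
      rw [h5, h6]
    rw [h4, hroot, Finset.sum_range_succ, Nat.sub_self, ha0, one_mul] at h3
    rw [add_comm]
    exact h3.symm
  rw [← hT, ← hD]
  refine mem_of_root (n := p + 1) (c := fun i => a (p + 1 - i) / D ^ (p + 1 - i)) ?_ ?_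
  · intro i _
    obtain ⟨m, hm⟩ : ∃ m, m = p + 1 - i := ⟨_, rfl⟩
    simp only [← hm]
    rw [ha, hD]
    simp only
    have h3 : (-1 : ℂ) ^ m * LF (m * (12 * k)) (e m) rho 1 / (dl rho 1 ^ k) ^ m =
        ((-1 : ℤ) ^ m : ℤ) * (LF (m * (12 * k)) (e m) rho 1 /
          dl rho 1 ^ (m * k)) := by
      push_cast
      rw [← pow_mul, mul_comm k m, mul_div_assoc]
    rw [h3]
    exact A.mul_mem _ _ (int_mem _) (rho_cast h2 A _ _ (by ring) (e m) (he m))
  · have h3 : (T / D) ^ (p + 1) + ∑ i ∈ Finset.range (p + 1),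
        a (p + 1 - i) / D ^ (p + 1 - i) * (T / D) ^ i =
        (T ^ (p + 1) + ∑ i ∈ Finset.range (p + 1), a (p + 1 - i) * T ^ i) / D ^ (p + 1) := by
      rw [add_div, div_pow, Finset.sum_div]
      congr 1
      refine Finset.sum_congr rfl fun i hi => ?_
      have := Finset.mem_range.mp hi
      have h5 : D ^ (p + 1) = D ^ (p + 1 - i) * D ^ i := by
        rw [← pow_add]
        congr 1
        omega
      rw [h5, div_pow]
      field_simp
    rw [h3, hroot2, zero_div]

/-! ### lattices -/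

theorem lat_le {w₁ w₂ v₁ v₂ : ℂ} (h1 : w₁ ∈ lat v₁ v₂) (h2 : w₂ ∈ lat v₁ v₂) :
    lat w₁ w₂ ≤ lat v₁ v₂ := by
  unfold lat at *
  rw [Submodule.span_le]
  intro z hz
  rcases hz with h | h
  · rw [h]; exact h1
  · rw [Set.mem_singleton_iff.mp h]; exact h2

theorem rot_lat : lat rho 1 = lat (rho * rho) (rho * 1) := by
  have h := rho_sq
  apply le_antisymm
  · apply lat_le
    · rw [mem_lat]
      exact ⟨0, 1, by push_cast; ring⟩
    · rw [mem_lat]
      exact ⟨-1, -1, by push_cast; linear_combination -h⟩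
  · apply lat_le
    · rw [mem_lat]
      exact ⟨-1, -1, by push_cast; linear_combination -h⟩
    · rw [mem_lat]
      exact ⟨1, 0, by push_cast; ring⟩

theorem sub_rot (p : ℕ) (i : Option (Fin p)) :
    sub p (rho * rho) (rho * 1) i = (rho * (sub p rho 1 i).1, rho * (sub p rho 1 i).2) := by
  rcases i with _ | b
  · simp only [sub]
    congr 1
    ring
  · simp only [sub]
    congr 1 <;> ring

theorem cube_lat (a : ℂ) : rho * (rho * (rho * a)) = a := by
  linear_combination a * rho_cube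

theorem ideal_lat (p : ℕ) (hp : p ≠ 0) (c a b u v : ℤ) (hab : a ^ 2 - a * b + b ^ 2 = p)
    (hu : -b - c * (a - b) = p * u) (hv : a - c * b = p * v) :
    lat (((a : ℂ) + b * rho) * rho) (((a : ℂ) + b * rho) * 1) = lat (rho + (c : ℂ)) p := by
  have hI := rho_sq
  have hp0 : (p : ℤ) ≠ 0 := by exact_mod_cast hp
  have h1 : v * (a - b) - u * b = 1 := by
    apply mul_left_cancel₀ hp0
    linear_combination (-(a - b)) * hv + b * hu + hab
  have h2 : -(b * v) - u * a = c := by
    apply mul_left_cancel₀ hp0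
    linear_combination b * hv + a * hu + c * hab
  have hab' : (a : ℂ) ^ 2 - a * b + b ^ 2 = p := by exact_mod_cast hab
  have hu' : -(b : ℂ) - c * (a - b) = p * u := by exact_mod_cast hu
  have hv' : (a : ℂ) - c * b = p * v := by exact_mod_cast hv
  have h1' : (v : ℂ) * (a - b) - u * b = 1 := by exact_mod_cast h1
  have h2' : -((b : ℂ) * v) - u * a = c := by exact_mod_cast h2
  apply le_antisymm
  · apply lat_le
    · rw [mem_lat]
      exact ⟨a - b, u, by push_cast; linear_combination -hu' - (b : ℂ) * hI⟩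
    · rw [mem_lat]
      exact ⟨b, v, by push_cast; linear_combination -hv'⟩
  · apply lat_le
    · rw [mem_lat]
      exact ⟨v, -u, by push_cast; linear_combination rho * h1' + h2' + (b * v : ℂ) * hI⟩
    · rw [mem_lat]
      exact ⟨-b, a - b, by push_cast; linear_combination hab' - (b : ℂ) ^ 2 * hI⟩

/-! ### norms -/

theorem even_of_even (a b : ℤ) (h : (2 : ℤ) ∣ a ^ 2 - a * b + b ^ 2) : (2 : ℤ) ∣ a ∧ (2 : ℤ) ∣ b := by
  have ha := Int.emod_two_eq_zero_or_one a
  have hb := Int.emod_two_eq_zero_or_one b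
  rcases ha with ha | ha <;> rcases hb with hb | hb
  · exact ⟨Int.dvd_of_emod_eq_zero ha, Int.dvd_of_emod_eq_zero hb⟩
  · exfalso
    obtain ⟨x, hx⟩ := Int.dvd_of_emod_eq_zero ha
    obtain ⟨y, hy⟩ : ∃ y, b = 2 * y + 1 := ⟨b / 2, by omega⟩
    obtain ⟨z, hz⟩ := h
    rw [hx, hy] at hz
    have : (2 : ℤ) * (2 * x ^ 2 - x * (2 * y + 1) + 2 * y ^ 2 + 2 * y) + 1 = 2 * z := by
      linear_combination hz
    omega
  · exfalso
    obtain ⟨x, hx⟩ := Int.dvd_of_emod_eq_zero hb
    obtain ⟨y, hy⟩ : ∃ y, a = 2 * y + 1 := ⟨a / 2, by omega⟩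
    obtain ⟨z, hz⟩ := h
    rw [hx, hy] at hz
    have : (2 : ℤ) * (2 * x ^ 2 - x * (2 * y + 1) + 2 * y ^ 2 + 2 * y) + 1 = 2 * z := by
      linear_combination hz
    omega
  · exfalso
    obtain ⟨x, hx⟩ : ∃ x, a = 2 * x + 1 := ⟨a / 2, by omega⟩
    obtain ⟨y, hy⟩ : ∃ y, b = 2 * y + 1 := ⟨b / 2, by omega⟩
    obtain ⟨z, hz⟩ := h
    rw [hx, hy] at hz
    have : (2 : ℤ) * (2 * x ^ 2 + x + 2 * y ^ 2 + y - 2 * x * y) + 1 = 2 * z := by
      linear_combination hz
    omega

theorem exists_norm (p : ℕ) (hp : p.Prime) (c : ℤ) (hc : (p : ℤ) ∣ c ^ 2 - c + 1) :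
    ∃ a b : ℤ, a ^ 2 - a * b + b ^ 2 = p ∧ (p : ℤ) ∣ a - c * b := by
  have : Fact p.Prime := ⟨hp⟩
  obtain ⟨s, hs⟩ : ∃ s, s = Nat.sqrt p := ⟨_, rfl⟩
  have hs1 : s * s ≤ p := by rw [hs]; exact Nat.sqrt_le p
  have hs2 : p < (s + 1) * (s + 1) := by rw [hs]; exact Nat.lt_succ_sqrt p
  have hs3 : s * s ≠ p := by
    intro h
    have h6 := hp
    rw [← h] at h6
    rcases eq_or_ne s 1 with h7 | h7
    · rw [h7] at h6
      exact Nat.not_prime_one (by simpa using h6)
    · exact Nat.not_prime_mul h7 h7 h6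
  have hcard : Fintype.card (ZMod p) < Fintype.card (Fin (s + 1) × Fin (s + 1)) := by
    rw [ZMod.card, Fintype.card_prod, Fintype.card_fin]
    exact hs2
  obtain ⟨x, y, hxy, hf⟩ := Fintype.exists_ne_map_eq_of_card_lt
    (fun t : Fin (s + 1) × Fin (s + 1) => (((t.1 : ℕ) : ZMod p) - (c : ZMod p) * ((t.2 : ℕ) : ZMod p)))
    hcard
  obtain ⟨a, ha⟩ : ∃ a : ℤ, a = (x.1 : ℕ) - (y.1 : ℕ) := ⟨_, rfl⟩
  obtain ⟨b, hb⟩ : ∃ b : ℤ, b = (x.2 : ℕ) - (y.2 : ℕ) := ⟨_, rfl⟩
  have hdvd : (p : ℤ) ∣ a - c * b := by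
    rw [← ZMod.intCast_zmod_eq_zero_iff_dvd, ha, hb]
    push_cast
    linear_combination hf
  have hx1 := x.1.2
  have hx2 := x.2.2
  have hy1 := y.1.2
  have hy2 := y.2.2
  have ha1 : |a| ≤ s := by rw [abs_le]; constructor <;> omega
  have hb1 : |b| ≤ s := by rw [abs_le]; constructor <;> omega
  have hne : a ≠ 0 ∨ b ≠ 0 := by
    by_contra h
    push Not at h
    apply hxy
    apply Prod.ext <;> apply Fin.ext
    · omega
    · omega
  have hsp : (s : ℤ) ^ 2 < p := by
    have : s * s < p := lt_of_le_of_ne hs1 hs3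
    have h5 : ((s * s : ℕ) : ℤ) < p := by exact_mod_cast this
    push_cast at h5
    nlinarith
  have ha2 : a ^ 2 ≤ (s : ℤ) ^ 2 := by
    rw [← sq_abs a]
    exact pow_le_pow_left₀ (abs_nonneg a) ha1 2
  have hb2 : b ^ 2 ≤ (s : ℤ) ^ 2 := by
    rw [← sq_abs b]
    exact pow_le_pow_left₀ (abs_nonneg b) hb1 2
  obtain ⟨q, hq⟩ : ∃ q : ℤ, q = a ^ 2 - a * b + b ^ 2 := ⟨_, rfl⟩
  have hq0 : 0 < q := by
    rw [hq]
    rcases hne with h | h
    · have : 0 < a ^ 2 := by positivity
      nlinarith [sq_nonneg (a - 2 * b)]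
    · have : 0 < b ^ 2 := by positivity
      nlinarith [sq_nonneg (2 * a - b)]
  have hq3 : q < 3 * p := by
    rw [hq]
    nlinarith [sq_nonneg (a + b)]
  have hqd : (p : ℤ) ∣ q := by
    have : q = (a - c * b) * (a + c * b - b) + b ^ 2 * (c ^ 2 - c + 1) := by rw [hq]; ring
    rw [this]
    exact dvd_add (dvd_mul_of_dvd_left hdvd _) (dvd_mul_of_dvd_right hc _)
  obtain ⟨t, ht⟩ := hqd
  have hp1 : (0 : ℤ) < p := by exact_mod_cast hp.pos
  have ht0 : 0 < t := by
    by_contra h
    push Not at h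
    have : (p : ℤ) * t ≤ 0 := mul_nonpos_of_nonneg_of_nonpos hp1.le h
    omega
  have ht3 : t < 3 := by
    by_contra h
    push Not at h
    have : (p : ℤ) * 3 ≤ p * t := mul_le_mul_of_nonneg_left h hp1.le
    omega
  have ht' : t = 1 ∨ t = 2 := by omega
  rcases ht' with rfl | rfl
  · exact ⟨a, b, by rw [← hq, ht, mul_one], hdvd⟩
  · exfalso
    have h2 : (2 : ℤ) ∣ a ^ 2 - a * b + b ^ 2 := ⟨p, by rw [← hq, ht, mul_comm]⟩
    obtain ⟨⟨a', ha'⟩, ⟨b', hb'⟩⟩ := even_of_even a b h2
    have h3 : (p : ℤ) = 2 * (a' ^ 2 - a' * b' + b' ^ 2) := by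
      have h4 : 2 * (p : ℤ) = 2 * (2 * (a' ^ 2 - a' * b' + b' ^ 2)) := by
        have h5 : q = p * 2 := ht
        rw [hq, ha', hb'] at h5
        linear_combination -h5
      omega
    have h6 : 2 ∣ p := by
      have : (2 : ℤ) ∣ p := ⟨_, h3⟩
      exact_mod_cast this
    have h7 : p = 2 := ((Nat.prime_dvd_prime_iff_eq Nat.prime_two hp).1 h6).symm
    subst h7
    have h8 := Int.even_mul_pred_self c
    obtain ⟨m, hm⟩ := h8
    obtain ⟨l, hl⟩ := hc
    have h9 : c ^ 2 - c + 1 = m + m + 1 := by rw [← hm]; ring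
    rw [h9] at hl
    push_cast at hl
    omega

/-! ### sums in characteristic three -/

theorem sum_zero {κ : Type*} [Field κ] (h3 : (3 : κ) = 0) {ι : Type*} [Fintype ι] [DecidableEq ι]
    (σ : Equiv.Perm ι) (hσ : ∀ i, σ (σ (σ i)) = i) (r : ι → κ) (hr : ∀ i, r (σ i) = r i)
    (hf : ∀ i, σ i = i → r i = 0) : ∑ i, r i = 0 := by
  classical
  have h1 := Finset.sum_comp (s := (Finset.univ : Finset ι)) (fun b : κ => b) r
  rw [h1]
  refine Finset.sum_eq_zero fun b _ => ?_
  by_cases hb : b = 0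
  · rw [hb, smul_zero]
  have h2 : 3 ∣ Fintype.card {a : ι // r a = b} := by
    by_contra hcon
    have hpr : ∀ x, r (σ x) = b ↔ r x = b := fun x => by rw [hr]
    obtain ⟨a, ha⟩ := Equiv.Perm.exists_fixed_point_of_prime (p := 3) (n := 1) hcon
      (σ := σ.subtypePerm hpr) (by
        apply Equiv.ext
        intro x
        apply Subtype.ext
        rw [pow_one, pow_succ, pow_two]
        simp only [Equiv.Perm.coe_mul, Function.comp_apply, Equiv.Perm.subtypePerm_apply,
          Equiv.Perm.coe_one, id_eq]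
        exact hσ x)
    have h5 := hf a (congrArg Subtype.val ha)
    rw [a.2] at h5
    exact hb h5
  rw [Fintype.card_subtype] at h2
  obtain ⟨m, hm⟩ := h2
  rw [hm, nsmul_eq_mul]
  push_cast
  rw [h3, zero_mul, zero_mul]

end RhoPAux

open RhoPAux in
theorem stRhoP (h1 : StSymm3) (h2 : StRho) (h3 : StSub) (h4 : StLat) (h5 : StPerm) : StRhoP := by
  intro A hA p hp hp3 k g hg
  have : Fact p.Prime := ⟨hp⟩
  have hp0 : p ≠ 0 := hp.ne_zero
  obtain ⟨D, hD⟩ : ∃ D, D = dl rho 1 ^ k := ⟨_, rfl⟩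
  have hx := mem_A h1 h2 hA hp hp3 k g hg
  obtain ⟨hpos', hinj, -⟩ := h3 p hp rho 1 pos_rho
  have hpos := fun i => (hpos' i).1
  have hy := rho_cast h2 A (12 * k) k rfl g hg
  rw [← hD] at hx hy ⊢
  have hr12 : rho ^ (12 * k) = 1 := by
    have h6 : rho ^ 12 = 1 := by
      have h7 : rho ^ 12 = (rho * (rho * rho)) ^ 4 := by ring
      rw [h7, rho_cube, one_pow]
    rw [pow_mul, h6, one_pow]
  -- the permutation
  obtain ⟨σ, hσ⟩ := h5 p hp rho 1 (rho * rho) (rho * 1) pos_rho
    ((pos_smul rho_ne).mpr pos_rho) rot_lat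
  have hσ' : ∀ i, lat (rho * (sub p rho 1 (σ i)).1) (rho * (sub p rho 1 (σ i)).2) =
      lat (sub p rho 1 i).1 (sub p rho 1 i).2 := by
    intro i
    have := hσ i
    rw [sub_rot] at this
    exact this
  have hσ3 : ∀ i, σ (σ (σ i)) = i := by
    intro i
    apply hinj
    simp only
    have e1 := hσ' (σ (σ i))
    have e2 := lat_smul rho_ne e1
    rw [hσ' (σ i)] at e2
    have e3 := lat_smul rho_ne e2
    rw [hσ' i, cube_lat, cube_lat] at e3
    exact e3
  have hxσ : ∀ i, LFs (12 * k) g p rho 1 (σ i) = LFs (12 * k) g p rho 1 i := by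
    intro i
    have e1 := h4 (12 * k) g _ _ _ _ ((pos_smul rho_ne).mpr (hpos (σ i))) (hpos i) (hσ' i)
    rw [LF_smul rho_ne, hr12, inv_one, one_mul] at e1
    exact e1
  -- `rho = 1` modulo the maximal ideal
  have hrA : rho ∈ A := rootOfUnity_mem (n := 3) (by norm_num) (by
    have : rho ^ 3 = rho * (rho * rho) := by ring
    rw [this, rho_cube])
  have hr1 : rho - 1 ∈ A.nonunits := by
    have h6 : (rho - 1) ^ 2 ∈ A.nonunits := by
      have h7 : (rho - 1) ^ 2 = (-rho) * 3 := by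
        linear_combination rho_sq
      rw [h7]
      exact nonunits_mul_left (A.neg_mem _ hrA) hA
    exact nonunits_of_pow h6
  -- fixed points
  have hfix : ∀ i, σ i = i → LFs (12 * k) g p rho 1 i / D - LF (12 * k) g rho 1 / D ∈
      A.nonunits := by
    intro i hi
    have e1 := hσ' i
    rw [hi] at e1
    rcases i with _ | b
    · exfalso
      have e2 : rho * (1 : ℂ) ∈ lat (rho * ((p : ℂ) * rho)) (rho * 1) := by
        rw [mem_lat]
        exact ⟨0, 1, by push_cast; ring⟩
      have e1' : lat (rho * ((p : ℂ) * rho)) (rho * 1) = lat ((p : ℂ) * rho) 1 := e1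
      rw [e1', mem_lat] at e2
      obtain ⟨m, n, hmn⟩ := e2
      have e3 := (indep (m * p - 1) n (by push_cast; linear_combination hmn)).1
      have e4 : (p : ℤ) ∣ 1 := ⟨m, by linear_combination -e3⟩
      have e5 := Int.eq_one_of_dvd_one (by positivity) e4
      exact hp.one_lt.ne' (by exact_mod_cast e5)
    · obtain ⟨c, hc⟩ : ∃ c : ℤ, c = ((b : ℕ) : ℤ) := ⟨_, rfl⟩
      have hsub : sub p rho 1 (some b) = (rho + (c : ℂ), (p : ℂ)) := by
        simp only [sub, hc]
        push_cast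
        rw [mul_one, mul_one]
      have hposc : Pos (rho + (c : ℂ)) p := by
        have := hpos (some b)
        rw [hsub] at this
        exact this
      have hval : LFs (12 * k) g p rho 1 (some b) = LF (12 * k) g (rho + (c : ℂ)) p := by
        unfold LFs
        rw [hsub]
      rw [hsub] at e1
      have e2 : rho * (rho + (c : ℂ)) ∈ lat (rho * (rho + (c : ℂ))) (rho * p) := by
        rw [mem_lat]
        exact ⟨1, 0, by push_cast; ring⟩
      simp only at e1
      rw [e1, mem_lat] at e2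
      obtain ⟨m, n, hmn⟩ := e2
      obtain ⟨e3, e4⟩ := indep (m - (c - 1)) (m * c + n * p + 1) (by
        push_cast
        linear_combination hmn + rho_sq)
      have hdvd : (p : ℤ) ∣ c ^ 2 - c + 1 := by
        refine ⟨-n, ?_⟩
        linear_combination e4 - c * e3
      obtain ⟨a, b', hab, hdv⟩ := exists_norm p hp c hdvd
      obtain ⟨v, hv⟩ := hdv
      have hdu : (p : ℤ) ∣ -b' - c * (a - b') := by
        have : -b' - c * (a - b') = -(c * (a - c * b')) - b' * (c ^ 2 - c + 1) := by ring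
        rw [this, hv]
        exact dvd_sub (dvd_neg.mpr (dvd_mul_of_dvd_right (dvd_mul_right _ _) _))
          (dvd_mul_of_dvd_right hdvd _)
      obtain ⟨u, hu⟩ := hdu
      have hl := ideal_lat p hp0 c a b' u v hab hu hv
      obtain ⟨al, hal⟩ : ∃ al : ℂ, al = ((a : ℂ) + b' * rho) := ⟨_, rfl⟩
      rw [← hal] at hl
      obtain ⟨s, hs⟩ : ∃ s : ℤ, s = a + b' := ⟨_, rfl⟩
      have hs3 : ¬ (3 : ℤ) ∣ s := by
        rintro ⟨t, ht⟩
        have h7 : (3 : ℤ) ∣ p := by
          refine ⟨3 * t ^ 2 - a * b', ?_⟩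
          rw [← hab]
          have : a = 3 * t - b' := by omega
          rw [this]
          ring
        exact prime_not_three_dvd hp hp3 (by exact_mod_cast h7)
      have hsu := not_three_dvd_unit hA hs3
      have hs0 : (s : ℂ) ≠ 0 := by
        intro h
        apply hsu.1
        rw [h]
        exact zero_nonunits
      have hal1 : al / s - 1 ∈ A.nonunits := by
        have h7 : al / s - 1 = (b' : ℂ) * (rho - 1) * (s : ℂ)⁻¹ := by
          rw [hal]
          field_simp
          rw [hs]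
          push_cast
          ring
        rw [h7]
        exact nonunits_mul_right (nonunits_mul_left (int_mem _) hr1) hsu.2
      have hal0 : al ≠ 0 := by
        intro h
        have := (unit_of_sub_one hal1).2.2.1
        rw [h, zero_div] at this
        exact this rfl
      have h9 : al ^ (12 * k) - 1 ∈ A.nonunits := by
        have h10 := RZC.mul_sub_one (nonunits_pow_sub_one hal1 (12 * k))
          (pow_even_sub_one hA hs3 (k := 12 * k) ⟨6 * k, by ring⟩)
        have h11 : (al / s) ^ (12 * k) * (s : ℂ) ^ (12 * k) = al ^ (12 * k) := by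
          rw [← mul_pow, div_mul_cancel₀ _ hs0]
        rwa [h11] at h10
      have h7 : LF (12 * k) g (rho + (c : ℂ)) p = (al ^ (12 * k))⁻¹ * LF (12 * k) g rho 1 := by
        have h8 := h4 (12 * k) g _ _ _ _ ((pos_smul hal0).mpr pos_rho) hposc hl
        rw [← h8, LF_smul hal0]
      rw [hval, h7]
      have h10 := nonunits_mul_right (inv_sub_one h9) hy
      convert h10 using 1
      ring
  -- the sum in the residue field
  have hw : ∀ i, LFs (12 * k) g p rho 1 i / D - LF (12 * k) g rho 1 / D ∈ A := fun i =>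
    A.sub_mem (hx i) hy
  obtain ⟨W, hW⟩ : ∃ W : Option (Fin p) → A, ∀ i, ((W i : A) : ℂ) =
      LFs (12 * k) g p rho 1 i / D - LF (12 * k) g rho 1 / D := ⟨fun i => ⟨_, hw i⟩, fun i => rfl⟩
  have hsum : (∑ i, LFs (12 * k) g p rho 1 i) / D - (1 + p) * (LF (12 * k) g rho 1 / D) =
      ((∑ i, W i : A) : ℂ) := by
    have h6 : ((∑ i, W i : A) : ℂ) = ∑ i, ((W i : A) : ℂ) := by push_cast; rfl
    rw [h6, Finset.sum_congr rfl fun i _ => hW i, Finset.sum_sub_distrib, ← Finset.sum_div,
      Finset.sum_const, Finset.card_univ, Fintype.card_option, Fintype.card_fin, nsmul_eq_mul]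
    push_cast
    ring
  rw [hsum, ValuationSubring.mem_nonunits_iff_exists_mem_maximalIdeal]
  refine ⟨SetLike.coe_mem _, ?_⟩
  have hres : IsLocalRing.residue A (∑ i, W i) = 0 := by
    rw [map_sum]
    refine sum_zero ?_ σ hσ3 (fun i => IsLocalRing.residue A (W i)) ?_ ?_
    · have h8 : IsLocalRing.residue A (3 : A) = 0 := by
        rw [IsLocalRing.residue_eq_zero_iff]
        have h9 : (3 : ℂ) ∈ A.nonunits := hA
        rw [ValuationSubring.mem_nonunits_iff_exists_mem_maximalIdeal] at h9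
        obtain ⟨h10, h11⟩ := h9
        exact h11
      rw [← h8, map_ofNat]
    · intro i
      congr 1
      apply Subtype.ext
      rw [hW, hW, hxσ]
    · intro i hi
      rw [IsLocalRing.residue_eq_zero_iff]
      have h9 := hfix i hi
      rw [← hW, ValuationSubring.mem_nonunits_iff_exists_mem_maximalIdeal] at h9
      obtain ⟨h10, h11⟩ := h9
      exact h11
  rw [IsLocalRing.residue_eq_zero_iff] at hres
  exact hres

end

end Pool.Agent.Lib.MP_7c08ba_nt.RZC3
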