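import Pool.Agent.Lib.MP_7c08ba_nt.RZ.StmtsC3

set_option autoImplicit false

/-!
(W3) the lattice `M = L + ℤ h`, `h` of order 3: `stSuper3`.
-/

namespace Pool.Agent.Lib.MP_7c08ba_nt.RZC3

open Complex

namespace Super3Aux

variable {L M : PeriodPair} {h : ℂ}

theorem mem_iff (h3 : 3 * h ∈ L.lattice) (hM : M.lattice = L.lattice ⊔ Submodule.span ℤ {h})
    (z : ℂ) : z ∈ M.lattice ↔ z ∈ L.lattice ∨ z + h ∈ L.lattice ∨ z - h ∈ L.lattice := by
  rw [hM, Submodule.mem_sup]
  constructor
  · rintro ⟨l, hl, w, hw, rfl⟩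
    obtain ⟨n, rfl⟩ := Submodule.mem_span_singleton.1 hw
    obtain ⟨k, hk⟩ : ∃ k : ℤ, n = 3 * k ∨ n = 3 * k + 1 ∨ n = 3 * k - 1 := by
      have h4 : n % 3 = 0 ∨ n % 3 = 1 ∨ n % 3 = 2 := by omega
      rcases h4 with h4 | h4 | h4
      · exact ⟨n / 3, by omega⟩
      · exact ⟨n / 3, by omega⟩
      · exact ⟨n / 3 + 1, by omega⟩
    rcases hk with hk | hk | hk
    · left
      have h4 : n • h = k • (3 * h) := by
        rw [hk]
        simp only [zsmul_eq_mul, Int.cast_mul, Int.cast_ofNat]
        ring
      rw [h4]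
      exact L.lattice.add_mem hl (L.lattice.smul_mem k h3)
    · right
      right
      have h4 : l + n • h - h = l + k • (3 * h) := by
        rw [hk]
        simp only [zsmul_eq_mul, Int.cast_mul, Int.cast_ofNat, Int.cast_add, Int.cast_one]
        ring
      rw [h4]
      exact L.lattice.add_mem hl (L.lattice.smul_mem k h3)
    · right
      left
      have h4 : l + n • h + h = l + k • (3 * h) := by
        rw [hk]
        simp only [zsmul_eq_mul, Int.cast_mul, Int.cast_ofNat, Int.cast_sub, Int.cast_one]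
        ring
      rw [h4]
      exact L.lattice.add_mem hl (L.lattice.smul_mem k h3)
  · rintro (hz | hz | hz)
    · exact ⟨z, hz, 0, Submodule.zero_mem _, add_zero z⟩
    · refine ⟨z + h, hz, -h, Submodule.neg_mem _ (Submodule.mem_span_singleton_self h), ?_⟩
      ring
    · refine ⟨z - h, hz, h, Submodule.mem_span_singleton_self h, ?_⟩
      ring

theorem two_notMem (h1 : h ∉ L.lattice) (h3 : 3 * h ∈ L.lattice) : 2 * h ∉ L.lattice := by
  intro h2
  apply h1
  have h4 : h = 3 * h - 2 * h := by ring
  rw [h4]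
  exact L.lattice.sub_mem h3 h2

/-- the three cosets -/
noncomputable def e (h1 : h ∉ L.lattice) (h3 : 3 * h ∈ L.lattice)
    (hM : M.lattice = L.lattice ⊔ Submodule.span ℤ {h}) :
    L.lattice ⊕ (L.lattice ⊕ L.lattice) ≃ M.lattice :=
  Equiv.ofBijective (fun x => match x with
    | Sum.inl l => ⟨l.1, (mem_iff h3 hM _).2 (Or.inl l.2)⟩
    | Sum.inr (Sum.inl l) => ⟨l.1 - h, (mem_iff h3 hM _).2 (Or.inr (Or.inl (by
        rw [sub_add_cancel]
        exact l.2)))⟩
    | Sum.inr (Sum.inr l) => ⟨l.1 + h, (mem_iff h3 hM _).2 (Or.inr (Or.inr (by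
        rw [add_sub_cancel_right]
        exact l.2)))⟩) (by
    have h2 := two_notMem h1 h3
    constructor
    · rintro (a | a | a) (b | b | b) hab
      · simp only [Subtype.mk.injEq] at hab
        exact congrArg Sum.inl (Subtype.ext hab)
      · exfalso
        simp only [Subtype.mk.injEq] at hab
        apply h1
        have h4 : h = b.1 - a.1 := by
          rw [hab]
          ring
        rw [h4]
        exact L.lattice.sub_mem b.2 a.2
      · exfalso
        simp only [Subtype.mk.injEq] at hab
        apply h1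
        have h4 : h = a.1 - b.1 := by
          rw [hab]
          ring
        rw [h4]
        exact L.lattice.sub_mem a.2 b.2
      · exfalso
        simp only [Subtype.mk.injEq] at hab
        apply h1
        have h4 : h = a.1 - b.1 := by
          rw [← hab]
          ring
        rw [h4]
        exact L.lattice.sub_mem a.2 b.2
      · simp only [Subtype.mk.injEq, sub_left_inj] at hab
        exact congrArg (fun t => Sum.inr (Sum.inl t)) (Subtype.ext hab)
      · exfalso
        simp only [Subtype.mk.injEq] at hab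
        apply h2
        have h4 : 2 * h = a.1 - b.1 := by
          linear_combination -hab
        rw [h4]
        exact L.lattice.sub_mem a.2 b.2
      · exfalso
        simp only [Subtype.mk.injEq] at hab
        apply h1
        have h4 : h = b.1 - a.1 := by
          rw [← hab]
          ring
        rw [h4]
        exact L.lattice.sub_mem b.2 a.2
      · exfalso
        simp only [Subtype.mk.injEq] at hab
        apply h2
        have h4 : 2 * h = b.1 - a.1 := by
          linear_combination hab
        rw [h4]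
        exact L.lattice.sub_mem b.2 a.2
      · simp only [Subtype.mk.injEq, add_left_inj] at hab
        exact congrArg (fun t => Sum.inr (Sum.inr t)) (Subtype.ext hab)
    · intro z
      rcases (mem_iff h3 hM z.1).1 z.2 with hz | hz | hz
      · exact ⟨Sum.inl ⟨z.1, hz⟩, rfl⟩
      · refine ⟨Sum.inr (Sum.inl ⟨z.1 + h, hz⟩), ?_⟩
        apply Subtype.ext
        show z.1 + h - h = z.1
        ring
      · refine ⟨Sum.inr (Sum.inr ⟨z.1 - h, hz⟩), ?_⟩
        apply Subtype.ext
        show z.1 - h + h = z.1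
        ring)

/-- sums over the three cosets -/
theorem hasSum_split (h1 : h ∉ L.lattice) (h3 : 3 * h ∈ L.lattice)
    (hM : M.lattice = L.lattice ⊔ Submodule.span ℤ {h}) {F : ℂ → ℂ} {a b c : ℂ}
    (ha : HasSum (fun l : L.lattice => F l) a) (hb : HasSum (fun l : L.lattice => F (l - h)) b)
    (hc : HasSum (fun l : L.lattice => F (l + h)) c) :
    HasSum (fun m : M.lattice => F m) (a + (b + c)) := by
  rw [← (e h1 h3 hM).hasSum_iff]
  have hbc : HasSum ((fun m : M.lattice => F m) ∘ (e h1 h3 hM) ∘ Sum.inr) (b + c) :=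
    HasSum.sum (f := (fun m : M.lattice => F m) ∘ (e h1 h3 hM) ∘ Sum.inr) hb hc
  exact HasSum.sum (f := (fun m : M.lattice => F m) ∘ (e h1 h3 hM)) ha hbc

theorem sum_neg {r : ℕ} (hr : Even r) : L.sumInvPow (-h) r = L.sumInvPow h r := by
  unfold PeriodPair.sumInvPow
  rw [← (Equiv.neg L.lattice).tsum_eq]
  apply tsum_congr
  intro l
  have h4 : ((((Equiv.neg L.lattice) l : L.lattice) : ℂ) - -h) = -((l : ℂ) - h) := by
    simp only [Equiv.neg_apply, Submodule.coe_neg]
    ring
  rw [h4, hr.neg_pow]

theorem G_eq (h1 : h ∉ L.lattice) (h3 : 3 * h ∈ L.lattice)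
    (hM : M.lattice = L.lattice ⊔ Submodule.span ℤ {h}) {r : ℕ} (hr : 2 < r) (hr' : Even r) :
    M.G r = L.G r + 2 * L.sumInvPow h r := by
  have ha := L.hasSum_sumInvPow 0 hr
  simp only [sub_zero, PeriodPair.sumInvPow_zero] at ha
  have hb := L.hasSum_sumInvPow h hr
  have hc := L.hasSum_sumInvPow (-h) hr
  simp only [sub_neg_eq_add] at hc
  have h4 := hasSum_split h1 h3 hM (F := fun z => (z ^ r)⁻¹) ha hb hc
  have h5 : M.G r = L.G r + (L.sumInvPow h r + L.sumInvPow (-h) r) := h4.tsum_eq
  rw [h5, sum_neg hr']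
  ring

end Super3Aux

open Super3Aux in
/-- (W3) the lattice `M = L + ℤ h` -/
theorem stSuper3 (h1 : StInv) : StSuper3 := by
  intro L M h hh h3 hM
  obtain ⟨e1, e2⟩ := h1 L h hh
  refine ⟨?_, ?_, ?_⟩
  · have h4 := G_eq hh h3 hM (r := 4) (by norm_num) (by decide)
    have h7 : M.g₂ = L.g₂ + 120 * L.sumInvPow h 4 := by
      unfold PeriodPair.g₂
      rw [h4]
      ring
    rw [h7, e1]
    ring
  · have h6 := G_eq hh h3 hM (r := 6) (by norm_num) (by decide)
    have h7 : M.g₃ = L.g₃ + 280 * L.sumInvPow h 6 := by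
      unfold PeriodPair.g₃
      rw [h6]
      ring
    rw [h7, e2]
    ring
  · intro z _
    have ha := L.hasSum_weierstrassP z
    have hb := (L.hasSum_weierstrassP (z + h)).sub (L.hasSum_weierstrassP h)
    have hc := (L.hasSum_weierstrassP (z - h)).sub (L.hasSum_weierstrassP (-h))
    rw [PeriodPair.weierstrassP_neg] at hc
    have h8 : HasSum (fun l : L.lattice => 1 / (z - (l.1 - h)) ^ 2 - 1 / (l.1 - h) ^ 2)
        (L.weierstrassP (z + h) - L.weierstrassP h) := by
      refine hb.congr_fun ?_
      intro l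
      have h9 : z - (l.1 - h) = z + h - l.1 := by ring
      have h10 : (l.1 - h) ^ 2 = (h - l.1) ^ 2 := by ring
      rw [h9, h10]
      ring
    have h8' : HasSum (fun l : L.lattice => 1 / (z - (l.1 + h)) ^ 2 - 1 / (l.1 + h) ^ 2)
        (L.weierstrassP (z - h) - L.weierstrassP h) := by
      refine hc.congr_fun ?_
      intro l
      have h9 : z - (l.1 + h) = z - h - l.1 := by ring
      have h10 : (l.1 + h) ^ 2 = (-h - l.1) ^ 2 := by ring
      rw [h9, h10]
      ring
    have h11 := hasSum_split hh h3 hM (F := fun w => 1 / (z - w) ^ 2 - 1 / w ^ 2) ha h8 h8'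
    have h12 := (M.hasSum_weierstrassP z).unique h11
    rw [h12]
    ring

end Pool.Agent.Lib.MP_7c08ba_nt.RZC3
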