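import Pool.Agent.Lib.MP_7c08ba_nt.RZ.Basic3

set_option autoImplicit false

/-! Part (C3): (H4). -/

namespace Pool.Agent.Lib.MP_7c08ba_nt.RZC3

open UpperHalfPlane ModularForm EisensteinSeries MatrixGroups NumberField RZC
open scoped Real Manifold ComplexConjugate

noncomputable section

theorem stSymm3 (hA : StSymmA) (hB : StSymmB3) : StSymm3 := by
  intro A hA2 p hp hp2 k hk f hf
  choose e he using fun i => hA p hp k f i
  refine ⟨e, fun i n => (hB A hA2 p hp hp2 k hk f hf i (e i) (he i)).1 n,
    fun c hc hfc i n => (hB A hA2 p hp hp2 k hk f hf i (e i) (he i)).2 c hc hfc n, ?_⟩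
  intro w₁ w₂ hw T
  have h := Multiset.prod_X_sub_X_eq_sum_esymm
    ((Finset.univ : Finset (Option (Fin p))).val.map fun j => LFs k f p w₁ w₂ j)
  have h2 := congrArg (Polynomial.eval T) h
  rw [Multiset.map_map, Polynomial.eval_multiset_prod, Multiset.map_map,
    Polynomial.eval_finset_sum] at h2
  have hc : Multiset.card ((Finset.univ : Finset (Option (Fin p))).val.map
      fun j => LFs k f p w₁ w₂ j) = p + 1 := by
    rw [Multiset.card_map, Finset.card_val, Finset.card_univ]
    simp
  rw [hc] at h2
  have h3 : (Multiset.map (Polynomial.eval T ∘ (fun t => Polynomial.X - Polynomial.C t) ∘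
      fun j => LFs k f p w₁ w₂ j) (Finset.univ : Finset (Option (Fin p))).val).prod =
      ∏ i, (T - LFs k f p w₁ w₂ i) := by
    rw [Finset.prod]
    congr 1
    refine Multiset.map_congr rfl fun j _ => ?_
    simp
  rw [← h3]
  refine h2.trans (Finset.sum_congr rfl fun i _ => ?_)
  rw [he i w₁ w₂ hw]
  simp only [Polynomial.eval_mul, Polynomial.eval_pow, Polynomial.eval_neg, Polynomial.eval_one,
    Polynomial.eval_C, Polynomial.eval_X, esy]
  ring

end

end Pool.Agent.Lib.MP_7c08ba_nt.RZC3
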