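import Pool.Agent.Lib.MP_7c08ba_nt.RZ.Basic3
import Pool.Agent.Lib.MP_7c08ba_nt.RZ.C.SymmB

set_option autoImplicit false

/-! (H3) integrality and congruences for the elementary symmetric functions of the values on the
sublattices of index `p ≠ 3`, even weight.  The expansions are those of `RZ/C/SymmB.lean`, which
do not depend on the residue characteristic. -/

namespace Pool.Agent.Lib.MP_7c08ba_nt.RZC3

open UpperHalfPlane ModularForm EisensteinSeries MatrixGroups NumberField RZC
open scoped Real Manifold ComplexConjugate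

noncomputable section

namespace SymmB3Aux

open RZC.SymB

section val
variable {A : ValuationSubring ℂ}

/-- lift to `A` -/
theorem exists_lift {p k : ℕ} (hA : Above3 A) (hp : p.Prime) (hp3 : p ≠ 3) {a : ℕ → ℂ}
    (ha : ∀ n, a n ∈ A) (j : Option (Fin p)) :
    ∃ ψ : PowerSeries A, ψ.map A.subtype = ph p k a j := by
  have hpinv : (p : ℂ)⁻¹ ∈ A := by
    have := (not_three_dvd_unit hA (n := (p : ℤ))
      (by exact_mod_cast prime_not_three_dvd hp hp3)).2
    simpa using this
  have hz : Complex.exp (2 * π * Complex.I / p) ∈ A := by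
    apply rootOfUnity_mem hp.pos
    rw [← Complex.exp_nat_mul]
    have hp0 : (p : ℂ) ≠ 0 := by exact_mod_cast hp.ne_zero
    have : (p : ℂ) * (2 * π * Complex.I / p) = 2 * π * Complex.I := by field_simp
    rw [this, Complex.exp_two_pi_mul_I]
  have hmem : ∀ n, (ph p k a j).coeff n ∈ A := by
    intro n
    rcases j with _ | b
    · rw [ph, PowerSeries.coeff_mk]
      split_ifs
      · exact ha _
      · exact A.zero_mem
    · rw [ph, PowerSeries.coeff_mk]
      exact A.mul_mem _ _ (A.mul_mem _ _ (pow_mem hpinv k) (pow_mem hz _)) (ha n)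
  refine ⟨PowerSeries.mk fun n => ⟨_, hmem n⟩, ?_⟩
  ext n
  rw [PowerSeries.coeff_map, PowerSeries.coeff_mk]
  rfl

/-- reduction of the lifts -/
theorem lift_residue {p k : ℕ} (hA : Above3 A) (hp : p.Prime) (hp3 : p ≠ 3) (hk : Even k)
    {a : ℕ → ℂ}
    {c : ℂ} (hc : c ∈ A) (ha : ∀ n, a n - (if n = 0 then c else 0) ∈ A.nonunits)
    (j : Option (Fin p)) (ψ : PowerSeries A) (hψ : ψ.map A.subtype = ph p k a j) :
    ψ.map (IsLocalRing.residue A) = PowerSeries.C (IsLocalRing.residue A ⟨c, hc⟩) := by
  have h2 : (p : ℂ)⁻¹ ^ k - 1 ∈ A.nonunits := by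
    rw [inv_pow]
    exact (nat_pow_even_sub_one hA (prime_not_three_dvd hp hp3) hk).2
  have hpinv : (p : ℂ)⁻¹ ∈ A := by
    have := (not_three_dvd_unit hA (n := (p : ℤ))
      (by exact_mod_cast prime_not_three_dvd hp hp3)).2
    simpa using this
  have hz : Complex.exp (2 * π * Complex.I / p) ∈ A := by
    apply rootOfUnity_mem hp.pos
    rw [← Complex.exp_nat_mul]
    have hp0 : (p : ℂ) ≠ 0 := by exact_mod_cast hp.ne_zero
    have : (p : ℂ) * (2 * π * Complex.I / p) = 2 * π * Complex.I := by field_simp
    rw [this, Complex.exp_two_pi_mul_I]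
  have hcoef : ∀ n, ((ψ.coeff n : A) : ℂ) = (ph p k a j).coeff n := by
    intro n
    rw [← hψ, PowerSeries.coeff_map]
    rfl
  have key : ∀ n, (ph p k a j).coeff n - (if n = 0 then c else 0) ∈ A.nonunits := by
    intro n
    rcases j with _ | b
    · rw [ph, PowerSeries.coeff_mk]
      by_cases hn : p ^ 2 ∣ n
      · rw [if_pos hn]
        obtain ⟨m, rfl⟩ := hn
        rw [Nat.mul_div_cancel_left m (pow_pos hp.pos 2)]
        have := ha m
        by_cases hm : m = 0
        · subst hm
          simpa using this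
        · rw [if_neg hm] at this
          rw [if_neg (mul_ne_zero (pow_ne_zero 2 hp.ne_zero) hm)]
          exact this
      · rw [if_neg hn]
        have : n ≠ 0 := by
          rintro rfl
          exact hn (dvd_zero _)
        rw [if_neg this, sub_self]
        exact zero_nonunits
    · rw [ph, PowerSeries.coeff_mk]
      have hu : (p : ℂ)⁻¹ ^ k * Complex.exp (2 * π * Complex.I / p) ^ ((b : ℕ) * n) ∈ A :=
        A.mul_mem _ _ (pow_mem hpinv k) (pow_mem hz _)
      by_cases hn : n = 0
      · subst hn
        have h3 := ha 0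
        rw [if_pos rfl] at h3 ⊢
        have h4 := nonunits_add (nonunits_mul_left hu h3) (nonunits_mul_right h2 hc)
        convert h4 using 1
        simp only [mul_zero, pow_zero, mul_one]
        ring
      · have h3 := ha n
        rw [if_neg hn, sub_zero] at h3 ⊢
        exact nonunits_mul_left hu h3
  ext n
  rw [PowerSeries.coeff_map, PowerSeries.coeff_C]
  have h5 := key n
  rw [← hcoef n] at h5
  by_cases hn : n = 0
  · rw [if_pos hn] at h5 ⊢
    rw [← sub_eq_zero, ← map_sub, IsLocalRing.residue_eq_zero_iff,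
      ← ValuationSubring.coe_mem_nonunits_iff]
    exact h5
  · rw [if_neg hn] at h5 ⊢
    rw [IsLocalRing.residue_eq_zero_iff, ← ValuationSubring.coe_mem_nonunits_iff]
    rw [sub_zero] at h5
    exact h5

end val

end SymmB3Aux

open SymmB3Aux RZC.SymB in
/-- (H3) -/
theorem stSymmB3 : StSymmB3 := by
  intro A hA p hp hp3 k hk f hf i g hg
  choose ψ hψ using fun j : Option (Fin p) => exists_lift (k := k) hA hp hp3 hf j
  have hcoef : ∀ n, cf g n = (((∑ t ∈ (Finset.univ : Finset (Option (Fin p))).powersetCard i,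
      ∏ j ∈ t, ψ j).coeff (p * n) : A) : ℂ) := by
    intro n
    rw [coeff_g hp.pos f g hg n]
    have h1 : (∑ t ∈ (Finset.univ : Finset (Option (Fin p))).powersetCard i,
        ∏ j ∈ t, ph p k (cf f) j) =
        (∑ t ∈ (Finset.univ : Finset (Option (Fin p))).powersetCard i,
          ∏ j ∈ t, ψ j).map A.subtype := by
      rw [map_sum]
      refine Finset.sum_congr rfl fun t _ => ?_
      rw [map_prod]
      exact Finset.prod_congr rfl fun j _ => (hψ j).symm
    rw [h1, PowerSeries.coeff_map]
    rfl
  refine ⟨fun n => by rw [hcoef n]; exact Subtype.mem _, ?_⟩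
  intro c hc hfc n
  have h2 : (∑ t ∈ (Finset.univ : Finset (Option (Fin p))).powersetCard i,
      ∏ j ∈ t, ψ j).map (IsLocalRing.residue A) =
      PowerSeries.C (((p + 1).choose i : IsLocalRing.ResidueField A) *
        IsLocalRing.residue A ⟨c, hc⟩ ^ i) := by
    rw [map_sum]
    have h3 : ∀ t ∈ (Finset.univ : Finset (Option (Fin p))).powersetCard i,
        (∏ j ∈ t, ψ j).map (IsLocalRing.residue A) =
          PowerSeries.C (IsLocalRing.residue A ⟨c, hc⟩ ^ i) := by
      intro t ht
      rw [map_prod, Finset.prod_congr rfl fun j _ =>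
        lift_residue hA hp hp3 hk hc hfc j (ψ j) (hψ j), Finset.prod_const,
        (Finset.mem_powersetCard.mp ht).2, map_pow]
    rw [Finset.sum_congr rfl h3, Finset.sum_const, Finset.card_powersetCard, Finset.card_univ,
      Fintype.card_option, Fintype.card_fin, nsmul_eq_mul, map_mul, map_natCast]
  have h4 := congrArg (fun φ => PowerSeries.coeff (p * n) φ) h2
  simp only [PowerSeries.coeff_map, PowerSeries.coeff_C] at h4
  rw [hcoef n]
  by_cases hn : n = 0
  · subst hn
    rw [if_pos rfl]
    rw [mul_zero, if_pos rfl] at h4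
    have h5 : IsLocalRing.residue A ((∑ t ∈ (Finset.univ :
        Finset (Option (Fin p))).powersetCard i, ∏ j ∈ t, ψ j).coeff 0 -
        (((p + 1).choose i : A) * ⟨c, hc⟩ ^ i)) = 0 := by
      rw [map_sub, h4, map_mul, map_pow, map_natCast, sub_self]
    rw [IsLocalRing.residue_eq_zero_iff, ← ValuationSubring.coe_mem_nonunits_iff] at h5
    rw [mul_zero]
    simpa using h5
  · rw [if_neg hn, sub_zero]
    rw [if_neg (mul_ne_zero hp.ne_zero hn), IsLocalRing.residue_eq_zero_iff,
      ← ValuationSubring.coe_mem_nonunits_iff] at h4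
    exact h4

end

end Pool.Agent.Lib.MP_7c08ba_nt.RZC3
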