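import Pool.Agent.Lib.MP_7c08ba_nt.RZ.StmtsC3

set_option autoImplicit false

/-! (W3') the relation between the coordinates of a point of order 3:
`pa ^ 2 = 12 ℘(h) ℘'(h) ^ 2`, from the product relation, the formula for the lattice
`M = L + ℤ h` and the differential equations of `L` and `M`. -/

namespace Pool.Agent.Lib.MP_7c08ba_nt.RZC3

open Filter Topology

namespace Tor3Aux

variable (L : PeriodPair)

theorem hasDerivAt_P {z : ℂ} (hz : z ∉ L.lattice) :
    HasDerivAt L.weierstrassP (L.derivWeierstrassP z) z := by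
  have h1 := (L.analyticOnNhd_weierstrassP z hz).differentiableAt.hasDerivAt
  rwa [L.deriv_weierstrassP] at h1

theorem nhds_compl {z : ℂ} (hz : z ∉ L.lattice) : ∀ᶠ w in 𝓝 z, w ∉ L.lattice :=
  L.isClosed_lattice.isOpen_compl.mem_nhds hz

theorem tendsto_P : Tendsto L.weierstrassP (𝓝[≠] 0) (Bornology.cobounded ℂ) := by
  apply tendsto_cobounded_of_meromorphicOrderAt_neg
  rw [L.order_weierstrassP 0 (zero_mem _)]
  decide

theorem punct : ∀ᶠ w in 𝓝[≠] (0 : ℂ), w ∉ L.lattice := by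
  filter_upwards [self_mem_nhdsWithin, mem_nhdsWithin_of_mem_nhds
    (L.compl_lattice_sdiff_singleton_mem_nhds 0)] with w hw hw' hL
  exact hw' ⟨hL, hw⟩

/-- a large number is not a root of `3 b + 2 a T - 6 T ^ 3` -/
theorem large {a b T : ℂ} (hT : 1 + ‖a‖ + ‖b‖ < ‖T‖) : 3 * b + 2 * a * T - 6 * T ^ 3 ≠ 0 := by
  intro h
  have h7 : 6 * T ^ 3 = 3 * b + 2 * a * T := by linear_combination -h
  have h8 : 6 * ‖T‖ ^ 3 ≤ 3 * ‖b‖ + 2 * ‖a‖ * ‖T‖ := by
    calc 6 * ‖T‖ ^ 3 = ‖6 * T ^ 3‖ := by rw [norm_mul, norm_pow]; norm_num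
      _ = ‖3 * b + 2 * a * T‖ := by rw [h7]
      _ ≤ 3 * ‖b‖ + 2 * ‖a‖ * ‖T‖ := by
        refine (norm_add_le _ _).trans ?_
        rw [norm_mul, norm_mul, norm_mul]
        norm_num
  have ga := norm_nonneg a
  have gb := norm_nonneg b
  have x1 : 1 < ‖T‖ := by linarith
  have x2 : ‖b‖ ≤ ‖b‖ * ‖T‖ := by nlinarith
  have x3 : 6 * ‖T‖ ^ 3 ≤ (3 * ‖b‖ + 2 * ‖a‖) * ‖T‖ := by nlinarith
  have x4 : 6 * ‖T‖ ^ 2 ≤ 3 * ‖b‖ + 2 * ‖a‖ := by
    have : (6 * ‖T‖ ^ 2) * ‖T‖ ≤ (3 * ‖b‖ + 2 * ‖a‖) * ‖T‖ := by nlinarith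
    exact le_of_mul_le_mul_right this (by linarith)
  nlinarith

end Tor3Aux

open Tor3Aux in
/-- (W3') -/
theorem stTor3 (h1 : StProd3) (h2 : StSuper3) : StTor3 := by
  intro L M h hh h3 hM
  obtain ⟨g2, g3, sup⟩ := h2 L M h hh h3 hM
  have hLM : ∀ z, z ∈ L.lattice → z ∈ M.lattice := by
    intro z hz
    rw [hM]
    exact Submodule.mem_sup_left hz
  have hhM : h ∈ M.lattice := by
    rw [hM]
    exact Submodule.mem_sup_right (Submodule.mem_span_singleton_self h)
  have n0 : ∀ z, z ∉ M.lattice → z ∉ L.lattice := fun z hz hz' => hz (hLM z hz')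
  have n1 : ∀ z, z ∉ M.lattice → z + h ∉ L.lattice := by
    intro z hz hz'
    apply hz
    have := sub_mem (hLM _ hz') hhM
    simpa using this
  have n2 : ∀ z, z ∉ M.lattice → z - h ∉ L.lattice := by
    intro z hz hz'
    apply hz
    have := add_mem (hLM _ hz') hhM
    simpa using this
  set e := L.weierstrassP h with he
  set d := L.derivWeierstrassP h with hd
  have ha : pa L h = 6 * e ^ 2 - L.g₂ / 2 := rfl
  set a := pa L h with haa
  have hb : d ^ 2 = 4 * e ^ 3 - L.g₂ * e - L.g₃ := L.derivWeierstrassP_sq h hh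
  -- the relation between `℘_M` and `℘_L`
  have key : ∀ z, z ∉ M.lattice → (M.weierstrassP z - e) * (L.weierstrassP z - e) ^ 2 =
      (L.weierstrassP z - e) ^ 3 + a * (L.weierstrassP z - e) + d ^ 2 := by
    intro z hz
    obtain ⟨p1, p2⟩ := h1 L h hh h3 z (n0 z hz) (n1 z hz) (n2 z hz)
    rw [sup z hz]
    linear_combination (L.weierstrassP z - e) * p1 - p2
  -- its derivative
  have key2 : ∀ z, z ∉ M.lattice → M.derivWeierstrassP z * (L.weierstrassP z - e) ^ 3 =
      L.derivWeierstrassP z * ((L.weierstrassP z - e) ^ 3 - a * (L.weierstrassP z - e) -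
        2 * d ^ 2) := by
    intro z hz
    have e1 := ((hasDerivAt_P M hz).sub_const e).mul
      (((hasDerivAt_P L (n0 z hz)).sub_const e).pow 2)
    have e2 := ((((hasDerivAt_P L (n0 z hz)).sub_const e).pow 3).add
      (((hasDerivAt_P L (n0 z hz)).sub_const e).const_mul a)).add_const (d ^ 2)
    have e3 : (fun w => (L.weierstrassP w - e) ^ 3 + a * (L.weierstrassP w - e) + d ^ 2) =ᶠ[𝓝 z]
        (fun w => (M.weierstrassP w - e) * (L.weierstrassP w - e) ^ 2) := by
      filter_upwards [nhds_compl M hz] with w hw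
      exact (key w hw).symm
    have e4 := (e1.congr_of_eventuallyEq e3).unique e2
    push_cast at e4
    have e5 := key z hz
    simp only [Pi.pow_apply] at e4
    norm_num at e4
    linear_combination (L.weierstrassP z - e) * e4 - 2 * L.derivWeierstrassP z * e5
  -- the equation for `℘_L (z) - e`
  have key3 : ∀ z, z ∉ M.lattice → (a ^ 2 - 12 * e * d ^ 2) * (L.weierstrassP z - e) ^ 2 *
      (3 * d ^ 2 + 2 * a * (L.weierstrassP z - e) - 6 * (L.weierstrassP z - e) ^ 3) = 0 := by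
    intro z hz
    have o1 := M.derivWeierstrassP_sq z hz
    have o2 := L.derivWeierstrassP_sq z (n0 z hz)
    have k1 := key z hz
    have k2 := key2 z hz
    rw [g2, g3] at o1
    have hg2 : L.g₂ = 12 * e ^ 2 - 2 * a := by linear_combination 2 * ha
    have hg3 : L.g₃ = -8 * e ^ 3 + 2 * a * e - d ^ 2 := by
      linear_combination hb - e * hg2
    rw [hg2, hg3] at o1 o2
    set T := L.weierstrassP z - e with hT
    have hP : L.weierstrassP z = T + e := by rw [hT]; ring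
    rw [hP] at o2
    set E := M.weierstrassP z - e with hE
    have hQ : M.weierstrassP z = E + e := by rw [hE]; ring
    rw [hQ] at o1
    set D := M.derivWeierstrassP z
    set D' := L.derivWeierstrassP z
    -- the square of `key2`
    have s1 : (4 * (E + e) ^ 3 - (12 * e ^ 2 - 2 * a + 20 * a) * (E + e) -
        (-8 * e ^ 3 + 2 * a * e - d ^ 2 + 28 * (d ^ 2 + e * a))) * T ^ 6 =
        (4 * (T + e) ^ 3 - (12 * e ^ 2 - 2 * a) * (T + e) - (-8 * e ^ 3 + 2 * a * e - d ^ 2)) *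
          (T ^ 3 - a * T - 2 * d ^ 2) ^ 2 := by
      rw [← o1, ← o2]
      linear_combination (D * T ^ 3 + D' * (T ^ 3 - a * T - 2 * d ^ 2)) * k2
    have s2 : (4 * ((E * T ^ 2 + e * T ^ 2)) ^ 3 - (12 * e ^ 2 + 18 * a) *
        (E * T ^ 2 + e * T ^ 2) * T ^ 4 - (-8 * e ^ 3 + 30 * a * e + 27 * d ^ 2) * T ^ 6) =
        (4 * (T + e) ^ 3 - (12 * e ^ 2 - 2 * a) * (T + e) - (-8 * e ^ 3 + 2 * a * e - d ^ 2)) *
          (T ^ 3 - a * T - 2 * d ^ 2) ^ 2 := by
      linear_combination s1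
    rw [k1] at s2
    linear_combination s2
  have t1 : Tendsto (fun z => ‖L.weierstrassP z‖) (𝓝[≠] 0) atTop :=
    tendsto_norm_cobounded_atTop.comp (tendsto_P L)
  obtain ⟨z, z1, z2⟩ := ((t1.eventually_gt_atTop (1 + ‖a‖ + ‖d ^ 2‖ + ‖e‖)).and
    (punct M)).exists
  have z3 := key3 z z2
  have z4 : 1 + ‖a‖ + ‖d ^ 2‖ < ‖L.weierstrassP z - e‖ := by
    have := norm_sub_norm_le (L.weierstrassP z) e
    linarith
  have z5 := large z4
  have z6 : L.weierstrassP z - e ≠ 0 := by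
    intro h0
    rw [h0, norm_zero] at z4
    have := norm_nonneg a
    have := norm_nonneg (d ^ 2)
    linarith
  have z7 := (mul_eq_zero.mp z3).resolve_right z5
  have z8 := (mul_eq_zero.mp z7).resolve_right (pow_ne_zero 2 z6)
  linear_combination z8

end Pool.Agent.Lib.MP_7c08ba_nt.RZC3
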