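import Pool.Agent.Lib.MP_7c08ba_nt.RZ.Basic3

set_option autoImplicit false

/-! (G4): `a_p = 1 + p` modulo the maximal ideal for primes `p ≠ 3`. -/

namespace Pool.Agent.Lib.MP_7c08ba_nt.RZC3

open UpperHalfPlane ModularForm EisensteinSeries MatrixGroups NumberField RZC
open scoped Real Manifold ComplexConjugate

noncomputable section

namespace Tr3Aux

variable {A : ValuationSubring ℂ}

/-- the maximal ideal as an additive subgroup -/
def mA (A : ValuationSubring ℂ) : AddSubgroup ℂ where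
  carrier := {x | x ∈ A.nonunits}
  add_mem' := fun h h' => nonunits_add h h'
  zero_mem' := zero_nonunits
  neg_mem' := fun h => nonunits_neg h

theorem mem_mA {x : ℂ} : x ∈ mA A ↔ x ∈ A.nonunits := Iff.rfl

def PM (A : ValuationSubring ℂ) (g : PowerSeries ℂ) : Prop := ∀ n, g.coeff n ∈ mA A
def PA (A : ValuationSubring ℂ) (g : PowerSeries ℂ) : Prop := ∀ n, g.coeff n ∈ A

theorem PM.add {g h : PowerSeries ℂ} (hg : PM A g) (hh : PM A h) : PM A (g + h) := fun n => by
  rw [map_add]; exact (mA A).add_mem (hg n) (hh n)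

theorem PM.sub {g h : PowerSeries ℂ} (hg : PM A g) (hh : PM A h) : PM A (g - h) := fun n => by
  rw [map_sub]; exact (mA A).sub_mem (hg n) (hh n)

theorem PM.neg {g : PowerSeries ℂ} (hg : PM A g) : PM A (-g) := fun n => by
  rw [map_neg]; exact (mA A).neg_mem (hg n)

theorem PM.sum {ι : Type*} {s : Finset ι} {g : ι → PowerSeries ℂ} (h : ∀ i ∈ s, PM A (g i)) :
    PM A (∑ i ∈ s, g i) := fun n => by
  rw [map_sum]; exact (mA A).sum_mem fun i hi => h i hi n

theorem PA.add {g h : PowerSeries ℂ} (hg : PA A g) (hh : PA A h) : PA A (g + h) := fun n => by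
  rw [map_add]; exact A.add_mem _ _ (hg n) (hh n)

theorem PA.mul {g h : PowerSeries ℂ} (hg : PA A g) (hh : PA A h) : PA A (g * h) := fun n => by
  rw [PowerSeries.coeff_mul]
  exact A.toSubring.sum_mem fun i _ => A.mul_mem _ _ (hg _) (hh _)

theorem PM.mul_left {g h : PowerSeries ℂ} (hg : PA A g) (hh : PM A h) : PM A (g * h) := fun n => by
  rw [PowerSeries.coeff_mul]
  exact (mA A).sum_mem fun i _ => nonunits_mul_left (hg _) (hh _)

theorem PM.mul_right {g h : PowerSeries ℂ} (hg : PM A g) (hh : PA A h) : PM A (g * h) := by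
  rw [mul_comm]; exact PM.mul_left hh hg

theorem PA.one : PA A 1 := fun n => by
  rw [PowerSeries.coeff_one]
  split_ifs
  · exact A.one_mem
  · exact A.zero_mem

theorem PA.pow {g : PowerSeries ℂ} (hg : PA A g) (n : ℕ) : PA A (g ^ n) := by
  induction n with
  | zero => rw [pow_zero]; exact PA.one
  | succ n ih => rw [pow_succ]; exact ih.mul hg

theorem PA.toC (g : PowerSeries ℤ) : PA A (toC g) := fun n => by
  rw [PowerSeries.coeff_map]
  exact int_mem _

theorem PA.C {c : ℂ} (hc : c ∈ A) : PA A (PowerSeries.C c) := fun n => by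
  rw [PowerSeries.coeff_C]
  split_ifs
  · exact hc
  · exact A.zero_mem

theorem PM.C {c : ℂ} (hc : c ∈ A.nonunits) : PM A (PowerSeries.C c) := fun n => by
  rw [PowerSeries.coeff_C]
  split_ifs
  · exact hc
  · exact zero_nonunits

theorem PA.of_sub_one {g : PowerSeries ℂ} (h : PM A (g - 1)) : PA A g := by
  have h1 : PA A (g - 1) := fun n => nonunits_mem (h n)
  have := h1.add PA.one
  rwa [sub_add_cancel] at this

theorem PM.mul_sub_one {g h : PowerSeries ℂ} (hg : PM A (g - 1)) (hh : PM A (h - 1)) :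
    PM A (g * h - 1) := by
  have h1 : g * h - 1 = g * (h - 1) + (g - 1) := by ring
  rw [h1]
  exact (PM.mul_left (PA.of_sub_one hg) hh).add hg

theorem PM.pow_sub_one {g : PowerSeries ℂ} (hg : PM A (g - 1)) (n : ℕ) : PM A (g ^ n - 1) := by
  induction n with
  | zero =>
    rw [pow_zero, sub_self]
    intro n
    rw [map_zero]
    exact zero_nonunits
  | succ n ih => rw [pow_succ]; exact ih.mul_sub_one hg

theorem PM.toC_three (hA : Above3 A) {g : PowerSeries ℤ} (h : ∀ n, (3 : ℤ) ∣ g.coeff n) :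
    PM A (RZC.toC g) := fun n => by
  rw [PowerSeries.coeff_map]
  exact three_dvd_nonunits hA (h n)

theorem coeff_intMul (m : ℤ) (g : PowerSeries ℤ) (n : ℕ) :
    ((m : PowerSeries ℤ) * g).coeff n = m * g.coeff n := by
  have : (m : PowerSeries ℤ) = PowerSeries.C m := by simp
  rw [this, PowerSeries.coeff_C_mul]

theorem PM.Q4 (hA : Above3 A) : PM A (RZC.toC Q4 - 1) := by
  have h1 : RZC.toC RZC.Q4 - 1 = RZC.toC (240 * sg 3) := by
    unfold RZC.toC RZC.Q4
    rw [map_add, map_one]
    ring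
  rw [h1]
  refine PM.toC_three hA fun n => ?_
  have := coeff_intMul 240 (sg 3) n
  push_cast at this
  rw [this]
  exact Dvd.dvd.mul_right (by decide) _

theorem PM.R6 (hA : Above3 A) : PM A (RZC.toC R6 - 1) := by
  have h1 : RZC.toC RZC.R6 - 1 = RZC.toC (-(504 * sg 5)) := by
    unfold RZC.toC RZC.R6
    rw [map_sub, map_one, map_neg]
    ring
  rw [h1]
  refine PM.toC_three hA fun n => ?_
  have := coeff_intMul 504 (sg 5) n
  push_cast at this
  rw [map_neg, this]
  exact (Dvd.dvd.mul_right (by decide) _).neg_right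

theorem PM.eb (hA : Above3 A) (k : ℕ) :
    PM A (RZC.eb k (RZC.toC RZC.Q4) (RZC.toC RZC.R6) - 1) := by
  unfold RZC.eb
  split_ifs
  · exact (PM.Q4 hA).pow_sub_one _
  · exact ((PM.Q4 hA).pow_sub_one _).mul_sub_one (PM.R6 hA)

/-! ### monomials -/

theorem exists_mono (h6 : StEis) {K j : ℕ} (hj : j ≤ K) :
    ∃ m : ModularForm 𝒮ℒ ((12 * K : ℕ) : ℤ),
      (∀ τ, m τ = discriminant τ ^ j * E₄ τ ^ (3 * (K - j))) ∧
      qExpansion 1 (m : ℍ → ℂ) = toC D12 ^ j * toC Q4 ^ (3 * (K - j)) := by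
  obtain ⟨-, -, -, hQ, -, hD⟩ := h6
  let d : ModularForm 𝒮ℒ 12 := ModularFormClass.modularForm CuspForm.discriminant
  have hd : (d : ℍ → ℂ) = discriminant := rfl
  have hw : ((j : ℕ) : ℤ) * 12 + ((3 * (K - j) : ℕ) : ℤ) * 4 = ((12 * K : ℕ) : ℤ) := by
    push_cast [Nat.cast_sub hj]
    ring
  refine ⟨mcast hw ((d.pow j).mul (E₄.pow (3 * (K - j)))), fun τ => ?_, ?_⟩
  · rw [mcast_apply]
    simp only [coe_mul, coe_pow, Pi.mul_apply, Pi.pow_apply, hd]
  · rw [ModularForm.qExpansion_mcast, ModularForm.qExpansion_mul one_pos one_mem_strictPeriods_SL,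
      ModularForm.qExpansion_pow one_pos one_mem_strictPeriods_SL,
      ModularForm.qExpansion_pow one_pos one_mem_strictPeriods_SL, hQ, hd, hD]

theorem exists_sum (h6 : StEis) (c : ℕ → ℂ) (K : ℕ) : ∀ n ≤ K + 1,
    ∃ g : ModularForm 𝒮ℒ ((12 * K : ℕ) : ℤ),
      (∀ τ, g τ = ∑ j ∈ Finset.range n, c j * (discriminant τ ^ j * E₄ τ ^ (3 * (K - j)))) ∧
      qExpansion 1 (g : ℍ → ℂ) =
        ∑ j ∈ Finset.range n, PowerSeries.C (c j) * (toC D12 ^ j * toC Q4 ^ (3 * (K - j))) := by
  intro n
  induction n with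
  | zero =>
    intro _
    refine ⟨0, fun τ => by simp, ?_⟩
    rw [Finset.sum_range_zero]
    exact qExpansion_zero 1
  | succ n ih =>
    intro hn
    obtain ⟨g, hg1, hg2⟩ := ih (by omega)
    obtain ⟨m, hm1, hm2⟩ := exists_mono h6 (K := K) (j := n) (by omega)
    refine ⟨g + c n • m, fun τ => ?_, ?_⟩
    · rw [Finset.sum_range_succ, add_apply, hg1, ← hm1]
      rfl
    · rw [Finset.sum_range_succ, ← hg2, ← hm2]
      have e1 : ((g + c n • m : ModularForm 𝒮ℒ ((12 * K : ℕ) : ℤ)) : ℍ → ℂ) =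
        (g : ℍ → ℂ) + (c n • m : ModularForm 𝒮ℒ ((12 * K : ℕ) : ℤ)) := rfl
      have e2 : ((c n • m : ModularForm 𝒮ℒ ((12 * K : ℕ) : ℤ)) : ℍ → ℂ) = c n • (m : ℍ → ℂ) := rfl
      rw [e1, ModularForm.qExpansion_add one_pos one_mem_strictPeriods_SL, e2,
        ModularForm.qExpansion_smul one_pos one_mem_strictPeriods_SL,
        PowerSeries.smul_eq_C_mul]

theorem constCoeff_eb (k : ℕ) :
    PowerSeries.constantCoeff (RZC.eb k (RZC.toC Q4) (RZC.toC R6)) = (1 : ℂ) := by
  have hs : ∀ k, PowerSeries.constantCoeff (sg k) = 0 := fun k => by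
    rw [← PowerSeries.coeff_zero_eq_constantCoeff_apply]
    simp [sg]
  have hQ : PowerSeries.constantCoeff (RZC.toC Q4) = (1 : ℂ) := by
    have : PowerSeries.constantCoeff Q4 = 1 := by
      unfold Q4
      rw [map_add, map_one, map_mul, hs, mul_zero, add_zero]
    rw [← PowerSeries.coeff_zero_eq_constantCoeff_apply] at this ⊢
    rw [PowerSeries.coeff_map, this]
    simp
  have hR : PowerSeries.constantCoeff (RZC.toC R6) = (1 : ℂ) := by
    have : PowerSeries.constantCoeff R6 = 1 := by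
      unfold R6
      rw [map_sub, map_one, map_mul, hs, mul_zero, sub_zero]
    rw [← PowerSeries.coeff_zero_eq_constantCoeff_apply] at this ⊢
    rw [PowerSeries.coeff_map, this]
    simp
  unfold RZC.eb
  split_ifs
  · rw [map_pow, hQ, one_pow]
  · rw [map_mul, map_pow, hQ, hR, one_pow, mul_one]

end Tr3Aux

open Tr3Aux

theorem stTr3 (h1 : StHecke) (h2 : StStruct) (h3 : StRho) (h4 : StRhoP) (h5 : StInt)
    (h6 : StEis) : StTr3 := by
  classical
  intro A hA w f hf p hp hp3
  -- the weight is even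
  let f0 : ModularForm 𝒮ℒ (w : ℤ) := ModularFormClass.modularForm f
  have hf0 : (f0 : ℍ → ℂ) = f := rfl
  have hw : Even w := by
    by_contra hw
    rw [Nat.not_even_iff_odd] at hw
    have h := ModularForm.levelOne_odd_weight_eq_zero (by exact_mod_cast hw : Odd (w : ℤ)) f0
    have h' : (f : ℍ → ℂ) = 0 := by rw [← hf0, h]; rfl
    have h1 := hf.1
    unfold cf at h1
    rw [h', qExpansion_zero] at h1
    simp at h1
  have hcf : ∀ n, cf f n ∈ A := h5 A w f hf
  obtain ⟨c, hc, -, -, hq⟩ := h2 A.toSubring.toAddSubgroup w hw f0 hcf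
  rw [hf0] at hq
  have hcA : ∀ j, c j ∈ A := hc
  have hEb := PM.eb (A := A) hA
  have hD : PA A (toC D12) := PA.toC _
  set S := w / 12 + 1 with hS
  -- the largest index
  set T := (Finset.range S).filter (fun j => c j ∉ A.nonunits) with hT
  have hTne : T.Nonempty := by
    by_contra hT0
    rw [Finset.not_nonempty_iff_eq_empty] at hT0
    have hall : ∀ j ∈ Finset.range S, c j ∈ A.nonunits := by
      intro j hj
      by_contra hcj
      have : j ∈ T := Finset.mem_filter.2 ⟨hj, hcj⟩
      rw [hT0] at this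
      simp at this
    have hPM : PM A (qExpansion 1 (f : ℍ → ℂ)) := by
      rw [hq]
      refine PM.sum fun j hj => ?_
      exact ((PM.C (hall j hj)).mul_right (hD.pow j)).mul_right (PA.of_sub_one (hEb _))
    have h8 : cf f 1 ∈ A.nonunits := hPM 1
    rw [hf.1] at h8
    exact one_not_nonunits h8
  set K := T.max' hTne with hK
  have hKT : K ∈ T := T.max'_mem hTne
  have hKS : K < S := Finset.mem_range.1 (Finset.mem_filter.1 hKT).1
  have hKc : c K ∉ A.nonunits := (Finset.mem_filter.1 hKT).2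
  have hgt : ∀ j, K < j → j < S → c j ∈ A.nonunits := by
    intro j h1 h2
    by_contra hcj
    have : j ∈ T := Finset.mem_filter.2 ⟨Finset.mem_range.2 h2, hcj⟩
    exact absurd (T.le_max' j this) (not_le.2 h1)
  have ha0 : cf f 0 = 0 :=
    CuspFormClass.qExpansion_coeff_zero f one_pos one_mem_strictPeriods_SL
  have hc0 : c 0 = 0 := by
    have h : (qExpansion 1 (f : ℍ → ℂ)).coeff 0 = 0 := ha0
    rw [hq, PowerSeries.coeff_zero_eq_constantCoeff_apply, map_sum, hS,
      Finset.sum_range_succ'] at h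
    have hD0 : PowerSeries.constantCoeff (toC D12) = (0 : ℂ) := by
      rw [← PowerSeries.coeff_zero_eq_constantCoeff_apply, PowerSeries.coeff_map, h6.2.1]
      simp
    have hz : ∀ j ∈ Finset.range (w / 12), PowerSeries.constantCoeff
        (PowerSeries.C (c (j + 1)) * toC D12 ^ (j + 1) *
          eb (w - 12 * (j + 1)) (toC Q4) (toC R6)) = 0 := by
      intro j _
      rw [map_mul, map_mul, map_pow, hD0]
      simp
    rw [Finset.sum_eq_zero hz, zero_add, map_mul, map_mul, constCoeff_eb] at h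
    simpa using h
  have hK0 : 0 < K := by
    rcases Nat.eq_zero_or_pos K with h | h
    · rw [h, hc0] at hKc
      exact absurd zero_nonunits hKc
    · exact h
  -- the form `g`
  obtain ⟨g, hg1, hg2⟩ := exists_sum h6 c K (K + 1) le_rfl
  have hfg : ∀ n, cf f n - cf g n ∈ A.nonunits := by
    have hPM : PM A (qExpansion 1 (f : ℍ → ℂ) - qExpansion 1 (g : ℍ → ℂ)) := by
      rw [hq, hg2, ← Finset.sum_range_add_sum_Ico _ (show K + 1 ≤ S by omega), add_sub_right_comm,
        ← Finset.sum_sub_distrib]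
      refine PM.add (PM.sum fun j _ => ?_) (PM.sum fun j hj => ?_)
      · have e : PowerSeries.C (c j) * toC D12 ^ j * eb (w - 12 * j) (toC Q4) (toC R6) -
            PowerSeries.C (c j) * (toC D12 ^ j * toC Q4 ^ (3 * (K - j))) =
            (PowerSeries.C (c j) * toC D12 ^ j) *
              ((eb (w - 12 * j) (toC Q4) (toC R6) - 1) - (toC Q4 ^ (3 * (K - j)) - 1)) := by
          ring
        rw [e]
        exact PM.mul_left ((PA.C (hcA j)).mul (hD.pow j))
          ((hEb _).sub ((PM.Q4 hA).pow_sub_one _))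
      · rw [Finset.mem_Ico] at hj
        exact ((PM.C (hgt j (by omega) hj.2)).mul_right (hD.pow j)).mul_right
          (PA.of_sub_one (hEb _))
    intro n
    have h8 : (qExpansion 1 (f : ℍ → ℂ) - qExpansion 1 (g : ℍ → ℂ)).coeff n ∈ A.nonunits := hPM n
    rwa [map_sub] at h8
  have hgA : ∀ n, cf g n ∈ A := by
    intro n
    have := A.toSubring.sub_mem (hcf n) (nonunits_mem (hfg n))
    rwa [sub_sub_cancel] at this
  obtain ⟨g', hg'1, hg'2⟩ := h1 p hp (12 * K) (by omega) g
  have hwK : 12 * K ≤ w := by omega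
  have hpo : ∀ e : ℕ, Odd e → (p : ℂ) ^ e - p ∈ A.nonunits := by
    intro e he
    have := pow_odd_sub hA (n := (p : ℤ)) he
    simpa using this
  have hpA : (p : ℂ) ∈ A := nat_mem p
  have hp2 : (p : ℂ) ^ 2 - 1 ∈ A.nonunits :=
    (nat_pow_even_sub_one hA (prime_not_three_dvd hp hp3) even_two).1
  have ho1 : Odd (12 * K - 1) := by
    rw [Nat.odd_iff]
    omega
  have ho2 : Odd (w - 1) := by
    rw [Nat.odd_iff]
    rw [Nat.even_iff] at hw
    omega
  set a := cf f p with ha
  have haA : a ∈ A := hcf p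
  -- the difference `T_p g - a_p g`
  let h : ModularForm 𝒮ℒ ((12 * K : ℕ) : ℤ) := g' - a • g
  have hh0 : (h : ℍ → ℂ) = (g' : ℍ → ℂ) - (a • g : ModularForm 𝒮ℒ ((12 * K : ℕ) : ℤ)) := rfl
  have hh1 : ((a • g : ModularForm 𝒮ℒ ((12 * K : ℕ) : ℤ)) : ℍ → ℂ) = a • (g : ℍ → ℂ) := rfl
  have hch : ∀ n, cf h n = cf g' n - a * cf g n := by
    intro n
    unfold cf
    rw [hh0, ModularForm.qExpansion_sub one_pos one_mem_strictPeriods_SL, hh1,
      ModularForm.qExpansion_smul one_pos one_mem_strictPeriods_SL, map_sub,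
      PowerSeries.coeff_smul, smul_eq_mul]
  have hchm : ∀ n, cf h n ∈ A.nonunits := by
    intro n
    rw [hch, hg'1]
    -- compare with `f`
    have k1 : cf g (p * n) - cf f (p * n) ∈ A.nonunits := by
      have := nonunits_neg (hfg (p * n))
      rwa [neg_sub] at this
    have k2 : ∀ m e, Odd e → (p : ℂ) ^ e * cf g m - p * cf f m ∈ A.nonunits := by
      intro m e he
      have e1 : (p : ℂ) ^ e * cf g m - p * cf f m =
          ((p : ℂ) ^ e - p) * cf g m - p * (cf f m - cf g m) := by ring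
      rw [e1]
      exact nonunits_sub (nonunits_mul_right (hpo e he) (hgA m)) (nonunits_mul_left hpA (hfg m))
    have k3 : a * cf g n - a * cf f n ∈ A.nonunits := by
      have := nonunits_mul_left haA (nonunits_neg (hfg n))
      convert this using 1
      ring
    have k4 : ∀ m e, Odd e → (p : ℂ) ^ e * cf f m - p * cf f m ∈ A.nonunits := by
      intro m e he
      have e1 : (p : ℂ) ^ e * cf f m - p * cf f m = ((p : ℂ) ^ e - p) * cf f m := by ring
      rw [e1]
      exact nonunits_mul_right (hpo e he) (hcf m)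
    rcases Nat.eq_zero_or_pos n with rfl | hn
    · simp only [mul_zero, dvd_zero, if_true, Nat.zero_div] at *
      have e1 := k2 0 (12 * K - 1) ho1
      rw [ha0] at k1 k3 e1
      rw [mul_zero, sub_zero] at e1 k3
      rw [sub_zero] at k1
      exact nonunits_sub (nonunits_add k1 e1) k3
    · have hE := hf.2 p n hp hn
      by_cases hpn : p ∣ n
      · rw [if_pos hpn] at hE ⊢
        have e1 := k2 (n / p) (12 * K - 1) ho1
        have e2 := k4 (n / p) (w - 1) ho2
        have := nonunits_sub (nonunits_sub (nonunits_add k1 e1) k3) e2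
        convert this using 1
        linear_combination -hE
      · rw [if_neg hpn] at hE ⊢
        have := nonunits_sub k1 k3
        convert this using 1
        linear_combination -hE
  obtain ⟨he4, hdl, -, hJ⟩ := h3
  have hval := hJ A (mA A) (fun a ha z hz => nonunits_mul_left ha hz) K h hchm
  have hGP := h4 A hA p hp hp3 K g hgA
  -- values at `ρ`
  have him : 0 < rho.im := by
    have : rho.im = √3 / 2 := rfl
    rw [this]
    positivity
  let τ : ℍ := ⟨rho, him⟩
  have hI : (τ : ℂ) = rho := rfl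
  have hLh : LF (12 * K) h rho 1 = LF (12 * K) g' rho 1 - a * LF (12 * K) g rho 1 := by
    rw [← hI, LF_tau, LF_tau, LF_tau]
    rfl
  have hPosI : Pos rho 1 := by
    have := pos_tau τ
    rwa [hI] at this
  have hLg' := hg'2 rho 1 hPosI
  have hLg : LF (12 * K) g rho 1 / dl rho 1 ^ K = c K := by
    have hdlI : dl rho 1 = discriminant τ := by
      unfold dl; rw [← hI, LF_tau]
    have he4I : e4 rho 1 = E₄ τ := by
      unfold e4; rw [← hI, LF_tau]
    rw [← hI, LF_tau, hg1, hI, ← he4I, he4, Finset.sum_range_succ, ← hdlI]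
    rw [Finset.sum_eq_zero (fun j hj => ?_)]
    · rw [Nat.sub_self, mul_zero, pow_zero, zero_add, mul_one, mul_div_assoc,
        div_self (pow_ne_zero K hdl), mul_one]
    · have hj' : j < K := Finset.mem_range.1 hj
      rw [zero_pow (by omega), mul_zero, mul_zero]
  set v := LF (12 * K) g rho 1 / dl rho 1 ^ K with hv
  have hvA : v ∈ A := by rw [hLg]; exact hcA K
  have hav : (a - (1 + p)) * v ∈ A.nonunits := by
    have e1 : (a - (1 + p)) * v = (p : ℂ) ^ (12 * K - 1) *
        ((∑ i, LFs (12 * K) g p rho 1 i) / dl rho 1 ^ K - (1 + p) * v) -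
        LF (12 * K) h rho 1 / dl rho 1 ^ K + (((p : ℂ) ^ (12 * K - 1) - p) * ((1 + p) * v) +
        ((p : ℂ) ^ 2 - 1) * v) := by
      rw [hLh, hLg', hv]
      ring
    rw [e1]
    have hA1 : (p : ℂ) ^ (12 * K - 1) ∈ A := A.toSubring.pow_mem hpA _
    have hA2 : (1 + (p : ℂ)) * v ∈ A := A.mul_mem _ _ (A.add_mem _ _ A.one_mem hpA) hvA
    exact nonunits_add (nonunits_sub (nonunits_mul_left hA1 hGP) hval)
      (nonunits_add (nonunits_mul_right (hpo _ ho1) hA2) (nonunits_mul_right hp2 hvA))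
  have hv0 : v ≠ 0 := by
    intro h0
    rw [hLg] at h0
    rw [h0] at hKc
    exact hKc zero_nonunits
  have hvi : v⁻¹ ∈ A := by
    rw [hLg]
    exact inv_mem_of_not_nonunits (hcA K) hKc
  rw [mul_comm] at hav
  exact nonunits_of_mul_unit hvi hv0 hav

end

end Pool.Agent.Lib.MP_7c08ba_nt.RZC3
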