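import Pool.Agent.Lib.MP_7c08ba_nt.RZ.Basic3

set_option autoImplicit false

/-! (V0) the value of an eigenform at an ordinary lattice, `p = 3`. -/

namespace Pool.Agent.Lib.MP_7c08ba_nt.RZC3

open UpperHalfPlane ModularForm EisensteinSeries MatrixGroups NumberField RZC
open scoped Real Manifold ComplexConjugate

noncomputable section

namespace Val03Aux

/-- the maximal ideal as an additive subgroup -/
def mx (A : ValuationSubring ℂ) : AddSubgroup ℂ where
  carrier := A.nonunits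
  add_mem' := nonunits_add
  zero_mem' := zero_nonunits
  neg_mem' := nonunits_neg

theorem mem_mx {A : ValuationSubring ℂ} {x : ℂ} : x ∈ mx A ↔ x ∈ A.nonunits := Iff.rfl

theorem exists_eb (k : ℕ) (hk : Even k) (h2 : k ≠ 2) : ∃ g : ModularForm 𝒮ℒ (k : ℤ),
    (∀ τ, g τ = eb k (E₄ τ) (E₆ τ)) ∧
    qExpansion 1 (g : ℍ → ℂ) =
      eb k (qExpansion 1 (E₄ : ℍ → ℂ)) (qExpansion 1 (E₆ : ℍ → ℂ)) := by
  unfold eb
  by_cases h : k % 4 = 0
  · refine ⟨ModularForm.mcast (by omega) (E₄.pow (k / 4)), fun τ => ?_, ?_⟩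
    · rw [if_pos h]
      simp only [coe_mcast, coe_pow, Pi.pow_apply]
    · rw [if_pos h]
      simp only [coe_mcast]
      exact ModularForm.qExpansion_pow one_pos one_mem_strictPeriods_SL _ _
  · have h3 : k % 4 = 2 := by
      obtain ⟨m, hm⟩ := hk
      omega
    refine ⟨ModularForm.mcast (by omega) ((E₄.pow ((k - 6) / 4)).mul E₆), fun τ => ?_, ?_⟩
    · rw [if_neg h]
      simp only [coe_mcast, coe_mul, coe_pow, Pi.mul_apply, Pi.pow_apply]
    · rw [if_neg h]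
      simp only [coe_mcast]
      rw [ModularForm.qExpansion_mul one_pos one_mem_strictPeriods_SL,
        ModularForm.qExpansion_pow one_pos one_mem_strictPeriods_SL]

theorem eb_toC (k : ℕ) : eb k (toC Q4) (toC R6) = toC (eb k Q4 R6) := by
  unfold eb
  split_ifs <;> simp [toC]

theorem three_dvd_eb (k : ℕ) : (3 : PowerSeries ℤ) ∣ eb k Q4 R6 - 1 := by
  have h4 : (3 : PowerSeries ℤ) ∣ Q4 - 1 := ⟨80 * sg 3, by unfold Q4; ring⟩
  have h6 : (3 : PowerSeries ℤ) ∣ R6 - 1 := ⟨-168 * sg 5, by unfold R6; ring⟩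
  have hp : ∀ n : ℕ, (3 : PowerSeries ℤ) ∣ Q4 ^ n - 1 := fun n =>
    h4.trans (by simpa using sub_dvd_pow_sub_pow Q4 1 n)
  unfold eb
  split_ifs
  · exact hp _
  · obtain ⟨a, ha⟩ := hp ((k - 6) / 4)
    obtain ⟨b, hb⟩ := h6
    refine ⟨a * R6 + b, ?_⟩
    linear_combination R6 * ha + hb

theorem LF_eb {w₁ w₂ : ℂ} (hp : Pos w₁ w₂) (k : ℕ) (hk : Even k) (h2 : k ≠ 2) :
    (w₂ ^ k)⁻¹ * eb k ((E₄ : ℍ → ℂ) ⟨w₁ / w₂, hp⟩) ((E₆ : ℍ → ℂ) ⟨w₁ / w₂, hp⟩) =
      eb k (e4 w₁ w₂) (e6 w₁ w₂) := by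
  unfold e4 e6
  rw [LF_eq hp, LF_eq hp]
  have hw := hp.ne
  unfold eb
  by_cases h : k % 4 = 0
  · rw [if_pos h, if_pos h, mul_pow, inv_pow, ← pow_mul]
    congr 3
    omega
  · have h3 : k % 4 = 2 := by
      obtain ⟨m, hm⟩ := hk
      omega
    rw [if_neg h, if_neg h, mul_pow, inv_pow, ← pow_mul]
    have h4 : w₂ ^ k = w₂ ^ (4 * ((k - 6) / 4)) * w₂ ^ 6 := by
      rw [← pow_add]
      congr 1
      omega
    rw [h4]
    field_simp

theorem eb_shift (w : ℕ) (h12 : 12 ≤ w) (h14 : w ≠ 14) (hev : Even w) (a b : ℂ) :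
    a ^ 3 * eb (w - 12) a b = eb w a b := by
  unfold eb
  by_cases h : w % 4 = 0
  · rw [if_pos h, if_pos (by omega), ← pow_add]
    congr 1
    omega
  · have h3 : w % 4 = 2 := by
      obtain ⟨m, hm⟩ := hev
      omega
    rw [if_neg h, if_neg (by omega), ← mul_assoc, ← pow_add]
    congr 2
    omega

theorem disc_rel {w₁ w₂ : ℂ} (hp : Pos w₁ w₂) :
    1728 * dl w₁ w₂ = e4 w₁ w₂ ^ 3 - e6 w₁ w₂ ^ 2 := by
  unfold dl e4 e6
  rw [LF_eq hp, LF_eq hp, LF_eq hp, discriminant_eq_E₄_cube_sub_E₆_sq]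
  have hw := hp.ne
  field_simp

theorem eb_ne {A : ValuationSubring ℂ} (hA : Above3 A) {w₁ w₂ : ℂ} (hO : Ord A w₁ w₂) (w : ℕ) :
    eb w (e4 w₁ w₂) (e6 w₁ w₂) ≠ 0 := by
  obtain ⟨hp, h4, hj⟩ := hO
  have h6 : e6 w₁ w₂ ≠ 0 := by
    intro h
    have h1 := disc_rel hp
    rw [h] at h1
    have h2 : (1728 : ℂ) * jv w₁ w₂ = 1 := by
      unfold jv
      field_simp
      linear_combination h1
    have h3 : (1728 : ℂ) * jv w₁ w₂ ∈ A.nonunits := by
      have h5 : ((1728 : ℤ) : ℂ) ∈ A.nonunits := three_dvd_nonunits hA ⟨576, by norm_num⟩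
      push_cast at h5
      exact nonunits_mul_right h5 hj
    rw [h2] at h3
    exact one_not_nonunits h3
  unfold eb
  split_ifs
  · exact pow_ne_zero _ h4
  · exact mul_ne_zero (pow_ne_zero _ h4) h6

/-- a normalised cusp form has even weight `w ≥ 12`, `w ≠ 14` -/
theorem weight_ok (h3 : StStruct) (h4 : StEis) (w : ℕ) (f : CuspForm 𝒮ℒ (w : ℤ))
    (h1 : cf f 1 = 1) : Even w ∧ 12 ≤ w ∧ w ≠ 14 := by
  set F : ModularForm 𝒮ℒ (w : ℤ) := CuspForm.toModularFormₗ f with hF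
  have hcoe : (F : ℍ → ℂ) = f := rfl
  have hev : Even w := by
    by_contra hodd
    rw [Nat.not_even_iff_odd] at hodd
    have h0 : F = 0 := ModularForm.levelOne_odd_weight_eq_zero (by exact_mod_cast hodd) F
    have h2 : cf (F : ℍ → ℂ) 1 = 1 := by rw [hcoe]; exact h1
    rw [h0] at h2
    have h5 : qExpansion 1 ((0 : ModularForm 𝒮ℒ (w : ℤ)) : ℍ → ℂ) = 0 :=
      (ModularForm.qExpansion_eq_zero_iff one_pos one_mem_strictPeriods_SL _).2 rfl
    unfold cf at h2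
    rw [h5] at h2
    simp at h2
  obtain ⟨c, -, hc2, -, hq⟩ := h3 ⊤ w hev F (fun n => AddSubgroup.mem_top _)
  obtain ⟨-, hD0, -, -, -, -⟩ := h4
  have h0 : (qExpansion 1 (F : ℍ → ℂ)).coeff 0 = 0 :=
    (ModularForm.isCuspForm_iff_coeffZero_eq_zero F).1
      (ModularForm.CuspForm.isCuspForm_toModularFormₗ f)
  have hD : PowerSeries.constantCoeff (toC D12) = 0 := by
    rw [← PowerSeries.coeff_zero_eq_constantCoeff_apply, PowerSeries.coeff_map, hD0]
    simp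
  have hQ : PowerSeries.constantCoeff (toC Q4) = 1 := by
    rw [← PowerSeries.coeff_zero_eq_constantCoeff_apply, PowerSeries.coeff_map]
    simp [Q4, sg]
  have hR : PowerSeries.constantCoeff (toC R6) = 1 := by
    rw [← PowerSeries.coeff_zero_eq_constantCoeff_apply, PowerSeries.coeff_map]
    simp [R6, sg]
  have hc0 : c 0 = 0 := by
    rw [hq, PowerSeries.coeff_zero_eq_constantCoeff_apply, map_sum,
      Finset.sum_eq_single 0] at h0
    · have : PowerSeries.constantCoeff (eb w (toC Q4) (toC R6)) = 1 := by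
        unfold eb
        split_ifs <;> simp [hQ, hR]
      simpa [this] using h0
    · intro j _ hj
      simp [hD, hj]
    · intro h
      simp at h
  refine ⟨hev, ?_⟩
  by_contra hcon
  have hall : ∀ j ∈ Finset.range (w / 12 + 1), c j = 0 := by
    intro j hj
    rw [Finset.mem_range] at hj
    rcases Nat.eq_zero_or_pos j with rfl | hjp
    · exact hc0
    · have : w = 14 := by omega
      subst this
      have : j = 1 := by omega
      subst this
      exact hc2 1 rfl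
  have hz : qExpansion 1 (F : ℍ → ℂ) = 0 := by
    rw [hq]
    refine Finset.sum_eq_zero fun j hj => ?_
    rw [hall j hj]
    simp
  have h2 : cf (F : ℍ → ℂ) 1 = 1 := by rw [hcoe]; exact h1
  unfold cf at h2
  rw [hz] at h2
  simp at h2

theorem eb_mul {k j : ℕ} (hk : Even k) (hj : 12 * j ≤ k) (h2 : k ≠ 12 * j + 2) (a b : ℂ) :
    a ^ (3 * j) * eb (k - 12 * j) a b = eb k a b := by
  unfold eb
  have hm : (k - 12 * j) % 4 = k % 4 := by omega
  rw [hm]
  split_ifs with h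
  · rw [← pow_add]
    congr 1
    omega
  · obtain ⟨l, hl⟩ := hk
    rw [← mul_assoc, ← pow_add]
    congr 2
    omega

theorem stEval (hS : StStruct) : StEval := by
  intro A J hJ k hk f hf w₁ w₂ ⟨hpos, h4, hj⟩
  obtain ⟨c, hc, hc2, hval, -⟩ := hS J k hk f hf
  refine ⟨∑ j ∈ Finset.range (k / 12 + 1), jv w₁ w₂ ^ j * c j, ?_, ?_⟩
  · exact sum_mem fun j _ => hJ _ (pow_mem hj j) _ (hc j)
  · have hw2 := hpos.ne
    rw [LF_eq hpos, hval, Finset.mul_sum, Finset.sum_mul]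
    refine Finset.sum_congr rfl fun j hjr => ?_
    rw [Finset.mem_range] at hjr
    by_cases h2 : k = 12 * j + 2
    · rw [hc2 j h2]; simp
    have hjk : 12 * j ≤ k := by omega
    rw [← eb_mul hk hjk h2]
    set τ : ℍ := ⟨w₁ / w₂, hpos⟩ with hτ
    have e4' : e4 w₁ w₂ = (w₂ ^ 4)⁻¹ * E₄ τ := LF_eq hpos
    have e6' : e6 w₁ w₂ = (w₂ ^ 6)⁻¹ * E₆ τ := LF_eq hpos
    have dl' : dl w₁ w₂ = (w₂ ^ 12)⁻¹ * discriminant τ := LF_eq hpos
    have hd : dl w₁ w₂ = jv w₁ w₂ * e4 w₁ w₂ ^ 3 := by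
      unfold jv
      field_simp
    have key : eb (k - 12 * j) (e4 w₁ w₂) (e6 w₁ w₂) =
        (w₂ ^ (k - 12 * j))⁻¹ * eb (k - 12 * j) (E₄ τ) (E₆ τ) := by
      rw [e4', e6']
      obtain ⟨l, hl⟩ := hk
      unfold eb
      split_ifs with h
      · rw [mul_pow, inv_pow, ← pow_mul]
        congr 3
        omega
      · rw [mul_pow, inv_pow, ← pow_mul]
        have : k - 12 * j = 4 * ((k - 12 * j - 6) / 4) + 6 := by omega
        conv_rhs => rw [this, pow_add, mul_inv]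
        have h4' : 4 * ((k - 12 * j - 6) / 4) + 6 - 6 = 4 * ((k - 12 * j - 6) / 4) := by omega
        rw [h4', Nat.mul_div_cancel_left _ (by norm_num : 0 < 4)]
        ring
    rw [key]
    have h5 : jv w₁ w₂ ^ j * e4 w₁ w₂ ^ (3 * j) = (w₂ ^ (12 * j))⁻¹ * discriminant τ ^ j := by
      rw [pow_mul, ← mul_pow, ← hd, dl', mul_pow, inv_pow, ← pow_mul]
    have h6 : (w₂ ^ k)⁻¹ = (w₂ ^ (12 * j))⁻¹ * (w₂ ^ (k - 12 * j))⁻¹ := by
      rw [← mul_inv, ← pow_add]
      congr 2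
      omega
    rw [h6]
    linear_combination (-(c j) * (w₂ ^ (k - 12 * j))⁻¹ * eb (k - 12 * j) (E₄ τ) (E₆ τ)) * h5

end Val03Aux

open Val03Aux in
theorem stVal03 (_h1 : StInt) (h2 : StDelta3) (h3 : StStruct) (h4 : StEis) : StVal03 := by
  intro A hA w f hf w₁ w₂ hO
  obtain ⟨hev, h12, h14⟩ := weight_ok h3 h4 w f hf.1
  have hne := eb_ne hA hO w
  refine ⟨hne, ?_⟩
  obtain ⟨-, hD⟩ := h2
  obtain ⟨-, hfD⟩ := hD A hA w f hf
  set F : ModularForm 𝒮ℒ (w : ℤ) := CuspForm.toModularFormₗ f with hF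
  have hcoe : (F : ℍ → ℂ) = f := rfl
  have hev' : Even (w - 12) := by
    obtain ⟨m, hm⟩ := hev
    exact ⟨m - 6, by omega⟩
  obtain ⟨E, hE1, hE2⟩ := exists_eb (w - 12) hev' (by omega)
  set Δ' : ModularForm 𝒮ℒ 12 := CuspForm.toModularFormₗ CuspForm.discriminant with hΔ'
  have hΔcoe : (Δ' : ℍ → ℂ) = discriminant := rfl
  set G : ModularForm 𝒮ℒ (w : ℤ) := F - ModularForm.mcast (by omega) (Δ'.mul E) with hG
  obtain ⟨-, -, -, hq4, hq6, hqD⟩ := h4
  have hcoef : ∀ n, cf G n ∈ mx A := by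
    intro n
    have e1 : qExpansion 1 (G : ℍ → ℂ) =
        qExpansion 1 (F : ℍ → ℂ) - toC D12 * toC (eb (w - 12) Q4 R6) := by
      rw [hG]
      rw [FunLike.coe_sub, ModularForm.qExpansion_sub one_pos one_mem_strictPeriods_SL,
        coe_mcast, ModularForm.qExpansion_mul one_pos one_mem_strictPeriods_SL, hE2, hq4, hq6,
        eb_toC]
      congr 2
    obtain ⟨z, hz⟩ := three_dvd_eb (w - 12)
    have e2 : toC D12 * toC (eb (w - 12) Q4 R6) = toC D12 + toC (3 * (D12 * z)) := by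
      rw [← map_mul, ← map_add]
      congr 1
      linear_combination D12 * hz
    have e3 : cf G n = (cf f n - (D12.coeff n : ℂ)) - 3 * (((D12 * z).coeff n : ℤ) : ℂ) := by
      unfold cf
      rw [e1, e2, map_sub, map_add, hcoe, PowerSeries.coeff_map, PowerSeries.coeff_map]
      have : (3 * (D12 * z)).coeff n = 3 * (D12 * z).coeff n := by
        have e7 : (3 : PowerSeries ℤ) * (D12 * z) = D12 * z + D12 * z + D12 * z := by ring
        rw [e7, map_add, map_add]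
        ring
      rw [this]
      simp only [eq_intCast]
      push_cast
      ring
    rw [mem_mx, e3]
    exact nonunits_sub (hfD n) (nonunits_mul_right hA (int_mem _))
  obtain ⟨z, hz, hval⟩ := stEval h3 A (mx A) (fun a ha z hz => nonunits_mul_left ha hz) w hev G hcoef
    w₁ w₂ hO
  obtain ⟨hp, he4, hj⟩ := hO
  have hdl : dl w₁ w₂ = jv w₁ w₂ * e4 w₁ w₂ ^ 3 := by
    unfold jv
    field_simp
  have hGv : LF w G w₁ w₂ = LF w f w₁ w₂ - jv w₁ w₂ * eb w (e4 w₁ w₂) (e6 w₁ w₂) := by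
    rw [← eb_shift w h12 h14 hev, ← mul_assoc, ← hdl, ← LF_eb hp (w - 12) hev' (by omega)]
    unfold dl
    rw [LF_eq hp, LF_eq hp, LF_eq hp]
    have e5 : (G : ℍ → ℂ) ⟨w₁ / w₂, hp⟩ = f ⟨w₁ / w₂, hp⟩ -
        discriminant ⟨w₁ / w₂, hp⟩ * E ⟨w₁ / w₂, hp⟩ := rfl
    rw [e5, hE1]
    have e6' : w₂ ^ w = w₂ ^ 12 * w₂ ^ (w - 12) := by
      rw [← pow_add]
      congr 1
      omega
    have hw := hp.ne
    rw [e6']
    field_simp
  have : LF w f w₁ w₂ / eb w (e4 w₁ w₂) (e6 w₁ w₂) - jv w₁ w₂ = z := by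
    rw [hval] at hGv
    field_simp
    linear_combination -hGv
  rw [this]
  exact hz

end

end Pool.Agent.Lib.MP_7c08ba_nt.RZC3
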