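import Pool.Agent.Lib.MP_7c08ba_nt.RZ.C.All
import Pool.Agent.Lib.MP_7c08ba_nt.RZ.C3.Adapt3
import Pool.Agent.Lib.MP_7c08ba_nt.RZ.C3.App3
import Pool.Agent.Lib.MP_7c08ba_nt.RZ.C3.Basis3
import Pool.Agent.Lib.MP_7c08ba_nt.RZ.C3.Chain3
import Pool.Agent.Lib.MP_7c08ba_nt.RZ.C3.Cycle3
import Pool.Agent.Lib.MP_7c08ba_nt.RZ.C3.Delta3
import Pool.Agent.Lib.MP_7c08ba_nt.RZ.C3.E2rel3
import Pool.Agent.Lib.MP_7c08ba_nt.RZ.C3.Final3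
import Pool.Agent.Lib.MP_7c08ba_nt.RZ.C3.Good3
import Pool.Agent.Lib.MP_7c08ba_nt.RZ.C3.Inv
import Pool.Agent.Lib.MP_7c08ba_nt.RZ.C3.Level3
import Pool.Agent.Lib.MP_7c08ba_nt.RZ.C3.Odd3
import Pool.Agent.Lib.MP_7c08ba_nt.RZ.C3.OddP3
import Pool.Agent.Lib.MP_7c08ba_nt.RZ.C3.OrdC3
import Pool.Agent.Lib.MP_7c08ba_nt.RZ.C3.Prod3
import Pool.Agent.Lib.MP_7c08ba_nt.RZ.C3.Qrel3
import Pool.Agent.Lib.MP_7c08ba_nt.RZ.C3.Rep3
import Pool.Agent.Lib.MP_7c08ba_nt.RZ.C3.Rho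
import Pool.Agent.Lib.MP_7c08ba_nt.RZ.C3.RhoP
import Pool.Agent.Lib.MP_7c08ba_nt.RZ.C3.Sum3
import Pool.Agent.Lib.MP_7c08ba_nt.RZ.C3.Super3
import Pool.Agent.Lib.MP_7c08ba_nt.RZ.C3.Symm3
import Pool.Agent.Lib.MP_7c08ba_nt.RZ.C3.SymmB3
import Pool.Agent.Lib.MP_7c08ba_nt.RZ.C3.Tor3
import Pool.Agent.Lib.MP_7c08ba_nt.RZ.C3.Tr3
import Pool.Agent.Lib.MP_7c08ba_nt.RZ.C3.Unit3
import Pool.Agent.Lib.MP_7c08ba_nt.RZ.C3.Val03
import Pool.Agent.Lib.MP_7c08ba_nt.RZ.C3.ValR3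

set_option autoImplicit false

/-! Part (C3), complete. -/

namespace Pool.Agent.Lib.MP_7c08ba_nt.RZC3

open RZC

theorem pSymm3 : StSymm3 := stSymm3 (stSymmA stLat stMk pPerm) stSymmB3
theorem pOddP3 : StOddP3 := stOddP3 pSymm3 pEval stEis stSub
theorem pOdd3 : StOdd3 := stOdd3 stLat (stStep stSub) pOddP3
theorem pRho : StRho := stRho pStruct stLat
theorem pRhoP : StRhoP := stRhoP pSymm3 pRho stSub stLat pPerm
theorem pTr3 : StTr3 := stTr3 pHecke pStruct pRho pRhoP pInt stEis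
theorem pDelta3 : StDelta3 := stDelta3 pTr3 pInt pDelta pRamQ pStruct stEis
theorem pVal03 : StVal03 := stVal03 pInt pDelta3 pStruct stEis
theorem pSuper3 : StSuper3 := stSuper3 stInv
theorem pTor3 : StTor3 := stTor3 stProd3 pSuper3
theorem pLevel3 : StLevel3 := stLevel3 stProd3 pSuper3 pTor3 stLink
theorem pAdapt3 : StAdapt3 := stAdapt3 stBasis3
theorem pChain3 : StChain3 := stChain3 pAdapt3
theorem pOrdC3 : StOrdC3 := stOrdC3 pLevel3 stCycle3 stLat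
theorem pE2rel3 : StE2rel3 := stE2rel3 stRam pLevel3
theorem pQrel3 : StQrel3 := stQrel3 stEis pLevel3 pE2rel3
theorem pApp3 : StApp3 := stApp3 stGood3 pQrel3 pE2rel3 stE2Lat pOrdC3 pLevel3 stLat stEis
theorem pValR3 : StValR3 := stValR3 pInt pDelta3 pStruct stEis stDD stNorm pTheta pApp3 pOrdC3
theorem pSum3 : StSum3 := stSum3 stBasis3 stUnit3 stRep3 pChain3 pOrdC3 pOdd3 stLat

/-- **Part (C3)**: the period is not zero. -/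
theorem stmtC3_all : StmtC3 := stmtC3 stLat stE2Lat pTaylor stBasis3 stDD pValR3 pSum3

end Pool.Agent.Lib.MP_7c08ba_nt.RZC3
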