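import Pool.Agent.Lib.MP_7c08ba_nt.RZ.Basic3
import Pool.Agent.Lib.MP_7c08ba_nt.RZ.C.Final

set_option autoImplicit false

/-! Part (C3): from the statements of the modules to `StmtC3`. -/

namespace Pool.Agent.Lib.MP_7c08ba_nt.RZC3

open UpperHalfPlane ModularForm EisensteinSeries MatrixGroups NumberField RZC
open scoped Real Manifold ComplexConjugate nonZeroDivisors

noncomputable section

/-- (C3) -/
theorem stmtC3 (hL : StLat) (hE : StE2Lat) (hT : StTaylor) (hB : StBasis3) (hD : StDD)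
    (hV : StValR3) (hS : StSum3) : StmtC3 := by
  intro D F _ _ s σ V w r f ψ hFC hf hψ hV2
  have hA : Above3 V := by
    rw [Above3, nonunits_iff]
    exact hV2.three
  have hfe := isEig_of hf
  obtain ⟨hw12, hwe⟩ := weight_ge hf.one
  obtain ⟨G, hGh, hG, hval⟩ := hV V hA w f hfe
  obtain ⟨κ, hκ, hB'⟩ := hB D F s hFC σ
  -- homogeneity of the derivative
  have hGr : (dd^[r] G).IsWeightedHomogeneous wt (w + 2 * r) :=
    (hD ⊤ w G hGh (fun m => trivial) r).1
  -- representatives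
  have hrep : ∀ c : ClassGroup (𝓞 F), ∃ a : (Ideal (𝓞 F))⁰, ClassGroup.mk0 a = c :=
    fun c => ClassGroup.mk0_surjective c
  choose rep hrep using hrep
  have hne : ∀ c, (rep c : Ideal (𝓞 F)) ≠ ⊥ := fun c => nonZeroDivisors.coe_ne_zero (rep c)
  have hbas : ∀ c, ∃ w₁ w₂ : ℂ, IsB σ (rep c : Ideal (𝓞 F)) w₁ w₂ := fun c =>
    (hB' _ (hne c)).1
  choose b₁ b₂ hb using hbas
  have hx : ∀ c, ∃ x ∈ (rep c : Ideal (𝓞 F)), σ (x : F) = b₁ c := fun c =>
    ((hb c).2 _).1 (Submodule.subset_span (by simp))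
  have hy : ∀ c, ∃ x ∈ (rep c : Ideal (𝓞 F)), σ (x : F) = b₂ c := fun c =>
    ((hb c).2 _).1 (Submodule.subset_span (by simp))
  choose X hXm hX using hx
  choose Y hYm hY using hy
  have hinj : Function.Injective fun x : 𝓞 F => σ (x : F) :=
    σ.injective.comp RingOfIntegers.coe_injective
  let c : RZ.Reps σ :=
    { R := rep
      X := X
      Y := Y
      cls := hrep
      bas := fun A =>
        { mem := by
            intro z
            constructor
            · intro hz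
              obtain ⟨m, n, h⟩ := mem_lat.1 (((hb A).2 (σ (z : F))).2 ⟨z, hz, rfl⟩)
              refine ⟨m, n, hinj ?_⟩
              simp only [map_add, map_mul, map_intCast]
              rw [hX, hY, h]
            · rintro ⟨m, n, rfl⟩
              exact Ideal.add_mem _ (Ideal.mul_mem_left _ _ (hXm A))
                (Ideal.mul_mem_left _ _ (hYm A))
          pos := by
            have := pos_iff.1 (hb A).1
            rwa [← hX, ← hY] at this } }
  refine ⟨c, ?_⟩
  have hsum := hS D F s hFC σ V hA (w + 2 * r) (fun a => ψ a) (by omega)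
    (hwe.add (even_two_mul r))
    { mul := fun a b _ _ => map_mul ψ a b
      princ := fun x hx => hψ x hx
      triv := fun a ha => nonunits_iff.2 (hV2.triv a ha) }
    (SS (dd^[r] G)) (fun _ _ _ _ hw hv hl => SS_lat hL hE _ hw hv hl)
    (fun _ _ _ hc hw => SS_smul hGr hc hw)
    (fun m c u v hm hc hu i => hval r m c u v hm hc hu i) rep b₁ b₂ hrep hb
  have key : RZ.period f r ψ c = (4 * π * (κ : ℝ)) ^ r / (r.factorial : ℂ) *
      ∑ A, ψ (rep A : Ideal (𝓞 F)) * SS (dd^[r] G) (b₁ A) (b₂ A) := by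
    unfold RZ.period
    rw [Finset.mul_sum]
    refine Finset.sum_congr rfl fun A _ => ?_
    change ψ (rep A : Ideal (𝓞 F)) * ((Ideal.absNorm (rep A : Ideal (𝓞 F)) : ℂ) ^ r)⁻¹ *
      RZ.lfr f r (σ (X A)) (σ (Y A)) = _
    rw [hX, hY, lfr_eq hT hG r (hb A).1, ((hB' _ (hne A)).2 _ _ (hb A)).1]
    have hN : (Ideal.absNorm (rep A : Ideal (𝓞 F)) : ℂ) ≠ 0 := by
      exact_mod_cast Ideal.absNorm_ne_zero_iff_mem_nonZeroDivisors.2 (rep A).2
    have h1 : (4 * (π : ℂ) * ((((Ideal.absNorm (rep A : Ideal (𝓞 F)) : ℝ) * κ : ℝ)) : ℂ)) ^ r =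
        (Ideal.absNorm (rep A : Ideal (𝓞 F)) : ℂ) ^ r * (4 * π * (κ : ℝ)) ^ r := by
      rw [← mul_pow]
      congr 1
      push_cast
      ring
    rw [h1]
    have hNr := pow_ne_zero r hN
    have hfac : (r.factorial : ℂ) ≠ 0 := by exact_mod_cast r.factorial_ne_zero
    field_simp
  rw [key]
  refine mul_ne_zero (div_ne_zero (pow_ne_zero _ ?_) ?_) hsum
  · have hp : (π : ℂ) ≠ 0 := by exact_mod_cast Real.pi_ne_zero
    have h2 : ((κ : ℝ) : ℂ) ≠ 0 := by exact_mod_cast hκ.ne'
    exact mul_ne_zero (mul_ne_zero (by norm_num) hp) h2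
  · exact_mod_cast r.factorial_ne_zero

end

end Pool.Agent.Lib.MP_7c08ba_nt.RZC3
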