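import Pool.Agent.Lib.MP_7c08ba_nt.RZ.Basic3

set_option autoImplicit false

/-! Module G2 for `p = 3`: the hexagonal lattice. -/

namespace Pool.Agent.Lib.MP_7c08ba_nt.RZC3

open UpperHalfPlane ModularForm EisensteinSeries MatrixGroups NumberField RZC
open scoped Real Manifold ComplexConjugate

noncomputable section

namespace RhoAux

theorem rho_sq : rho ^ 2 = -1 - rho := by
  have h3 : √3 * √3 = (3 : ℝ) := Real.mul_self_sqrt (by norm_num)
  apply Complex.ext
  · simp only [rho, pow_two, Complex.mul_re, Complex.sub_re, Complex.neg_re, Complex.one_re]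
    linear_combination (-1 / 4 : ℝ) * h3
  · simp only [rho, pow_two, Complex.mul_im, Complex.sub_im, Complex.neg_im, Complex.one_im]
    ring

theorem rho_cube : rho ^ 3 = 1 := by
  linear_combination (rho - 1) * rho_sq

theorem pos_rho : Pos rho 1 := by simp [Pos, rho]

theorem rho_ne : rho ≠ 0 := pos_rho.ne1

theorem rho_ne_one : rho ≠ 1 := by
  intro h
  have h1 := rho_sq
  rw [h] at h1
  norm_num at h1

/-- the point `ρ` -/
def tr : ℍ := ⟨rho / 1, pos_rho⟩

theorem LF_rho (k : ℕ) (F : ℍ → ℂ) : LF k F rho 1 = F tr := by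
  rw [LF_eq pos_rho, one_pow, inv_one, one_mul]
  rfl

theorem lat_rho : lat rho 1 = lat (rho * rho) (rho * 1) := by
  ext z
  rw [mem_lat, mem_lat]
  constructor
  · rintro ⟨m, n, h⟩
    refine ⟨-n, m - n, ?_⟩
    rw [← h, ← pow_two, rho_sq]
    push_cast
    ring
  · rintro ⟨m, n, h⟩
    refine ⟨n - m, -m, ?_⟩
    rw [← h, ← pow_two, rho_sq]
    push_cast
    ring

theorem e4_rho (h2 : StLat) : (E₄ : ℍ → ℂ) tr = 0 := by
  have hpos : Pos (rho * rho) (rho * 1) := (pos_smul rho_ne).mpr pos_rho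
  have h := h2 4 E₄ _ _ _ _ pos_rho hpos lat_rho
  rw [LF_smul rho_ne, LF_rho] at h
  have h4 : (rho ^ 4)⁻¹ = rho⁻¹ := by
    rw [pow_succ, rho_cube, one_mul]
  rw [h4] at h
  have h5 : (rho - 1) * (E₄ : ℍ → ℂ) tr = 0 := by
    have h6 := congrArg (fun t => rho * t) h
    simp only [← mul_assoc, mul_inv_cancel₀ rho_ne, one_mul] at h6
    linear_combination h6
  rcases mul_eq_zero.mp h5 with h6 | h6
  · exact absurd (sub_eq_zero.mp h6) rho_ne_one
  · exact h6

theorem dl_rho : discriminant tr ≠ 0 := discriminant_ne_zero _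

theorem e6_rho (h2 : StLat) : (E₆ : ℍ → ℂ) tr ^ 2 = -1728 * discriminant tr := by
  rw [discriminant_eq_E₄_cube_sub_E₆_sq, e4_rho h2]
  ring

theorem eb_12 {K : Type*} [Monoid K] (m : ℕ) (a b : K) : eb (12 * m) a b = (a ^ 3) ^ m := by
  unfold eb
  rw [if_pos (by omega), ← pow_mul]
  congr 1
  omega

end RhoAux

open RhoAux

theorem stRho (h1 : StStruct) (h2 : StLat) : StRho := by
  refine ⟨?_, ?_, ?_, ?_⟩
  · rw [e4, LF_rho]
    exact e4_rho h2
  · rw [dl, LF_rho]
    exact dl_rho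
  · rw [e6, dl, LF_rho, LF_rho]
    exact e6_rho h2
  · intro A J hJ k g hg
    obtain ⟨c, hc, -, h3, -⟩ := h1 J (12 * k) ⟨6 * k, by ring⟩ g hg
    have h4 := h3 tr
    have h5 : 12 * k / 12 = k := Nat.mul_div_cancel_left k (by norm_num)
    rw [h5] at h4
    rw [dl, LF_rho, LF_rho, h4, Finset.sum_div]
    refine J.sum_mem fun j hj => ?_
    have hj' : j ≤ k := Nat.lt_succ_iff.mp (Finset.mem_range.mp hj)
    have h6 : 12 * k - 12 * j = 12 * (k - j) := by omega
    rw [h6, eb_12, e4_rho h2]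
    rcases hj'.eq_or_lt with rfl | hlt
    · rw [Nat.sub_self, pow_zero, mul_one, mul_div_assoc, div_self (pow_ne_zero _ dl_rho), mul_one]
      exact hc j
    · rw [zero_pow (by norm_num : (3 : ℕ) ≠ 0), zero_pow (by omega : k - j ≠ 0), mul_zero,
        zero_div]
      exact J.zero_mem

end

end Pool.Agent.Lib.MP_7c08ba_nt.RZC3
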