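import Pool.Agent.Lib.MP_7c08ba_nt.RZ.Basic3

set_option autoImplicit false

/-! Part (C3), module V1: the value of `δ^r f` on the chain. -/

namespace Pool.Agent.Lib.MP_7c08ba_nt.RZC3

open UpperHalfPlane ModularForm EisensteinSeries MatrixGroups NumberField RZC
open scoped Real Manifold ComplexConjugate

noncomputable section

namespace ValR3Aux

/-! ### the standard elements -/

theorem map_eb {S T : Type*} [Monoid S] [Monoid T] (φ : S →* T) (k : ℕ) (a b : S) :
    φ (eb k a b) = eb k (φ a) (φ b) := by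
  unfold eb
  split_ifs <;> simp

theorem eb_unit {S : Type*} [Monoid S] {a b : S} (ha : IsUnit a) (hb : IsUnit b) (k : ℕ) :
    IsUnit (eb k a b) := by
  unfold eb
  split_ifs
  · exact ha.pow _
  · exact (ha.pow _).mul hb

theorem three_dvd_eb (k : ℕ) : (3 : PowerSeries ℤ) ∣ eb k Q4 R6 - 1 := by
  have h4 : (3 : PowerSeries ℤ) ∣ Q4 - 1 := ⟨80 * sg 3, by unfold Q4; ring⟩
  have h6 : (3 : PowerSeries ℤ) ∣ R6 - 1 := ⟨-168 * sg 5, by unfold R6; ring⟩
  have hp : ∀ n : ℕ, (3 : PowerSeries ℤ) ∣ Q4 ^ n - 1 := fun n =>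
    h4.trans (by simpa using sub_dvd_pow_sub_pow Q4 1 n)
  unfold eb
  split_ifs
  · exact hp _
  · obtain ⟨a, ha⟩ := hp ((k - 6) / 4)
    obtain ⟨b, hb⟩ := h6
    refine ⟨a * R6 + b, ?_⟩
    linear_combination R6 * ha + hb

theorem cc_Q4 : PowerSeries.constantCoeff Q4 = 1 := by
  simp [Q4, sg]

theorem cc_R6 : PowerSeries.constantCoeff R6 = 1 := by
  simp [R6, sg]

theorem LF_eb {w₁ w₂ : ℂ} (hp : Pos w₁ w₂) (k : ℕ) (hk : Even k) (h2 : k ≠ 2) :
    (w₂ ^ k)⁻¹ * eb k ((E₄ : ℍ → ℂ) ⟨w₁ / w₂, hp⟩) ((E₆ : ℍ → ℂ) ⟨w₁ / w₂, hp⟩) =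
      eb k (e4 w₁ w₂) (e6 w₁ w₂) := by
  unfold e4 e6
  rw [LF_eq hp, LF_eq hp]
  have hw := hp.ne
  unfold eb
  by_cases h : k % 4 = 0
  · rw [if_pos h, if_pos h, mul_pow, inv_pow, ← pow_mul]
    congr 3
    omega
  · have h3 : k % 4 = 2 := by
      obtain ⟨m, hm⟩ := hk
      omega
    rw [if_neg h, if_neg h, mul_pow, inv_pow, ← pow_mul]
    have h4 : w₂ ^ k = w₂ ^ (4 * ((k - 6) / 4)) * w₂ ^ 6 := by
      rw [← pow_add]
      congr 1
      omega
    rw [h4]
    field_simp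

theorem disc_rel {w₁ w₂ : ℂ} (hp : Pos w₁ w₂) :
    1728 * dl w₁ w₂ = e4 w₁ w₂ ^ 3 - e6 w₁ w₂ ^ 2 := by
  unfold dl e4 e6
  rw [LF_eq hp, LF_eq hp, LF_eq hp, discriminant_eq_E₄_cube_sub_E₆_sq]
  have hw := hp.ne
  field_simp

theorem mul_nonunits {A : ValuationSubring ℂ} (hA : Above3 A) {x : ℂ} (hx : x ∈ A) :
    (1728 : ℂ) * x ∈ A.nonunits := by
  have h5 : ((1728 : ℤ) : ℂ) ∈ A.nonunits := three_dvd_nonunits hA ⟨576, by norm_num⟩
  push_cast at h5
  exact nonunits_mul_right h5 hx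

theorem e6_ne {A : ValuationSubring ℂ} (hA : Above3 A) {w₁ w₂ : ℂ} (hO : Ord A w₁ w₂) :
    e6 w₁ w₂ ≠ 0 := by
  obtain ⟨hp, h4, hj⟩ := hO
  intro h
  have h1 := disc_rel hp
  rw [h] at h1
  have h2 : (1728 : ℂ) * jv w₁ w₂ = 1 := by
    unfold jv
    field_simp
    linear_combination h1
  have h3 := mul_nonunits hA hj
  rw [h2] at h3
  exact one_not_nonunits h3

theorem eb_ne {A : ValuationSubring ℂ} (hA : Above3 A) {w₁ w₂ : ℂ} (hO : Ord A w₁ w₂) (w : ℕ) :
    eb w (e4 w₁ w₂) (e6 w₁ w₂) ≠ 0 := by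
  have h6 := e6_ne hA hO
  obtain ⟨hp, h4, hj⟩ := hO
  unfold eb
  split_ifs
  · exact pow_ne_zero _ h4
  · exact mul_ne_zero (pow_ne_zero _ h4) h6

/-- a normalised cusp form has even weight `w ≥ 12`, `w ≠ 14` -/
theorem weight_ok (h3 : StStruct) (h4 : StEis) (w : ℕ) (f : CuspForm 𝒮ℒ (w : ℤ))
    (h1 : cf f 1 = 1) : Even w ∧ 12 ≤ w ∧ w ≠ 14 := by
  set F : ModularForm 𝒮ℒ (w : ℤ) := CuspForm.toModularFormₗ f with hF
  have hcoe : (F : ℍ → ℂ) = f := rfl
  have hev : Even w := by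
    by_contra hodd
    rw [Nat.not_even_iff_odd] at hodd
    have h0 : F = 0 := ModularForm.levelOne_odd_weight_eq_zero (by exact_mod_cast hodd) F
    have h2 : cf (F : ℍ → ℂ) 1 = 1 := by rw [hcoe]; exact h1
    rw [h0] at h2
    have h5 : qExpansion 1 ((0 : ModularForm 𝒮ℒ (w : ℤ)) : ℍ → ℂ) = 0 :=
      (ModularForm.qExpansion_eq_zero_iff one_pos one_mem_strictPeriods_SL _).2 rfl
    unfold cf at h2
    rw [h5] at h2
    simp at h2
  obtain ⟨c, -, hc2, -, hq⟩ := h3 ⊤ w hev F (fun n => AddSubgroup.mem_top _)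
  obtain ⟨-, hD0, -, -, -, -⟩ := h4
  have h0 : (qExpansion 1 (F : ℍ → ℂ)).coeff 0 = 0 :=
    (ModularForm.isCuspForm_iff_coeffZero_eq_zero F).1
      (ModularForm.CuspForm.isCuspForm_toModularFormₗ f)
  have hD : PowerSeries.constantCoeff (toC D12) = 0 := by
    rw [← PowerSeries.coeff_zero_eq_constantCoeff_apply, PowerSeries.coeff_map, hD0]
    simp
  have hQ : PowerSeries.constantCoeff (toC Q4) = 1 := by
    rw [← PowerSeries.coeff_zero_eq_constantCoeff_apply, PowerSeries.coeff_map]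
    simp [Q4, sg]
  have hR : PowerSeries.constantCoeff (toC R6) = 1 := by
    rw [← PowerSeries.coeff_zero_eq_constantCoeff_apply, PowerSeries.coeff_map]
    simp [R6, sg]
  have hc0 : c 0 = 0 := by
    rw [hq, PowerSeries.coeff_zero_eq_constantCoeff_apply, map_sum,
      Finset.sum_eq_single 0] at h0
    · have : PowerSeries.constantCoeff (eb w (toC Q4) (toC R6)) = 1 := by
        unfold eb
        split_ifs <;> simp [hQ, hR]
      simpa [this] using h0
    · intro j _ hj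
      simp [hD, hj]
    · intro h
      simp at h
  refine ⟨hev, ?_⟩
  by_contra hcon
  have hall : ∀ j ∈ Finset.range (w / 12 + 1), c j = 0 := by
    intro j hj
    rw [Finset.mem_range] at hj
    rcases Nat.eq_zero_or_pos j with rfl | hjp
    · exact hc0
    · have : w = 14 := by omega
      subst this
      have : j = 1 := by omega
      subst this
      exact hc2 1 rfl
  have hz : qExpansion 1 (F : ℍ → ℂ) = 0 := by
    rw [hq]
    refine Finset.sum_eq_zero fun j hj => ?_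
    rw [hall j hj]
    simp
  have h2 : cf (F : ℍ → ℂ) 1 = 1 := by rw [hcoe]; exact h1
  unfold cf at h2
  rw [hz] at h2
  simp at h2

/-! ### polynomials in four variables with coefficients in `A` -/

theorem exists_lift {A : ValuationSubring ℂ} {G : MvPolynomial (Fin 4) ℂ}
    (hA : ∀ m, G.coeff m ∈ A) : ∃ G' : MvPolynomial (Fin 4) A, MvPolynomial.map A.subtype G' = G := by
  have : G ∈ Set.range (MvPolynomial.map A.subtype :
      MvPolynomial (Fin 4) A →+* MvPolynomial (Fin 4) ℂ) := by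
    rw [MvPolynomial.mem_range_map_iff_coeffs_subset]
    intro c hc
    rw [Finset.mem_coe, MvPolynomial.mem_coeffs_iff] at hc
    obtain ⟨n, -, rfl⟩ := hc
    exact ⟨⟨G.coeff n, hA n⟩, rfl⟩
  exact this

theorem coeff_of_lift {A : ValuationSubring ℂ} (G : MvPolynomial (Fin 4) A) (m : Fin 4 →₀ ℕ) :
    (MvPolynomial.map A.subtype G).coeff m ∈ A := by
  rw [MvPolynomial.coeff_map]
  exact (G.coeff m).2

theorem aev_map {A : ValuationSubring ℂ} {S S' : Type*} [CommRing S] [Algebra ℂ S] [CommRing S']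
    [Algebra A S'] (ψ : S' →+* S)
    (hψ : ψ.comp (algebraMap A S') = (algebraMap ℂ S).comp A.subtype)
    (v : Fin 4 → S') (K : MvPolynomial (Fin 4) A) :
    MvPolynomial.aeval (ψ ∘ v) (MvPolynomial.map A.subtype K) = ψ (MvPolynomial.aeval v K) := by
  rw [MvPolynomial.aeval_def, MvPolynomial.eval₂_map, ← hψ, MvPolynomial.aeval_def,
    MvPolynomial.eval₂_comp_left]

theorem cong {A : ValuationSubring ℂ} {S : Type*} [CommRing S] [Algebra A S] (v v' : Fin 4 → S)
    (d : S) (h : ∀ i, d ∣ v i - v' i) (K : MvPolynomial (Fin 4) A) :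
    d ∣ MvPolynomial.aeval v K - MvPolynomial.aeval v' K := by
  induction K using MvPolynomial.induction_on with
  | C a => simp
  | add p q hp hq =>
    rw [map_add, map_add, add_sub_add_comm]
    exact dvd_add hp hq
  | mul_X p i hp =>
    rw [map_mul, map_mul, MvPolynomial.aeval_X, MvPolynomial.aeval_X]
    have : MvPolynomial.aeval v p * v i - MvPolynomial.aeval v' p * v' i =
        (MvPolynomial.aeval v p - MvPolynomial.aeval v' p) * v i +
          MvPolynomial.aeval v' p * (v i - v' i) := by ring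
    rw [this]
    exact dvd_add (dvd_mul_of_dvd_left hp _) (dvd_mul_of_dvd_right (h i) _)

/-- the polynomial in one variable -/
def H1 {A : ValuationSubring ℂ} (K : MvPolynomial (Fin 4) A) (F : Polynomial ℤ) (N : ℕ) :
    Polynomial A :=
  MvPolynomial.aeval ![F.map (Int.castRingHom A), Polynomial.X, 1 - 1728 * Polynomial.X,
    ∑ l ∈ Finset.range N, (1728 * Polynomial.X) ^ l] K

theorem main_cong {A : ValuationSubring ℂ} {S : Type*} [CommRing S] [Algebra A S] [Algebra ℤ S]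
    (K : MvPolynomial (Fin 4) A) (F : Polynomial ℤ) (N : ℕ) (x a s : S)
    (h1 : (3 : S) ^ N ∣ a - Polynomial.aeval x F) (h2 : (1 - 1728 * x) * s = 1) :
    (3 : S) ^ N ∣ MvPolynomial.aeval ![a, x, 1 - 1728 * x, s] K -
      Polynomial.aeval x (H1 K F N) := by
  have e1 : Polynomial.aeval x (H1 K F N) = MvPolynomial.aeval
      (fun i => Polynomial.aeval x ((![F.map (Int.castRingHom A), Polynomial.X,
        1 - 1728 * Polynomial.X, ∑ l ∈ Finset.range N, (1728 * Polynomial.X) ^ l] :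
          Fin 4 → Polynomial A) i)) K := by
    unfold H1
    rw [MvPolynomial.comp_aeval_apply]
  rw [e1]
  refine cong _ _ _ (fun i => ?_) K
  fin_cases i
  · show (3 : S) ^ N ∣ a - Polynomial.aeval x (F.map (Int.castRingHom A))
    have : Polynomial.aeval x (F.map (Int.castRingHom A)) = Polynomial.aeval x F := by
      rw [Polynomial.aeval_def, Polynomial.aeval_def, Polynomial.eval₂_map]
      congr 1
      exact RingHom.ext_int _ _
    rw [this]
    exact h1
  · show (3 : S) ^ N ∣ x - Polynomial.aeval x (Polynomial.X : Polynomial A)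
    rw [Polynomial.aeval_X, sub_self]
    exact dvd_zero _
  · show (3 : S) ^ N ∣ (1 - 1728 * x) - Polynomial.aeval x (1 - 1728 * Polynomial.X : Polynomial A)
    rw [map_sub, map_one, map_mul, map_ofNat, Polynomial.aeval_X, sub_self]
    exact dvd_zero _
  · show (3 : S) ^ N ∣ s - Polynomial.aeval x
      (∑ l ∈ Finset.range N, (1728 * Polynomial.X) ^ l : Polynomial A)
    have e2 : Polynomial.aeval x (∑ l ∈ Finset.range N, (1728 * Polynomial.X) ^ l :
        Polynomial A) = ∑ l ∈ Finset.range N, (1728 * x) ^ l := by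
      rw [map_sum]
      refine Finset.sum_congr rfl fun l _ => ?_
      rw [map_pow, map_mul, map_ofNat, Polynomial.aeval_X]
    rw [e2]
    have e3 := mul_neg_geom_sum (1728 * x) N
    have e4 : s - ∑ l ∈ Finset.range N, (1728 * x) ^ l = s * (1728 * x) ^ N := by
      linear_combination (∑ l ∈ Finset.range N, (1728 * x) ^ l) * h2 - s * e3
    rw [e4]
    refine ⟨s * (576 * x) ^ N, ?_⟩
    rw [show (1728 : S) * x = 3 * (576 * x) by ring, mul_pow 3]
    ring

/-! ### power series with coefficients in `A` -/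

/-- from `ℤ[[q]]` to `A[[q]]` -/
abbrev tA (A : ValuationSubring ℂ) : PowerSeries ℤ →+* PowerSeries A :=
  PowerSeries.map (Int.castRingHom A)

theorem map_tA (A : ValuationSubring ℂ) (g : PowerSeries ℤ) :
    PowerSeries.map A.subtype (tA A g) = toC g := by
  ext n
  simp

theorem map_inj (A : ValuationSubring ℂ) : Function.Injective (PowerSeries.map A.subtype) := by
  intro g h hgh
  ext n
  have := congrArg (PowerSeries.coeff n) hgh
  simpa using this

theorem coeff_mul_mem {A : ValuationSubring ℂ} (I : Ideal A) (h : PowerSeries A)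
    {g : PowerSeries A} (hg : ∀ n, g.coeff n ∈ I) (n : ℕ) : (h * g).coeff n ∈ I := by
  rw [PowerSeries.coeff_mul]
  exact I.sum_mem fun p _ => I.mul_mem_left _ (hg _)

/-- triangularity -/
theorem tri {A : ValuationSubring ℂ} (I : Ideal A) {x : PowerSeries A} (h0 : x.coeff 0 = 0)
    (h1 : x.coeff 1 = 1) (p : Polynomial A) (hp : ∀ n, (Polynomial.aeval x p).coeff n ∈ I)
    (n : ℕ) : p.coeff n ∈ I := by
  obtain ⟨y, hy⟩ : PowerSeries.X ∣ x := by
    rw [PowerSeries.X_dvd_iff, ← PowerSeries.coeff_zero_eq_constantCoeff_apply, h0]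
  have hy0 : PowerSeries.constantCoeff y = 1 := by
    rw [← h1, hy, show (1 : ℕ) = 0 + 1 from rfl, PowerSeries.coeff_succ_X_mul,
      PowerSeries.coeff_zero_eq_constantCoeff_apply]
  have hlt : ∀ j m : ℕ, m < j → (x ^ j).coeff m = 0 := by
    intro j m hm
    rw [hy, mul_pow, PowerSeries.coeff_X_pow_mul', if_neg (by omega)]
  have heq : ∀ j : ℕ, (x ^ j).coeff j = 1 := by
    intro j
    rw [hy, mul_pow, PowerSeries.coeff_X_pow_mul', if_pos le_rfl, Nat.sub_self,
      PowerSeries.coeff_zero_eq_constantCoeff_apply, map_pow, hy0, one_pow]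
  induction n using Nat.strong_induction_on with
  | _ n ih =>
    have e1 : (Polynomial.aeval x p).coeff n =
        ∑ j ∈ Finset.range (max (p.natDegree + 1) (n + 1)), p.coeff j * (x ^ j).coeff n := by
      rw [Polynomial.aeval_eq_sum_range' (n := max (p.natDegree + 1) (n + 1)) (by omega), map_sum]
      refine Finset.sum_congr rfl fun j _ => ?_
      rw [PowerSeries.coeff_smul, smul_eq_mul]
    have hn : n ∈ Finset.range (max (p.natDegree + 1) (n + 1)) := by
      rw [Finset.mem_range]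
      omega
    rw [← Finset.add_sum_erase _ _ hn, heq, mul_one] at e1
    have e2 : ∑ j ∈ (Finset.range (max (p.natDegree + 1) (n + 1))).erase n,
        p.coeff j * (x ^ j).coeff n ∈ I := by
      refine I.sum_mem fun j hj => ?_
      rcases lt_trichotomy j n with h | h | h
      · exact I.mul_mem_right _ (ih j h)
      · exact absurd h (Finset.ne_of_mem_erase hj)
      · rw [hlt j n h, mul_zero]
        exact I.zero_mem
    have e3 := I.sub_mem (hp n) e2
    rw [e1, add_sub_cancel_right] at e3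
    exact e3

theorem eval_mem {A : ValuationSubring ℂ} (I : Ideal A) (p : Polynomial A)
    (hp : ∀ n, p.coeff n ∈ I) (x : A) : Polynomial.aeval x p ∈ I := by
  rw [Polynomial.aeval_eq_sum_range]
  refine I.sum_mem fun j _ => ?_
  rw [smul_eq_mul]
  exact I.mul_mem_right _ (hp j)

theorem coeff_th_iter {R : Type*} [CommRing R] (g : PowerSeries R) (r n : ℕ) :
    (th^[r] g).coeff n = (n : R) ^ r * g.coeff n := by
  induction r with
  | zero => simp
  | succ r ih =>
    rw [Function.iterate_succ_apply']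
    unfold th at ih ⊢
    rw [PowerSeries.coeff_mk, ih]
    ring

theorem mem_max {A : ValuationSubring ℂ} {x : A} :
    x ∈ IsLocalRing.maximalIdeal A ↔ (x : ℂ) ∈ A.nonunits :=
  A.coe_mem_nonunits_iff.symm


theorem three_ne {A : ValuationSubring ℂ} : (3 : PowerSeries A) ≠ 0 := by
  intro h
  have h1 := congrArg (PowerSeries.map A.subtype) h
  rw [map_ofNat, map_zero] at h1
  have h2 := congrArg PowerSeries.constantCoeff h1
  rw [map_ofNat, map_zero] at h2
  exact three_ne_zero h2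

theorem coeff_three_mul {A : ValuationSubring ℂ} (g : PowerSeries A) (n : ℕ) :
    (3 * g).coeff n = 3 * g.coeff n := by
  have : (3 : PowerSeries A) = PowerSeries.C 3 := (map_ofNat PowerSeries.C 3).symm
  rw [this, PowerSeries.coeff_C_mul]

theorem x_coeffs {x : PowerSeries ℤ} (hx : x * Q4 ^ 3 = D12) (hD0 : D12.coeff 0 = 0)
    (hD1 : D12.coeff 1 = 1) : x.coeff 0 = 0 ∧ x.coeff 1 = 1 ∧
      ∀ n, (3 : ℤ) ∣ D12.coeff n - x.coeff n := by
  have h0 : PowerSeries.constantCoeff x = 0 := by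
    have := congrArg PowerSeries.constantCoeff hx
    rw [map_mul, map_pow, cc_Q4, one_pow, mul_one,
      ← PowerSeries.coeff_zero_eq_constantCoeff_apply D12, hD0] at this
    exact this
  obtain ⟨y, hy⟩ := PowerSeries.X_dvd_iff.2 h0
  refine ⟨by rw [PowerSeries.coeff_zero_eq_constantCoeff_apply, h0], ?_, fun n => ?_⟩
  · have h1 : PowerSeries.constantCoeff y = 1 := by
      rw [← hD1, ← hx, hy, mul_assoc, show (1 : ℕ) = 0 + 1 from rfl,
        PowerSeries.coeff_succ_X_mul, PowerSeries.coeff_zero_eq_constantCoeff_apply, map_mul,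
        map_pow, cc_Q4, one_pow, mul_one]
    rw [hy, show (1 : ℕ) = 0 + 1 from rfl, PowerSeries.coeff_succ_X_mul,
      PowerSeries.coeff_zero_eq_constantCoeff_apply, h1]
  · have h4 : (3 : PowerSeries ℤ) ∣ Q4 - 1 := ⟨80 * sg 3, by unfold Q4; ring⟩
    have h5 : (3 : PowerSeries ℤ) ∣ Q4 ^ 3 - 1 := h4.trans (by simpa using sub_dvd_pow_sub_pow Q4 1 3)
    obtain ⟨z, hz⟩ := h5
    have h6 : D12 - x = PowerSeries.C 3 * (x * z) := by
      have : (3 : PowerSeries ℤ) = PowerSeries.C 3 := (map_ofNat PowerSeries.C 3).symm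
      rw [← this, ← hx]
      linear_combination x * hz
    rw [← map_sub, h6, PowerSeries.coeff_C_mul]
    exact dvd_mul_right _ _

/-- the side of the power series -/
theorem q_side {A : ValuationSubring ℂ} (hA : Above3 A) (r k : ℕ) (a : ℕ → A)
    (ha : ∀ n, ((a n : ℂ) - (D12.coeff n : ℂ)) ∈ A.nonunits)
    (hD : ∀ n : ℕ, (3 : ℤ) ∣ ((n : ℤ) - 1) * D12.coeff n)
    (hD0 : D12.coeff 0 = 0) (hD1 : D12.coeff 1 = 1)
    (x : PowerSeries ℤ) (hx : x * Q4 ^ 3 = D12) (H : Polynomial A) (Z : PowerSeries A)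
    (hH : 12 ^ r * th^[r] (PowerSeries.mk a) = tA A (eb k Q4 R6) *
      (Polynomial.aeval (tA A x) H + 3 ^ (r + 1) * Z)) :
    ∃ H2 : Polynomial A, H = Polynomial.C (3 ^ r) * H2 ∧
      ∀ n, (H2 - Polynomial.X).coeff n ∈ IsLocalRing.maximalIdeal A := by
  obtain ⟨hx0, hx1, hxD⟩ := x_coeffs hx hD0 hD1
  have hE : IsUnit (tA A (eb k Q4 R6)) := by
    refine (eb_unit ?_ ?_ k).map (tA A)
    · rw [PowerSeries.isUnit_iff_constantCoeff, cc_Q4]
      exact isUnit_one
    · rw [PowerSeries.isUnit_iff_constantCoeff, cc_R6]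
      exact isUnit_one
  obtain ⟨E1, hE1⟩ := three_dvd_eb k
  have hE2 : tA A (eb k Q4 R6) = 1 + 3 * tA A E1 := by
    have h1 : eb k Q4 R6 = 1 + 3 * E1 := by linear_combination hE1
    rw [h1, map_add, map_one, map_mul, map_ofNat]
  obtain ⟨Ei, hEi⟩ := hE.exists_right_inv
  set E := tA A (eb k Q4 R6) with hEdef
  set X0 := tA A x with hX0def
  set T := th^[r] (PowerSeries.mk a) with hT
  have h00 : X0.coeff 0 = 0 := by rw [hX0def, PowerSeries.coeff_map, hx0, map_zero]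
  have h01 : X0.coeff 1 = 1 := by rw [hX0def, PowerSeries.coeff_map, hx1, map_one]
  set W := Ei * (4 ^ r * T) - 3 * Z with hW
  have h12 : (12 : PowerSeries A) ^ r = 3 ^ r * 4 ^ r := by
    rw [← mul_pow]
    norm_num
  have e1 : Polynomial.aeval X0 H = 3 ^ r * W := by
    rw [hW]
    rw [h12] at hH
    linear_combination (-Ei) * hH + (-(Polynomial.aeval X0 H) - 3 ^ (r + 1) * Z) * hEi
  have hC3 : (PowerSeries.C (3 ^ r : A)) = (3 : PowerSeries A) ^ r := by
    rw [map_pow, map_ofNat]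
  have hdvd : Polynomial.C (3 ^ r : A) ∣ H := by
    rw [Polynomial.C_dvd_iff_dvd_coeff]
    intro n
    rw [← Ideal.mem_span_singleton]
    refine tri _ h00 h01 H (fun m => ?_) n
    rw [e1, ← hC3, PowerSeries.coeff_C_mul, Ideal.mem_span_singleton]
    exact dvd_mul_right _ _
  obtain ⟨H2, hH2⟩ := hdvd
  refine ⟨H2, hH2, ?_⟩
  have e2 : Polynomial.aeval X0 H2 = W := by
    rw [hH2, map_mul, Polynomial.aeval_C] at e1
    have h3 : algebraMap A (PowerSeries A) (3 ^ r) = 3 ^ r := by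
      rw [map_pow, map_ofNat]
    rw [h3] at e1
    exact mul_left_cancel₀ (pow_ne_zero _ three_ne) e1
  refine tri _ h00 h01 _ ?_
  have e3 : Polynomial.aeval X0 (H2 - Polynomial.X) =
      Ei * ((4 ^ r * T - X0) - 3 * (E * Z + tA A E1 * X0)) := by
    rw [map_sub, Polynomial.aeval_X, e2, hW]
    linear_combination (X0 + 3 * Z) * hEi - Ei * X0 * hE2
  rw [e3]
  refine coeff_mul_mem _ _ fun n => ?_
  rw [map_sub]
  refine Ideal.sub_mem _ ?_ ?_
  · have h4 : (4 ^ r : PowerSeries A) = PowerSeries.C (4 ^ r) := by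
      rw [map_pow, map_ofNat]
    rw [map_sub, h4, PowerSeries.coeff_C_mul, hT, coeff_th_iter, PowerSeries.coeff_mk, hX0def,
      PowerSeries.coeff_map, mem_max]
    have g1 : (4 : ℂ) ^ r - 1 ∈ A.nonunits := by
      have := three_dvd_nonunits hA (n := 4 ^ r - 1) (by
        have := sub_dvd_pow_sub_pow (4 : ℤ) 1 r
        simpa using this)
      push_cast at this
      exact this
    have g2 : ((n : ℂ) ^ r - 1) * (D12.coeff n : ℂ) ∈ A.nonunits := by
      have := three_dvd_nonunits hA (n := ((n : ℤ) ^ r - 1) * D12.coeff n)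
        ((hD n).trans (mul_dvd_mul_right (by simpa using sub_dvd_pow_sub_pow (n : ℤ) 1 r) _))
      push_cast at this
      exact this
    have g3 : (D12.coeff n : ℂ) - (x.coeff n : ℂ) ∈ A.nonunits :=
      int_modEq_nonunits hA (hxD n)
    have g4 : (n : ℂ) ^ r * ((a n : ℂ) - (D12.coeff n : ℂ)) ∈ A.nonunits :=
      nonunits_mul_left (pow_mem (nat_mem n) r) (ha n)
    have g5 : ((4 : ℂ) ^ r - 1) * ((n : ℂ) ^ r * (a n : ℂ)) ∈ A.nonunits :=
      nonunits_mul_right g1 (A.mul_mem _ _ (pow_mem (nat_mem n) r) (a n).2)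
    have g6 := nonunits_add (nonunits_add (nonunits_add g5 g4) g2) g3
    have g7 : ((4 ^ r * ((n : A) ^ r * a n) - Int.castRingHom A (x.coeff n) : A) : ℂ) =
        (4 : ℂ) ^ r * ((n : ℂ) ^ r * (a n : ℂ)) - (x.coeff n : ℂ) := by
      show A.subtype (4 ^ r * ((n : A) ^ r * a n) - Int.castRingHom A (x.coeff n)) = _
      rw [map_sub, map_mul, map_mul, map_pow, map_pow, map_ofNat, map_natCast, eq_intCast,
        map_intCast]
      rfl
    rw [g7]
    convert g6 using 1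
    ring
  · rw [coeff_three_mul, mem_max]
    have : ((3 * (E * Z + tA A E1 * X0).coeff n : A) : ℂ) =
        3 * (((E * Z + tA A E1 * X0).coeff n : A) : ℂ) := by
      show A.subtype (3 * (E * Z + tA A E1 * X0).coeff n) = _
      rw [map_mul, map_ofNat]
      rfl
    rw [this]
    exact nonunits_mul_right hA (SetLike.coe_mem _)

/-! ### the polynomial of the cusp form -/

open MvPolynomial in
theorem hom_eb {k : ℕ} (hk : Even k) (h2 : k ≠ 2) :
    (eb k (X 1) (X 2) : MvPolynomial (Fin 4) ℂ).IsWeightedHomogeneous wt k := by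
  have h : ∀ j : Fin 4, (X j : MvPolynomial (Fin 4) ℂ).IsWeightedHomogeneous wt (wt j) :=
    fun j => isWeightedHomogeneous_X ℂ wt j
  unfold eb
  by_cases h0 : k % 4 = 0
  · rw [if_pos h0]
    have h1 := (h 1).pow (k / 4)
    have e : (k / 4) • wt 1 = k := by
      rw [smul_eq_mul]
      show k / 4 * 4 = k
      omega
    rwa [e] at h1
  · rw [if_neg h0]
    have h1 := ((h 1).pow ((k - 6) / 4)).mul (h 2)
    have e : ((k - 6) / 4) • wt 1 + wt 2 = k := by
      rw [smul_eq_mul]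
      show (k - 6) / 4 * 4 + 6 = k
      obtain ⟨m, hm⟩ := hk
      omega
    rwa [e] at h1

/-- the polynomial -/
def GG (w : ℕ) (c : ℕ → ℂ) : MvPolynomial (Fin 4) ℂ :=
  ∑ j ∈ Finset.range (w / 12 + 1), MvPolynomial.C (c j) * MvPolynomial.X 3 ^ j *
    eb (w - 12 * j) (MvPolynomial.X 1) (MvPolynomial.X 2)

open MvPolynomial in
theorem hom_GG {w : ℕ} (hw : Even w) {c : ℕ → ℂ} (hc : ∀ j, w = 12 * j + 2 → c j = 0) :
    (GG w c).IsWeightedHomogeneous wt w := by
  unfold GG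
  refine IsWeightedHomogeneous.sum _ _ _ fun j hj => ?_
  rw [Finset.mem_range] at hj
  by_cases h0 : w = 12 * j + 2
  · rw [hc j h0, C_0, zero_mul, zero_mul]
    exact isWeightedHomogeneous_zero _ _ _
  · have h1 : (X 3 ^ j : MvPolynomial (Fin 4) ℂ).IsWeightedHomogeneous wt (j • wt 3) :=
      (isWeightedHomogeneous_X ℂ wt 3).pow j
    have h2 := hom_eb (k := w - 12 * j) (by
      obtain ⟨m, hm⟩ := hw
      exact ⟨m - 6 * j, by omega⟩) (by omega)
    have h3 := (h1.C_mul (c j)).mul h2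
    have e : j • wt 3 + (w - 12 * j) = w := by
      rw [smul_eq_mul]
      show j * 12 + (w - 12 * j) = w
      omega
    rwa [e] at h3

theorem coeff_GG {A : ValuationSubring ℂ} {w : ℕ} {c : ℕ → ℂ} (hc : ∀ j, c j ∈ A)
    (m : Fin 4 →₀ ℕ) : (GG w c).coeff m ∈ A := by
  have : GG w c = MvPolynomial.map A.subtype (∑ j ∈ Finset.range (w / 12 + 1),
      MvPolynomial.C (⟨c j, hc j⟩ : A) * MvPolynomial.X 3 ^ j *
        eb (w - 12 * j) (MvPolynomial.X 1) (MvPolynomial.X 2)) := by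
    unfold GG
    rw [map_sum]
    refine Finset.sum_congr rfl fun j _ => ?_
    rw [map_mul, map_mul, MvPolynomial.map_C, map_pow, MvPolynomial.map_X]
    congr 1
    have := map_eb (MvPolynomial.map A.subtype : MvPolynomial (Fin 4) A →+*
      MvPolynomial (Fin 4) ℂ).toMonoidHom (w - 12 * j) (MvPolynomial.X 1) (MvPolynomial.X 2)
    refine Eq.trans ?_ this.symm
    show _ = eb (w - 12 * j) (MvPolynomial.map A.subtype (MvPolynomial.X 1))
      (MvPolynomial.map A.subtype (MvPolynomial.X 2))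
    rw [MvPolynomial.map_X, MvPolynomial.map_X]
  rw [this]
  exact coeff_of_lift _ _

theorem aeval_GG {S : Type*} [CommRing S] [Algebra ℂ S] (w : ℕ) (c : ℕ → ℂ) (P Q R D : S) :
    MvPolynomial.aeval ![P, Q, R, D] (GG w c) = ∑ j ∈ Finset.range (w / 12 + 1),
      algebraMap ℂ S (c j) * D ^ j * eb (w - 12 * j) Q R := by
  unfold GG
  rw [map_sum]
  refine Finset.sum_congr rfl fun j _ => ?_
  rw [map_mul, map_mul, MvPolynomial.aeval_C, map_pow, MvPolynomial.aeval_X]
  congr 1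
  have := map_eb (MvPolynomial.aeval ![P, Q, R, D] : MvPolynomial (Fin 4) ℂ →ₐ[ℂ] S).toMonoidHom
    (w - 12 * j) (MvPolynomial.X 1) (MvPolynomial.X 2)
  refine this.trans ?_
  show eb (w - 12 * j) (MvPolynomial.aeval ![P, Q, R, D] (MvPolynomial.X 1))
    (MvPolynomial.aeval ![P, Q, R, D] (MvPolynomial.X 2)) = _
  rw [MvPolynomial.aeval_X, MvPolynomial.aeval_X]
  rfl

theorem ev_eq (G : MvPolynomial (Fin 4) ℂ) (w₁ w₂ α β : ℂ) : ev G w₁ w₂ α β =
    MvPolynomial.aeval ![e2s w₁ w₂ α β, e4 w₁ w₂, e6 w₁ w₂, dl w₁ w₂] G := by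
  unfold ev
  exact (RingHom.congr_fun (MvPolynomial.coe_aeval_eq_eval _) _).symm

theorem LF_GG {w : ℕ} (hw : Even w) {c : ℕ → ℂ} (hc : ∀ j, w = 12 * j + 2 → c j = 0)
    (f : ℍ → ℂ) (hf : ∀ τ : ℍ, f τ = ∑ j ∈ Finset.range (w / 12 + 1),
      c j * discriminant τ ^ j * eb (w - 12 * j) (E₄ τ) (E₆ τ)) {w₁ w₂ : ℂ} (α β : ℂ)
    (hp : Pos w₁ w₂) : LF w f w₁ w₂ = ev (GG w c) w₁ w₂ α β := by
  rw [ev_eq, aeval_GG, LF_eq hp, hf, Finset.mul_sum]
  refine Finset.sum_congr rfl fun j hj => ?_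
  rw [Finset.mem_range] at hj
  by_cases h0 : w = 12 * j + 2
  · rw [hc j h0]
    simp
  · have h2 := LF_eb hp (w - 12 * j) (by
      obtain ⟨m, hm⟩ := hw
      exact ⟨m - 6 * j, by omega⟩) (by omega)
    rw [← h2]
    unfold dl
    rw [LF_eq hp]
    have e6' : w₂ ^ w = (w₂ ^ 12) ^ j * w₂ ^ (w - 12 * j) := by
      rw [← pow_mul, ← pow_add]
      congr 1
      omega
    have hw0 := hp.ne
    rw [e6', mul_pow, inv_pow]
    show _ = c j * _ * _
    field_simp

theorem toC_mul (g h : PowerSeries ℤ) : toC (g * h) = toC g * toC h := map_mul _ _ _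

theorem toC_sub (g h : PowerSeries ℤ) : toC (g - h) = toC g - toC h := map_sub _ _ _

theorem toC_pow (g : PowerSeries ℤ) (n : ℕ) : toC (g ^ n) = toC g ^ n := map_pow _ _ _

theorem toC_one : toC 1 = 1 := map_one _

theorem int_aeval {S T : Type*} [CommRing S] [CommRing T] [Algebra ℤ S] [Algebra ℤ T]
    (φ : S →+* T) (F : Polynomial ℤ)
    (x : S) : φ (Polynomial.aeval x F) = Polynomial.aeval (φ x) F := by
  rw [Polynomial.aeval_def, Polynomial.aeval_def, Polynomial.hom_eval₂]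
  congr 1
  exact RingHom.ext_int _ _

/-- the normal form for power series over `A` -/
theorem q_norm {A : ValuationSubring ℂ} (h4 : 1728 * D12 = Q4 ^ 3 - R6 ^ 2) (k r : ℕ)
    (a : ℕ → A) (K : MvPolynomial (Fin 4) A) (L : PowerSeries ℂ)
    (hL : L = PowerSeries.map A.subtype (12 ^ r * th^[r] (PowerSeries.mk a)))
    (hK : ∀ (Q R : (PowerSeries ℂ)ˣ), (Q : PowerSeries ℂ) = toC Q4 → (R : PowerSeries ℂ) = toC R6 →
      L = eb k (Q : PowerSeries ℂ) (R : PowerSeries ℂ) *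
        MvPolynomial.aeval ![toC P2 * R * (Q⁻¹ : (PowerSeries ℂ)ˣ) ^ 2,
          toC D12 * (Q⁻¹ : (PowerSeries ℂ)ˣ) ^ 3,
          (R : PowerSeries ℂ) ^ 2 * (Q⁻¹ : (PowerSeries ℂ)ˣ) ^ 3,
          (Q : PowerSeries ℂ) ^ 3 * (R⁻¹ : (PowerSeries ℂ)ˣ) ^ 2]
            (MvPolynomial.map A.subtype K))
    (F : Polynomial ℤ) (N : ℕ) (x z : PowerSeries ℤ) (hx : x * Q4 ^ 3 = D12)
    (hP : P2 * R6 = Q4 ^ 2 * (Polynomial.aeval x F + 3 ^ N * z)) :
    ∃ Z : PowerSeries A, 12 ^ r * th^[r] (PowerSeries.mk a) = tA A (eb k Q4 R6) *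
      (Polynomial.aeval (tA A x) (H1 K F N) + 3 ^ N * Z) := by
  have hQu : IsUnit Q4 := by
    rw [PowerSeries.isUnit_iff_constantCoeff, cc_Q4]
    exact isUnit_one
  have hRu : IsUnit R6 := by
    rw [PowerSeries.isUnit_iff_constantCoeff, cc_R6]
    exact isUnit_one
  obtain ⟨Qi, hQi⟩ := hQu.exists_right_inv
  obtain ⟨Ri, hRi⟩ := hRu.exists_right_inv
  have hQi' : toC Q4 * toC Qi = 1 := by rw [← map_mul, hQi, map_one]
  have hRi' : toC R6 * toC Ri = 1 := by rw [← map_mul, hRi, map_one]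
  have h1 := hK ⟨toC Q4, toC Qi, hQi', by rw [mul_comm, hQi']⟩
    ⟨toC R6, toC Ri, hRi', by rw [mul_comm, hRi']⟩ rfl rfl
  set v : Fin 4 → PowerSeries A := ![tA A (Polynomial.aeval x F + 3 ^ N * z), tA A x,
    1 - 1728 * tA A x, tA A (Q4 ^ 3 * Ri ^ 2)] with hv
  have hR2 : R6 ^ 2 = Q4 ^ 3 * (1 - 1728 * x) := by
    linear_combination 1728 * hx + h4
  have hQ3 : Q4 ^ 3 * Qi ^ 3 = 1 := by rw [← mul_pow, hQi, one_pow]
  have hR3 : R6 ^ 2 * Ri ^ 2 = 1 := by rw [← mul_pow, hRi, one_pow]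
  have hQ2 : Q4 ^ 2 * Qi ^ 2 = 1 := by rw [← mul_pow, hQi, one_pow]
  have hvec : (![toC P2 * toC R6 * toC Qi ^ 2, toC D12 * toC Qi ^ 3, toC R6 ^ 2 * toC Qi ^ 3,
      toC Q4 ^ 3 * toC Ri ^ 2] : Fin 4 → PowerSeries ℂ) = PowerSeries.map A.subtype ∘ v := by
    funext i
    fin_cases i
    · show toC P2 * toC R6 * toC Qi ^ 2 =
        PowerSeries.map A.subtype (tA A (Polynomial.aeval x F + 3 ^ N * z))
      rw [map_tA, ← map_mul, hP, ← map_pow, ← map_mul]
      congr 1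
      linear_combination (Polynomial.aeval x F + 3 ^ N * z) * hQ2
    · show toC D12 * toC Qi ^ 3 = PowerSeries.map A.subtype (tA A x)
      rw [map_tA, ← map_pow, ← map_mul]
      congr 1
      linear_combination x * hQ3 - Qi ^ 3 * hx
    · show toC R6 ^ 2 * toC Qi ^ 3 = PowerSeries.map A.subtype (1 - 1728 * tA A x)
      rw [map_sub, map_one, map_mul, map_ofNat, map_tA, ← map_pow, ← map_pow, ← map_mul]
      have : (1 : PowerSeries ℂ) - 1728 * toC x = toC (1 - 1728 * x) := by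
        rw [toC_sub, toC_one, toC_mul, show toC 1728 = 1728 from map_ofNat _ _]
      rw [this]
      congr 1
      rw [hR2]
      linear_combination (1 - 1728 * x) * hQ3
    · show toC Q4 ^ 3 * toC Ri ^ 2 = PowerSeries.map A.subtype (tA A (Q4 ^ 3 * Ri ^ 2))
      rw [map_tA, toC_mul, toC_pow, toC_pow]
  have h2 : L = toC (eb k Q4 R6) * MvPolynomial.aeval (PowerSeries.map A.subtype ∘ v)
      (MvPolynomial.map A.subtype K) := by
    rw [← hvec]
    have h3 := map_eb (PowerSeries.map (Int.castRingHom ℂ)).toMonoidHom k Q4 R6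
    have h3' : toC (eb k Q4 R6) = eb k (toC Q4) (toC R6) := h3
    rw [h3']
    exact h1
  have hψ : (PowerSeries.map A.subtype).comp (algebraMap A (PowerSeries A)) =
      (algebraMap ℂ (PowerSeries ℂ)).comp A.subtype := by
    ext b n
    simp [PowerSeries.coeff_C]
  rw [aev_map _ hψ, hL, ← map_tA A, ← map_mul] at h2
  have h5 := map_inj A h2
  have h6 := main_cong K F N (tA A x) (tA A (Polynomial.aeval x F + 3 ^ N * z))
    (tA A (Q4 ^ 3 * Ri ^ 2)) (by
      rw [map_add, int_aeval, add_sub_cancel_left, map_mul, map_pow, map_ofNat]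
      exact dvd_mul_right _ _) (by
      have e1 : (1 - 1728 * x) * (Q4 ^ 3 * Ri ^ 2) = 1 := by
        linear_combination hR3 - Ri ^ 2 * hR2
      have e2 := congrArg (tA A) e1
      rw [map_mul, map_sub, map_one, map_mul, map_ofNat] at e2
      exact e2)
  obtain ⟨Z, hZ⟩ := h6
  refine ⟨Z, ?_⟩
  rw [h5, ← hZ, add_sub_cancel]

/-- the side of the values -/
theorem v_side {A : ValuationSubring ℂ} (hA : Above3 A) (k r : ℕ) (K : MvPolynomial (Fin 4) A)
    (F : Polynomial ℤ) (H2 : Polynomial A)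
    (hH : H1 K F (r + 1) = Polynomial.C (3 ^ r) * H2)
    (hH2 : ∀ n, (H2 - Polynomial.X).coeff n ∈ IsLocalRing.maximalIdeal A)
    (E a b d V : ℂ) (ha0 : a ≠ 0) (hb0 : b ≠ 0) (hj : d / a ^ 3 ∈ A)
    (hab : 1728 * d = a ^ 3 - b ^ 2) (he : eb k a b ≠ 0)
    (hF : (E * b / a ^ 2 - Polynomial.aeval (d / a ^ 3) F) / 3 ^ (r + 1) ∈ A)
    (hV : ∀ (Q R : ℂˣ), (Q : ℂ) = a → (R : ℂ) = b →
      12 ^ r * V = eb k (Q : ℂ) (R : ℂ) * MvPolynomial.aeval ![E * R * (Q⁻¹ : ℂˣ) ^ 2,
        d * (Q⁻¹ : ℂˣ) ^ 3, (R : ℂ) ^ 2 * (Q⁻¹ : ℂˣ) ^ 3, (Q : ℂ) ^ 3 * (R⁻¹ : ℂˣ) ^ 2]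
          (MvPolynomial.map A.subtype K)) :
    V / eb k a b - d / a ^ 3 ∈ A.nonunits := by
  have h1 := hV (Units.mk0 a ha0) (Units.mk0 b hb0) rfl rfl
  set j := d / a ^ 3 with hjdef
  have hu : (1 - 1728 * j) - 1 ∈ A.nonunits := by
    have := nonunits_neg (mul_nonunits hA hj)
    convert this using 1
    ring
  obtain ⟨hu1, -, hu0, hui⟩ := unit_of_sub_one hu
  set x : A := ⟨j, hj⟩ with hxdef
  set bb : A := ⟨_, hF⟩ with hbb
  set s : A := ⟨(1 - 1728 * j)⁻¹, hui⟩ with hsdef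
  set ai : A := Polynomial.aeval x F + 3 ^ (r + 1) * bb with hai
  have h3 : (3 : ℂ) ^ (r + 1) ≠ 0 := pow_ne_zero _ three_ne_zero
  have hai' : A.subtype ai = E * b / a ^ 2 := by
    rw [hai, map_add, int_aeval, map_mul, map_pow, map_ofNat]
    show Polynomial.aeval j F + 3 ^ (r + 1) *
      ((E * b / a ^ 2 - Polynomial.aeval j F) / 3 ^ (r + 1)) = _
    rw [mul_div_cancel₀ _ h3]
    ring
  have hvec : (![E * b * a⁻¹ ^ 2, d * a⁻¹ ^ 3, b ^ 2 * a⁻¹ ^ 3, a ^ 3 * b⁻¹ ^ 2] :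
      Fin 4 → ℂ) = A.subtype ∘ ![ai, x, 1 - 1728 * x, s] := by
    have hb2 : b ^ 2 / a ^ 3 = 1 - 1728 * j := by
      rw [hjdef]
      field_simp
      linear_combination hab
    funext i
    fin_cases i
    · show E * b * a⁻¹ ^ 2 = A.subtype ai
      rw [hai', inv_pow]
      rfl
    · show d * a⁻¹ ^ 3 = j
      rw [inv_pow]
      rfl
    · show b ^ 2 * a⁻¹ ^ 3 = A.subtype (1 - 1728 * x)
      rw [map_sub, map_one, map_mul, map_ofNat]
      show _ = 1 - 1728 * j
      rw [← hb2, inv_pow]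
      rfl
    · show a ^ 3 * b⁻¹ ^ 2 = (1 - 1728 * j)⁻¹
      rw [← hb2, inv_div, inv_pow]
      rfl
  have h2 : 12 ^ r * V = eb k a b *
      MvPolynomial.aeval (A.subtype ∘ ![ai, x, 1 - 1728 * x, s])
        (MvPolynomial.map A.subtype K) := by
    rw [← hvec]
    exact h1
  rw [aev_map _ rfl] at h2
  have h5 := main_cong K F (r + 1) x ai s (by
    rw [hai, add_sub_cancel_left]
    exact dvd_mul_right _ _) (by
    apply Subtype.ext
    show (1 - 1728 * j) * (1 - 1728 * j)⁻¹ = 1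
    exact mul_inv_cancel₀ hu0)
  obtain ⟨z, hz⟩ := h5
  have h6 : Polynomial.aeval x (H1 K F (r + 1)) = 3 ^ r * Polynomial.aeval x H2 := by
    rw [hH, map_mul, Polynomial.aeval_C]
    rfl
  have h7 : Polynomial.aeval x H2 - x ∈ IsLocalRing.maximalIdeal A := by
    have := eval_mem _ _ hH2 x
    rwa [map_sub, Polynomial.aeval_X] at this
  rw [mem_max] at h7
  have h7' : ((Polynomial.aeval x H2 : A) : ℂ) - j ∈ A.nonunits := h7
  have h8 : (12 : ℂ) ^ r = 3 ^ r * 4 ^ r := by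
    rw [← mul_pow]
    norm_num
  have h9 : A.subtype (MvPolynomial.aeval ![ai, x, 1 - 1728 * x, s] K) =
      3 ^ r * (((Polynomial.aeval x H2 : A) : ℂ) + 3 * (z : ℂ)) := by
    have e1 : MvPolynomial.aeval ![ai, x, 1 - 1728 * x, s] K =
        3 ^ r * (Polynomial.aeval x H2 + 3 * z) := by
      rw [h6] at hz
      linear_combination hz
    rw [e1, map_mul, map_pow, map_ofNat, map_add, map_mul, map_ofNat]
    rfl
  rw [h9, h8] at h2
  have h3r : (3 : ℂ) ^ r ≠ 0 := pow_ne_zero _ three_ne_zero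
  have h10 : 4 ^ r * V = eb k a b * (((Polynomial.aeval x H2 : A) : ℂ) + 3 * (z : ℂ)) := by
    apply mul_left_cancel₀ h3r
    linear_combination h2
  have g1 : (4 : ℂ) ^ r - 1 ∈ A.nonunits := by
    have := three_dvd_nonunits hA (n := 4 ^ r - 1) (by
      have := sub_dvd_pow_sub_pow (4 : ℤ) 1 r
      simpa using this)
    push_cast at this
    exact this
  obtain ⟨-, -, g2, g3⟩ := unit_of_sub_one g1
  have h11 : V / eb k a b - j = ((4 : ℂ) ^ r)⁻¹ *
      (((((Polynomial.aeval x H2 : A) : ℂ) - j) + 3 * (z : ℂ)) - ((4 : ℂ) ^ r - 1) * j) := by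
    field_simp
    linear_combination h10
  rw [h11]
  exact nonunits_mul_left g3 (nonunits_sub (nonunits_add h7' (nonunits_mul_right hA z.2))
    (nonunits_mul_right g1 hj))

end ValR3Aux

open ValR3Aux in
/-- (V1) the value of `δ^r f` on the chain -/
theorem stValR3 (h1 : StInt) (h2 : StDelta3) (h3 : StStruct) (h4 : StEis) (h5 : StDD)
    (h6 : StNorm) (h7 : StTheta) (h8 : StApp3) (h9 : StOrdC3) : StValR3 := by
  intro A hA w f hf
  obtain ⟨hev, h12, h14⟩ := weight_ok h3 h4 w f hf.1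
  have hInt := h1 A w f hf
  set F : ModularForm 𝒮ℒ (w : ℤ) := CuspForm.toModularFormₗ f with hFdef
  have hcoe : (F : ℍ → ℂ) = f := rfl
  obtain ⟨c, hcA, hc2, hval, hq⟩ := h3 A.toSubring.toAddSubgroup w hev F (fun n => hInt n)
  have hcA' : ∀ j, c j ∈ A := fun j => hcA j
  refine ⟨GG w c, hom_GG hev hc2, fun w₁ w₂ α β hp => LF_GG hev hc2 f hval α β hp, ?_⟩
  intro r m cc u v hm hch hu i
  have hO : Ord A (u i) (v i) := ((h9 A hA m cc u v hm hch hu).1 i).1
  have hne := eb_ne hA hO (w + 2 * r)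
  refine ⟨hne, ?_⟩
  obtain ⟨hhom, hcoef⟩ := h5 A w (GG w c) (hom_GG hev hc2) (coeff_GG hcA') r
  obtain ⟨K₀, hKA, hK⟩ := h6 A (w + 2 * r) (MvPolynomial.C (12 ^ r : ℂ) * dd^[r] (GG w c))
    (by omega) (by
      obtain ⟨n, hn⟩ := hev
      exact ⟨n + r, by omega⟩) (hhom.C_mul _) (fun m => by
        rw [MvPolynomial.coeff_C_mul]
        exact hcoef m)
  obtain ⟨K, rfl⟩ := exists_lift hKA
  obtain ⟨Fp, hFv, x, z, hx, hPR⟩ := h8 A hA m cc u v hm hch hu (r + 1)
  obtain ⟨hE1, hD0, hD1, -, -, -⟩ := h4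
  obtain ⟨hD, hfD⟩ := h2
  obtain ⟨-, hfD⟩ := hfD A hA w f hf
  set a : ℕ → A := fun n => ⟨cf f n, hInt n⟩ with hadef
  have hmap : PowerSeries.map A.subtype (th^[r] (PowerSeries.mk a)) =
      th^[r] (qExpansion 1 (f : ℍ → ℂ)) := by
    ext n
    rw [PowerSeries.coeff_map, coeff_th_iter, coeff_th_iter, PowerSeries.coeff_mk, map_mul,
      map_pow, map_natCast]
    rfl
  have hG : MvPolynomial.aeval ![toC P2, toC Q4, toC R6, toC D12] (GG w c) =
      qExpansion 1 (f : ℍ → ℂ) := by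
    rw [aeval_GG, ← hcoe, hq]
    rfl
  obtain ⟨Z, hZ⟩ := q_norm hE1 (w + 2 * r) r a K
    (MvPolynomial.aeval ![toC P2, toC Q4, toC R6, toC D12]
      (MvPolynomial.C (12 ^ r : ℂ) * dd^[r] (GG w c))) (by
      rw [map_mul, MvPolynomial.aeval_C, h7, hG, map_mul, hmap, map_pow, map_pow, map_ofNat,
        map_ofNat]) (fun Q R hQ hR => by
      have := hK (PowerSeries ℂ) (toC P2) (toC D12) Q R
      rw [← hQ, ← hR]
      exact this) Fp (r + 1) x z hx hPR
  obtain ⟨H2, hH2, hH2'⟩ := q_side hA r (w + 2 * r) a hfD hD hD0 hD1 x hx _ Z hZ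
  obtain ⟨hp, h40, hj⟩ := hO
  refine v_side hA (w + 2 * r) r K Fp H2 hH2 hH2' (E2s (u i) (v i)) (e4 (u i) (v i))
    (e6 (u i) (v i)) (dl (u i) (v i)) _ h40 (e6_ne hA ⟨hp, h40, hj⟩) hj (disc_rel hp) hne
    (hFv i) (fun Q R hQ hR => ?_)
  have h10 := hK ℂ (E2s (u i) (v i)) (dl (u i) (v i)) Q R
  rw [← h10, map_mul, MvPolynomial.aeval_C, ev_eq, hQ, hR]
  rfl

end

end Pool.Agent.Lib.MP_7c08ba_nt.RZC3
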